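import Pool.Agent.Helper19.KL.N4

set_option autoImplicit false

/-!
Project KL (MP_0b9e0b_ag), explicit bounds: reduction to cones; ranks; uniqueness of points.
-/

namespace Pool.Agent.Helper19.KL

open Pool.Agent.Helper16 Pool.Agent.Helper1.KL

section cone

variable {k : Type} [Field k] {p : ℕ} {n : ℕ} {b : Fin n → k}
  {τ : Fin n → Option (ZMod p)}

/-- All quotients of coordinates are algebraic over `k`. -/
def IsCone (k : Type) [Field k] {n : ℕ} {N : Type} [Field N] [Algebra k N]
    (x : Fin n → Option N) : Prop :=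
  ∀ i j, IsAlgebraic k ((x i).getD 0 / (x j).getD 0)

/-- Reduction to cones. -/
theorem mem_beta (hτ : τ ∈ Idx p n) {W : Submodule ℚ (Key k (Fin n) →₀ ℚ)}
    (hW : rat (YV b τ) (PY b τ) 1 ≤ W)
    (hcone : ∀ (M : Type) [Field M] [Algebra k M] (y : Fin n → Option M), YV b τ M y →
      Algebra.trdeg k (fld k y) = (1 : ℕ) → IsCone k y → Finsupp.single (key k y) 1 ∈ W)
    {N : Type} [Field N] [Algebra k N] {x : Fin n → Option N}
    (hx : YV b τ N x) (hr : Algebra.trdeg k (fld k x) = (1 : ℕ)) :
    Finsupp.single (key k x) 1 ∈ W := by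
  classical
  obtain ⟨i0, hi0⟩ := hτ
  rw [← key_restr]
  have hx' := yv_restr hx
  have hr' := hr
  rw [← trdeg_fld_restr] at hr'
  set y := restr k x with hy
  by_cases halg : IsCone k y
  · exact hcone _ y hx' hr' halg
  set c : Fin n × Fin n → fld k x := fun i => (y i.1).getD 0 / (y i.2).getD 0 with hc
  set M := IntermediateField.adjoin k (Set.range c) with hM
  have hMtr : Algebra.trdeg k M ≠ 0 := by
    intro h0
    apply halg
    intro i j
    exact alg_of_adjoin (S := Set.range c) h0 ⟨(i, j), rfl⟩
  have halgM : ∀ a : fld k x, IsAlgebraic M a := alg_of_one (by exact_mod_cast hr) M hMtr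
  refine move hx' (essFiniteType_fld x) hr hr' (S := Finset.univ)
    (Or.inl fun i _ => Finset.mem_univ i) hW fun v hv hw hwr => ?_
  by_cases hvM : ∀ a ∈ M, a ≠ 0 → v.val (algebraMap (fld k x) (RatFunc (fld k x)) a) = 1
  · left
    exact same_of_triv v hw hx' (Finset.mem_univ i0) (coef_ne hi0)
      (fun a ha => val_one_of_alg v M hvM (halgM a) ha) hv
  · right
    push Not at hvM
    obtain ⟨m, hm, hm0, hm1⟩ := hvM
    -- the residues of the quotients
    have hwi : ∀ i : Fin n × Fin n,
        v.val (algebraMap (fld k x) (RatFunc (fld k x)) (c i)) ≤ 1 ∧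
        (spec v (mv Finset.univ y) i.1).getD 0 / (spec v (mv Finset.univ y) i.2).getD 0 =
          v.res (algebraMap (fld k x) (RatFunc (fld k x)) (c i)) := by
      rintro ⟨i, j⟩
      by_cases hti : τ i = none
      · have h1 : y i = none := yv_inf hx' hti
        have h2 : spec v (mv Finset.univ y) i = none := yv_inf hw hti
        rw [hc]
        simp only [h1, h2, Option.getD_none, zero_div, map_zero, v.res_zero, and_true]
        exact zero_le_one
      by_cases htj : τ j = none
      · have h1 : y j = none := yv_inf hx' htj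
        have h2 : spec v (mv Finset.univ y) j = none := yv_inf hw htj
        rw [hc]
        simp only [h1, h2, Option.getD_none, div_zero, map_zero, v.res_zero, and_true]
        exact zero_le_one
      obtain ⟨a, ha, hyi⟩ := yv_fin hx' hti
      obtain ⟨a', ha', hyj⟩ := yv_fin hx' htj
      obtain ⟨d, hd, hwi⟩ := yv_fin hw hti
      obtain ⟨d', hd', hwj⟩ := yv_fin hw htj
      have h1 := mv_some (S := Finset.univ) hyi
      have h1' := mv_some (S := Finset.univ) hyj
      rw [if_pos (Finset.mem_univ _)] at h1 h1'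
      obtain ⟨h2, h3⟩ := spec_some v h1 (by rw [hwi]; exact Option.some_ne_none _)
      obtain ⟨h2', h3'⟩ := spec_some v h1' (by rw [hwj]; exact Option.some_ne_none _)
      have h4 : v.val (algebraMap (fld k x) (RatFunc (fld k x)) a' * (1 + RatFunc.X)) = 1 := by
        refine val_eq_one v h2' ?_
        rw [h3'] at hwj
        rw [Option.some.inj hwj]
        exact hd'
      obtain ⟨h5, h6⟩ := res_inv v h4
      have h7 : algebraMap (fld k x) (RatFunc (fld k x)) (c (i, j)) =
          algebraMap (fld k x) (RatFunc (fld k x)) a * (1 + RatFunc.X) *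
            (algebraMap (fld k x) (RatFunc (fld k x)) a' * (1 + RatFunc.X))⁻¹ := by
        have h8 : c (i, j) = a / a' := by
          rw [hc]
          simp only [hyi, hyj, Option.getD_some]
        rw [h8, map_div₀, mul_inv]
        have := one_add_X_ne (N := fld k x)
        field_simp
      rw [h7]
      have h9 : algebraMap (fld k x) (RatFunc (fld k x)) a * (1 + RatFunc.X) *
          (algebraMap (fld k x) (RatFunc (fld k x)) a' * (1 + RatFunc.X))⁻¹ ∈ v.ring :=
        mul_mem h2 h5
      refine ⟨h9, ?_⟩
      simp only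
      rw [v.res_mul h2 h5, h6, h3, h3']
      rfl
    have h1 := HC.abh_adjoin (k₀ := k) v (M := M) (s := 0) (by
        have h2 : Algebra.trdeg k M ≤ Algebra.trdeg k (fld k x) :=
          HC.trdeg_le_of_inj M.val Subtype.val_injective
        rw [hr] at h2
        simpa using h2) ⟨⟨m, hm⟩, fun h => hm0 (congrArg Subtype.val h), hm1⟩
      (fun i : Fin n × Fin n =>
        (⟨c i, IntermediateField.subset_adjoin k _ ⟨i, rfl⟩⟩ : M)) (fun i => (hwi i).1)
    refine hcone _ _ hw hwr fun i j => ?_
    have h2 : Algebra.trdeg k (IntermediateField.adjoin k (Set.range fun i : Fin n × Fin n =>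
        v.res (algebraMap (fld k x) (RatFunc (fld k x)) (c i)))) = 0 := by
      rw [← nonpos_iff_eq_zero]
      exact_mod_cast h1
    refine alg_of_adjoin h2 ⟨(i, j), ?_⟩
    exact (hwi (i, j)).2.symm

end cone

section rank

variable {F σ : Type} [Field F] {V : Var F σ} {P : VarF F σ} {r : ℕ}

theorem rank_le_of {W : Submodule ℚ (Key F σ →₀ ℚ)} (h : cyc V r ≤ rat V P r ⊔ W) :
    Module.rank ℚ (CH V P r) ≤ Module.rank ℚ W := by
  let f : cyc V r →ₗ[ℚ] (Key F σ →₀ ℚ) ⧸ rat V P r := (rat V P r).mkQ.comp (cyc V r).subtype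
  have hker : (rat V P r).submoduleOf (cyc V r) = LinearMap.ker f := by
    ext c
    rw [LinearMap.mem_ker]
    exact (Submodule.Quotient.mk_eq_zero (rat V P r) (x := (c : Key F σ →₀ ℚ))).symm
  have h1 : Module.rank ℚ (CH V P r) = Module.rank ℚ (LinearMap.range f) := by
    unfold CH
    rw [hker]
    exact f.quotKerEquivRange.rank_eq
  have h2 : LinearMap.range f ≤ W.map (rat V P r).mkQ := by
    rintro _ ⟨c, rfl⟩
    obtain ⟨a, ha, w, hw, haw⟩ := Submodule.mem_sup.1 (h c.2)
    refine ⟨w, hw, ?_⟩
    change (rat V P r).mkQ w = (rat V P r).mkQ c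
    rw [← haw, map_add]
    have : (rat V P r).mkQ a = 0 := (Submodule.Quotient.mk_eq_zero _).2 ha
    rw [this, zero_add]
  rw [h1]
  refine (Submodule.rank_mono h2).trans ?_
  exact (rank_map_le _ _)

theorem cyc_le {W : Submodule ℚ (Key F σ →₀ ℚ)}
    (h : ∀ (N : Type) [Field N] [Algebra F N] (x : σ → Option N), V N x →
      Algebra.trdeg F (fld F x) = r → Finsupp.single (key F x) 1 ∈ W) : cyc V r ≤ W := by
  unfold cyc
  rw [Submodule.span_le]
  rintro c ⟨N, _, _, z, hz, hr, rfl⟩
  exact h N z hz hr

theorem rank_zero_of (h : ∀ (N : Type) [Field N] [Algebra F N] (x : σ → Option N), V N x →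
    Algebra.trdeg F (fld F x) = r → Finsupp.single (key F x) 1 ∈ rat V P r) :
    Module.rank ℚ (CH V P r) = 0 := by
  have h1 := rank_le_of (V := V) (P := P) (r := r) (W := ⊥) (by
    rw [sup_bot_eq]
    exact cyc_le h)
  rw [rank_bot] at h1
  exact nonpos_iff_eq_zero.1 h1

theorem rank_le_one_of (Q : Key F σ) (h : ∀ (N : Type) [Field N] [Algebra F N]
    (x : σ → Option N), V N x → Algebra.trdeg F (fld F x) = r →
    Finsupp.single (key F x) 1 ∈ rat V P r ⊔ Submodule.span ℚ {Finsupp.single Q 1}) :
    Module.rank ℚ (CH V P r) ≤ 1 := by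
  refine (rank_le_of (cyc_le h)).trans ?_
  refine (rank_span_le _).trans ?_
  rw [Cardinal.mk_singleton]

end rank

section unique

variable {k : Type} [Field k] {σ κ N N' : Type} [Field κ] [Algebra k κ] [Field N] [Algebra k N]
  [Field N'] [Algebra k N']

/-- The ideal of a cone depends only on the quotients of the coordinates. -/
theorem key_cone [Algebra.IsAlgebraic k κ] (φ : κ →ₐ[k] N) (φ' : κ →ₐ[k] N') (c : σ → κ)
    {a : N} {a' : N'} (ha : Transcendental k a) (ha' : Transcendental k a')
    {x : σ → Option N} {x' : σ → Option N'}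
    (hx : ∀ m, (x m).getD 0 = φ (c m) * a) (hx' : ∀ m, (x' m).getD 0 = φ' (c m) * a')
    (hn : ∀ m, x m = none ↔ x' m = none) : key k x = key k x' := by
  rw [key_eq_iff]
  refine ⟨hn, fun P => ?_⟩
  have key : ∀ {E : Type} [Field E] [Algebra k E] (ψ : κ →ₐ[k] E) {e : E}, Transcendental k e →
      (MvPolynomial.aeval (fun m => ψ (c m) * e) P = 0 ↔
        MvPolynomial.aeval (fun m => Polynomial.C (c m) * (Polynomial.X : Polynomial κ)) P = 0) := by
    intro E _ _ ψ e he
    let _ : Algebra κ E := ψ.toRingHom.toAlgebra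
    have _ : IsScalarTower k κ E := IsScalarTower.of_algebraMap_eq fun r => (ψ.commutes r).symm
    have he' : Transcendental κ e := he.extendScalars _
    have h1 : MvPolynomial.aeval (fun m => ψ (c m) * e) P = Polynomial.aeval e
        (MvPolynomial.aeval (fun m => Polynomial.C (c m) * (Polynomial.X : Polynomial κ)) P) := by
      have h2 := MvPolynomial.comp_aeval_apply (R := k)
        (fun m => Polynomial.C (c m) * (Polynomial.X : Polynomial κ))
        ((Polynomial.aeval e : Polynomial κ →ₐ[κ] E).restrictScalars k) P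
      rw [AlgHom.restrictScalars_apply] at h2
      rw [h2]
      congr 2
      funext m
      simp only [AlgHom.restrictScalars_apply, map_mul, Polynomial.aeval_C, Polynomial.aeval_X]
      rfl
    rw [h1]
    constructor
    · intro h
      by_contra h3
      exact he' ⟨_, h3, h⟩
    · intro h
      rw [h, map_zero]
  have h1 : (fun j => (x j).getD 0) = fun m => φ (c m) * a := funext hx
  have h2 : (fun j => (x' j).getD 0) = fun m => φ' (c m) * a' := funext hx'
  rw [h1, h2, key φ ha, key φ' ha']

end unique

end Pool.Agent.Helper19.KL
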