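import Pool.Agent.Helper19.KL.Maps

set_option autoImplicit false

/-!
Project KL (MP_0b9e0b_ag), module KL-5: points with given coordinates `x` and given `e`.
-/

namespace Pool.Agent.Helper19.KL

open Pool.Agent.Helper16 Pool.Agent.Helper1.KL

theorem as_separable {L : Type} [Field L] {p : ℕ} [CharP L p] (c : L) :
    (Polynomial.X ^ p - Polynomial.X - Polynomial.C c : Polynomial L).Separable := by
  have h : Polynomial.derivative (Polynomial.X ^ p - Polynomial.X - Polynomial.C c :
      Polynomial L) = -1 := by
    rw [Polynomial.derivative_sub, Polynomial.derivative_sub, Polynomial.derivative_X_pow,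
      Polynomial.derivative_X, Polynomial.derivative_C]
    simp
  unfold Polynomial.Separable
  rw [h]
  exact isCoprime_one_right.neg_right

theorem as_natDegree {L : Type} [Field L] {p : ℕ} (hp : 1 < p) (c : L) :
    (Polynomial.X ^ p - Polynomial.X - Polynomial.C c : Polynomial L).natDegree = p := by
  have h : (Polynomial.X ^ p - Polynomial.X - Polynomial.C c : Polynomial L) =
      Polynomial.X ^ p - (Polynomial.X + Polynomial.C c) := by ring
  rw [h, Polynomial.natDegree_sub_eq_left_of_natDegree_lt, Polynomial.natDegree_X_pow]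
  rw [Polynomial.natDegree_X_pow, Polynomial.natDegree_X_add_C]
  exact hp

/-- Simultaneous solution of equations of Artin and Schreier. -/
theorem exists_as {L : Type} [Field L] {p n : ℕ} [Fact p.Prime] [CharP L p] (c : Fin n → L) :
    ∃ (M : Type) (_ : Field M) (_ : Algebra L M) (_ : FiniteDimensional L M)
      (_ : Algebra.IsSeparable L M) (y : Fin n → M),
      ∀ i, y i ^ p - y i = algebraMap L M (c i) := by
  have hp : 1 < p := (Fact.out : p.Prime).one_lt
  have h1 : ∀ i, ∃ y : SeparableClosure L, y ^ p - y = algebraMap L (SeparableClosure L) (c i) := by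
    intro i
    have h2 := as_separable (p := p) (c i)
    have h3 : (Polynomial.X ^ p - Polynomial.X - Polynomial.C (c i) : Polynomial L).degree ≠ 0 := by
      intro h4
      have h5 := Polynomial.natDegree_eq_of_degree_eq_some (n := 0) h4
      rw [as_natDegree hp] at h5
      omega
    obtain ⟨y, hy⟩ := IsSepClosed.exists_aeval_eq_zero (SeparableClosure L)
      (Polynomial.X ^ p - Polynomial.X - Polynomial.C (c i) : Polynomial L) h3 h2
    refine ⟨y, ?_⟩
    simp only [map_sub, map_pow, Polynomial.aeval_X, Polynomial.aeval_C] at hy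
    exact sub_eq_zero.1 hy
  choose y hy using h1
  let M := IntermediateField.adjoin L (Set.range y)
  have hfin : FiniteDimensional L M := by
    refine IntermediateField.finiteDimensional_adjoin fun x _ => ?_
    exact (Algebra.IsIntegral.isIntegral (R := L) x)
  refine ⟨M, inferInstance, inferInstance, hfin, inferInstance,
    fun i => ⟨y i, IntermediateField.subset_adjoin L _ ⟨i, rfl⟩⟩, fun i => ?_⟩
  apply Subtype.ext
  exact hy i

/-- The solutions of `a ^ p = a`. -/
theorem exists_zcast {N : Type} [Field N] {p : ℕ} [Fact p.Prime] [CharP N p] {a : N}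
    (h : a ^ p - a = 0) : ∃ c : ZMod p, a = c.cast := by
  classical
  let g := ZMod.castHom (dvd_refl p) N
  have hg : Function.Injective g := g.injective
  set P : Polynomial N := Polynomial.X ^ p - Polynomial.X - Polynomial.C 0 with hP
  have hdeg : P.natDegree = p := as_natDegree (Fact.out : p.Prime).one_lt 0
  have hP0 : P ≠ 0 := by
    intro h0
    rw [h0, Polynomial.natDegree_zero] at hdeg
    exact (Fact.out : p.Prime).ne_zero hdeg.symm
  have hroot : ∀ x : N, x ∈ P.roots ↔ x ^ p - x = 0 := by
    intro x
    rw [Polynomial.mem_roots hP0, Polynomial.IsRoot.def, hP]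
    simp
  have hsub : Finset.univ.image g ⊆ P.roots.toFinset := by
    intro x hx
    rw [Finset.mem_image] at hx
    obtain ⟨c, -, rfl⟩ := hx
    rw [Multiset.mem_toFinset, hroot, ← map_pow, ZMod.pow_card, sub_self]
  have hcard : P.roots.toFinset.card ≤ (Finset.univ.image g).card := by
    rw [Finset.card_image_of_injective _ hg, Finset.card_univ, ZMod.card]
    refine (Multiset.toFinset_card_le _).trans ((Polynomial.card_roots' P).trans hdeg.le)
  have heq := Finset.eq_of_subset_of_card_le hsub hcard
  have ha : a ∈ P.roots.toFinset := by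
    rw [Multiset.mem_toFinset, hroot]
    exact h
  rw [← heq, Finset.mem_image] at ha
  obtain ⟨c, -, hc⟩ := ha
  exact ⟨c, hc.symm⟩

/-- KL-5. -/
theorem modLift (k : Type) [Field k] (p : ℕ) [Fact p.Prime] [CharP k p] {n : ℕ} (b : Fin n → k) :
    ModLift k p b := by
  classical
  intro L _ _ I ρ x ε hI hε hx heq
  have hL : CharP L p := charP_of (k := k)
  set t := algebraMap (RatFunc k) L RatFunc.X with ht
  set c : Fin n → L := fun i => t * x i +
    algebraMap (RatFunc k) L (RatFunc.C (b i)) * (x i)⁻¹ with hc
  obtain ⟨M, _, _, hfin, hsep, y, hy⟩ := exists_as (p := p) c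
  let _ : Algebra (RatFunc k) M := ((algebraMap L M).comp (algebraMap (RatFunc k) L)).toAlgebra
  have hst : IsScalarTower (RatFunc k) L M := IsScalarTower.of_algebraMap_eq fun _ => rfl
  have hM : CharP M p := charP_of (k := k)
  -- the difference
  set e' : M := ∑ i ∈ I, (ρ i).cast * y i with he'
  have h1 : e' ^ p - e' = algebraMap L M (ε ^ p - ε) := by
    rw [he', sum_pow_char, ← Finset.sum_sub_distrib, heq, map_add, map_mul, map_sum, map_sum,
      Finset.mul_sum, ← Finset.sum_add_distrib]
    refine Finset.sum_congr rfl fun i _ => ?_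
    rw [mul_pow, cast_pow_p, ← mul_sub, hy i, hc]
    simp only [map_add, map_mul]
    rw [map_zcast]
    ring
  have h2 : (algebraMap L M ε - e') ^ p - (algebraMap L M ε - e') = 0 := by
    rw [sub_pow_char]
    rw [map_sub, map_pow] at h1
    linear_combination -h1
  obtain ⟨d, hd⟩ := exists_zcast (p := p) h2
  -- the shift
  obtain ⟨s, hs⟩ : ∃ s : Fin n → ZMod p, ∑ i ∈ I, ((ρ i).cast : M) * (s i).cast = (d.cast : M) := by
    by_cases hρ : ρ = 0
    · refine ⟨0, ?_⟩
      have h3 : e' = 0 := by
        rw [he', hρ]
        simp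
      rw [← hd, hε hρ, h3, hρ]
      simp
    · obtain ⟨i, hi⟩ : ∃ i, ρ i ≠ 0 := by
        by_contra h
        push Not at h
        exact hρ (funext h)
      have hiI : i ∈ I := by
        by_contra h
        exact hi (hI i h)
      refine ⟨Pi.single i ((ρ i)⁻¹ * d), ?_⟩
      rw [Finset.sum_eq_single i]
      · rw [Pi.single_eq_same]
        have h3 : ((ρ i).cast : M) * (((ρ i)⁻¹ * d : ZMod p).cast) =
            ((ρ i * ((ρ i)⁻¹ * d) : ZMod p).cast : M) :=
          (map_mul (ZMod.castHom (dvd_refl p) M) _ _).symm
        rw [h3, ← mul_assoc, mul_inv_cancel₀ hi, one_mul]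
      · intro j _ hj
        rw [Pi.single_eq_of_ne hj]
        simp
      · intro h
        exact absurd hiI h
  let z : Fin n ⊕ Fin n → Option M := fun j => match j with
    | Sum.inl i => if i ∈ I then some (algebraMap L M (x i)) else none
    | Sum.inr i => if i ∈ I then some (y i + (s i).cast) else none
  refine ⟨M, inferInstance, inferInstance, inferInstance, hst, hfin, hsep, z, ?_, ?_, ?_, ?_⟩
  · intro i
    by_cases hi : i ∈ I
    · refine Or.inr ⟨algebraMap L M (x i), y i + (s i).cast, if_pos hi, if_pos hi, ?_⟩
      rw [add_pow_char, cast_pow_p]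
      have h3 : y i ^ p + ((s i).cast : M) - (y i + (s i).cast) = y i ^ p - y i := by ring
      rw [h3, hy i, hc]
      simp only
      have h4 : algebraMap L M (x i) ≠ 0 := by
        rw [Ne, map_eq_zero]
        exact hx i hi
      rw [IsScalarTower.algebraMap_apply (RatFunc k) L M,
        IsScalarTower.algebraMap_apply (RatFunc k) L M, map_add, map_mul, map_mul, map_inv₀, ← ht]
      field_simp
    · exact Or.inl ⟨if_neg hi, Or.inl (if_neg hi)⟩
  · intro i hi
    refine ⟨if_pos hi, ?_⟩
    change (if i ∈ I then some (y i + (s i).cast) else none) ≠ none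
    rw [if_pos hi]
    exact Option.some_ne_none _
  · intro i hi
    exact if_neg hi
  · have h3 : ∀ i, yc z i = if i ∈ I then y i + (s i).cast else 0 := by
      intro i
      unfold yc
      change (if i ∈ I then some (y i + (s i).cast) else none).getD 0 = _
      by_cases hi : i ∈ I
      · rw [if_pos hi, if_pos hi]
        rfl
      · rw [if_neg hi, if_neg hi]
        rfl
    unfold ec
    have h4 : ∑ i, ((ρ i).cast : M) * yc z i = ∑ i ∈ I, ((ρ i).cast : M) * (y i + (s i).cast) := by
      symm
      rw [← Finset.sum_subset (Finset.subset_univ I)]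
      · refine Finset.sum_congr rfl fun i hi => ?_
        rw [h3, if_pos hi]
      · intro i _ hi
        rw [h3, if_neg hi, mul_zero]
    rw [h4]
    simp_rw [mul_add]
    rw [Finset.sum_add_distrib, hs, ← he', ← hd]
    ring

end Pool.Agent.Helper19.KL
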