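import Pool.Agent.Helper19.KL.Sc

set_option autoImplicit false

/-!
Project KL (MP_0b9e0b_ag), module KL-10: the scaling homotopy, main part.
-/

namespace Pool.Agent.Helper19.KL

open Pool.Agent.Helper16 Pool.Agent.Helper1.KL

variable {k : Type} [Field k] {p : ℕ} [Fact p.Prime] [CharP k p] {n : ℕ} {b : Fin n → k} {r : ℕ}

/-- The equation of the moving point. -/
theorem sc_eq {N : Type} [Field N] [Algebra k N] [Algebra (RatFunc k) N]
    (hb : ∀ i, b i ≠ 0) {I : Finset (Fin n)} {z : Fin n ⊕ Fin n → Option N} {ρ : Fin n → ZMod p}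
    (hz : XV p b N z) (hI : ∀ i ∉ I, ρ i = 0) (hX : Xc ρ z = 0) (hB : Bc b ρ z ≠ 0)
    (κ : RatFunc k →+* RatFunc N) (hκ : κ = RatFunc.C.comp (algebraMap (RatFunc k) N)) :
    (RatFunc.C (ec ρ z) + RatFunc.X) ^ p - (RatFunc.C (ec ρ z) + RatFunc.X) =
      κ RatFunc.X * ∑ i ∈ I, (ρ i).cast * (RatFunc.C (xc z i) * (mu p (Bc b ρ z))⁻¹) +
        ∑ i ∈ I, (ρ i).cast * κ (RatFunc.C (b i)) *
          (RatFunc.C (xc z i) * (mu p (Bc b ρ z))⁻¹)⁻¹ := by
  have hN : CharP N p := charP_of (k := k)
  have hNr : CharP (RatFunc N) p :=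
    charP_of_injective_algebraMap (algebraMap N (RatFunc N)).injective p
  have h1 := ec_eq hz hb ρ
  rw [hX, mul_zero, zero_add] at h1
  rw [add_pow_char]
  have h2 : ∑ i ∈ I, ((ρ i).cast : RatFunc N) * (RatFunc.C (xc z i) * (mu p (Bc b ρ z))⁻¹) =
      RatFunc.C (Xc ρ z) * (mu p (Bc b ρ z))⁻¹ := by
    rw [sum_over hI]
    unfold Xc
    rw [map_sum, Finset.sum_mul]
    refine Finset.sum_congr rfl fun i _ => ?_
    rw [map_mul, map_zcast]
    ring
  have h3 : ∑ i ∈ I, ((ρ i).cast : RatFunc N) * κ (RatFunc.C (b i)) *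
      (RatFunc.C (xc z i) * (mu p (Bc b ρ z))⁻¹)⁻¹ =
      RatFunc.C (Bc b ρ z) * mu p (Bc b ρ z) := by
    simp_rw [mul_assoc]
    rw [sum_over hI]
    have h30 : RatFunc.C (Bc b ρ z) = ∑ i, RatFunc.C ((ρ i).cast *
        algebraMap (RatFunc k) N (RatFunc.C (b i)) * (xc z i)⁻¹) := by
      unfold Bc
      rw [map_sum]
    rw [h30, Finset.sum_mul]
    refine Finset.sum_congr rfl fun i _ => ?_
    rw [map_mul, map_mul, map_zcast, map_inv₀, mul_inv, inv_inv, hκ]
    simp only [RingHom.comp_apply]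
    ring
  rw [h2, h3, hX, map_zero, zero_mul, mul_zero, zero_add]
  have h4 : RatFunc.C (Bc b ρ z) * mu p (Bc b ρ z) =
      RatFunc.C (Bc b ρ z) + (RatFunc.X ^ p - RatFunc.X) := by
    unfold mu
    have h5 : RatFunc.C (Bc b ρ z) * RatFunc.C (Bc b ρ z)⁻¹ = 1 := by
      rw [← map_mul, mul_inv_cancel₀ hB, map_one]
    calc RatFunc.C (Bc b ρ z) * (1 + (RatFunc.X ^ p - RatFunc.X) * RatFunc.C (Bc b ρ z)⁻¹)
        = RatFunc.C (Bc b ρ z) + (RatFunc.X ^ p - RatFunc.X) *
          (RatFunc.C (Bc b ρ z) * RatFunc.C (Bc b ρ z)⁻¹) := by ring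
      _ = _ := by rw [h5, mul_one]
  rw [h4, ← h1, map_sub, map_pow]
  ring

/-- The property of the limit points which appear in KL-10. -/
abbrev ScP (b : Fin n → k) (r : ℕ) (ρ : Fin n → ZMod p) : Prp k n :=
  fun _ _ _ _ z => Xc ρ z = 0 ∧ (Bc b ρ z = 0 ∨ Helper1.KL.Con (RatFunc k) r z)

omit [CharP k p] in
/-- The residues of the ratios. -/
theorem con_limit {N M : Type} [Field N] [Algebra (RatFunc k) N] [Field M] [Algebra (RatFunc k) M]
    {I : Finset (Fin n)} {z : Fin n ⊕ Fin n → Option N} (j : RatFunc N →+* M)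
    (hj : algebraMap (RatFunc k) M = j.comp (RatFunc.C.comp (algebraMap (RatFunc k) N)))
    (htr : Algebra.trdeg (RatFunc k) N = r) (hinf : ∀ i ∉ I, xc z i = 0) {B : N}
    (v : Place (RatFunc k) M) {w : Fin n ⊕ Fin n → Option v.resField}
    (h1 : ∀ i ∈ I, v.val (j (RatFunc.C (xc z i) * (mu p B)⁻¹)) = 1 ∧
      xc w i = v.res (j (RatFunc.C (xc z i) * (mu p B)⁻¹)))
    (h2 : ∀ i ∉ I, xc w i = 0) (hv : ∃ m : N, m ≠ 0 ∧ v.val (j (RatFunc.C m)) ≠ 1) :
    Helper1.KL.Con (RatFunc k) r w := by
  let _ : Algebra N M := (j.comp RatFunc.C).toAlgebra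
  have hNM : ∀ a : N, algebraMap N M a = j (RatFunc.C a) := fun _ => rfl
  have hst : IsScalarTower (RatFunc k) N M := IsScalarTower.of_algebraMap_eq fun a => by
    rw [hj, hNM]
    rfl
  -- the dimension is not zero
  have hr : r ≠ 0 := by
    rintro rfl
    obtain ⟨m, hm0, hm⟩ := hv
    apply hm
    rw [← hNM]
    refine Place.val_eq_one_of_algebraic v ?_ ?_
    · have h3 : Algebra.IsAlgebraic (RatFunc k) N := by
        rw [← trdeg_eq_zero_iff]
        exact_mod_cast htr
      exact (h3.isAlgebraic m).algebraMap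
    · rw [Ne, map_eq_zero_iff _ (algebraMap N M).injective]
      exact hm0
  obtain ⟨s, rfl⟩ : ∃ s, r = s + 1 := ⟨r - 1, by omega⟩
  have hmu : j (mu p B)⁻¹ ≠ 0 := by
    rw [Ne, map_eq_zero_iff _ j.injective]
    exact inv_ne_zero (mu_ne (Fact.out : p.Prime).ne_zero B)
  have h3 : ∀ i i', v.val (algebraMap N M (xc z i / xc z i')) ≤ 1 ∧
      xc w i / xc w i' = v.res (algebraMap N M (xc z i / xc z i')) := by
    intro i i'
    by_cases hi : i ∈ I
    · by_cases hi' : i' ∈ I
      · have h4 : algebraMap N M (xc z i / xc z i') =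
            j (RatFunc.C (xc z i) * (mu p B)⁻¹) * (j (RatFunc.C (xc z i') * (mu p B)⁻¹))⁻¹ := by
          rw [hNM, map_div₀, map_div₀, map_mul, map_mul]
          generalize j (mu p B)⁻¹ = m at hmu
          rw [mul_inv, div_eq_mul_inv]
          field_simp
        have h5 := res_inv v (h1 i' hi').1
        rw [h4]
        refine ⟨?_, ?_⟩
        · rw [map_mul, (h1 i hi).1, one_mul]
          exact h5.1
        · rw [v.res_mul (h1 i hi).1.le h5.1, h5.2, (h1 i hi).2, (h1 i' hi').2, div_eq_mul_inv]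
      · rw [hinf i' hi', h2 i' hi', div_zero, div_zero, map_zero, map_zero, v.res_zero]
        exact ⟨zero_le_one, rfl⟩
    · rw [hinf i hi, h2 i hi, zero_div, zero_div, map_zero, map_zero, v.res_zero]
      exact ⟨zero_le_one, rfl⟩
  have h4 := Pool.Agent.HC.abh_adjoin (k₀ := RatFunc k) v (M := N) (s := s)
    (by rw [htr]; push_cast; exact le_refl _) (by
      obtain ⟨m, hm0, hm⟩ := hv
      exact ⟨m, hm0, hm⟩)
    (fun c : Fin n × Fin n => xc z c.1 / xc z c.2) (fun c => (h3 c.1 c.2).1)
  have h5 : {a | ∃ i i', a = xc w i / xc w i'} =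
      Set.range fun c : Fin n × Fin n => v.res (algebraMap N M (xc z c.1 / xc z c.2)) := by
    ext a
    constructor
    · rintro ⟨i, i', rfl⟩
      exact ⟨(i, i'), ((h3 i i').2).symm⟩
    · rintro ⟨⟨i, i'⟩, rfl⟩
      exact ⟨i, i', (h3 i i').2.symm⟩
  unfold Helper1.KL.Con ratf
  rw [h5]
  push_cast
  exact add_le_add_left h4 1

omit [CharP k p] in
/-- The reduced point of the limit, if the place is trivial on `N`. -/
theorem key_limit {N M : Type} [Field N] [Algebra (RatFunc k) N] [Field M] [Algebra (RatFunc k) M]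
    {I : Finset (Fin n)} {z : Fin n ⊕ Fin n → Option N} (j : RatFunc N →+* M)
    (hj : algebraMap (RatFunc k) M = j.comp (RatFunc.C.comp (algebraMap (RatFunc k) N)))
    (hz : ∀ i ∈ I, z (Sum.inl i) = some (xc z i)) (hinf : ∀ i ∉ I, z (Sum.inl i) = none) {B : N}
    {ρ : Fin n → ZMod p}
    (v : Place (RatFunc k) M) {w : Fin n ⊕ Fin n → Option v.resField}
    (h1 : ∀ i ∈ I, w (Sum.inl i) = some (v.res (j (RatFunc.C (xc z i) * (mu p B)⁻¹))))
    (h2 : ∀ i ∉ I, w (Sum.inl i) = none)
    (h3 : ec ρ w = v.res (j (RatFunc.C (ec ρ z) + RatFunc.X)))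
    (hv : ∀ m : N, m ≠ 0 → v.val (j (RatFunc.C m)) = 1) (hX : v.val (j RatFunc.X) < 1) :
    key (RatFunc k) (red ρ w) = key (RatFunc k) (red ρ z) := by
  have hmem : ∀ m : N, j (RatFunc.C m) ∈ v.ring := by
    intro m
    by_cases hm : m = 0
    · subst hm
      rw [map_zero, map_zero]
      exact zero_mem _
    · exact (hv m hm).le
  let θ : N →ₐ[RatFunc k] v.resField :=
    { toFun := fun a => v.res (j (RatFunc.C a))
      map_one' := by
        change v.res (j (RatFunc.C 1)) = 1
        rw [map_one, map_one, v.res_one]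
      map_mul' := fun a b => by
        change v.res (j (RatFunc.C (a * b))) = _
        rw [map_mul, map_mul, v.res_mul (hmem a) (hmem b)]
      map_zero' := by
        change v.res (j (RatFunc.C 0)) = 0
        rw [map_zero, map_zero, v.res_zero]
      map_add' := fun a b => by
        change v.res (j (RatFunc.C (a + b))) = _
        rw [map_add, map_add, v.res_add (hmem a) (hmem b)]
      commutes' := fun a => by
        rw [← v.res_algebraMap, hj]
        rfl }
  have hθ : ∀ a, θ a = v.res (j (RatFunc.C a)) := fun _ => rfl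
  have hXm : j RatFunc.X ∈ v.ring := hX.le
  have hX0 : v.res (j RatFunc.X) = 0 := (v.res_eq_zero_iff hXm).2 hX
  have hp : p ≠ 0 := (Fact.out : p.Prime).ne_zero
  -- the residue of the scaling factor
  have hmu : j (mu p B) ∈ v.ring ∧ v.res (j (mu p B)) = 1 := by
    have h4 : j (mu p B) = 1 + (j RatFunc.X ^ p - j RatFunc.X) * j (RatFunc.C B⁻¹) := by
      unfold mu
      simp only [map_add, map_one, map_mul, map_sub, map_pow]
    have h5 : j RatFunc.X ^ p - j RatFunc.X ∈ v.ring := sub_mem (pow_mem hXm p) hXm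
    have h6 : (j RatFunc.X ^ p - j RatFunc.X) * j (RatFunc.C B⁻¹) ∈ v.ring :=
      mul_mem h5 (hmem _)
    rw [h4]
    refine ⟨add_mem (one_mem _) h6, ?_⟩
    rw [v.res_add (one_mem _) h6, v.res_one, v.res_mul h5 (hmem _),
      v.res_sub (pow_mem hXm p) hXm, v.res_pow hXm, hX0, zero_pow hp, sub_zero, zero_mul, add_zero]
  have hmu1 : v.val (j (mu p B)) = 1 := val_eq_one v hmu.1 (by rw [hmu.2]; exact one_ne_zero)
  have hmui := res_inv v hmu1
  have h4 : red ρ w = fun jj => (red ρ z jj).map θ := by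
    funext jj
    cases jj with
    | inl i =>
      change w (Sum.inl i) = (z (Sum.inl i)).map θ
      by_cases hi : i ∈ I
      · rw [h1 i hi, hz i hi]
        change _ = some (θ (xc z i))
        rw [hθ, map_mul, map_inv₀, v.res_mul (hmem _) hmui.1, hmui.2, hmu.2, inv_one, mul_one]
      · rw [h2 i hi, hinf i hi]
        rfl
    | inr _ =>
      change some (ec ρ w) = some (θ (ec ρ z))
      rw [h3, hθ, map_add, v.res_add (hmem _) hXm, hX0, add_zero]
  rw [h4, key_map']

theorem sc_main (hb : ∀ i, b i ≠ 0) (hHom : ModHom k p b r) {N : Type} [Field N] [Algebra k N]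
    [Algebra (RatFunc k) N] [IsScalarTower k (RatFunc k) N]
    (hfin : Algebra.EssFiniteType (RatFunc k) N) (htr : Algebra.trdeg (RatFunc k) N = r)
    {I : Finset (Fin n)} {z : Fin n ⊕ Fin n → Option N} {ρ : Fin n → ZMod p}
    (hg : Good p b r I z) (hI : ∀ i ∉ I, ρ i = 0) (hρ : ρ ≠ 0) (hX : Xc ρ z = 0)
    (hB : Bc b ρ z ≠ 0) :
    SS p b r ρ z ∈ GG p b r I.card ⊔ SP p b r I ρ (ScP b r ρ) := by
  have hp : p ≠ 0 := (Fact.out : p.Prime).ne_zero
  have hzI : ∀ i ∈ I, z (Sum.inl i) = some (xc z i) ∧ xc z i ≠ 0 := by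
    intro i hi
    rcases xv_cases hg.mem hb i with ⟨h1, _⟩ | ⟨_, h1, h2, _⟩
    · exact absurd h1 (hg.aff i hi)
    · exact ⟨h1, h2⟩
  set B := Bc b ρ z with hBdef
  have hmu := mu_ne hp B
  refine hHom N I z ρ (RatFunc.C.comp (algebraMap (RatFunc k) N))
    (fun i => RatFunc.C (xc z i) * (mu p B)⁻¹) (RatFunc.C (ec ρ z) + RatFunc.X) _ hfin htr hg hI
    (fun h => absurd h hρ) ?_ ?_ ?_ (at0_CX _) ?_ ?_
  · intro a
    rw [RingHom.comp_apply]
    congr 1
    exact (IsScalarTower.algebraMap_apply k (RatFunc k) N a).symm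
  · exact at0_C _
  · intro i hi
    refine ⟨mul_ne_zero ?_ (inv_ne_zero hmu), at0_mu hp _ _⟩
    exact (map_ne_zero_iff _ RatFunc.C_injective).2 (hzI i hi).2
  · exact sc_eq hb hg.mem hI hX hB _ rfl
  · intro M _ _ j z' v hj hMfin hMtr halg hz' hz1 hz2 hec hord hw hwd
    have hjX : j RatFunc.X ≠ 0 := by
      rw [Ne, map_eq_zero_iff _ j.injective]
      exact RatFunc.X_ne_zero
    by_cases haff : ∀ i ∈ I, spec v z' (Sum.inr i) ≠ none
    · -- all coordinates stay affine
      obtain ⟨hl1, hl2, hl3⟩ := limit hb hz' (fun i hi => hz1 i hi) hz2 v hw haff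
      have hwgood : Good p b r I (spec v z') :=
        ⟨hw, haff, fun i hi => spec_none v (hz2 i hi), hwd⟩
      have hXw : Xc ρ (spec v z') = 0 := by
        have h1 : Xc ρ (spec v z') = v.res (∑ i ∈ I, (ρ i).cast * j (RatFunc.C (xc z i) *
            (mu p B)⁻¹)) := by
          rw [(res_sum v I _ fun i hi => mul_mem (res_zcast v (ρ i)).1 (hl1 i hi).1.le).2]
          unfold Xc
          rw [← sum_over hI]
          refine Finset.sum_congr rfl fun i hi => ?_
          rw [v.res_mul (res_zcast v (ρ i)).1 (hl1 i hi).1.le, (res_zcast v (ρ i)).2,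
            (hl1 i hi).2.2]
        have h2 : ∑ i ∈ I, ((ρ i).cast : M) * j (RatFunc.C (xc z i) * (mu p B)⁻¹) = 0 := by
          have h3 : ∑ i ∈ I, ((ρ i).cast : M) * j (RatFunc.C (xc z i) * (mu p B)⁻¹) =
              j (RatFunc.C (Xc ρ z) * (mu p B)⁻¹) := by
            rw [sum_over hI]
            unfold Xc
            rw [map_sum, Finset.sum_mul, map_sum]
            refine Finset.sum_congr rfl fun i _ => ?_
            have h4 : RatFunc.C ((ρ i).cast * xc z i) = (ρ i).cast * RatFunc.C (xc z i) := by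
              rw [map_mul, map_zcast]
            rw [h4, mul_assoc, map_mul j ((ρ i).cast : RatFunc N), map_zcast j]
          rw [h3, hX, map_zero, zero_mul, map_zero]
        rw [h1, h2, v.res_zero]
      by_cases hv : ∀ m : N, m ≠ 0 → v.val (j (RatFunc.C m)) = 1
      · -- the place is trivial on `N`
        rcases lt_or_gt_of_ne hord with hneg | hpos
        · -- a pole of `s`: impossible
          exfalso
          obtain ⟨i, hi⟩ : ∃ i, ρ i ≠ 0 := by
            by_contra h
            push Not at h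
            exact hρ (funext h)
          have hiI : i ∈ I := by
            by_contra h
            exact hi (hI i h)
          have h1 := (hl1 i hiI).1
          rw [map_mul, map_mul, hv _ (hzI i hiI).2, one_mul, map_inv₀, map_inv₀, inv_eq_one] at h1
          have h2 : j RatFunc.X ^ p - j RatFunc.X = (j (mu p B) - 1) * j (RatFunc.C B) := by
            have h3 : j (RatFunc.C B⁻¹) * j (RatFunc.C B) = 1 := by
              rw [← map_mul, ← map_mul, inv_mul_cancel₀ hB, map_one, map_one]
            unfold mu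
            simp only [map_add, map_one, map_mul, map_sub, map_pow]
            rw [add_sub_cancel_left, mul_assoc, h3, mul_one]
          have h3 : j RatFunc.X ∈ v.ring := by
            refine mem_ring_of_pow v (Fact.out : p.Prime).one_lt (p := p) ?_
            rw [h2]
            exact mul_mem (sub_mem h1.le (one_mem _)) (hv _ hB).le
          have h4 := (v.ord_neg_iff hjX).1 hneg
          exact absurd h3 (not_le.2 h4)
        · right
          refine ⟨hpos, ?_⟩
          refine key_limit (B := B) j hj (fun i hi => (hzI i hi).1) hg.inf v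
            (fun i hi => (hl1 i hi).2.1) (fun i hi => spec_none v (hz2 i hi)) ?_ hv
            ((v.ord_pos_iff hjX).1 hpos)
          rw [(hl3 ρ).2, hec]
      · -- the place is not trivial on `N`
        left
        push Not at hv
        have hcon := con_limit (B := B) j hj htr (fun i hi => by
          unfold xc
          rw [hg.inf i hi]
          rfl) v (fun i hi => ⟨(hl1 i hi).1, (hl1 i hi).2.2⟩) hl2 hv
        refine Submodule.mem_sup_right ?_
        let _ : Algebra k v.resField :=
          ((algebraMap (RatFunc k) v.resField).comp (algebraMap k (RatFunc k))).toAlgebra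
        have hst : IsScalarTower k (RatFunc k) v.resField :=
          IsScalarTower.of_algebraMap_eq fun _ => rfl
        exact Submodule.subset_span ⟨v.resField, inferInstance, inferInstance, inferInstance, hst,
          spec v z', hwgood, ⟨hXw, Or.inr hcon⟩, rfl⟩
    · -- a coordinate becomes infinite
      left
      refine Submodule.mem_sup_left ?_
      push Not at haff
      obtain ⟨i0, hi0, hi1⟩ := haff
      refine SH_mem_GG _ hw hwd ?_
      refine Finset.card_lt_card ⟨?_, ?_⟩
      · intro i hi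
        rw [mem_aff] at hi
        by_contra hiI
        apply hi
        rcases xv_cases hw hb i with ⟨h1, _⟩ | ⟨_, h1, _⟩
        · exact h1
        · rw [spec_none v (hz2 i hiI)] at h1
          exact absurd h1.symm (Option.some_ne_none _)
      · intro hsub
        have := hsub hi0
        rw [mem_aff] at this
        exact this hi1

/-- KL-10: the scaling homotopy. -/
theorem modSc (hb : ∀ i, b i ≠ 0) (hHom : ModHom k p b r) : ModSc k p b r := by
  intro N _ _ _ _ I z ρ hg hI hρ hX hB
  obtain ⟨z0, hz0⟩ := exists_own (F := RatFunc k) z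
  have h1 : Good p b r I (fun jj => (z0 jj).map (fld (RatFunc k) z).val) := by rw [hz0]; exact hg
  have h2 := good_of_map (fld (RatFunc k) z).val h1
  have h3 : Xc ρ z0 = 0 := by
    have := Xc_map (fld (RatFunc k) z).val z0 ρ
    rw [hz0, hX] at this
    exact (map_eq_zero_iff _ (fld (RatFunc k) z).val.injective).1 this.symm
  have h4 : Bc b ρ z0 ≠ 0 := by
    intro h
    have := Bc_map (b := b) (fld (RatFunc k) z).val z0 ρ
    rw [hz0, h, map_zero] at this
    exact hB this
  have h5 : SS p b r ρ z = SS p b r ρ z0 := by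
    conv_lhs => rw [← hz0]
    exact SH_map _ _ _
  rw [h5]
  exact sc_main hb hHom (essFinite_fld z) hg.dim h2 hI hρ h3 h4

end Pool.Agent.Helper19.KL
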