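import Pool.Agent.Helper19.KL.N6

set_option autoImplicit false

/-!
Project KL (MP_0b9e0b_ag), explicit bounds: three indices, the relation given by the divisor of
the function `∑ ρ_i b_i / x_i`.
-/

namespace Pool.Agent.Helper19.KL

open Pool.Agent.Helper16 Pool.Agent.Helper1.KL

section at0

variable {N : Type} [Field N]

theorem at0_add {f g : RatFunc N} {a c : N} (hf : At0 f a) (hg : At0 g c) :
    At0 (f + g) (a + c) := by
  obtain ⟨P, Q, hQ, hP, rfl⟩ := hf
  obtain ⟨P', Q', hQ', hP', rfl⟩ := hg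
  have h1 : algebraMap (Polynomial N) (RatFunc N) Q ≠ 0 := by
    rw [Ne, map_eq_zero_iff _ (RatFunc.algebraMap_injective N)]
    rintro rfl
    simp at hQ
  have h2 : algebraMap (Polynomial N) (RatFunc N) Q' ≠ 0 := by
    rw [Ne, map_eq_zero_iff _ (RatFunc.algebraMap_injective N)]
    rintro rfl
    simp at hQ'
  refine ⟨P * Q' + P' * Q, Q * Q', by simp [hQ, hQ'], by simp [hQ, hQ', hP, hP'], ?_⟩
  rw [map_add, map_mul, map_mul, map_mul, div_add_div _ _ h1 h2]
  ring

theorem at0_mul {f g : RatFunc N} {a c : N} (hf : At0 f a) (hg : At0 g c) :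
    At0 (f * g) (a * c) := by
  obtain ⟨P, Q, hQ, hP, rfl⟩ := hf
  obtain ⟨P', Q', hQ', hP', rfl⟩ := hg
  refine ⟨P * P', Q * Q', by simp [hQ, hQ'], by simp [hP, hP'], ?_⟩
  rw [map_mul, map_mul, div_mul_div_comm]

theorem at0_inv {f : RatFunc N} {a : N} (ha : a ≠ 0) (hf : At0 f a) : At0 f⁻¹ a⁻¹ := by
  obtain ⟨P, Q, hQ, hP, rfl⟩ := hf
  refine ⟨Polynomial.C a⁻¹ * Q, Polynomial.C a⁻¹ * P, ?_, by simp [hQ], ?_⟩
  · rw [Polynomial.eval_mul, Polynomial.eval_C, hP, inv_mul_cancel₀ ha]
  · rw [map_mul, map_mul, inv_div]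
    have h3 : algebraMap (Polynomial N) (RatFunc N) (Polynomial.C a⁻¹) ≠ 0 := by
      rw [Ne, map_eq_zero_iff _ (RatFunc.algebraMap_injective N), Polynomial.C_eq_zero]
      exact inv_ne_zero ha
    rw [mul_div_mul_left _ _ h3]

theorem at0_const (a : N) : At0 (algebraMap N (RatFunc N) a) a :=
  ⟨Polynomial.C a, 1, by simp, by simp, by rw [RatFunc.algebraMap_C, map_one, div_one]; rfl⟩

theorem at0_X : At0 (RatFunc.X : RatFunc N) 0 :=
  ⟨Polynomial.X, 1, by simp, by simp, by rw [RatFunc.algebraMap_X, map_one, div_one]⟩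

theorem at0_sum {ι : Type} (s : Finset ι) (f : ι → RatFunc N) (a : ι → N)
    (h : ∀ i ∈ s, At0 (f i) (a i)) : At0 (∑ i ∈ s, f i) (∑ i ∈ s, a i) := by
  classical
  induction s using Finset.induction_on with
  | empty =>
    rw [Finset.sum_empty, Finset.sum_empty]
    have := at0_const (0 : N)
    rwa [map_zero] at this
  | insert i s hi ih =>
    rw [Finset.sum_insert hi, Finset.sum_insert hi]
    exact at0_add (h i (Finset.mem_insert_self i s))
      (ih fun j hj => h j (Finset.mem_insert_of_mem hj))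

end at0

section divB

variable {k : Type} [Field k] {p : ℕ} {n : ℕ} {b : Fin n → k} {τ : Fin n → Option (ZMod p)}

/-- At a place whose limit point is in `YV`, the function `∑ ρ_i b_i / x_i` vanishes. -/
theorem res_Bfun {M : Type} [Field M] [Algebra k M] (v : Place k M) {z : Fin n → Option M}
    (hz : ∀ i, τ i = none → z i = none) (hw : YV b τ v.resField (spec v z)) :
    Bfun b τ z ∈ v.ring ∧ v.res (Bfun b τ z) = 0 := by
  have h1 : ∀ i, ((z i).getD 0)⁻¹ ∈ v.ring ∧
      v.res ((z i).getD 0)⁻¹ = ((spec v z i).getD 0)⁻¹ := by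
    intro i
    by_cases hi : τ i = none
    · rw [hz i hi, yv_inf hw hi]
      simp only [Option.getD_none, inv_zero]
      exact ⟨zero_mem _, v.res_zero⟩
    · obtain ⟨c, hc, hwi⟩ := yv_fin hw hi
      cases hzi : z i with
      | none =>
        rw [spec_none v hzi] at hwi
        exact absurd hwi.symm (Option.some_ne_none _)
      | some a =>
        obtain ⟨h2, h3⟩ := spec_some v hzi (by rw [hwi]; exact Option.some_ne_none _)
        have h4 : v.res a = c := by
          rw [h3] at hwi
          exact Option.some.inj hwi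
        have h5 := res_inv v (val_eq_one v h2 (by rw [h4]; exact hc))
        rw [h3]
        simp only [Option.getD_some]
        exact h5
  have hnat : ∀ m : ℕ, ((m : ℕ) : M) ∈ v.ring ∧ v.res (m : M) = (m : v.resField) :=
    fun m => ⟨natCast_mem _ _, res_natCast v m⟩
  have halg : ∀ a : k, algebraMap k M a ∈ v.ring ∧
      v.res (algebraMap k M a) = algebraMap k v.resField a :=
    fun a => ⟨v.ring.algebraMap_mem a, v.res_algebraMap a⟩
  have h2 := res_sum v Finset.univ
    (fun i => (coef τ i : M) * algebraMap k M (b i) * ((z i).getD 0)⁻¹)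
    fun i _ => mul_mem (mul_mem (hnat _).1 (halg _).1) (h1 i).1
  refine ⟨h2.1, ?_⟩
  unfold Bfun
  rw [h2.2]
  have h3 := hw.2
  unfold Bfun at h3
  refine Eq.trans ?_ h3
  refine Finset.sum_congr rfl fun i _ => ?_
  rw [v.res_mul (mul_mem (hnat _).1 (halg _).1) (h1 i).1, v.res_mul (hnat _).1 (halg _).1,
    (hnat _).2, (halg _).2, (h1 i).2]

/-- How the divisor of `∑ ρ_i b_i / x_i` on a moving point of `AV` is used. -/
theorem use_divB {r : ℕ} {N : Type} [Field N] [Algebra k N] {x : Fin n → Option N}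
    (hx : YV b τ N x) (hN : Algebra.EssFiniteType k N) (htr : Algebra.trdeg k N = r)
    (hxr : Algebra.trdeg k (fld k x) = r) {W : Submodule ℚ (Key k (Fin n) →₀ ℚ)}
    (hW : rat (YV b τ) (PY b τ) r ≤ W) {z' : Fin n → Option (RatFunc N)}
    (hz' : AV (k := k) τ (RatFunc N) z') (hf : Bfun b τ z' ≠ 0)
    (hz1 : ∀ j, x j = none → z' j = none)
    (hz2 : ∀ j a, x j = some a → ∃ g, z' j = some g ∧ At0 g a)
    (h : ∀ (M : Type) [Field M] [Algebra k M] (y : Fin n → Option M), YV b τ M y →
      Algebra.trdeg k (fld k y) = r → key k y = key k x ∨ Finsupp.single (key k y) 1 ∈ W) :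
    Finsupp.single (key k x) 1 ∈ W := by
  have hf0 : At0 (Bfun b τ z') 0 := by
    rw [← hx.2]
    unfold Bfun
    refine at0_sum _ _ _ fun i _ => ?_
    refine at0_mul (at0_mul ?_ ?_) ?_
    · have := at0_const ((coef τ i : N))
      rwa [map_natCast] at this
    · have := at0_const (algebraMap k N (b i))
      rwa [← IsScalarTower.algebraMap_apply] at this
    · cases hxi : x i with
      | none =>
        rw [hz1 i hxi]
        simp only [Option.getD_none, inv_zero]
        have := at0_const (0 : N)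
        rwa [map_zero] at this
      | some a =>
        obtain ⟨g, hg, hg0⟩ := hz2 i a hxi
        rw [hg]
        simp only [Option.getD_some]
        refine at0_inv ?_ hg0
        have hi : τ i ≠ none := by
          intro h0
          rw [yv_inf hx h0] at hxi
          exact absurd hxi.symm (Option.some_ne_none _)
        obtain ⟨a', ha', hxi'⟩ := yv_fin hx hi
        rw [hxi] at hxi'
        rwa [Option.some.inj hxi']
  refine homK (V := YV b τ) (P := PY b τ) hN htr hxr (fun N' _ _ φ => yv_map hx φ)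
    (z' := z') (f := Bfun b τ z') (Or.inr ⟨hz', rfl⟩) hf hz1 hz2 hf0 hW fun v hv hw hwr => ?_
  rcases h _ _ hw hwr with h1 | h1
  · left
    refine ⟨h1, ?_⟩
    obtain ⟨h2, h3⟩ := res_Bfun v hz'.1 hw
    exact (v.ord_pos_iff hf).2 ((v.res_eq_zero_iff h2).1 h3)
  · exact Or.inr h1

end divB

end Pool.Agent.Helper19.KL
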