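import Pool.Agent.Helper19.KL.N11
import Pool.Agent.Helper73.KL.Restr
import Pool.Agent.HC.GaussVal
import Pool.Agent.Helper16.FF9

set_option autoImplicit false

/-!
Project KL (MP_0b9e0b_ag), explicit bounds: over a finite field, the relation given by a cone over
a curve and a function with a single zero.
-/

namespace Pool.Agent.Helper19.KL

open Pool.Agent.Helper16 Pool.Agent.Helper1.KL

section curve

variable {k : Type} [Field k] {p : ℕ} {n : ℕ} {b : Fin n → k}
  {τ : Fin n → Option (ZMod p)} {M : Type} [Field M] [Algebra k M]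

/-- The Gauss extension of a place. -/
theorem exists_gauss (w : Place k M) : ∃ v : Place k (RatFunc M),
    (∀ a : M, v.val (algebraMap M (RatFunc M) a) = w.val a) ∧
    v.val (RatFunc.X : RatFunc M) = 1 ∧ Transcendental k (v.res (RatFunc.X : RatFunc M)) := by
  have hM : ∀ a : M, HC.gaussRat w.val (algebraMap M (RatFunc M) a) = w.val a := by
    intro a
    have h1 : algebraMap M (RatFunc M) a =
        algebraMap (Polynomial M) (RatFunc M) (Polynomial.C a) := by
      rw [RatFunc.algebraMap_C]
      rfl
    rw [h1, HC.gaussRat_algebraMap, HC.gv_C]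
  let v : Place k (RatFunc M) := ⟨HC.gaussRat w.val, fun c => by
      obtain ⟨a, ha⟩ := w.surj c
      exact ⟨algebraMap M (RatFunc M) a, by rw [hM, ha]⟩, fun a ha => by
      rw [IsScalarTower.algebraMap_apply k M (RatFunc M), hM]
      exact w.triv a ha⟩
  have hpoly : ∀ P : Polynomial k, P ≠ 0 → v.val (Polynomial.aeval (RatFunc.X : RatFunc M) P) = 1 := by
    intro P hP
    have h1 : Polynomial.aeval (RatFunc.X : RatFunc M) P =
        algebraMap (Polynomial M) (RatFunc M) (P.map (algebraMap k M)) := by
      rw [← RatFunc.algebraMap_X, Polynomial.aeval_algebraMap_apply]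
      congr 1
    rw [h1]
    change HC.gaussRat w.val _ = 1
    rw [HC.gaussRat_algebraMap]
    refine le_antisymm (HC.gv_le _ fun i => ?_) ?_
    · rw [Polynomial.coeff_map]
      exact w.val_algebraMap_le _
    · have h2 := HC.le_gv w.val (P.map (algebraMap k M)) P.natDegree
      rwa [Polynomial.coeff_map, w.triv _ (by simpa using hP)] at h2
  have hX : v.val (RatFunc.X : RatFunc M) = 1 := by
    have h1 := hpoly Polynomial.X Polynomial.X_ne_zero
    rwa [Polynomial.aeval_X] at h1
  refine ⟨v, hM, hX, ?_⟩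
  rintro ⟨P, hP, h0⟩
  have h1 := v.res_aeval (x := (RatFunc.X : RatFunc M)) hX.le P
  rw [h0] at h1
  have h2 := (v.res_eq_zero_iff h1.1).1 h1.2
  rw [hpoly P hP] at h2
  exact lt_irrefl _ h2

variable {N κ : Type} [Field N] [Algebra k N] [Field κ] [Algebra k κ]

/-- The cone over the point `u`. -/
noncomputable def cz (u : Fin n → Option M) : Fin n → Option (RatFunc M) :=
  fun i => (u i).map fun a => algebraMap M (RatFunc M) a * RatFunc.X

theorem cz_some {u : Fin n → Option M} {i : Fin n} {a : M} (h : u i = some a) :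
    cz u i = some (algebraMap M (RatFunc M) a * RatFunc.X) := by
  unfold cz
  rw [h]
  rfl

theorem cz_none {u : Fin n → Option M} {i : Fin n} (h : u i = none) : cz u i = none := by
  unfold cz
  rw [h]
  rfl

theorem exists_resHomK (v : Place k (RatFunc M)) (w : Place k M)
    (hv1 : ∀ a : M, w.val a ≤ 1 ↔ v.val (algebraMap M (RatFunc M) a) ≤ 1)
    (hv2 : ∀ a : M, w.val a < 1 ↔ v.val (algebraMap M (RatFunc M) a) < 1) :
    ∃ ρ : w.resField →ₐ[k] v.resField, ∀ a : M, w.val a ≤ 1 →
      ρ (w.res a) = v.res (algebraMap M (RatFunc M) a) := by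
  obtain ⟨ρ, h1, h2⟩ := v.exists_residue_hom w hv1 hv2
  exact ⟨⟨ρ, fun a => h2 a⟩, h1⟩

/-- The limit point at a place above the given one. -/
theorem cone_limit [Algebra.IsAlgebraic k κ] {u : Fin n → Option M} (w0 : Place k M)
    (hw0 : ∀ i a, u i = some a → w0.val a = 1) (v : Place k (RatFunc M))
    (hv1 : ∀ a : M, w0.val a ≤ 1 ↔ v.val (algebraMap M (RatFunc M) a) ≤ 1)
    (hv2 : ∀ a : M, w0.val a < 1 ↔ v.val (algebraMap M (RatFunc M) a) < 1)
    (hX : v.val (RatFunc.X : RatFunc M) = 1)
    {x : Fin n → Option N} {a0 : N} (ha0 : Transcendental k a0) (φ : κ →ₐ[k] N)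
    (φ' : κ →ₐ[k] w0.resField) (c : Fin n → κ) (hx : ∀ i, (x i).getD 0 = φ (c i) * a0)
    (hu : ∀ i, w0.res ((u i).getD 0) = φ' (c i)) (hn : ∀ i, u i = none ↔ x i = none) :
    ∃ ψ : κ →ₐ[k] v.resField,
      (∀ i, (spec v (cz u) i).getD 0 = ψ (c i) * v.res (RatFunc.X : RatFunc M)) ∧
      (∀ i, spec v (cz u) i = none ↔ u i = none) ∧
      (Transcendental k (v.res (RatFunc.X : RatFunc M)) → key k (spec v (cz u)) = key k x) := by
  obtain ⟨ρ, hρ⟩ := exists_resHomK v w0 hv1 hv2
  have hXr : (RatFunc.X : RatFunc M) ∈ v.ring := hX.le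
  have h1 : ∀ i a, u i = some a → spec v (cz u) i =
      some (ρ (w0.res a) * v.res (RatFunc.X : RatFunc M)) := by
    intro i a ha
    have h2 : w0.val a = 1 := hw0 i a ha
    have h3 : algebraMap M (RatFunc M) a ∈ v.ring := (hv1 a).1 h2.le
    rw [hρ a h2.le, ← v.res_mul h3 hXr]
    unfold spec
    rw [cz_some ha, Option.bind_some, if_pos (mul_mem h3 hXr)]
  have h2 : ∀ i, spec v (cz u) i = none ↔ u i = none := by
    intro i
    cases hi : u i with
    | none => simp [spec_none v (cz_none hi)]
    | some a => simp [h1 i a hi]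
  have h3 : ∀ i, (spec v (cz u) i).getD 0 =
      (ρ.comp φ') (c i) * v.res (RatFunc.X : RatFunc M) := by
    intro i
    rw [AlgHom.comp_apply, ← hu i]
    cases hi : u i with
    | none =>
      rw [(h2 i).2 hi]
      simp only [Option.getD_none, w0.res_zero, map_zero, zero_mul]
    | some a =>
      rw [h1 i a hi]
      simp only [Option.getD_some]
  exact ⟨ρ.comp φ', h3, h2, fun hXt => key_cone (ρ.comp φ') φ c hXt ha0 h3 hx
    fun i => (h2 i).trans (hn i)⟩

/-- Points with unit coordinates specialise to points. -/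
theorem yv_spec (v : Place k M) {z : Fin n → Option M} (hz : YV b τ M z)
    (h : ∀ i a, z i = some a → v.val a = 1) : YV b τ v.resField (spec v z) := by
  have hs : ∀ i a, z i = some a → spec v z i = some (v.res a) := by
    intro i a ha
    have h1 : a ∈ v.ring := (h i a ha).le
    unfold spec
    rw [ha, Option.bind_some, if_pos h1]
  have hg : ∀ i, ((z i).getD 0 ∈ v.ring ∧ (spec v z i).getD 0 = v.res ((z i).getD 0)) ∧
      ((z i).getD 0)⁻¹ ∈ v.ring ∧ ((spec v z i).getD 0)⁻¹ = v.res ((z i).getD 0)⁻¹ := by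
    intro i
    cases hi : z i with
    | none =>
      rw [spec_none v hi]
      simp only [Option.getD_none, inv_zero, v.res_zero, and_true]
      exact ⟨zero_mem _, zero_mem _⟩
    | some a =>
      rw [hs i a hi]
      obtain ⟨h1, h2⟩ := res_inv v (h i a hi)
      exact ⟨⟨(h i a hi).le, rfl⟩, h1, h2.symm⟩
  have hnat : ∀ m : ℕ, ((m : ℕ) : M) ∈ v.ring ∧ v.res (m : M) = (m : v.resField) :=
    fun m => ⟨natCast_mem _ _, res_natCast v m⟩
  have halg : ∀ a : k, algebraMap k M a ∈ v.ring ∧
      v.res (algebraMap k M a) = algebraMap k v.resField a :=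
    fun a => ⟨v.ring.algebraMap_mem a, v.res_algebraMap a⟩
  refine ⟨⟨fun i hi => spec_none v (yv_inf hz hi), fun i hi => ?_, ?_⟩, ?_⟩
  · obtain ⟨a, ha, hzi⟩ := yv_fin hz hi
    refine ⟨v.res a, fun h0 => ?_, hs i a hzi⟩
    have h1 := (v.res_eq_zero_iff (h i a hzi).le).1 h0
    rw [h i a hzi] at h1
    exact lt_irrefl _ h1
  · have h1 := (res_sum v Finset.univ (fun i => (coef τ i : M) * (z i).getD 0)
      fun i _ => mul_mem (hnat _).1 (hg i).1.1).2
    rw [hz.1.2.2, v.res_zero] at h1
    refine Eq.trans ?_ h1.symm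
    refine Finset.sum_congr rfl fun i _ => ?_
    rw [v.res_mul (hnat _).1 (hg i).1.1, (hnat _).2, (hg i).1.2]
  · have h1 := (res_sum v Finset.univ
      (fun i => (coef τ i : M) * algebraMap k M (b i) * ((z i).getD 0)⁻¹)
      fun i _ => mul_mem (mul_mem (hnat _).1 (halg _).1) (hg i).2.1).2
    have h2 := hz.2
    unfold Bfun at h2 ⊢
    rw [h2, v.res_zero] at h1
    refine Eq.trans ?_ h1.symm
    refine Finset.sum_congr rfl fun i _ => ?_
    rw [v.res_mul (mul_mem (hnat _).1 (halg _).1) (hg i).2.1, v.res_mul (hnat _).1 (halg _).1,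
      (hnat _).2, (halg _).2, (hg i).2.2]

/-- The relation given by a cone over a curve and a function with a single zero. -/
theorem curve_rel [Finite k] [Algebra.IsAlgebraic k κ] (hM : IsFunctionField k M)
    {u : Fin n → Option M} (huY : YV b τ M u) (w0 : Place k M)
    (hw0 : ∀ i a, u i = some a → w0.val a = 1) {m : Fin n} (hm : u m = some 1)
    {s : M} (hs : Transcendental k s)
    (hsr : ∀ w : Place k M, (∀ i a, u i = some a → w.val a = 1) → w.val s ≤ 1)
    {x : Fin n → Option N} {a0 : N} (ha0 : Transcendental k a0) (φ : κ →ₐ[k] N)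
    (φ' : κ →ₐ[k] w0.resField) (c : Fin n → κ) (hx : ∀ i, (x i).getD 0 = φ (c i) * a0)
    (hu : ∀ i, w0.res ((u i).getD 0) = φ' (c i)) (hn : ∀ i, u i = none ↔ x i = none) :
    Finsupp.single (key k x) 1 ∈ rat (YV b τ) (PY b τ) 1 := by
  classical
  obtain ⟨g, hg0, hg1, hg2⟩ := hM.exists_single_zero s hs w0 (hsr w0 hw0)
  have hz : YV b τ (RatFunc M) (cz u) := by
    refine yv_scale huY (IsScalarTower.toAlgHom k M (RatFunc M)) (g := RatFunc.X)
      (fun i hi => cz_none hi) fun i a hi => ⟨_, RatFunc.X_ne_zero, cz_some hi, fun _ => rfl⟩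
  have hf : algebraMap M (RatFunc M) g ≠ 0 := by
    rw [Ne, map_eq_zero]
    exact hg0
  have hcm : φ' (c m) = 1 := by
    rw [← hu m, hm]
    exact w0.res_one
  have htr2 : Algebra.trdeg k (RatFunc M) = ((1 : ℕ) : Cardinal) + 1 :=
    HC.trdeg_ratFuncL (by rw [hM.2]; rfl)
  refine solve (V := YV b τ) (P := PY b τ) (HC.essFiniteType_ratFuncL hM.1) htr2 (z := cz u)
    (f := algebraMap M (RatFunc M) g) (Or.inl hz) hf le_rfl ?_ ?_
  · intro v hv hw hwr
    left
    -- the variable is a unit
    have hspm : spec v (cz u) m ≠ none := by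
      intro h0
      have h1 := (yv_none hw huY m).1 h0
      rw [hm] at h1
      exact Option.some_ne_none _ h1
    have hτ : ∀ i a, u i = some a → τ i ≠ none := by
      intro i a ha h0
      rw [yv_inf huY h0] at ha
      exact absurd ha.symm (Option.some_ne_none _)
    have hunit : ∀ i a, u i = some a →
        v.val (algebraMap M (RatFunc M) a * RatFunc.X) = 1 := by
      intro i a ha
      obtain ⟨d, hd, hwi⟩ := yv_fin hw (hτ i a ha)
      obtain ⟨h1, h2⟩ := spec_some v (cz_some ha) (by rw [hwi]; exact Option.some_ne_none _)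
      refine val_eq_one v h1 ?_
      rw [h2] at hwi
      rw [Option.some.inj hwi]
      exact hd
    have hX : v.val (RatFunc.X : RatFunc M) = 1 := by
      have h1 := hunit m 1 hm
      rwa [map_one, one_mul] at h1
    have hua : ∀ i a, u i = some a → v.val (algebraMap M (RatFunc M) a) = 1 := by
      intro i a ha
      have h1 := hunit i a ha
      rwa [map_mul, hX, mul_one] at h1
    obtain ⟨w, e, he, hwe⟩ := Helper73.KL.exists_restrict (K := k) (L := M) v ⟨g, hv⟩
    have he' : (0 : ℤ) < e := by exact_mod_cast he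
    have hle : ∀ a : M, w.val a ≤ 1 ↔ v.val (algebraMap M (RatFunc M) a) ≤ 1 := by
      intro a
      by_cases ha : a = 0
      · simp [ha]
      · have ha' : algebraMap M (RatFunc M) a ≠ 0 := by
          rwa [Ne, map_eq_zero]
        rw [← w.ord_nonneg_iff ha, ← v.ord_nonneg_iff ha', hwe]
        exact ⟨fun h => mul_nonneg he'.le h, fun h => nonneg_of_mul_nonneg_right h he'⟩
    have hlt : ∀ a : M, w.val a < 1 ↔ v.val (algebraMap M (RatFunc M) a) < 1 := by
      intro a
      by_cases ha : a = 0
      · simp [ha]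
      · have ha' : algebraMap M (RatFunc M) a ≠ 0 := by
          rwa [Ne, map_eq_zero]
        rw [← w.ord_pos_iff ha, ← v.ord_pos_iff ha', hwe]
        exact ⟨fun h => mul_pos he' h, fun h => pos_of_mul_pos_right h he'.le⟩
    have heq : ∀ a : M, v.val (algebraMap M (RatFunc M) a) = 1 → w.val a = 1 := by
      intro a ha
      refine le_antisymm ((hle a).2 ha.le) ?_
      by_contra h1
      rw [not_le, hlt, ha] at h1
      exact lt_irrefl _ h1
    have hww : w = w0 := by
      by_contra hne
      have h1 := hg2 w (hsr w fun i a ha => heq a (hua i a ha)) hne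
      apply hv
      rw [hwe, (w.ord_eq_zero_iff hg0).2 h1, mul_zero]
    subst hww
    obtain ⟨ψ, h1, h2, h3⟩ := cone_limit w hw0 v hle hlt hX ha0 φ φ' c hx hu hn
    refine ⟨h3 ?_, ?_⟩
    · refine transc_of (x := spec v (cz u)) (c := fun i => ψ (c i)) (fun i => ?_) h1
        (by exact_mod_cast hwr)
      exact (isAlgebraic_algHom_iff ψ ψ.injective).2 (Algebra.IsAlgebraic.isAlgebraic (c i))
    · rw [hwe]
      exact mul_pos he' ((w.ord_pos_iff hg0).2 hg1)
  · obtain ⟨v, hv, hX, hXt⟩ := exists_gauss w0
    obtain ⟨ψ, h1, h2, h3⟩ := cone_limit w0 hw0 v (fun a => by rw [hv]) (fun a => by rw [hv]) hX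
      ha0 φ φ' c hx hu hn
    have hua : ∀ i a, u i = some a → v.val (algebraMap M (RatFunc M) a) = 1 := by
      intro i a ha
      rw [hv]
      exact hw0 i a ha
    have hunit : ∀ i a, cz u i = some a → v.val a = 1 := by
      intro i a ha
      cases hi : u i with
      | none =>
        rw [cz_none hi] at ha
        exact absurd ha.symm (Option.some_ne_none _)
      | some d =>
        rw [cz_some hi] at ha
        rw [← Option.some.inj ha, map_mul, hua i d hi, hX, one_mul]
    refine ⟨v, yv_spec v hz hunit, ?_, ?_, h3 hXt⟩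
    · have h4 : Algebra.trdeg k (fld k (spec v (cz u))) ≤ ((1 : ℕ) : Cardinal) := by
        have h5 := HC.abh_adjoin (k₀ := k) v (M := RatFunc M) (s := 1) htr2.le
          ⟨algebraMap M (RatFunc M) g, hf, by
            rw [Algebra.algebraMap_self_apply, hv]; exact hg1.ne⟩
          (fun i : Fin n => (cz u i).getD 0) (fun i => by
            rw [Algebra.algebraMap_self_apply]
            cases hi : cz u i with
            | none => simp
            | some a => exact (hunit i a hi).le)
        have h6 : (fun j => (spec v (cz u) j).getD 0) = fun i =>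
            v.res (algebraMap (RatFunc M) (RatFunc M) ((cz u i).getD 0)) := by
          funext i
          rw [Algebra.algebraMap_self_apply]
          cases hi : cz u i with
          | none => rw [spec_none v hi, Option.getD_none, Option.getD_none, v.res_zero]
          | some a =>
            have h7 : a ∈ v.ring := (hunit i a hi).le
            unfold spec
            rw [hi, Option.bind_some, if_pos h7]
            rfl
        rw [fld_eq_range, h6]
        exact h5
      refine le_antisymm h4 ?_
      rw [Nat.cast_one, Cardinal.one_le_iff_ne_zero]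
      intro h0
      rw [fld_eq_range] at h0
      have h5 := alg_of_adjoin h0 ⟨m, rfl⟩
      simp only [h1 m] at h5
      have h6 : ψ (c m) = 1 := by
        have h7 : c m = 1 := φ'.injective (hcm.trans (map_one φ').symm)
        rw [h7, map_one]
      rw [h6, one_mul] at h5
      exact hXt h5
    · rw [v.ord_pos_iff hf, hv]
      exact hg1

end curve

end Pool.Agent.Helper19.KL
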