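import Pool.Agent.Helper19.KL.M6
import Pool.Agent.Helper1.KL.KMain

set_option autoImplicit false

/-!
Project KL (MP_0b9e0b_ag), cycles of dimension zero and one over finite fields: final form.
-/

namespace Pool.Agent.Helper19.KL

open Pool.Agent.Helper16 Pool.Agent.Helper1.KL

section iso

variable {k : Type} [Field k] {p : ℕ} [Fact p.Prime] [CharP k p] {n : ℕ} {b : Fin n → k}

theorem P2.lt {τ : Fin n → Option (ZMod p)} (h : P2 b τ) :
    ∃ i j, i < j ∧ coef τ i ≠ 0 ∧ coef τ j ≠ 0 ∧ IT τ = {i, j} ∧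
      cf k τ i ^ 2 * b i = cf k τ j ^ 2 * b j := by
  obtain ⟨i, j, hij, hi, hj, hI, hc⟩ := h
  rcases lt_or_gt_of_ne hij with h | h
  · exact ⟨i, j, h, hi, hj, hI, hc⟩
  · exact ⟨j, i, h, hj, hi, by rw [hI, Finset.pair_comm], hc.symm⟩

theorem G2_le : G2 p b ≤ (p - 1) * isoN p b := by
  classical
  set D := {x : Fin n × Fin n × (ZMod p)ˣ //
    x.1 < x.2.1 ∧ b x.2.1 = (((x.2.2 : ZMod p).val : ℕ) : k) ^ 2 * b x.1} with hD
  have hfin : Fintype D := Fintype.ofFinite D
  let f : D × (ZMod p)ˣ → (Fin n → Option (ZMod p)) := fun y m =>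
    if m = y.1.1.2.1 then some (y.2 : ZMod p) else
      if m = y.1.1.1 then some ((y.1.1.2.2 : ZMod p) * (y.2 : ZMod p)) else none
  have hsub : (Finset.univ.filter fun τ : Fin n → Option (ZMod p) => P2 b τ) ⊆
      Finset.univ.image f := by
    intro τ hτ
    rw [Finset.mem_filter] at hτ
    obtain ⟨i, j, hij, hi, hj, hI, hc⟩ := hτ.2.lt
    have hne : ∀ {m : Fin n}, coef τ m ≠ 0 → (τ m).getD 0 ≠ 0 := fun h h0 =>
      h (coef_eq_zero.2 h0)
    have hsome : ∀ {m : Fin n}, coef τ m ≠ 0 → τ m = some ((τ m).getD 0) := by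
      intro m hm
      have h1 := coef_ne hm
      cases h2 : τ m with
      | none => exact absurd h2 h1
      | some a => rfl
    have hι : ∀ ρ : ZMod p, ((ρ.val : ℕ) : k) = ZMod.castHom (dvd_refl p) k ρ := by
      intro ρ
      rw [ZMod.castHom_apply, ZMod.natCast_val]
    have hcond : b j = (((((τ i).getD 0 * ((τ j).getD 0)⁻¹ : ZMod p)).val : ℕ) : k) ^ 2 * b i := by
      have h1 : cf k τ i = ZMod.castHom (dvd_refl p) k ((τ i).getD 0) := hι _
      have h2 : cf k τ j = ZMod.castHom (dvd_refl p) k ((τ j).getD 0) := hι _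
      have h3 : ZMod.castHom (dvd_refl p) k ((τ j).getD 0) ≠ 0 := by
        rw [← h2]
        exact cf_ne hj
      rw [hι, map_mul, map_inv₀]
      rw [h1, h2] at hc
      field_simp
      linear_combination -hc
    rw [Finset.mem_image]
    refine ⟨(⟨(i, j, Units.mk0 ((τ i).getD 0 * ((τ j).getD 0)⁻¹)
      (mul_ne_zero (hne hi) (inv_ne_zero (hne hj)))), hij, hcond⟩,
      Units.mk0 ((τ j).getD 0) (hne hj)), Finset.mem_univ _, ?_⟩
    funext m
    simp only [f, Units.val_mk0]
    by_cases hmj : m = j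
    · rw [if_pos hmj, hmj]
      exact (hsome hj).symm
    · rw [if_neg hmj]
      by_cases hmi : m = i
      · rw [if_pos hmi, hmi, inv_mul_cancel_right₀ (hne hj)]
        exact (hsome hi).symm
      · rw [if_neg hmi]
        have h1 : m ∉ IT τ := by
          rw [hI]
          simp [hmi, hmj]
        rw [mem_IT, not_not] at h1
        exact h1.symm
  unfold G2
  refine (Finset.card_le_card hsub).trans (Finset.card_image_le.trans (le_of_eq ?_))
  rw [Finset.card_univ, Fintype.card_prod, ZMod.card_units, mul_comm]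
  congr 1
  unfold isoN
  rw [← hD, Nat.card_eq_fintype_card]

end iso

/-- Over a finite field `k`: cycles of dimension zero and one on `X`. -/
theorem explicit (k : Type) [Field k] [Finite k] (p : ℕ) [Fact p.Prime] [CharP k p] {n : ℕ}
    (b : Fin n → k) (hb : ∀ i, b i ≠ 0) : Explicit p b := by
  refine ⟨rank_zero (kl_main k p n b hb 0), ?_⟩
  obtain ⟨L, hL, hr⟩ := rank_one_L hb (kl_main k p n b hb 1)
  refine ⟨L, hL, hr.trans ?_⟩
  rw [Nat.cast_le]
  have := G2_le (p := p) (b := b)
  omega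

end Pool.Agent.Helper19.KL
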