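import Pool.Agent.Helper1.KL.KFin
import Pool.Agent.Helper7.KL.Hom
import Pool.Agent.Helper16.KL.Fin
import Pool.Agent.Helper17.KL.ModA
import Pool.Agent.Helper19.KL.Lift
import Pool.Agent.Helper19.KL.ScMain
import Pool.Agent.Helper26.KL.Pos
import Pool.Agent.Helper31.KL.Comb
import Pool.Agent.Helper33.KL.ModS
import Pool.Agent.Helper36.KL.Dec
import Pool.Agent.Helper39.KL.LinStep
import Pool.Agent.Helper66.KL.E
import Pool.Agent.Helper67.KL.Mod0
import Pool.Agent.Helper79.KL.LabelMain
import Pool.Agent.Helper84.KL.VMain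
import Pool.Agent.Helper96.KL.Dim

set_option autoImplicit false

/-!
Project KL (MP_0b9e0b_ag): all modules together.
-/

namespace Pool.Agent.Helper19.KL

open Pool.Agent.Helper1.KL

variable (k : Type) [Field k] (p : ℕ) [Fact p.Prime] [CharP k p] {n : ℕ} (b : Fin n → k)

/-- The theorem of project KL. -/
theorem main (hb : ∀ i, b i ≠ 0) (r : ℕ) : Main k p n b r := by
  have hpos : ModPos k p b r := Helper26.KL.modPos k p b r
  have hS : ModS k p b r := Helper33.KL.modS k p b r hb
  have hL : ModLift k p b := modLift k p b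
  have hHom : ModHom k p b r := Helper7.KL.modHom k p b r hb hpos hS hL
  have hlab : ModLabel k p b r := Helper79.KL.modLabel p b r hb hpos
  have hdec : ModDec k p b r := Helper36.KL.modDec hlab
  have hV : ModV k p b r := Helper84.KL.modV hb hHom
  have hA1 : ModA1 k p b r := Helper17.KL.modA1 k p b r hb
  have hA2 : ModA2 k p b r := Helper17.KL.modA2 k p b r hb
  have hSc : ModSc k p b r := modSc hb hHom
  have hE : ModE k p b r := Helper66.KL.modE hb
  have hcomb : ModComb k p b r := Helper31.KL.modComb hV hA1 hA2 hSc hS hE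
  have hdim : ModDim k p b r := modDim hb
  have h0 : Mod0 k p b r := Helper67.KL.mod0 hHom hb
  have h0' : Mod0' k p b r := Helper67.KL.mod0' hS hb
  exact main_of hdec hcomb hdim h0 h0' (Helper16.KLP.modPsi k p b r hb) Helper39.KL.linStep

end Pool.Agent.Helper19.KL
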