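import Pool.Agent.Helper19.KL.N1

set_option autoImplicit false

/-!
Project KL (MP_0b9e0b_ag), cycles of codimension two: rational solutions of
`X + A + Y + Z = 0`, `a / X + D + β / Y + γ / Z = 0`.
-/

namespace Pool.Agent.Helper19.KL

open Polynomial

section poly

variable {F : Type} [Field F]

theorem quad_coeffs {x y z : F} (h : C x * X ^ 2 + C y * X + C z = (0 : F[X])) :
    x = 0 ∧ y = 0 ∧ z = 0 := by
  refine ⟨?_, ?_, ?_⟩
  · have := congrArg (fun f : F[X] => f.coeff 2) h
    simpa [coeff_X, coeff_C] using this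
  · have := congrArg (fun f : F[X] => f.coeff 1) h
    simpa [coeff_X, coeff_C] using this
  · have := congrArg (fun f : F[X] => f.coeff 0) h
    simpa [coeff_X, coeff_C] using this

theorem root_aux {A D a β γ c : F} {P Q : F[X]} (hQ : Q ≠ 0) (hc : c ≠ 0)
    (E1 : P * (1 + C c * X) = -(X + C A) * Q)
    (E2 : (C a + C D * X) * (C c * P) + Q * (C β * C c * X + C γ) = 0) :
    (A * D = β ∧ a = γ) ∨ (A * D = γ ∧ a = β) := by
  have h1 : Q * (C (-c * D + β * c ^ 2) * X ^ 2 + C (-c * (a + D * A) + β * c + γ * c) * X +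
      C (-c * a * A + γ)) = 0 := by
    simp only [map_add, map_mul, map_neg, map_pow]
    linear_combination (1 + C c * X) * E2 - (C a + C D * X) * C c * E1
  obtain ⟨h2, h3, h4⟩ := quad_coeffs ((mul_eq_zero.1 h1).resolve_left hQ)
  have h5 : D = β * c := by
    have : c * (β * c - D) = 0 := by linear_combination h2
    linear_combination -((mul_eq_zero.1 this).resolve_left hc)
  have h6 : a + D * A = β + γ := by
    have : c * (β + γ - (a + D * A)) = 0 := by linear_combination h3
    linear_combination -((mul_eq_zero.1 this).resolve_left hc)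
  have h7 : (A * D - β) * (A * D - γ) = 0 := by
    have h8 : a * (D * A) = β * γ := by
      rw [h5]
      linear_combination (-β) * h4
    linear_combination (A * D) * h6 - h8
  rcases mul_eq_zero.1 h7 with h | h
  · left
    exact ⟨by linear_combination h, by linear_combination h6 - h⟩
  · right
    exact ⟨by linear_combination h, by linear_combination h6 - h⟩

/-- The possible shapes of a solution. -/
theorem root_poly {A D a β γ : F} (hA : A ≠ 0) (ha : a ≠ 0) (hβ : β ≠ 0)
    (hγ : γ ≠ 0) {P Q R : F[X]} (hP : P ≠ 0) (hQ : Q ≠ 0) (hR : R ≠ 0) (hPQ : IsCoprime P Q)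
    (h1 : P + R = -(X + C A) * Q)
    (h2 : (C a + C D * X) * P * R + X * Q * (C β * R + C γ * P) = 0) :
    (A * D = β ∧ a = γ) ∨ (A * D = γ ∧ a = β) := by
  have hRQ : IsCoprime R Q := by
    have : R = -P + Q * (-(X + C A)) := by linear_combination h1
    rw [this]
    exact hPQ.neg_left.add_mul_left_left _
  obtain ⟨S, hS⟩ : P ∣ X * R := by
    have h3 : P ∣ X * R * (C β * Q) := ⟨-((C a + C D * X) * R + X * Q * C γ), by
      linear_combination h2⟩
    have h4 : IsCoprime P (C β * Q) :=
      ((isCoprime_mul_unit_left_right (isUnit_C.2 (isUnit_iff_ne_zero.2 hβ)) _ _).2 hPQ)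
    exact h4.dvd_of_dvd_mul_right h3
  obtain ⟨T, hT⟩ : R ∣ X * P := by
    have h3 : R ∣ X * P * (C γ * Q) := ⟨-((C a + C D * X) * P + X * Q * C β), by
      linear_combination h2⟩
    have h4 : IsCoprime R (C γ * Q) :=
      ((isCoprime_mul_unit_left_right (isUnit_C.2 (isUnit_iff_ne_zero.2 hγ)) _ _).2 hRQ)
    exact h4.dvd_of_dvd_mul_right h3
  have hST : S ∣ X ^ 2 := by
    refine ⟨T, ?_⟩
    apply mul_left_cancel₀ (mul_ne_zero hP hR)
    linear_combination (X * P) * hS + P * S * hT
  have hu : ∃ c : F, c ≠ 0 ∧ (P = C c * X * R ∨ R = C c * P ∨ R = C c * X * P) := by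
    obtain ⟨i, hi, hass⟩ := (dvd_prime_pow Polynomial.prime_X 2).1 hST
    obtain ⟨u, hu⟩ := hass.symm
    obtain ⟨s, hs, hsu⟩ := Polynomial.isUnit_iff.1 u.isUnit
    have hs0 : s ≠ 0 := hs.ne_zero
    rw [← hsu] at hu
    have hcs : C s⁻¹ * C s = (1 : F[X]) := by
      rw [← C_mul, inv_mul_cancel₀ hs0, C_1]
    have hi' : i = 0 ∨ i = 1 ∨ i = 2 := by omega
    rcases hi' with rfl | rfl | rfl
    · refine ⟨s⁻¹, inv_ne_zero hs0, Or.inl ?_⟩
      linear_combination (-C s⁻¹) * hS + C s⁻¹ * P * hu - P * hcs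
    · refine ⟨s, hs0, Or.inr (Or.inl ?_)⟩
      apply mul_left_cancel₀ (Polynomial.X_ne_zero (R := F))
      linear_combination hS - P * hu
    · refine ⟨s, hs0, Or.inr (Or.inr ?_)⟩
      apply mul_left_cancel₀ (Polynomial.X_ne_zero (R := F))
      linear_combination hS - P * hu
  obtain ⟨c, hc, h | h | h⟩ := hu
  · rw [h] at h1 h2
    have h3 : R * (1 + C c * X) = -(X + C A) * Q := by linear_combination h1
    have h4 : (C a + C D * X) * (C c * R) + Q * (C γ * C c * X + C β) = 0 := by
      have h5 : X * R * ((C a + C D * X) * (C c * R) + Q * (C γ * C c * X + C β)) = 0 := by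
        linear_combination h2
      exact (mul_eq_zero.1 h5).resolve_left (mul_ne_zero Polynomial.X_ne_zero hR)
    exact (root_aux hQ hc h3 h4).symm
  · exfalso
    rw [h] at h1 h2
    have h3 : (C a + C D * X) * (C c * P) + X * Q * (C β * C c + C γ) = 0 := by
      have h5 : P * ((C a + C D * X) * (C c * P) + X * Q * (C β * C c + C γ)) = 0 := by
        linear_combination h2
      exact (mul_eq_zero.1 h5).resolve_left hP
    have h4 := congrArg (Polynomial.eval 0) h3
    simp only [eval_add, eval_mul, eval_C, eval_X, mul_zero, zero_mul, add_zero, eval_zero] at h4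
    have h5 : P.eval 0 = 0 := by
      rcases mul_eq_zero.1 h4 with h6 | h6
      · exact absurd h6 ha
      · exact (mul_eq_zero.1 h6).resolve_left hc
    have h6 := congrArg (Polynomial.eval 0) h1
    simp only [eval_add, eval_mul, eval_C, eval_X, eval_neg, h5, mul_zero, zero_add] at h6
    have h7 : Q.eval 0 = 0 := by
      rcases mul_eq_zero.1 h6.symm with h8 | h8
      · exact absurd (neg_eq_zero.1 h8) hA
      · exact h8
    obtain ⟨u, v, huv⟩ := hPQ
    have h8 := congrArg (Polynomial.eval 0) huv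
    simp only [eval_add, eval_mul, h5, h7, mul_zero, add_zero, eval_one] at h8
    exact zero_ne_one h8
  · rw [h] at h1 h2
    have h3 : P * (1 + C c * X) = -(X + C A) * Q := by linear_combination h1
    have h4 : (C a + C D * X) * (C c * P) + Q * (C β * C c * X + C γ) = 0 := by
      have h5 : X * P * ((C a + C D * X) * (C c * P) + Q * (C β * C c * X + C γ)) = 0 := by
        linear_combination h2
      exact (mul_eq_zero.1 h5).resolve_left (mul_ne_zero Polynomial.X_ne_zero hP)
    exact root_aux hQ hc h3 h4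

theorem clear_denoms {K : Type} [Field K] {X a D β γ Y Z u v w : K} (hX : X ≠ 0) (hu : u ≠ 0)
    (hv : v ≠ 0) (hw : w ≠ 0) (hY : Y = u / w) (hZ : Z = v / w)
    (h : a / X + D + β / Y + γ / Z = 0) :
    (a + D * X) * u * v + X * w * (β * v + γ * u) = 0 := by
  rw [hY, hZ] at h
  have h1 : (a / X + D + β / (u / w) + γ / (v / w)) * (X * u * v) = 0 := by rw [h, zero_mul]
  rw [← h1]
  field_simp
  ring

/-- Rational solutions. -/
theorem root_rat {A D a β γ : F} (hA : A ≠ 0) (ha : a ≠ 0) (hβ : β ≠ 0)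
    (hγ : γ ≠ 0) {Y Z : RatFunc F} (hY : Y ≠ 0) (hZ : Z ≠ 0)
    (h1 : RatFunc.X + RatFunc.C A + Y + Z = 0)
    (h2 : RatFunc.C a / RatFunc.X + RatFunc.C D + RatFunc.C β / Y + RatFunc.C γ / Z = 0) :
    (A * D = β ∧ a = γ) ∨ (A * D = γ ∧ a = β) := by
  have hX : (RatFunc.X : RatFunc F) ≠ 0 := RatFunc.X_ne_zero
  set ι := algebraMap F[X] (RatFunc F) with hι
  have hinj : Function.Injective ι := RatFunc.algebraMap_injective F
  have hq : ι Y.denom ≠ 0 := RatFunc.algebraMap_ne_zero Y.denom_ne_zero
  have hp : ι Y.num ≠ 0 := RatFunc.algebraMap_ne_zero (RatFunc.num_ne_zero hY)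
  have hYe : Y = ι Y.num / ι Y.denom := (RatFunc.num_div_denom Y).symm
  have hιX : ι X = RatFunc.X := RatFunc.algebraMap_X
  have hιC : ∀ c : F, ι (C c) = RatFunc.C c := fun c => RatFunc.algebraMap_C c
  set R : F[X] := -(X + C A) * Y.denom - Y.num with hR
  have hZe : Z = ι R / ι Y.denom := by
    rw [eq_div_iff hq, hR]
    simp only [map_sub, map_mul, map_neg, map_add, hιX, hιC]
    have h3 : Y * ι Y.denom = ι Y.num := by
      rw [eq_div_iff hq] at hYe
      exact hYe
    linear_combination ι Y.denom * h1 - h3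
  have hR0 : ι R ≠ 0 := by
    intro h
    rw [h, zero_div] at hZe
    exact hZ hZe
  have hR1 : R ≠ 0 := fun h => hR0 (by rw [h, map_zero])
  refine root_poly (R := R) hA ha hβ hγ (RatFunc.num_ne_zero hY) Y.denom_ne_zero
    hR1 (RatFunc.isCoprime_num_denom Y) (by rw [hR]; ring) ?_
  apply hinj
  simp only [map_mul, map_add, map_zero, hιX, hιC]
  exact clear_denoms hX hp hR0 hq hYe hZe h2

end poly

end Pool.Agent.Helper19.KL
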