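import Pool.Agent.Helper19.KL.N13
import Pool.Agent.Helper19.KL.C2
import Pool.Agent.Helper96.KL.Dim

set_option autoImplicit false

/-!
Project KL (MP_0b9e0b_ag), cycles of codimension two: general lemmas.
-/

namespace Pool.Agent.Helper19.KL

open Pool.Agent.Helper16 Pool.Agent.Helper1.KL

section gen

variable {k N : Type} [Field k] [Field N] [Algebra k N]

/-- The alternative for a solution of two equations. -/
theorem quad_alt (F : IntermediateField k N) {A D β γ Y Z : N} (hA : A ∈ F) (hD : D ∈ F)
    (hβ : β ∈ F) (hγ : γ ∈ F) (hY : Y ≠ 0) (hZ : Z ≠ 0) (h1 : A + Y + Z = 0)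
    (h2 : D + β / Y + γ / Z = 0) : IsAlgebraic F Y ∨ (β * A = 0 ∧ D = 0 ∧ β = γ) := by
  by_contra hcon
  push Not at hcon
  obtain ⟨h3, h4⟩ := hcon
  let A' : F := ⟨A, hA⟩
  let D' : F := ⟨D, hD⟩
  let β' : F := ⟨β, hβ⟩
  let γ' : F := ⟨γ, hγ⟩
  have h5 : D * Y ^ 2 + (D * A + β - γ) * Y + β * A = 0 := by
    have hZe : Z = -(A + Y) := by linear_combination h1
    have h6 : (D + β / Y + γ / Z) * (Y * Z) = D * Y * Z + β * Z + γ * Y := by
      field_simp
    rw [h2, zero_mul, hZe] at h6
    linear_combination h6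
  have h6 : (Polynomial.C D' * Polynomial.X ^ 2 + Polynomial.C (D' * A' + β' - γ') *
      Polynomial.X + Polynomial.C (β' * A') : Polynomial F) = 0 := by
    by_contra h7
    refine h3 ⟨_, h7, ?_⟩
    simp only [map_add, map_mul, map_pow, Polynomial.aeval_C, Polynomial.aeval_X, map_sub]
    exact h5
  obtain ⟨h7, h8, h9⟩ := quad_coeffs h6
  have hD0 : D = 0 := congrArg Subtype.val h7
  have hβA : β * A = 0 := congrArg Subtype.val h9
  have h10 : D * A + β - γ = 0 := congrArg Subtype.val h8
  exact h4 hβA hD0 (by rw [hD0] at h10; linear_combination h10)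

theorem tdeg_le_of_alg {σ : Type} [Finite σ] {x : σ → Option N} {S : Set N} (hS : S.Finite)
    (h : ∀ m, IsAlgebraic (IntermediateField.adjoin k S) ((x m).getD 0)) :
    Algebra.trdeg k (fld k x) ≤ (HC.tdeg k S : Cardinal.{0}) := by
  have hfin : (Set.range fun m => (x m).getD 0).Finite := Set.finite_range _
  rw [fld_eq_range, HC.tdeg_spec hfin, Nat.cast_le,
    ← HC.tdeg_union_of_algebraic hS hfin (by rintro _ ⟨m, rfl⟩; exact h m)]
  exact HC.tdeg_mono' (hS.union hfin) Set.subset_union_right

/-- The dimension of a point is at most the number of elements over which it is algebraic. -/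
theorem trdeg_le_of_alg {σ ι : Type} [Finite σ] [Fintype ι] {x : σ → Option N} (c : ι → N)
    (h : ∀ m, IsAlgebraic (IntermediateField.adjoin k (Set.range c)) ((x m).getD 0)) :
    Algebra.trdeg k (fld k x) ≤ (Fintype.card ι : Cardinal.{0}) := by
  refine (tdeg_le_of_alg (Set.finite_range c) h).trans ?_
  rw [← HC.tdeg_spec (Set.finite_range c)]
  exact trdeg_adjoin_le_card c

theorem indep_of_alg {σ ι : Type} [Finite σ] [Fintype ι] {x : σ → Option N} (c : ι → N)
    (h : ∀ m, IsAlgebraic (IntermediateField.adjoin k (Set.range c)) ((x m).getD 0))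
    (hr : (Fintype.card ι : Cardinal.{0}) ≤ Algebra.trdeg k (fld k x)) :
    AlgebraicIndependent k c := by
  refine indep_of_trdeg_adjoin c (hr.trans ?_)
  rw [HC.tdeg_spec (Set.finite_range c)]
  exact tdeg_le_of_alg (Set.finite_range c) h

variable {N' : Type} [Field N'] [Algebra k N']

/-- Uniqueness of the point with given coordinates in terms of independent parameters. -/
theorem key_of_sub {σ ι : Type} (s : σ → MvPolynomial ι k) {c : ι → N} {c' : ι → N'}
    (hc : AlgebraicIndependent k c) (hc' : AlgebraicIndependent k c') {x : σ → Option N}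
    {x' : σ → Option N'} (hx : ∀ m, (x m).getD 0 = MvPolynomial.aeval c (s m))
    (hx' : ∀ m, (x' m).getD 0 = MvPolynomial.aeval c' (s m))
    (hn : ∀ m, x m = none ↔ x' m = none) : key k x = key k x' := by
  rw [key_eq_iff]
  refine ⟨hn, fun P => ?_⟩
  have key : ∀ {E : Type} [Field E] [Algebra k E] {d : ι → E}, AlgebraicIndependent k d →
      (MvPolynomial.aeval (fun m => MvPolynomial.aeval d (s m)) P = 0 ↔
        MvPolynomial.aeval s P = 0) := by
    intro E _ _ d hd
    have h1 := MvPolynomial.comp_aeval_apply s (MvPolynomial.aeval (R := k) d) P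
    rw [← h1]
    constructor
    · intro h
      exact hd (by rw [h, map_zero])
    · intro h
      rw [h, map_zero]
  have h1 : (fun j => (x j).getD 0) = fun m => MvPolynomial.aeval c (s m) := funext hx
  have h2 : (fun j => (x' j).getD 0) = fun m => MvPolynomial.aeval c' (s m) := funext hx'
  rw [h1, h2, key hc, key hc']

end gen

section divB

variable {k : Type} [Field k] {p : ℕ} [Fact p.Prime] [CharP k p] {n : ℕ} {b : Fin n → k}
  {τ : Fin n → Option (ZMod p)}

theorem coe_restr {N : Type} [Field N] [Algebra k N] (x : Fin n → Option N) (i : Fin n) :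
    (((restr k x) i).getD 0 : fld k x) = (x i).getD 0 := by
  have := congrFun (restr_map (F := k) x) i
  conv_rhs => rw [← this]
  cases (restr k x) i with
  | none => simp
  | some a => simp

end divB

end Pool.Agent.Helper19.KL

/-!
Project KL (MP_0b9e0b_ag), cycles of codimension two: the divisor of `∑ ρ_i b_i / x_i`.
-/

namespace Pool.Agent.Helper19.KL

open Pool.Agent.Helper16 Pool.Agent.Helper1.KL

section divB

variable {k : Type} [Field k] {p : ℕ} [Fact p.Prime] [CharP k p] {n : ℕ} {b : Fin n → k}
  {τ : Fin n → Option (ZMod p)}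

theorem divB_poly {E : Type} [Field E] {R y z β γ : E} (hβ : β ≠ 0)
    (h : -Polynomial.C R * (Polynomial.C y + Polynomial.X) * (Polynomial.X - Polynomial.C z) +
      Polynomial.C β * (Polynomial.C z - Polynomial.X) +
      Polynomial.C γ * (Polynomial.C y + Polynomial.X) = 0) : y + z = 0 := by
  have h1 : Polynomial.C (-R) * Polynomial.X ^ 2 + Polynomial.C (R * (z - y) - β + γ) *
      Polynomial.X + Polynomial.C (R * y * z + β * z + γ * y) = 0 := by
    simp only [map_add, map_sub, map_mul, map_neg]
    linear_combination h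
  obtain ⟨h2, h3, h4⟩ := quad_coeffs h1
  have h5 : R = 0 := neg_eq_zero.1 h2
  rw [h5] at h3 h4
  have h6 : β * (y + z) = 0 := by linear_combination h4 - y * h3
  exact (mul_eq_zero.1 h6).resolve_left hβ

/-- The relation given by the divisor of `∑ ρ_i b_i / x_i`; the field of the point. -/
theorem mem_divB_own {r : ℕ} (hb : ∀ i, b i ≠ 0) {j l : Fin n} (hjl : j ≠ l)
    (hj : coef τ j ≠ 0) (hl : coef τ l ≠ 0)
    {W : Submodule ℚ (Key k (Fin n) →₀ ℚ)} (hW : rat (YV b τ) (PY b τ) r ≤ W)
    {E : Type} [Field E] [Algebra k E] (hE : Algebra.EssFiniteType k E)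
    (hr : Algebra.trdeg k E = r) {y : Fin n → Option E} (hx' : YV b τ E y)
    (hr' : Algebra.trdeg k (fld k y) = r)
    (hne : algebraMap k E (cf k τ j) * (y j).getD 0 + algebraMap k E (cf k τ l) * (y l).getD 0 ≠ 0)
    (h : ∀ (M : Type) [Field M] [Algebra k M] (w : Fin n → Option M), YV b τ M w →
      Algebra.trdeg k (fld k w) = r → key k w = key k y ∨
        Finsupp.single (key k w) 1 ∈ W) :
    Finsupp.single (key k y) 1 ∈ W := by
  classical
  obtain ⟨B, hB, hyB⟩ := yv_fin hx' (coef_ne hj)
  obtain ⟨C, hC, hyC⟩ := yv_fin hx' (coef_ne hl)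
  have hβ : algebraMap k E (cf k τ j) ≠ 0 := by rw [Ne, map_eq_zero]; exact cf_ne hj
  have hγ : algebraMap k E (cf k τ l) ≠ 0 := by rw [Ne, map_eq_zero]; exact cf_ne hl
  have hne' : algebraMap k E (cf k τ j) * B + algebraMap k E (cf k τ l) * C ≠ 0 := by
    rw [hyB, hyC] at hne
    exact hne
  set β := algebraMap k E (cf k τ j) with hβd
  set γ := algebraMap k E (cf k τ l) with hγd
  -- the moving point
  let ι : Polynomial E →+* RatFunc E := algebraMap (Polynomial E) (RatFunc E)
  have hinj : Function.Injective ι := RatFunc.algebraMap_injective E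
  let P : Fin n → Polynomial E := fun m =>
    if m = j then Polynomial.C B + Polynomial.C β⁻¹ * Polynomial.X else
    if m = l then Polynomial.C C - Polynomial.C γ⁻¹ * Polynomial.X else
    Polynomial.C ((y m).getD 0)
  let z' : Fin n → Option (RatFunc E) := fun m => if m ∈ IT τ then some (ι (P m)) else none
  have hPj : P j = Polynomial.C B + Polynomial.C β⁻¹ * Polynomial.X := if_pos rfl
  have hPl : P l = Polynomial.C C - Polynomial.C γ⁻¹ * Polynomial.X := by
    simp only [P, if_neg hjl.symm, if_pos]
  have hPo : ∀ m, m ≠ j → m ≠ l → P m = Polynomial.C ((y m).getD 0) := by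
    intro m h1 h2
    simp only [P, if_neg h1, if_neg h2]
  have hP0 : ∀ m, (P m).eval 0 = (y m).getD 0 := by
    intro m
    by_cases h1 : m = j
    · rw [h1, hPj, hyB]
      simp
    by_cases h2 : m = l
    · rw [h2, hPl, hyC]
      simp
    · rw [hPo m h1 h2, Polynomial.eval_C]
  have hPne : ∀ m ∈ IT τ, P m ≠ 0 := by
    intro m hm h0
    have := hP0 m
    rw [h0, Polynomial.eval_zero] at this
    exact yv_ne hx' hm this.symm
  have hz'I : ∀ m, m ∈ IT τ → z' m = some (ι (P m)) := fun m hm => if_pos hm
  have hz'n : ∀ m, m ∉ IT τ → z' m = none := fun m hm => if_neg hm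
  have hjI : j ∈ IT τ := mem_IT.2 (coef_ne hj)
  have hlI : l ∈ IT τ := mem_IT.2 (coef_ne hl)
  have hcoefC : ∀ m : Fin n, ((coef τ m : ℕ) : RatFunc E) =
      ι (Polynomial.C (algebraMap k E (cf k τ m))) := by
    intro m
    rw [map_natCast, map_natCast, map_natCast]
  have hbC : ∀ m : Fin n, algebraMap k (RatFunc E) (b m) =
      ι (Polynomial.C (algebraMap k E (b m))) := by
    intro m
    change _ = algebraMap (Polynomial E) (RatFunc E) _
    rw [RatFunc.algebraMap_C]
    exact IsScalarTower.algebraMap_apply k E (RatFunc E) (b m)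
  have hcoefE : ∀ m : Fin n, ((coef τ m : ℕ) : E) = algebraMap k E (cf k τ m) := fun m => by
    rw [map_natCast]
  have hval : ∀ m, m ≠ j → m ≠ l → (z' m).getD 0 = ι (Polynomial.C ((y m).getD 0)) := by
    intro m h1 h2
    by_cases hm : m ∈ IT τ
    · rw [hz'I m hm, Option.getD_some, hPo m h1 h2]
    · rw [hz'n m hm, Option.getD_none, yv_zero hx' hm]
      simp
  have hAV : AV (k := k) τ (RatFunc E) z' := by
    refine ⟨fun m hm => hz'n m (by rw [mem_IT, not_not]; exact hm), fun m hm => ?_, ?_⟩
    · refine ⟨_, ?_, hz'I m (mem_IT.2 hm)⟩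
      rw [Ne, map_eq_zero_iff _ hinj]
      exact hPne m (mem_IT.2 hm)
    · have h1 := hx'.1.2.2
      rw [sum_split hjl] at h1 ⊢
      rw [hz'I j hjI, hz'I l hlI, hPj, hPl]
      rw [hyB, hyC] at h1
      simp only [Option.getD_some] at h1 ⊢
      have h2 : ∑ i ∈ Finset.univ \ ({j, l} : Finset (Fin n)),
          ((coef τ i : ℕ) : RatFunc E) * (z' i).getD 0 =
          ι (Polynomial.C (∑ i ∈ Finset.univ \ ({j, l} : Finset (Fin n)),
            ((coef τ i : ℕ) : E) * (y i).getD 0)) := by
        rw [map_sum, map_sum]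
        refine Finset.sum_congr rfl fun m hm => ?_
        rw [Finset.mem_sdiff, Finset.mem_insert, Finset.mem_singleton] at hm
        push Not at hm
        rw [hval m hm.2.1 hm.2.2, map_mul, map_mul, map_natCast, map_natCast]
      have h3 : ∑ i ∈ Finset.univ \ ({j, l} : Finset (Fin n)),
          ((coef τ i : ℕ) : E) * (y i).getD 0 = -(β * B + γ * C) := by
        rw [hβd, hγd, ← hcoefE, ← hcoefE]
        linear_combination h1
      rw [h2, h3, hcoefC, hcoefC, ← map_mul, ← map_mul, ← map_add, ← map_add,
        map_eq_zero_iff _ hinj]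
      have h4 : β * β⁻¹ = 1 := mul_inv_cancel₀ hβ
      have h5 : γ * γ⁻¹ = 1 := mul_inv_cancel₀ hγ
      have h6 : Polynomial.C β * (Polynomial.C B + Polynomial.C β⁻¹ * Polynomial.X) +
          Polynomial.C γ * (Polynomial.C C - Polynomial.C γ⁻¹ * Polynomial.X) +
          Polynomial.C (-(β * B + γ * C)) =
          Polynomial.C (β * β⁻¹ - γ * γ⁻¹) * Polynomial.X := by
        simp only [map_add, map_sub, map_mul, map_neg]
        ring
      rw [h6, h4, h5, sub_self, map_zero, zero_mul]
  have hBf : Bfun b τ z' ≠ 0 := by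
    intro h0
    have h1 := hx'.2
    unfold Bfun at h0
    set R : E := ∑ i ∈ Finset.univ \ ({j, l} : Finset (Fin n)),
      ((coef τ i : ℕ) : E) * algebraMap k E (b i) * ((y i).getD 0)⁻¹ with hR
    have h2 : ∑ i ∈ Finset.univ \ ({j, l} : Finset (Fin n)),
        ((coef τ i : ℕ) : RatFunc E) * algebraMap k (RatFunc E) (b i) * ((z' i).getD 0)⁻¹ =
        ι (Polynomial.C R) := by
      rw [hR, map_sum, map_sum]
      refine Finset.sum_congr rfl fun m hm => ?_
      rw [Finset.mem_sdiff, Finset.mem_insert, Finset.mem_singleton] at hm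
      push Not at hm
      rw [hval m hm.2.1 hm.2.2, hbC, map_mul, map_mul, map_mul, map_mul, map_natCast, map_natCast]
      congr 1
      change ((algebraMap (Polynomial E) (RatFunc E)) (Polynomial.C _))⁻¹ =
        (algebraMap (Polynomial E) (RatFunc E)) (Polynomial.C _)
      rw [RatFunc.algebraMap_C, RatFunc.algebraMap_C, map_inv₀]
    rw [sum_split hjl, h2, hz'I j hjI, hz'I l hlI, hPj, hPl] at h0
    simp only [Option.getD_some] at h0
    rw [hcoefC, hcoefC, hbC, hbC] at h0
    have hnej : ι (Polynomial.C B + Polynomial.C β⁻¹ * Polynomial.X) ≠ 0 := by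
      rw [← hPj, Ne, map_eq_zero_iff _ hinj]
      exact hPne j hjI
    have hnel : ι (Polynomial.C C - Polynomial.C γ⁻¹ * Polynomial.X) ≠ 0 := by
      rw [← hPl, Ne, map_eq_zero_iff _ hinj]
      exact hPne l hlI
    have h3 : ι (Polynomial.C β * Polynomial.C (algebraMap k E (b j)) *
          (Polynomial.C C - Polynomial.C γ⁻¹ * Polynomial.X) +
        Polynomial.C γ * Polynomial.C (algebraMap k E (b l)) *
          (Polynomial.C B + Polynomial.C β⁻¹ * Polynomial.X) +
        Polynomial.C R * (Polynomial.C B + Polynomial.C β⁻¹ * Polynomial.X) *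
          (Polynomial.C C - Polynomial.C γ⁻¹ * Polynomial.X)) = 0 := by
      have h5 := congrArg (fun t => t * ι (Polynomial.C B + Polynomial.C β⁻¹ * Polynomial.X) *
        ι (Polynomial.C C - Polynomial.C γ⁻¹ * Polynomial.X)) h0
      simp only [zero_mul] at h5
      rw [← h5]
      generalize hu : Polynomial.C B + Polynomial.C β⁻¹ * Polynomial.X = u at hnej
      generalize hv : Polynomial.C C - Polynomial.C γ⁻¹ * Polynomial.X = v at hnel
      simp only [map_add, map_mul]
      rw [← hβd, ← hγd]
      field_simp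
    rw [map_eq_zero_iff _ hinj] at h3
    have h4 : β * β⁻¹ = 1 := mul_inv_cancel₀ hβ
    have h5 : γ * γ⁻¹ = 1 := mul_inv_cancel₀ hγ
    have h4' : Polynomial.C β * Polynomial.C β⁻¹ = 1 := by rw [← Polynomial.C_mul, h4, Polynomial.C_1]
    have h5' : Polynomial.C γ * Polynomial.C γ⁻¹ = 1 := by rw [← Polynomial.C_mul, h5, Polynomial.C_1]
    refine hne' (divB_poly (R := R) (y := β * B) (z := γ * C)
      (β := β ^ 2 * algebraMap k E (b j)) (γ := γ ^ 2 * algebraMap k E (b l)) ?_ ?_)
    · refine mul_ne_zero (pow_ne_zero 2 hβ) ?_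
      rw [Ne, map_eq_zero]
      exact hb j
    · have h6 := congrArg (fun t => Polynomial.C β * Polynomial.C γ * t) h3
      simp only [mul_zero] at h6
      rw [← h6]
      simp only [map_mul, map_pow]
      linear_combination (Polynomial.C β ^ 2 * Polynomial.C (algebraMap k E (b j)) * Polynomial.X +
        Polynomial.C R * (Polynomial.C β * Polynomial.C B + Polynomial.C β * Polynomial.C β⁻¹ *
          Polynomial.X) * Polynomial.X) * h5' +
        (-Polynomial.C γ ^ 2 * Polynomial.C (algebraMap k E (b l)) * Polynomial.X -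
        Polynomial.C R * Polynomial.X * (Polynomial.C γ * Polynomial.C C - Polynomial.X)) * h4'
  refine use_divB hx' hE hr hr' hW hAV hBf ?_ ?_ h
  · intro m hm
    refine hz'n m ?_
    intro h1
    obtain ⟨a, ha, hya⟩ := yv_fin hx' (mem_IT.1 h1)
    exact absurd (hm.symm.trans hya).symm (Option.some_ne_none _)
  · intro m a hm
    have hmI : m ∈ IT τ := by
      by_contra h1
      rw [mem_IT, not_not] at h1
      rw [yv_inf hx' h1] at hm
      exact absurd hm.symm (Option.some_ne_none _)
    refine ⟨_, hz'I m hmI, P m, 1, by simp, ?_, by rw [map_one, div_one]⟩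
    rw [hP0 m, hm]
    simp

theorem mem_divB {r : ℕ} (hb : ∀ i, b i ≠ 0) {j l : Fin n} (hjl : j ≠ l)
    (hj : coef τ j ≠ 0) (hl : coef τ l ≠ 0)
    {W : Submodule ℚ (Key k (Fin n) →₀ ℚ)} (hW : rat (YV b τ) (PY b τ) r ≤ W)
    {N : Type} [Field N] [Algebra k N] {x : Fin n → Option N} (hx : YV b τ N x)
    (hr : Algebra.trdeg k (fld k x) = r)
    (hne : algebraMap k N (cf k τ j) * (x j).getD 0 + algebraMap k N (cf k τ l) * (x l).getD 0 ≠ 0)
    (h : ∀ (M : Type) [Field M] [Algebra k M] (y : Fin n → Option M), YV b τ M y →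
      Algebra.trdeg k (fld k y) = r → key k y = key k x ∨
        Finsupp.single (key k y) 1 ∈ W) :
    Finsupp.single (key k x) 1 ∈ W := by
  rw [← key_restr] at h ⊢
  refine mem_divB_own hb hjl hj hl hW (essFiniteType_fld x) hr (yv_restr hx)
    (by rw [trdeg_fld_restr]; exact hr) ?_ h
  intro h0
  apply hne
  have h1 := congrArg (algebraMap (fld k x) N) h0
  rw [map_add, map_mul, map_mul, map_zero, ← IsScalarTower.algebraMap_apply k (fld k x) N,
    ← IsScalarTower.algebraMap_apply k (fld k x) N] at h1
  have h2 : algebraMap (fld k x) N ((restr k x j).getD 0) = (x j).getD 0 := coe_restr x j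
  have h3 : algebraMap (fld k x) N ((restr k x l).getD 0) = (x l).getD 0 := coe_restr x l
  rw [h2, h3] at h1
  exact h1

end divB

end Pool.Agent.Helper19.KL

/-!
Project KL (MP_0b9e0b_ag), cycles of codimension two: a bound by the number of points; the field of
rational functions in the coordinates outside two indices.
-/

namespace Pool.Agent.Helper19.KL

open Pool.Agent.Helper16 Pool.Agent.Helper1.KL

section rank

variable {F σ : Type} [Field F] {V : Var F σ} {P : VarF F σ} {r : ℕ}

/-- If all points of dimension `r` are in the finite set `K` and every point is a combination of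
the others, then the dimension is less than the number of elements of `K`. -/
theorem rank_keys (K : Finset (Key F σ))
    (hK : ∀ (N : Type) [Field N] [Algebra F N] (x : σ → Option N), V N x →
      Algebra.trdeg F (fld F x) = r → key F x ∈ K)
    (hdiv : ∀ (N : Type) [Field N] [Algebra F N] (x : σ → Option N), V N x →
      Algebra.trdeg F (fld F x) = r → ∀ W : Submodule ℚ (Key F σ →₀ ℚ), rat V P r ≤ W →
      (∀ (M : Type) [Field M] [Algebra F M] (y : σ → Option M), V M y →
        Algebra.trdeg F (fld F y) = r → key F y = key F x ∨ Finsupp.single (key F y) 1 ∈ W) →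
      Finsupp.single (key F x) 1 ∈ W) :
    Module.rank ℚ (CH V P r) ≤ ((K.card - 1 : ℕ) : Cardinal.{0}) := by
  classical
  by_cases hex : ∃ (N : Type) (_ : Field N) (_ : Algebra F N) (x : σ → Option N),
      V N x ∧ Algebra.trdeg F (fld F x) = r
  · obtain ⟨N0, _, _, x0, hx0, hr0⟩ := hex
    have h0 := hK N0 x0 hx0 hr0
    set K' := (K.erase (key F x0)).image fun Q => (Finsupp.single Q 1 : Key F σ →₀ ℚ) with hK'
    have hmem : ∀ Q ∈ K, Q ≠ key F x0 →
        (Finsupp.single Q 1 : Key F σ →₀ ℚ) ∈ rat V P r ⊔ Submodule.span ℚ (K' : Set _) := by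
      intro Q hQ hne
      refine Submodule.mem_sup_right (Submodule.subset_span ?_)
      rw [hK', Finset.mem_coe, Finset.mem_image]
      exact ⟨Q, Finset.mem_erase.2 ⟨hne, hQ⟩, rfl⟩
    have h1 : cyc V r ≤ rat V P r ⊔ Submodule.span ℚ (K' : Set _) := by
      refine cyc_le fun N _ _ x hx hr => ?_
      by_cases hxk : key F x = key F x0
      · refine hdiv N x hx hr _ le_sup_left fun M _ _ y hy hyr => ?_
        by_cases hyk : key F y = key F x0
        · exact Or.inl (hyk.trans hxk.symm)
        · exact Or.inr (hmem _ (hK M y hy hyr) hyk)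
      · exact hmem _ (hK N x hx hr) hxk
    refine (rank_le_of h1).trans ?_
    refine (rank_span_finset_le K').trans ?_
    rw [Nat.cast_le]
    refine Finset.card_image_le.trans ?_
    rw [Finset.card_erase_of_mem h0]
  · rw [rank_zero_of fun N _ _ x hx hr => (hex ⟨N, inferInstance, inferInstance, x, hx, hr⟩).elim]
    exact bot_le

end rank

section field

variable (k : Type) [Field k] {n : ℕ} (j l : Fin n)

/-- The indices different from `j` and `l`. -/
abbrev E2 (j l : Fin n) : Type := {m : Fin n // m ≠ j ∧ m ≠ l}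

/-- Rational functions in the variables with an index in `E2 j l`. -/
abbrev L2 : Type := FractionRing (MvPolynomial (E2 j l) k)

open scoped Classical in
/-- The variables; `0` for the two other indices. -/
noncomputable def u2 (m : Fin n) : L2 k j l :=
  if h : m ≠ j ∧ m ≠ l then algebraMap (MvPolynomial (E2 j l) k) (L2 k j l)
    (MvPolynomial.X ⟨m, h⟩) else 0

variable {k j l}

theorem u2_of (m : E2 j l) : u2 k j l m.1 =
    algebraMap (MvPolynomial (E2 j l) k) (L2 k j l) (MvPolynomial.X m) := by
  unfold u2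
  rw [dif_pos m.2]

theorem u2_ne {m : Fin n} (h : m ≠ j ∧ m ≠ l) : u2 k j l m ≠ 0 := by
  rw [u2_of ⟨m, h⟩, Ne, IsFractionRing.to_map_eq_zero_iff]
  exact MvPolynomial.X_ne_zero _

theorem u2_j : u2 k j l j = 0 := by
  unfold u2
  rw [dif_neg (by simp)]

theorem u2_l : u2 k j l l = 0 := by
  unfold u2
  rw [dif_neg (by simp)]

/-- The embedding given by independent elements. -/
theorem exists_phi {N : Type} [Field N] [Algebra k N] {c : E2 j l → N}
    (hc : AlgebraicIndependent k c) : ∃ φ : L2 k j l →ₐ[k] N, ∀ m : E2 j l, φ (u2 k j l m.1) = c m := by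
  have hinj : Function.Injective (MvPolynomial.aeval (R := k) c) := hc
  refine ⟨IsFractionRing.liftAlgHom hinj, fun m => ?_⟩
  rw [u2_of, IsFractionRing.liftAlgHom_apply, IsFractionRing.lift_algebraMap]
  exact MvPolynomial.aeval_X c m

variable (k) in
/-- The homomorphism into the field of rational functions in one variable over `L2` given by
`e / s` times the variable for the coordinate with index `o`. -/
theorem exists_theta {o : Fin n} (ho : o ≠ j ∧ o ≠ l) {s : k} (hs : s ≠ 0) :
    ∃ θ : L2 k j l →+* RatFunc (L2 k j l),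
      (∀ a : k, θ (algebraMap k _ a) = RatFunc.C (algebraMap k _ a)) ∧
      θ (u2 k j l o) = RatFunc.C (algebraMap k _ s⁻¹) * RatFunc.X ∧
      ∀ m, m ≠ o → θ (u2 k j l m) = RatFunc.C (u2 k j l m) := by
  classical
  let g : MvPolynomial (E2 j l) k →ₐ[k] Polynomial (L2 k j l) := MvPolynomial.aeval fun m =>
    if m.1 = o then Polynomial.C (algebraMap k _ s⁻¹) * Polynomial.X else
      Polynomial.C (u2 k j l m.1)
  have hg : Function.Injective g := by
    let ev : Polynomial (L2 k j l) →ₐ[k] L2 k j l :=
      (Polynomial.aeval (algebraMap k _ s * u2 k j l o)).restrictScalars k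
    have h1 : ev.comp g = IsScalarTower.toAlgHom k (MvPolynomial (E2 j l) k) (L2 k j l) := by
      refine MvPolynomial.algHom_ext fun m => ?_
      rw [AlgHom.comp_apply]
      simp only [g, MvPolynomial.aeval_X]
      change _ = algebraMap (MvPolynomial (E2 j l) k) (L2 k j l) (MvPolynomial.X m)
      rw [← u2_of]
      by_cases hm : m.1 = o
      · rw [if_pos hm, hm]
        simp only [ev, AlgHom.restrictScalars_apply, map_mul, Polynomial.aeval_C,
          Polynomial.aeval_X]
        rw [Algebra.algebraMap_self, RingHom.id_apply, ← mul_assoc, ← map_mul,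
          inv_mul_cancel₀ hs, map_one, one_mul]
      · rw [if_neg hm]
        simp only [ev, AlgHom.restrictScalars_apply, Polynomial.aeval_C]
        rfl
    have h2 : Function.Injective (ev.comp g) := by
      rw [h1]
      exact IsFractionRing.injective (MvPolynomial (E2 j l) k) (L2 k j l)
    exact fun a c h => h2 (by rw [AlgHom.comp_apply, AlgHom.comp_apply, h])
  have hG : Function.Injective ((algebraMap (Polynomial (L2 k j l)) (RatFunc (L2 k j l))).comp
      (g : MvPolynomial (E2 j l) k →+* Polynomial (L2 k j l))) :=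
    (RatFunc.algebraMap_injective _).comp hg
  have hGa : ∀ P : MvPolynomial (E2 j l) k,
      ((algebraMap (Polynomial (L2 k j l)) (RatFunc (L2 k j l))).comp
        (g : MvPolynomial (E2 j l) k →+* Polynomial (L2 k j l))) P =
      algebraMap (Polynomial (L2 k j l)) (RatFunc (L2 k j l)) (g P) := fun P => rfl
  refine ⟨IsFractionRing.lift hG, fun a => ?_, ?_, fun m hm => ?_⟩
  · rw [IsScalarTower.algebraMap_apply k (MvPolynomial (E2 j l) k) (L2 k j l),
      IsFractionRing.lift_algebraMap, hGa]
    rw [AlgHom.commutes, IsScalarTower.algebraMap_apply k (L2 k j l) (Polynomial (L2 k j l)),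
      Polynomial.algebraMap_eq, RatFunc.algebraMap_C,
      IsScalarTower.algebraMap_apply k (MvPolynomial (E2 j l) k) (L2 k j l)]
  · rw [u2_of ⟨o, ho⟩, IsFractionRing.lift_algebraMap, hGa]
    simp only [g, MvPolynomial.aeval_X, if_pos, map_mul, RatFunc.algebraMap_C,
      RatFunc.algebraMap_X]
  · by_cases h : m ≠ j ∧ m ≠ l
    · rw [u2_of ⟨m, h⟩, IsFractionRing.lift_algebraMap, hGa]
      simp only [g, MvPolynomial.aeval_X, if_neg hm, RatFunc.algebraMap_C]
      rw [u2_of ⟨m, h⟩]
    · have h0 : u2 k j l m = 0 := by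
        unfold u2
        rw [dif_neg h]
      rw [h0, map_zero, map_zero]

end field

end Pool.Agent.Helper19.KL
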