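import Pool.Agent.Helper19.KL.C7
import Pool.Agent.HC.Same

set_option autoImplicit false
set_option linter.unusedSectionVars false

/-!
Project KL (MP_0b9e0b_ag), cycles of codimension two: two nonzero coefficients, all coordinates
finite.
-/

namespace Pool.Agent.Helper19.KL

open Pool.Agent.Helper16 Pool.Agent.Helper1.KL

section hyp

variable {k N N' : Type} [Field k] [Field N] [Algebra k N] [Field N'] [Algebra k N']
  {ι : Type} [Fintype ι]

theorem tdeg_of_indep {c : ι → N} (hc : AlgebraicIndependent k c) :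
    HC.tdeg k (Set.range c) = Fintype.card ι := by
  let e := Fintype.equivFin ι
  have h1 : AlgebraicIndependent k fun a => c (e.symm a) := hc.comp _ e.symm.injective
  have h2 := HC.tdeg_range_of_indep h1
  have h3 : Set.range (fun a => c (e.symm a)) = Set.range c := e.symm.surjective.range_comp c
  rw [← h3, h2]

theorem indep_of_le_tdeg {c : ι → N} (h : Fintype.card ι ≤ HC.tdeg k (Set.range c)) :
    AlgebraicIndependent k c := by
  refine indep_of_trdeg_adjoin c ?_
  rw [HC.tdeg_spec (Set.finite_range c), Nat.cast_le]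
  exact h

/-- A point of codimension one in affine space is determined by an irreducible equation. -/
theorem same_ker {f : MvPolynomial ι k} (hf : Prime f) {c : ι → N} {c' : ι → N'}
    (h : MvPolynomial.aeval c f = 0) (h' : MvPolynomial.aeval c' f = 0)
    (hd : Fintype.card ι ≤ HC.tdeg k (Set.range c) + 1)
    (hd' : Fintype.card ι ≤ HC.tdeg k (Set.range c') + 1) (P : MvPolynomial ι k) :
    MvPolynomial.aeval c P = 0 ↔ MvPolynomial.aeval c' P = 0 := by
  have hprime : (Ideal.span {f}).IsPrime := (Ideal.span_singleton_prime hf.ne_zero).2 hf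
  let D := MvPolynomial ι k ⧸ Ideal.span {f}
  have : IsDomain D := Ideal.Quotient.isDomain _
  let K0 := FractionRing D
  let c0 : ι → K0 := fun i => algebraMap D K0 (Ideal.Quotient.mk _ (MvPolynomial.X i))
  have hc0 : ∀ Q : MvPolynomial ι k, MvPolynomial.aeval c0 Q =
      algebraMap D K0 (Ideal.Quotient.mk _ Q) := by
    intro Q
    have h1 : (MvPolynomial.aeval c0 : MvPolynomial ι k →ₐ[k] K0) =
        (IsScalarTower.toAlgHom k D K0).comp (Ideal.Quotient.mkₐ k (Ideal.span {f})) := by
      refine MvPolynomial.algHom_ext fun i => ?_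
      rw [MvPolynomial.aeval_X]
      rfl
    rw [h1]
    rfl
  have hker : ∀ Q : MvPolynomial ι k, MvPolynomial.aeval c0 Q = 0 ↔ f ∣ Q := by
    intro Q
    rw [hc0, IsFractionRing.to_map_eq_zero_iff, Ideal.Quotient.eq_zero_iff_mem,
      Ideal.mem_span_singleton]
  have hlt : HC.tdeg k (Set.range c0) < Fintype.card ι := by
    by_contra hcon
    push Not at hcon
    have h1 : Function.Injective (MvPolynomial.aeval (R := k) c0) := indep_of_le_tdeg hcon
    exact hf.ne_zero (h1 (by rw [(hker f).2 dvd_rfl, map_zero]))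
  have key : ∀ {M : Type} [Field M] [Algebra k M] {d : ι → M}, MvPolynomial.aeval d f = 0 →
      Fintype.card ι ≤ HC.tdeg k (Set.range d) + 1 →
      (MvPolynomial.aeval c0 P = 0 ↔ MvPolynomial.aeval d P = 0) := by
    intro M _ _ d hd0 hdt
    refine HC.ker_le_of_tdeg c0 d (fun Q hQ => ?_) (by omega) P
    obtain ⟨R, rfl⟩ := (hker Q).1 hQ
    rw [map_mul, hd0, zero_mul]
  rw [← key h hd, key h' hd']

theorem exists_prime {c : ι → N} (h : HC.tdeg k (Set.range c) < Fintype.card ι) :
    ∃ f : MvPolynomial ι k, Prime f ∧ MvPolynomial.aeval c f = 0 := by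
  have h1 : RingHom.ker (MvPolynomial.aeval (R := k) c) ≠ ⊥ := by
    intro h0
    have h2 : Function.Injective (MvPolynomial.aeval (R := k) c) :=
      (RingHom.injective_iff_ker_eq_bot _).2 h0
    have h3 := tdeg_of_indep (k := k) (c := c) h2
    omega
  obtain ⟨f, hf, hp⟩ := (RingHom.ker_isPrime
    (MvPolynomial.aeval (R := k) c)).exists_mem_prime_of_ne_bot h1
  exact ⟨f, hp, hf⟩

omit [Fintype ι] in
theorem transc_add (S : Set (RatFunc N)) (hS : ∀ a ∈ S, ∃ c : N, algebraMap N (RatFunc N) c = a)
    (c0 : N) : Transcendental (IntermediateField.adjoin k S)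
      (algebraMap N (RatFunc N) c0 + RatFunc.X) := by
  let φ : N →ₐ[k] RatFunc N := IsScalarTower.toAlgHom k N (RatFunc N)
  have hle : IntermediateField.adjoin k S ≤ φ.fieldRange := by
    rw [IntermediateField.adjoin_le_iff]
    intro a ha
    obtain ⟨c, hc⟩ := hS a ha
    exact ⟨c, hc⟩
  let e : N ≃ₐ[k] φ.fieldRange := AlgEquiv.ofInjectiveField φ
  let g : IntermediateField.adjoin k S →ₐ[k] N :=
    (e.symm : φ.fieldRange →ₐ[k] N).comp (IntermediateField.inclusion hle)
  have hg : ∀ a, algebraMap N (RatFunc N) (g a) = a.1 := by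
    intro a
    have h1 : (e (g a)).1 = a.1 := by
      change (e (e.symm (IntermediateField.inclusion hle a))).1 = a.1
      rw [AlgEquiv.apply_symm_apply]
      rfl
    exact h1
  rintro ⟨P, hP, h0⟩
  have h1 : IsAlgebraic N (algebraMap N (RatFunc N) c0 + RatFunc.X) := by
    refine ⟨P.map g.toRingHom, ?_, ?_⟩
    · rw [Ne, Polynomial.map_eq_zero]
      exact hP
    · rw [Polynomial.aeval_def, Polynomial.eval₂_map]
      rw [Polynomial.aeval_def] at h0
      rw [← h0]
      congr 1
      ext a
      exact hg a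
  have h2 : IsAlgebraic N (RatFunc.X : RatFunc N) := by
    have := h1.sub (isAlgebraic_algebraMap (R := N) (A := RatFunc N) c0)
    rwa [add_sub_cancel_left] at this
  exact RatFunc.transcendental_X h2

/-- Moving one coordinate. -/
theorem exists_move {c : ι → N} (h : HC.tdeg k (Set.range c) + 1 = Fintype.card ι) :
    ∃ i0 : ι, ∀ z : ι → RatFunc N, (∀ i, i ≠ i0 → z i = algebraMap N (RatFunc N) (c i)) →
      z i0 = algebraMap N (RatFunc N) (c i0) + RatFunc.X → AlgebraicIndependent k z := by
  have htr := HC.tdeg_spec (K := k) (Set.finite_range c)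
  obtain ⟨e, he⟩ := HC.exists_indep_sub c htr
  have hei : Function.Injective e := fun a b hab => he.injective (by simp only [hab])
  have hns : ¬ Function.Surjective e := by
    intro hs
    have := Fintype.card_of_bijective (f := e) ⟨hei, hs⟩
    rw [Fintype.card_fin] at this
    omega
  unfold Function.Surjective at hns
  push Not at hns
  obtain ⟨i0, hi0⟩ := hns
  refine ⟨i0, fun z hz hz0 => indep_of_le_tdeg ?_⟩
  set S : Set (RatFunc N) := Set.range fun a => z (e a) with hS
  have h1 : ∀ a, z (e a) = algebraMap N (RatFunc N) (c (e a)) := fun a => hz _ (hi0 a)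
  have h2 : AlgebraicIndependent k fun a => z (e a) := by
    have h3 := he.map' (f := IsScalarTower.toAlgHom k N (RatFunc N))
      (algebraMap N (RatFunc N)).injective
    have h4 : (fun a => z (e a)) = (IsScalarTower.toAlgHom k N (RatFunc N)) ∘ fun a => c (e a) := by
      funext a
      rw [h1 a]
      rfl
    rw [h4]
    exact h3
  have h3 : HC.tdeg k S = HC.tdeg k (Set.range c) := by
    rw [hS, tdeg_of_indep h2, Fintype.card_fin]
  have h4 : Transcendental (IntermediateField.adjoin k S) (z i0) := by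
    rw [hz0]
    refine transc_add S ?_ _
    rintro _ ⟨a, rfl⟩
    exact ⟨c (e a), (h1 a).symm⟩
  have h5 : HC.tdeg k (insert (z i0) S) = HC.tdeg k S + 1 :=
    HC.tdeg_insert_of_transcendental (Set.finite_range fun a => z (e a)) h4
  have h6 : insert (z i0) S ⊆ Set.range z := by
    rintro _ (rfl | ⟨a, rfl⟩)
    · exact ⟨i0, rfl⟩
    · exact ⟨e a, rfl⟩
  have h7 := HC.tdeg_mono' (K := k) (Set.finite_range z) h6
  omega

end hyp

section two

variable {k : Type} [Field k] {p : ℕ} [Fact p.Prime] [CharP k p] {n : ℕ} {b : Fin n → k}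
  {τ : Fin n → Option (ZMod p)}

theorem at0_aeval {N : Type} [Field N] [Algebra k N] {ι : Type} {g : ι → RatFunc N} {a : ι → N}
    (h : ∀ m, At0 (g m) (a m)) (P : MvPolynomial ι k) :
    At0 (MvPolynomial.aeval g P) (MvPolynomial.aeval a P) := by
  induction P using MvPolynomial.induction_on with
  | C c =>
    rw [MvPolynomial.aeval_C, MvPolynomial.aeval_C, IsScalarTower.algebraMap_apply k N (RatFunc N)]
    exact at0_const _
  | add P Q hP hQ =>
    rw [map_add, map_add]
    exact at0_add hP hQ
  | mul_X P m hP =>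
    rw [map_mul, map_mul, MvPolynomial.aeval_X, MvPolynomial.aeval_X]
    exact at0_mul hP (h m)

/-- Points, if there are two nonzero coefficients. -/
theorem yv_two_of {i j : Fin n} (hij : i ≠ j) (hI : IT τ = Finset.univ) (hi : coef τ i ≠ 0)
    (hj : coef τ j ≠ 0) (hS : ∀ m, m ≠ i → m ≠ j → coef τ m = 0)
    (hcond : cf k τ i ^ 2 * b i = cf k τ j ^ 2 * b j) {M : Type} [Field M] [Algebra k M]
    {y : Fin n → Option M} (hne : ∀ m, ∃ a, a ≠ 0 ∧ y m = some a)
    (h : ym k τ y i + ym k τ y j = 0) : YV b τ M y := by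
  have hcoef : ∀ m : Fin n, ((coef τ m : ℕ) : M) = algebraMap k M (cf k τ m) := fun m => by
    rw [map_natCast]
  have hne' : ∀ m, (y m).getD 0 ≠ 0 := fun m => by
    obtain ⟨a, ha, hym⟩ := hne m
    rw [hym]
    exact ha
  refine ⟨⟨fun m hm => ?_, fun m _ => hne m, ?_⟩, ?_⟩
  · exact absurd hm (mem_IT.1 (by rw [hI]; exact Finset.mem_univ m))
  · rw [sum_split hij, Finset.sum_eq_zero, add_zero]
    · rw [hcoef, hcoef]
      exact h
    · intro m hm
      rw [Finset.mem_sdiff, Finset.mem_insert, Finset.mem_singleton] at hm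
      push Not at hm
      rw [hS m hm.2.1 hm.2.2, Nat.cast_zero, zero_mul]
  · unfold Bfun
    rw [sum_split hij, Finset.sum_eq_zero, add_zero]
    · rw [hcoef, hcoef]
      have h1 := congrArg (algebraMap k M) hcond
      simp only [map_mul, map_pow] at h1
      have hci : algebraMap k M (cf k τ i) ≠ 0 := by rw [Ne, map_eq_zero]; exact cf_ne hi
      have hcj : algebraMap k M (cf k τ j) ≠ 0 := by rw [Ne, map_eq_zero]; exact cf_ne hj
      have hyi := hne' i
      have hyj := hne' j
      unfold ym at h
      generalize algebraMap k M (cf k τ i) = s at h h1 hci ⊢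
      generalize algebraMap k M (cf k τ j) = t at h h1 hcj ⊢
      generalize (y i).getD 0 = u at h hyi ⊢
      generalize (y j).getD 0 = v at h hyj ⊢
      field_simp
      have h2 : t * (s * algebraMap k M (b i) * v + t * algebraMap k M (b j) * u) = 0 := by
        linear_combination (s * algebraMap k M (b i)) * h - u * h1
      have h3 := (mul_eq_zero.1 h2).resolve_left hcj
      linear_combination h3
    · intro m hm
      rw [Finset.mem_sdiff, Finset.mem_insert, Finset.mem_singleton] at hm
      push Not at hm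
      rw [hS m hm.2.1 hm.2.2, Nat.cast_zero, zero_mul, zero_mul]

theorem key_of_ker {N N' : Type} [Field N] [Algebra k N] [Field N'] [Algebra k N'] {σ ι : Type}
    (s : σ → MvPolynomial ι k) {c : ι → N} {c' : ι → N'}
    (hker : ∀ P : MvPolynomial ι k, MvPolynomial.aeval c P = 0 ↔ MvPolynomial.aeval c' P = 0)
    {x : σ → Option N} {x' : σ → Option N'} (hx : ∀ m, (x m).getD 0 = MvPolynomial.aeval c (s m))
    (hx' : ∀ m, (x' m).getD 0 = MvPolynomial.aeval c' (s m))
    (hn : ∀ m, x m = none ↔ x' m = none) : key k x = key k x' := by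
  rw [key_eq_iff]
  refine ⟨hn, fun P => ?_⟩
  have h1 : (fun j => (x j).getD 0) = fun m => MvPolynomial.aeval c (s m) := funext hx
  have h2 : (fun j => (x' j).getD 0) = fun m => MvPolynomial.aeval c' (s m) := funext hx'
  rw [h1, h2, ← MvPolynomial.comp_aeval_apply s (MvPolynomial.aeval (R := k) c) P,
    ← MvPolynomial.comp_aeval_apply s (MvPolynomial.aeval (R := k) c') P]
  exact hker _

theorem ym_pair {N : Type} [Field N] [Algebra k N] {i j : Fin n} (hij : i ≠ j)
    (hS : ∀ m, m ≠ i → m ≠ j → coef τ m = 0) {x : Fin n → Option N} (hx : YV b τ N x) :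
    ym k τ x i + ym k τ x j = 0 := by
  have h1 := yv_sum1 hx
  rw [sum_split hij, Finset.sum_eq_zero, add_zero] at h1
  · exact h1
  · intro m hm
    rw [Finset.mem_sdiff, Finset.mem_insert, Finset.mem_singleton] at hm
    push Not at hm
    unfold ym cf
    rw [hS m hm.2.1 hm.2.2, Nat.cast_zero, map_zero, zero_mul]

theorem tdeg_S2 {N : Type} [Field N] [Algebra k N] {i j : Fin n} (hij : i ≠ j)
    (hj : coef τ j ≠ 0) (hS : ∀ m, m ≠ i → m ≠ j → coef τ m = 0)
    {x : Fin n → Option N} (hx : YV b τ N x) {d : ℕ} (hr : Algebra.trdeg k (fld k x) = d) :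
    HC.tdeg k (Set.range fun m : {m : Fin n // m ∉ ({j} : Finset (Fin n))} => (x m.1).getD 0) =
      d := by
  have hmem : ∀ m ∈ ({j} : Finset (Fin n)), (x m).getD 0 ∈ GF k x ({j} : Finset (Fin n)) := by
    intro m hm
    rw [Finset.mem_singleton] at hm
    subst hm
    refine FF_le_GF (rel_mem (τ := τ) (U := {i, m}) (by simp) hj
      (by rw [Finset.sum_pair hij]; exact ym_pair hij hS hx) fun m' hm' hne => ?_)
    rw [Finset.mem_insert, Finset.mem_singleton] at hm'
    rcases hm' with rfl | rfl
    · exact mem_FF (by simp [hij])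
    · exact absurd rfl hne
  apply le_antisymm
  · have h1 : HC.tdeg k (Set.range fun m => (x m).getD 0) = d := by
      rw [HC.tdeg_eq_iff (Set.finite_range _), ← fld_eq_range, hr]
    rw [← h1]
    refine HC.tdeg_mono' (Set.finite_range _) ?_
    rintro _ ⟨m, rfl⟩
    exact ⟨m.1, rfl⟩
  · have h1 := tdeg_le_of_alg (k := k) (x := x) (Set.finite_range fun m : {m : Fin n // m ∉
      ({j} : Finset (Fin n))} => (x m.1).getD 0) (all_alg hmem)
    rw [hr, Nat.cast_le] at h1
    exact h1

/-- Codimension one in the linear space. -/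
theorem mem_S2_own {i j : Fin n} (hij : i ≠ j) (hI : IT τ = Finset.univ) (hi : coef τ i ≠ 0)
    (hj : coef τ j ≠ 0) (hS : ∀ m, m ≠ i → m ≠ j → coef τ m = 0)
    (hcond : cf k τ i ^ 2 * b i = cf k τ j ^ 2 * b j) {E : Type} [Field E] [Algebra k E]
    (hE : Algebra.EssFiniteType k E) (hr : Algebra.trdeg k E = (n - 2 : ℕ))
    {x : Fin n → Option E} (hx : YV b τ E x) (hxr : Algebra.trdeg k (fld k x) = (n - 2 : ℕ)) :
    Finsupp.single (key k x) 1 ∈ rat (YV b τ) (PY b τ) (n - 2) := by
  classical
  have hn : 2 ≤ n := by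
    have := Finset.card_le_univ ({i, j} : Finset (Fin n))
    rw [Finset.card_pair hij, Fintype.card_fin] at this
    exact this
  have hcj : ∀ {M : Type} [Field M] [Algebra k M], algebraMap k M (cf k τ j) ≠ 0 := by
    intro M _ _
    rw [Ne, map_eq_zero]
    exact cf_ne hj
  have hi' : i ∉ ({j} : Finset (Fin n)) := by simp [hij]
  let c : {m : Fin n // m ∉ ({j} : Finset (Fin n))} → E := fun m => (x m.1).getD 0
  have hcard : Fintype.card {m : Fin n // m ∉ ({j} : Finset (Fin n))} = n - 1 := by
    rw [card_compl, Finset.card_singleton]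
  have htd : HC.tdeg k (Set.range c) = n - 2 := tdeg_S2 hij hj hS hx hxr
  obtain ⟨f, hf, hf0⟩ := exists_prime (k := k) (c := c) (by rw [htd, hcard]; omega)
  obtain ⟨i0, hi0⟩ := exists_move (k := k) (c := c) (by rw [htd, hcard]; omega)
  -- the moving point
  let w : Fin n → RatFunc E := fun m => algebraMap E (RatFunc E) ((x m).getD 0) +
    if m = i0.1 then RatFunc.X else 0
  let z' : Fin n → Option (RatFunc E) := fun m =>
    some (if m = j then algebraMap k _ (-(cf k τ i) / cf k τ j) * w i else w m)
  have hw0 : ∀ m, At0 (w m) ((x m).getD 0) := by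
    intro m
    have h1 : At0 (if m = i0.1 then RatFunc.X else 0 : RatFunc E) 0 := by
      by_cases h : m = i0.1
      · rw [if_pos h]
        exact at0_X
      · rw [if_neg h]
        have := at0_const (0 : E)
        rwa [map_zero] at this
    have h2 := at0_add (at0_const ((x m).getD 0)) h1
    rwa [add_zero] at h2
  have hz0 : ∀ m, At0 ((z' m).getD 0) ((x m).getD 0) := by
    intro m
    simp only [z', Option.getD_some]
    by_cases h : m = j
    · rw [if_pos h, h]
      have h1 := at0_mul (at0_const (algebraMap k E (-(cf k τ i) / cf k τ j))) (hw0 i)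
      rw [← IsScalarTower.algebraMap_apply k E (RatFunc E)] at h1
      have h2 : algebraMap k E (-(cf k τ i) / cf k τ j) * (x i).getD 0 = (x j).getD 0 := by
        have h3 := ym_pair hij hS hx
        unfold ym at h3
        have := hcj (M := E)
        rw [map_div₀, map_neg]
        field_simp
        linear_combination -h3
      rwa [h2] at h1
    · rw [if_neg h]
      exact hw0 m
  have hxne : ∀ m, (x m).getD 0 ≠ 0 := fun m => yv_ne hx (by rw [hI]; exact Finset.mem_univ m)
  have hz'Y : YV b τ (RatFunc E) z' := by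
    refine yv_two_of hij hI hi hj hS hcond (fun m => ⟨_, ?_, rfl⟩) ?_
    · have := at0_ne (hxne m) (hz0 m)
      exact this
    · unfold ym
      simp only [z', Option.getD_some, if_neg hij, if_pos]
      rw [map_div₀, map_neg]
      have := hcj (M := RatFunc E)
      field_simp
      ring
  let z : {m : Fin n // m ∉ ({j} : Finset (Fin n))} → RatFunc E := fun m => (z' m.1).getD 0
  have hzw : ∀ m, z m = w m.1 := by
    intro m
    have hm : m.1 ≠ j := fun h => m.2 (by rw [h]; exact Finset.mem_singleton_self j)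
    simp only [z, z', Option.getD_some, if_neg hm]
  have hind : AlgebraicIndependent k z := by
    refine hi0 z (fun m hm => ?_) ?_
    · rw [hzw]
      have : m.1 ≠ i0.1 := fun h => hm (Subtype.ext h)
      simp only [w, if_neg this, add_zero, c]
    · rw [hzw]
      simp only [w, if_pos, c]
  have hf' : MvPolynomial.aeval z f ≠ 0 := by
    intro h0
    exact hf.ne_zero (hind (by rw [h0, map_zero]))
  have hf0' : At0 (MvPolynomial.aeval z f) 0 := by
    have h1 := at0_aeval (g := z) (a := c) (fun m => hz0 m.1) f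
    rw [hf0] at h1
    exact h1
  let s : Fin n → MvPolynomial {m : Fin n // m ∉ ({j} : Finset (Fin n))} k := fun m =>
    if h : m ∉ ({j} : Finset (Fin n)) then MvPolynomial.X ⟨m, h⟩ else
      MvPolynomial.C (-(cf k τ i) / cf k τ j) * MvPolynomial.X ⟨i, hi'⟩
  have hs : ∀ {M : Type} [Field M] [Algebra k M] {y : Fin n → Option M}, YV b τ M y →
      ∀ m, (y m).getD 0 = MvPolynomial.aeval
        (fun m : {m : Fin n // m ∉ ({j} : Finset (Fin n))} => (y m.1).getD 0) (s m) := by
    intro M _ _ y hy m
    by_cases hm : m ∈ ({j} : Finset (Fin n))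
    · simp only [s, dif_neg (not_not.2 hm)]
      rw [Finset.mem_singleton] at hm
      rw [hm, map_mul, MvPolynomial.aeval_C, MvPolynomial.aeval_X, map_div₀, map_neg]
      have h3 := ym_pair hij hS hy
      unfold ym at h3
      have := hcj (M := M)
      field_simp
      linear_combination h3
    · simp only [s, dif_pos hm, MvPolynomial.aeval_X]
  refine homK (V := YV b τ) (P := PY b τ) hE hr hxr (fun N' _ _ φ => yv_map hx φ)
    (z' := z') (f := MvPolynomial.aeval z f) (Or.inl hz'Y) hf' (fun m hm => ?_)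
    (fun m a hm => ⟨_, rfl, ?_⟩) hf0' le_rfl fun v hv hw hwr => Or.inl ?_
  · obtain ⟨a, ha, hxm⟩ := yv_fin hx (mem_IT.1 (by rw [hI]; exact Finset.mem_univ m))
    rw [hxm] at hm
    exact absurd hm (Option.some_ne_none _)
  · have := hz0 m
    rw [hm] at this
    exact this
  · have hsp : ∀ m, (z' m).getD 0 ∈ v.ring ∧ (spec v z' m).getD 0 = v.res ((z' m).getD 0) := by
      intro m
      obtain ⟨a, ha, hwm⟩ := yv_fin hw (mem_IT.1 (by rw [hI]; exact Finset.mem_univ m))
      obtain ⟨h2, h3⟩ := spec_some v (z := z') (j := m) rfl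
        (by rw [hwm]; exact Option.some_ne_none _)
      exact ⟨h2, by rw [h3]; rfl⟩
    obtain ⟨h4, h5⟩ := HC.aeval_res' (k₀ := k) v (z := z) (fun m => (hsp m.1).1) f
    have h6 : 0 < v.ord (MvPolynomial.aeval z f) := by
      have := (v.ord_nonneg_iff hf').2 ((v.mem_ring _).1 h4)
      omega
    refine ⟨?_, h6⟩
    have h7 : v.res (MvPolynomial.aeval z f) = 0 :=
      (v.res_eq_zero_iff h4).2 ((v.ord_pos_iff hf').1 h6)
    rw [h5] at h7
    have h8 : (fun m => v.res (z m)) = fun m : {m : Fin n // m ∉ ({j} : Finset (Fin n))} =>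
        (spec v z' m.1).getD 0 := by
      funext m
      exact (hsp m.1).2.symm
    rw [h8] at h7
    have htd' := tdeg_S2 hij hj hS hw hwr
    exact key_of_ker s (same_ker hf h7 hf0 (by rw [htd', hcard]; omega)
      (by rw [htd, hcard]; omega)) (hs hw) (hs hx) (yv_none hw hx)

theorem mem_S2 {i j : Fin n} (hij : i ≠ j) (hI : IT τ = Finset.univ) (hi : coef τ i ≠ 0)
    (hj : coef τ j ≠ 0) (hS : ∀ m, m ≠ i → m ≠ j → coef τ m = 0)
    (hcond : cf k τ i ^ 2 * b i = cf k τ j ^ 2 * b j) {N : Type} [Field N] [Algebra k N]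
    {x : Fin n → Option N} (hx : YV b τ N x) (hr : Algebra.trdeg k (fld k x) = (n - 2 : ℕ)) :
    Finsupp.single (key k x) 1 ∈ rat (YV b τ) (PY b τ) (n - 2) := by
  rw [← key_restr]
  exact mem_S2_own hij hI hi hj hS hcond (essFiniteType_fld x) hr (yv_restr hx)
    (by rw [trdeg_fld_restr]; exact hr)

end two

end Pool.Agent.Helper19.KL
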