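import Pool.Agent.Helper19.KL.LDefs

set_option autoImplicit false

/-!
Project KL (MP_0b9e0b_ag): the explicit bounds over finite fields, second version. Definitions.
-/

namespace Pool.Agent.Helper19.KL

open Pool.Agent.Helper1.KL

/-- The number of the involutions of the support of `ρ` without fixed points which preserve the
function `ρ_i ^ 2 b_i`. -/
noncomputable def pairN {k : Type} [Field k] {p n : ℕ} (b : Fin n → k) (ρ : Fin n → ZMod p) : ℕ :=
  Nat.card {σ : Fin n → Fin n // (∀ i, σ (σ i) = i) ∧ (∀ i, σ i = i ↔ ρ i = 0) ∧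
    ∀ i, (((ρ (σ i)).val : ℕ) : k) ^ 2 * b (σ i) = (((ρ i).val : ℕ) : k) ^ 2 * b i}

/-- The sum of `min 2 (pairN b ρ)` over the vectors `ρ` with four nonzero coordinates. -/
noncomputable def quadN {k : Type} [Field k] (p : ℕ) {n : ℕ} (b : Fin n → k) : ℕ :=
  ∑ᶠ ρ ∈ {ρ : Fin n → ZMod p | Nat.card {i // ρ i ≠ 0} = 4}, min 2 (pairN b ρ)

/-- The dimension of the Chow group of cycles of dimension `r` on `X`. -/
noncomputable def dimCHX {k : Type} [Field k] (p : ℕ) {n : ℕ} (b : Fin n → k) (r : ℕ) :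
    Cardinal.{0} :=
  Module.rank ℚ (CHX p b r)

/-- The order of `L` at `1 / q ^ 2`, where `q` is the number of the elements of `k`. -/
noncomputable def ordL (k : Type) (L : Polynomial ℚ) : ℕ :=
  L.rootMultiplicity (((Nat.card k : ℚ) ^ 2)⁻¹)

/-- The bounds for cycles of dimension zero and one and of codimension one and two on `X`, over
a finite field `k`. -/
def Explicit2 {k : Type} [Field k] (p : ℕ) {n : ℕ} (b : Fin n → k) : Prop :=
  dimCHX p b 0 ≤ 1 ∧ (1 ≤ n → dimCHX p b (n - 1) ≤ (n + (p - 1) * isoN p b : ℕ)) ∧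
  ∃ L : Polynomial ℚ, IsLX p b (L : PowerSeries ℚ) ∧
    dimCHX p b 1 ≤ (n + (p - 1) * isoN p b + ordL k L : ℕ) ∧
    (2 ≤ n → dimCHX p b (n - 2) ≤
      (n.choose 2 + (n - 2) * ((p - 1) * isoN p b) + quadN p b + ordL k L : ℕ))

end Pool.Agent.Helper19.KL
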