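import Pool.Agent.Helper19.KL.N12

set_option autoImplicit false

/-!
Project KL (MP_0b9e0b_ag), explicit bounds: a curve through a given point; four or more indices.
-/

namespace Pool.Agent.Helper19.KL

open Pool.Agent.Helper16 Pool.Agent.Helper1.KL

section near

variable {κ M : Type} [Field κ] [Field M] [Algebra κ M] (w : Place κ M)

theorem near_ne {x : M} {x0 : κ} (h0 : x0 ≠ 0) (h : w.val (x - algebraMap κ M x0) < 1) :
    x ≠ 0 := by
  rintro rfl
  rw [zero_sub, Valuation.map_neg, w.triv _ h0] at h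
  exact lt_irrefl _ h

theorem near_val {x : M} {x0 : κ} (h0 : x0 ≠ 0) (h : w.val (x - algebraMap κ M x0) < 1) :
    w.val x = 1 := by
  have h1 : x = (x - algebraMap κ M x0) + algebraMap κ M x0 := by ring
  rw [h1, Valuation.map_add_eq_of_lt_right _ (by rwa [w.triv _ h0]), w.triv _ h0]

theorem near_le {x : M} {x0 : κ} (h : w.val (x - algebraMap κ M x0) < 1) : w.val x ≤ 1 := by
  have h1 : x = (x - algebraMap κ M x0) + algebraMap κ M x0 := by ring
  rw [h1]
  exact (w.val.map_add _ _).trans (max_le h.le (w.val_algebraMap_le _))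

theorem near_res {v : Place κ M} {x : M} {x0 : κ} (h : v.val (x - algebraMap κ M x0) < 1) :
    v.res x = v.res (algebraMap κ M x0) := by
  have h1 : x ∈ v.ring := near_le v h
  have h2 : algebraMap κ M x0 ∈ v.ring := v.ring.algebraMap_mem _
  have h3 := (v.res_eq_zero_iff (sub_mem h1 h2)).2 h
  rw [v.res_sub h1 h2] at h3
  exact sub_eq_zero.1 h3

theorem near_div {x : M} {x0 c : κ} (h0 : x0 ≠ 0) (h : w.val (x - algebraMap κ M x0) < 1) :
    w.val (algebraMap κ M c / x - algebraMap κ M (c / x0)) < 1 := by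
  have hx := near_ne w h0 h
  have hx0 : algebraMap κ M x0 ≠ 0 := by rwa [Ne, map_eq_zero]
  have h1 : algebraMap κ M c / x - algebraMap κ M (c / x0) =
      (x - algebraMap κ M x0) * (x⁻¹ * algebraMap κ M (-(c / x0))) := by
    rw [map_neg, map_div₀]
    field_simp
    ring
  rw [h1, map_mul]
  refine mul_lt_one_of_lt_of_le h ?_
  rw [map_mul, map_inv₀, near_val w h0 h, inv_one, one_mul]
  exact w.val_algebraMap_le _

/-- The symmetric form of the quadratic equation. -/
theorem ql' {A D : RatFunc κ} {y0 z0 β γ : κ} (hy0 : y0 ≠ 0) (hz0 : z0 ≠ 0) (hβ : β ≠ 0)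
    (hγ : γ ≠ 0) (hA : At0 A (y0 + z0)) (hD : At0 D (β / y0 + γ / z0))
    (hne : ¬ (y0 + z0 = 0 ∧ β / y0 + γ / z0 = 0)) :
    ∃ (M : Type) (_ : Field M) (_ : Algebra κ M) (_ : Algebra (RatFunc κ) M)
      (_ : IsScalarTower κ (RatFunc κ) M) (w : Place κ M) (y z : M),
      FiniteDimensional (RatFunc κ) M ∧ w.val (algebraMap (RatFunc κ) M RatFunc.X) < 1 ∧
      y ≠ 0 ∧ z ≠ 0 ∧ y + z = algebraMap (RatFunc κ) M A ∧
      algebraMap κ M β / y + algebraMap κ M γ / z = algebraMap (RatFunc κ) M D ∧
      w.val (y - algebraMap κ M y0) < 1 ∧ w.val (z - algebraMap κ M z0) < 1 := by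
  by_cases h : β / y0 + γ / z0 = 0
  · have h1 : y0 + z0 ≠ 0 := fun h2 => hne ⟨h2, h⟩
    have e1 : β / (β / y0) = y0 := by field_simp
    have e2 : γ / (γ / z0) = z0 := by field_simp
    have hA' : At0 A (β / (β / y0) + γ / (γ / z0)) := by rwa [e1, e2]
    obtain ⟨M, _, _, _, _, w, y, z, h2, h3, h4, h5, h6, h7, h8, h9⟩ := ql (A := D) (D := A)
      (div_ne_zero hβ hy0) (div_ne_zero hγ hz0) hD hA' (by rwa [e1, e2])
    have hβM : algebraMap κ M β ≠ 0 := by rwa [Ne, map_eq_zero]
    have hγM : algebraMap κ M γ ≠ 0 := by rwa [Ne, map_eq_zero]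
    refine ⟨M, inferInstance, inferInstance, inferInstance, inferInstance, w,
      algebraMap κ M β / y, algebraMap κ M γ / z, h2, h3, div_ne_zero hβM h4,
      div_ne_zero hγM h5, h7, ?_, ?_, ?_⟩
    · rw [← h6]
      field_simp
    · have := near_div w (c := β) (div_ne_zero hβ hy0) h8
      rwa [e1] at this
    · have := near_div w (c := γ) (div_ne_zero hγ hz0) h9
      rwa [e2] at this
  · exact ql hy0 hz0 hA hD h

end near

section curve

variable {k : Type} [Field k] {p : ℕ} [Fact p.Prime] [CharP k p] {n : ℕ} {b : Fin n → k}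
  {τ : Fin n → Option (ZMod p)} {N κ : Type} [Field N] [Algebra k N] [Field κ] [Algebra k κ]

open scoped Classical in
/-- The coordinates of the moving point. -/
noncomputable def mpt (c : Fin n → Option κ) (i : Fin n) (o : Fin n) : RatFunc κ :=
  algebraMap κ (RatFunc κ) ((c o).getD 0) + (if o = i then RatFunc.X else 0)

theorem at0_mpt (c : Fin n → Option κ) (i o : Fin n) : At0 (mpt c i o) ((c o).getD 0) := by
  unfold mpt
  have h : At0 ((if o = i then RatFunc.X else 0 : RatFunc κ)) (0 : κ) := by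
    split_ifs
    · exact at0_X
    · have := at0_const (0 : κ)
      rwa [map_zero] at this
  have := at0_add (at0_const ((c o).getD 0)) h
  rwa [add_zero] at this

theorem at0_mpt_inv {c : Fin n → Option κ} {i o : Fin n} (h : (c o).getD 0 = 0 → o ≠ i) :
    At0 (mpt c i o)⁻¹ ((c o).getD 0)⁻¹ := by
  by_cases h0 : (c o).getD 0 = 0
  · have h1 : mpt c i o = 0 := by
      unfold mpt
      rw [h0, if_neg (h h0), map_zero, add_zero]
    rw [h0, h1, inv_zero, inv_zero]
    have := at0_const (0 : κ)
    rwa [map_zero] at this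
  · exact at0_inv h0 (at0_mpt c i o)

theorem sum_split {E : Type} [AddCommGroup E] {j l : Fin n} (hjl : j ≠ l) (f : Fin n → E) :
    ∑ i, f i = (f j + f l) + ∑ i ∈ Finset.univ \ ({j, l} : Finset (Fin n)), f i := by
  classical
  rw [← Finset.sum_pair hjl, add_comm, Finset.sum_sdiff (Finset.subset_univ _)]

theorem mem_curve [Finite k] [FiniteDimensional k κ] (hb : ∀ i, b i ≠ 0) {c : Fin n → Option κ}
    (hc : YV b τ κ c) {i m j l : Fin n} (him : i ≠ m) (hij : i ≠ j) (hil : i ≠ l) (hmj : m ≠ j)
    (hml : m ≠ l) (hjl : j ≠ l) (hi : τ i ≠ none) (hcm : c m = some 1) (hj : coef τ j ≠ 0)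
    (hl : coef τ l ≠ 0)
    (hnd : ¬ ((coef τ j : κ) * (c j).getD 0 + (coef τ l : κ) * (c l).getD 0 = 0 ∧
      (coef τ j : κ) * algebraMap k κ (b j) * ((c j).getD 0)⁻¹ +
        (coef τ l : κ) * algebraMap k κ (b l) * ((c l).getD 0)⁻¹ = 0))
    {x : Fin n → Option N} (hx : YV b τ N x) {a0 : N} (ha0 : Transcendental k a0)
    (φ : κ →ₐ[k] N) (hxc : ∀ o, (x o).getD 0 = φ ((c o).getD 0) * a0) :
    Finsupp.single (key k x) 1 ∈ rat (YV b τ) (PY b τ) 1 := by
  classical
  have hρ : ∀ {o : Fin n}, coef τ o ≠ 0 → (coef τ o : κ) ≠ 0 := by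
    intro o ho
    have h1 := cf_ne (k := k) ho
    have h2 : algebraMap k κ (cf k τ o) ≠ 0 := by rwa [Ne, map_eq_zero]
    rwa [map_natCast] at h2
  have hbκ : ∀ o, algebraMap k κ (b o) ≠ 0 := fun o => by
    rw [Ne, map_eq_zero]
    exact hb o
  obtain ⟨cj, hcj, hcj'⟩ := yv_fin hc (coef_ne hj)
  obtain ⟨cl, hcl, hcl'⟩ := yv_fin hc (coef_ne hl)
  obtain ⟨ci, hci, hci'⟩ := yv_fin hc hi
  -- the right sides
  set T : Finset (Fin n) := Finset.univ \ {j, l} with hT
  obtain ⟨A, hA⟩ : ∃ A : RatFunc κ, A = -∑ o ∈ T, algebraMap κ (RatFunc κ) (coef τ o : κ) *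
    mpt c i o := ⟨_, rfl⟩
  obtain ⟨D, hD⟩ : ∃ D : RatFunc κ, D = -∑ o ∈ T, algebraMap κ (RatFunc κ)
    ((coef τ o : κ) * algebraMap k κ (b o)) * (mpt c i o)⁻¹ := ⟨_, rfl⟩
  have hc0 : ∀ o, (c o).getD 0 = 0 → o ≠ i := by
    rintro o h0 rfl
    rw [hci', Option.getD_some] at h0
    exact hci h0
  have hA0 : At0 A ((coef τ j : κ) * cj + (coef τ l : κ) * cl) := by
    have h1 := hc.1.2.2
    rw [sum_split hjl, hcj', hcl'] at h1
    simp only [Option.getD_some] at h1
    rw [eq_neg_of_add_eq_zero_left h1, hA]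
    exact at0_neg (at0_sum _ _ _ fun o _ => at0_mul (at0_const _) (at0_mpt c i o))
  have hj' := hρ hj
  have hl' := hρ hl
  have e1 : ∀ ρ β z : κ, ρ ≠ 0 → ρ ^ 2 * β / (ρ * z) = ρ * β * z⁻¹ := by
    intro ρ β z h
    by_cases hz : z = 0
    · simp [hz]
    · field_simp
  have hD0 : At0 D ((coef τ j : κ) ^ 2 * algebraMap k κ (b j) / ((coef τ j : κ) * cj) +
      (coef τ l : κ) ^ 2 * algebraMap k κ (b l) / ((coef τ l : κ) * cl)) := by
    have h1 := hc.2
    unfold Bfun at h1
    rw [sum_split hjl, hcj', hcl'] at h1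
    simp only [Option.getD_some] at h1
    rw [e1 _ _ _ hj', e1 _ _ _ hl', eq_neg_of_add_eq_zero_left h1, hD]
    exact at0_neg (at0_sum _ _ _ fun o _ => at0_mul (at0_const _) (at0_mpt_inv (hc0 o)))
  rw [hcj', hcl'] at hnd
  simp only [Option.getD_some] at hnd
  obtain ⟨M, _, _, _, _, w, y, z, hfin, hwX, hy0, hz0, hyz, hyz', hyw, hzw⟩ :=
    ql' (mul_ne_zero hj' hcj) (mul_ne_zero hl' hcl)
      (mul_ne_zero (pow_ne_zero 2 hj') (hbκ j)) (mul_ne_zero (pow_ne_zero 2 hl') (hbκ l)) hA0 hD0
      (by rwa [e1 _ _ _ hj', e1 _ _ _ hl'])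
  let _ : Algebra k M := ((algebraMap κ M).comp (algebraMap k κ)).toAlgebra
  have _ : IsScalarTower k κ M := IsScalarTower.of_algebraMap_eq fun _ => rfl
  have _ : IsScalarTower k (RatFunc κ) M := IsScalarTower.of_algebraMap_eq fun r => by
    rw [IsScalarTower.algebraMap_apply k κ (RatFunc κ), ← IsScalarTower.algebraMap_apply κ
      (RatFunc κ) M]
    rfl
  have hff : IsFunctionField k (RatFunc κ) := by
    refine ⟨HC.essFiniteType_ratFuncL inferInstance, ?_⟩
    have h1 : Algebra.trdeg k κ = ((0 : ℕ) : Cardinal) := by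
      rw [Nat.cast_zero, trdeg_eq_zero_iff]
      infer_instance
    have h2 := HC.trdeg_ratFuncL (K := k) (L := κ) h1
    rw [h2, Nat.cast_zero, zero_add]
  have hM : IsFunctionField k M := hff.of_finite
  -- the moving point
  let u : Fin n → Option M := fun o => if τ o = none then none else some
    (if o = j then y / algebraMap κ M (coef τ j : κ) else if o = l then
      z / algebraMap κ M (coef τ l : κ) else algebraMap (RatFunc κ) M (mpt c i o))
  have huj : u j = some (y / algebraMap κ M (coef τ j : κ)) := by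
    simp only [u]
    rw [if_neg (coef_ne hj), if_pos trivial]
  have hul : u l = some (z / algebraMap κ M (coef τ l : κ)) := by
    simp only [u]
    rw [if_neg (coef_ne hl), if_neg hjl.symm, if_pos trivial]
  have huT : ∀ o ∈ T, (u o).getD 0 = algebraMap (RatFunc κ) M (mpt c i o) := by
    intro o ho
    rw [hT, Finset.mem_sdiff, Finset.mem_insert, Finset.mem_singleton, not_or] at ho
    simp only [u]
    by_cases h1 : τ o = none
    · have h2 : (c o).getD 0 = 0 := by
        rw [yv_inf hc h1]
        rfl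
      rw [if_pos h1, Option.getD_none]
      unfold mpt
      rw [h2, if_neg (hc0 o h2), map_zero, add_zero, map_zero]
    · rw [if_neg h1, if_neg ho.2.1, if_neg ho.2.2, Option.getD_some]
  have hjT : ∀ o, o ∉ T → o = j ∨ o = l := by
    intro o ho
    by_contra h1
    rw [not_or] at h1
    exact ho (by simp [hT, h1.1, h1.2])
  have hjM : algebraMap κ M (coef τ j : κ) ≠ 0 := by rwa [Ne, map_eq_zero]
  have hlM : algebraMap κ M (coef τ l : κ) ≠ 0 := by rwa [Ne, map_eq_zero]
  have hcast : ∀ m : ℕ, (m : M) = algebraMap κ M (m : κ) := fun m => (map_natCast _ _).symm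
  have hcastR : ∀ r : κ, algebraMap (RatFunc κ) M (algebraMap κ (RatFunc κ) r) =
      algebraMap κ M r := fun r => (IsScalarTower.algebraMap_apply κ (RatFunc κ) M r).symm
  have hkM : ∀ r : k, algebraMap k M r = algebraMap κ M (algebraMap k κ r) := fun _ => rfl
  have hune : ∀ o, τ o ≠ none → ∃ a, u o = some a := by
    intro o ho
    simp only [u]
    rw [if_neg ho]
    exact ⟨_, rfl⟩
  -- it is near to the given point
  have hnear : ∀ o, w.val ((u o).getD 0 - algebraMap κ M ((c o).getD 0)) < 1 := by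
    intro o
    have hdiv : ∀ {ρ y0 : κ} {y : M}, ρ ≠ 0 → w.val (y - algebraMap κ M (ρ * y0)) < 1 →
        w.val (y / algebraMap κ M ρ - algebraMap κ M y0) < 1 := by
      intro ρ y0 y hρ h
      have hρM : algebraMap κ M ρ ≠ 0 := by rwa [Ne, map_eq_zero]
      have h1 : y / algebraMap κ M ρ - algebraMap κ M y0 =
          (y - algebraMap κ M (ρ * y0)) * algebraMap κ M ρ⁻¹ := by
        rw [map_mul, map_inv₀]
        field_simp
      rw [h1, map_mul]
      exact mul_lt_one_of_lt_of_le h (w.val_algebraMap_le _)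
    by_cases ho : o ∈ T
    · rw [huT o ho]
      exact Helper7.KL.at0_val w hwX (at0_mpt c i o)
    · rcases hjT o ho with rfl | rfl
      · rw [huj, hcj']
        exact hdiv hj' hyw
      · rw [hul, hcl']
        exact hdiv hl' hzw
  have huY : YV b τ M u := by
    refine ⟨⟨fun o ho => ?_, fun o ho => ?_, ?_⟩, ?_⟩
    · simp only [u]
      rw [if_pos ho]
    · obtain ⟨a, ha⟩ := hune o ho
      obtain ⟨co, hco, hco'⟩ := yv_fin hc ho
      refine ⟨a, ?_, ha⟩
      have h1 := hnear o
      rw [ha, hco'] at h1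
      exact near_ne w hco h1
    · rw [sum_split hjl, huj, hul]
      simp only [Option.getD_some]
      have h1 : ∑ o ∈ Finset.univ \ {j, l}, (coef τ o : M) * (u o).getD 0 =
          -algebraMap (RatFunc κ) M A := by
        rw [hA, map_neg, neg_neg, map_sum]
        refine Finset.sum_congr rfl fun o ho => ?_
        rw [huT o ho, map_mul, hcastR, hcast]
      rw [h1, ← hyz, hcast, hcast]
      field_simp
      ring
    · unfold Bfun
      rw [sum_split hjl, huj, hul]
      simp only [Option.getD_some]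
      have h1 : ∑ o ∈ Finset.univ \ {j, l}, (coef τ o : M) * algebraMap k M (b o) *
          ((u o).getD 0)⁻¹ = -algebraMap (RatFunc κ) M D := by
        rw [hD, map_neg, neg_neg, map_sum]
        refine Finset.sum_congr rfl fun o ho => ?_
        rw [huT o ho, map_mul, hcastR, hcast, hkM, map_mul, map_inv₀]
      rw [h1, ← hyz', hcast, hcast, hkM, hkM]
      simp only [map_mul, map_pow]
      field_simp
      ring
  -- the place
  set v0 : Place k M := HC.under k w with hv0
  obtain ⟨φ', hφ'⟩ := HC.exists_resHomL (K := k) v0 (L := κ) (N := M) fun a ha => w.triv a ha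
  have hum : u m = some 1 := by
    have h1 : m ∈ T := by simp [hT, hmj, hml]
    have h2 : τ m ≠ none := by
      intro h0
      rw [yv_inf hc h0] at hcm
      exact Option.some_ne_none _ hcm.symm
    obtain ⟨a, ha⟩ := hune m h2
    have h3 := huT m h1
    rw [ha, Option.getD_some] at h3
    rw [ha, h3]
    unfold mpt
    rw [hcm, if_neg (Ne.symm him), add_zero, Option.getD_some, map_one, map_one]
  have huw : ∀ o a, u o = some a → ∃ co, co ≠ 0 ∧ c o = some co ∧
      w.val (a - algebraMap κ M co) < 1 := by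
    intro o a ha
    have h1 : τ o ≠ none := by
      intro h0
      rw [yv_inf huY h0] at ha
      exact Option.some_ne_none _ ha.symm
    obtain ⟨co, hco, hco'⟩ := yv_fin hc h1
    have h2 := hnear o
    rw [ha, hco'] at h2
    exact ⟨co, hco, hco', h2⟩
  refine curve_rel hM huY v0 (fun o a ha => ?_) hum (s := algebraMap (RatFunc κ) M RatFunc.X)
    ?_ ?_ ha0 φ φ' (fun o => (c o).getD 0) hxc (fun o => ?_) (yv_none huY hx)
  · obtain ⟨co, hco, -, h2⟩ := huw o a ha
    exact near_val w hco h2
  · intro h1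
    rw [isAlgebraic_algebraMap_iff (algebraMap (RatFunc κ) M).injective] at h1
    exact RatFunc.transcendental_X (h1.extendScalars (algebraMap k κ).injective)
  · intro w' hw'
    obtain ⟨a, ha⟩ := hune i hi
    have h1 : i ∈ T := by simp [hT, hij, hil]
    have h2 := huT i h1
    rw [ha, Option.getD_some] at h2
    unfold mpt at h2
    rw [if_pos rfl, map_add, hcastR] at h2
    have h3 : algebraMap (RatFunc κ) M RatFunc.X = a - algebraMap κ M ((c i).getD 0) := by
      rw [h2]
      ring
    rw [h3]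
    refine (w'.val.map_sub _ _).trans (max_le (hw' i a ha).le ?_)
    rw [hci', Option.getD_some]
    refine (Place.val_eq_one_of_algebraic w' ?_ ?_).le
    · exact (Algebra.IsAlgebraic.isAlgebraic (R := k) ci).algebraMap
    · rwa [Ne, map_eq_zero]
  · rw [(hφ' _).2]
    exact near_res (v := w) (hnear o)

/-- Cones with four or more affine coordinates. -/
theorem mem_four [Finite k] (hb : ∀ i, b i ≠ 0) (hall : ∀ i ∈ IT τ, coef τ i ≠ 0)
    (hcard : 4 ≤ (IT τ).card) {x : Fin n → Option N} (hx : YV b τ N x)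
    (hr : Algebra.trdeg k (fld k x) = (1 : ℕ)) (hcone : IsCone k x) :
    Finsupp.single (key k x) 1 ∈ rat (YV b τ) (PY b τ) 1 := by
  classical
  obtain ⟨i, hi, -⟩ := Finset.exists_mem_notMem_of_card_lt_card
    (s := ∅) (t := IT τ) (by rw [Finset.card_empty]; omega)
  obtain ⟨m, hm, hm'⟩ := Finset.exists_mem_notMem_of_card_lt_card
    (s := {i}) (t := IT τ) (by rw [Finset.card_singleton]; omega)
  obtain ⟨j, hj, hj'⟩ := Finset.exists_mem_notMem_of_card_lt_card
    (s := {i, m}) (t := IT τ) (lt_of_le_of_lt Finset.card_le_two (by omega))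
  obtain ⟨l, hl, hl'⟩ := Finset.exists_mem_notMem_of_card_lt_card
    (s := {i, m, j}) (t := IT τ) (lt_of_le_of_lt Finset.card_le_three (by omega))
  simp only [Finset.mem_insert, Finset.mem_singleton, not_or] at hm' hj' hl'
  have hτi := mem_IT.1 hi
  have hτm := mem_IT.1 hm
  have hτj := mem_IT.1 hj
  have hτl := mem_IT.1 hl
  by_cases hdeg : (coef τ j : N) * (x j).getD 0 + (coef τ l : N) * (x l).getD 0 = 0 ∧
      (coef τ j : N) * algebraMap k N (b j) * ((x j).getD 0)⁻¹ +
        (coef τ l : N) * algebraMap k N (b l) * ((x l).getD 0)⁻¹ = 0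
  · exact mem_pair hx hr hcone (m := m) (Ne.symm hl'.2.2) (Ne.symm hj'.2) (Ne.symm hl'.2.1) hτj hτm
      hdeg.1 hdeg.2
  · obtain ⟨am, ham, hxm⟩ := yv_fin hx hτm
    have hgm : (x m).getD 0 = am := by rw [hxm]; rfl
    set κ : IntermediateField k N :=
      IntermediateField.adjoin k (Set.range fun o => (x o).getD 0 / am) with hκ
    have hmem : ∀ o, (x o).getD 0 / am ∈ κ := fun o =>
      IntermediateField.subset_adjoin k _ ⟨o, rfl⟩
    have hfin : FiniteDimensional k κ := by
      rw [hκ]
      refine IntermediateField.finiteDimensional_adjoin ?_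
      rintro _ ⟨o, rfl⟩
      have h1 := hcone o m
      rw [hgm] at h1
      exact h1.isIntegral
    let c : Fin n → Option κ := fun o => if x o = none then none else
      some ⟨(x o).getD 0 / am, hmem o⟩
    have hcg : ∀ o, (((c o).getD 0 : κ) : N) = (x o).getD 0 / am := by
      intro o
      simp only [c]
      by_cases h0 : x o = none
      · rw [if_pos h0, h0]
        simp
      · rw [if_neg h0]
        rfl
    have hcY : YV b τ κ c := by
      refine yv_of_map κ.val ?_
      refine yv_scale hx (AlgHom.id k N) (g := am⁻¹) (fun o ho => ?_) fun o a ho =>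
        ⟨am⁻¹, inv_ne_zero ham, ?_, fun _ => rfl⟩
      · simp only [c]
        rw [if_pos ho]
        rfl
      · simp only [c]
        rw [if_neg (by rw [ho]; exact Option.some_ne_none _)]
        simp only [Option.map_some]
        congr 1
        change (x o).getD 0 / am = a * am⁻¹
        rw [ho, Option.getD_some, div_eq_mul_inv]
    have hcm : c m = some 1 := by
      simp only [c]
      rw [if_neg (by rw [hxm]; exact Option.some_ne_none _)]
      congr 1
      apply Subtype.ext
      change (x m).getD 0 / am = 1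
      rw [hgm, div_self ham]
    refine mem_curve hb hcY (i := i) (m := m) (j := j) (l := l) (Ne.symm hm') (Ne.symm hj'.1)
      (Ne.symm hl'.1) (Ne.symm hj'.2) (Ne.symm hl'.2.1) (Ne.symm hl'.2.2) hτi hcm (hall j hj)
      (hall l hl) (fun h => hdeg ?_) hx (a0 := am) ?_ κ.val fun o => ?_
    · obtain ⟨h1, h2⟩ := h
      have h1' := congrArg (algebraMap κ N) h1
      have h2' := congrArg (algebraMap κ N) h2
      simp only [map_add, map_mul, map_natCast, map_zero, map_inv₀] at h1' h2'
      change (coef τ j : N) * (((c j).getD 0 : κ) : N) + (coef τ l : N) *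
        (((c l).getD 0 : κ) : N) = 0 at h1'
      change (coef τ j : N) * algebraMap k N (b j) * (((c j).getD 0 : κ) : N)⁻¹ + (coef τ l : N) *
        algebraMap k N (b l) * (((c l).getD 0 : κ) : N)⁻¹ = 0 at h2'
      rw [hcg, hcg] at h1' h2'
      constructor
      · field_simp at h1'
        rwa [mul_zero] at h1'
      · rw [inv_div, inv_div] at h2'
        have h3 : am * ((coef τ j : N) * algebraMap k N (b j) * ((x j).getD 0)⁻¹ +
            (coef τ l : N) * algebraMap k N (b l) * ((x l).getD 0)⁻¹) = 0 := by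
          refine Eq.trans ?_ h2'
          ring
        exact (mul_eq_zero.1 h3).resolve_left ham
    · refine transc_of (c := fun o => (x o).getD 0 / am) (fun o => ?_) (fun o => ?_) hr
      · have h1 := hcone o m
        rwa [hgm] at h1
      · field_simp
    · change (x o).getD 0 = (((c o).getD 0 : κ) : N) * am
      rw [hcg]
      field_simp

/-- Cycles of dimension `1`, four or more indices. -/
theorem rank_four [Finite k] (hb : ∀ i, b i ≠ 0) (hτ : τ ∈ Idx p n)
    (hall : ∀ i ∈ IT τ, coef τ i ≠ 0) (hcard : 4 ≤ (IT τ).card) :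
    Module.rank ℚ (CHY b τ 1) = 0 :=
  rank_zero_of fun N _ _ x hx hr => mem_beta hτ le_rfl
    (fun M _ _ y hy hyr hyc => mem_four hb hall hcard hy hyr hyc) hx (by exact_mod_cast hr)

end curve

end Pool.Agent.Helper19.KL
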