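import Pool.Agent.Helper19.KL.N9
import Pool.Agent.Helper19.KL.N13

set_option autoImplicit false

/-!
Project KL (MP_0b9e0b_ag), explicit bounds for cycles of dimension one: the sum over all indices.
-/

namespace Pool.Agent.Helper19.KL

open Pool.Agent.Helper16 Pool.Agent.Helper1.KL

section sums

variable {k : Type} [Field k] {p : ℕ} [Fact p.Prime] [CharP k p] {n : ℕ} {b : Fin n → k}
  {τ : Fin n → Option (ZMod p)}

/-- Two finite coordinates, with `ρ_i ^ 2 b_i = ρ_j ^ 2 b_j`. -/
def P2 (b : Fin n → k) (τ : Fin n → Option (ZMod p)) : Prop :=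
  ∃ i j, i ≠ j ∧ coef τ i ≠ 0 ∧ coef τ j ≠ 0 ∧ IT τ = {i, j} ∧
    cf k τ i ^ 2 * b i = cf k τ j ^ 2 * b j

/-- Three finite coordinates, and a quadratic equation with two roots. -/
def P3 (b : Fin n → k) (τ : Fin n → Option (ZMod p)) : Prop :=
  ∃ i j l, i ≠ j ∧ i ≠ l ∧ j ≠ l ∧ coef τ i ≠ 0 ∧ coef τ j ≠ 0 ∧ coef τ l ≠ 0 ∧
    IT τ = {i, j, l} ∧ Nat.card {u : k // q3 b τ i j l u = 0} = 2

open scoped Classical in
/-- Cycles of dimension one, for one index. -/
theorem rank_tau [Finite k] (hb : ∀ i, b i ≠ 0) (hτ : τ ∈ Idx p n) :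
    Module.rank ℚ (CHY b τ 1) ≤ (((if P2 b τ then 1 else 0) + (if P3 b τ then 1 else 0) : ℕ) :
      Cardinal.{0}) := by
  by_cases hall : ∀ i ∈ IT τ, coef τ i ≠ 0
  · obtain ⟨i0, hi0⟩ := hτ
    have hi0' : i0 ∈ IT τ := mem_IT.2 (coef_ne hi0)
    have hpos : 0 < (IT τ).card := Finset.card_pos.2 ⟨i0, hi0'⟩
    have hcases : (IT τ).card = 1 ∨ (IT τ).card = 2 ∨ (IT τ).card = 3 ∨ 4 ≤ (IT τ).card := by
      omega
    rcases hcases with h | h | h | h
    · obtain ⟨i, hi⟩ := Finset.card_eq_one.1 h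
      have h1 : Module.rank ℚ (CHY b τ 1) = 0 := rank_zero_of fun N _ _ x hx _ =>
        (not_yv_one (hall i (by rw [hi]; simp)) hi hx).elim
      rw [h1]
      exact bot_le
    · obtain ⟨i, j, hij, hI⟩ := Finset.card_eq_two.1 h
      have hi : coef τ i ≠ 0 := hall i (by rw [hI]; simp)
      have hj : coef τ j ≠ 0 := hall j (by rw [hI]; simp)
      refine (rank_two (b := b) hij hi hj hI).trans ?_
      rw [Nat.cast_le]
      by_cases hc : cf k τ i ^ 2 * b i = cf k τ j ^ 2 * b j
      · rw [if_pos hc, if_pos ⟨i, j, hij, hi, hj, hI, hc⟩]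
        omega
      · rw [if_neg hc]
        omega
    · obtain ⟨i, j, l, hij, hil, hjl, hI⟩ := Finset.card_eq_three.1 h
      have hi : coef τ i ≠ 0 := hall i (by rw [hI]; simp)
      have hj : coef τ j ≠ 0 := hall j (by rw [hI]; simp)
      have hl : coef τ l ≠ 0 := hall l (by rw [hI]; simp)
      refine (rank_three (b := b) hij hil hjl hi hj hl hI hb).trans ?_
      rw [Nat.cast_le]
      by_cases hc : Nat.card {u : k // q3 b τ i j l u = 0} = 2
      · rw [if_pos hc, if_pos (show P3 b τ from ⟨i, j, l, hij, hil, hjl, hi, hj, hl, hI, hc⟩)]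
        omega
      · rw [if_neg hc]
        omega
    · rw [rank_four hb ⟨i0, hi0⟩ hall h]
      exact bot_le
  · push Not at hall
    obtain ⟨l, hl, hl0⟩ := hall
    have h1 : Module.rank ℚ (CHY b τ 1) = 0 := rank_zero_of fun N _ _ x hx hr =>
      mem_alpha hτ (mem_IT.1 hl) hl0 hx (by exact_mod_cast hr)
    rw [h1]
    exact bot_le

open scoped Classical in
/-- The number of the indices with `P2`. -/
noncomputable def G2 (p : ℕ) [NeZero p] {n : ℕ} (b : Fin n → k) : ℕ :=
  (Finset.univ.filter fun τ : Fin n → Option (ZMod p) => P2 b τ).card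

open scoped Classical in
/-- The number of the indices with `P3`. -/
noncomputable def R3 (p : ℕ) [NeZero p] {n : ℕ} (b : Fin n → k) : ℕ :=
  (Finset.univ.filter fun τ : Fin n → Option (ZMod p) => P3 b τ).card

/-- Cycles of dimension one on `X`. -/
theorem rank_one [Finite k] (hb : ∀ i, b i ≠ 0) (hmain : Main k p n b 1) :
    Module.rank ℚ (CHX p b 1) ≤ ((n + G2 p b + R3 p b : ℕ) : Cardinal.{0}) := by
  classical
  refine hmain.trans ?_
  rw [Nat.choose_one_right, add_assoc, Nat.cast_add]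
  refine add_le_add le_rfl ?_
  have h1 : (∑ τ : Fin n → Option (ZMod p) with τ ∈ Idx p n, Module.rank ℚ (CHY b τ 1)) ≤
      ∑ τ : Fin n → Option (ZMod p), (((if P2 b τ then 1 else 0) + (if P3 b τ then 1 else 0) : ℕ) :
        Cardinal.{0}) := by
    rw [Finset.sum_filter]
    refine Finset.sum_le_sum fun τ _ => ?_
    by_cases hτ : τ ∈ Idx p n
    · rw [if_pos hτ]
      exact rank_tau hb hτ
    · rw [if_neg hτ]
      exact bot_le
  refine h1.trans ?_
  rw [← Nat.cast_sum, Finset.sum_add_distrib, Nat.cast_le]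
  unfold G2 R3
  rw [Finset.card_filter, Finset.card_filter]

omit [CharP k p] in
/-- Cycles of dimension zero on `X`. -/
theorem rank_zero (hmain : Main k p n b 0) : Module.rank ℚ (CHX p b 0) ≤ 1 := by
  classical
  refine hmain.trans ?_
  rw [Nat.choose_zero_right, Nat.cast_one, Finset.sum_eq_zero, add_zero]
  intro τ hτ
  rw [Finset.mem_filter] at hτ
  exact rank_zero_of fun N _ _ x hx hr => mem_zero hτ.2 hx (by exact_mod_cast hr)

end sums

end Pool.Agent.Helper19.KL
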