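import Pool.Agent.Helper19.KL.C8
import Pool.Agent.Helper19.KL.C10
import Pool.Agent.Helper19.KL.LDefs2
import Pool.Agent.Helper19.KL.N14

set_option autoImplicit false
set_option linter.unusedSectionVars false

/-!
Project KL (MP_0b9e0b_ag), cycles of codimension two: the bound for one index.
-/

namespace Pool.Agent.Helper19.KL

open Pool.Agent.Helper16 Pool.Agent.Helper1.KL

variable {k : Type} [Field k] {p : ℕ} [Fact p.Prime] [CharP k p] {n : ℕ} {b : Fin n → k}
  {τ : Fin n → Option (ZMod p)}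

/-- The indices with a nonzero coefficient. -/
noncomputable def ST (τ : Fin n → Option (ZMod p)) : Finset (Fin n) :=
  Finset.univ.filter fun i => coef τ i ≠ 0

theorem mem_ST {i : Fin n} : i ∈ ST τ ↔ coef τ i ≠ 0 := by
  unfold ST
  rw [Finset.mem_filter, and_iff_right (Finset.mem_univ _)]

theorem coord_zero {N : Type} [Field N] [Algebra k N] {x : Fin n → Option N} (hx : YV b τ N x)
    {m : Fin n} (hm : m ∉ IT τ) (G : IntermediateField k N) : (x m).getD 0 ∈ G := by
  rw [yv_zero hx hm]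
  exact zero_mem G

/-- At most `n - 2` finite coordinates. -/
theorem rank_small (hτ : τ ∈ Idx p n) (hI : (IT τ).card ≤ n - 2) :
    Module.rank ℚ (CHY b τ (n - 2)) = 0 := by
  classical
  obtain ⟨i0, hi0⟩ := hτ
  refine rank_zero_of fun N _ _ x hx hr => ?_
  exfalso
  have hi0' : i0 ∈ IT τ := mem_IT.2 (coef_ne hi0)
  have hcard : (insert i0 (Finset.univ \ IT τ)).card = n - (IT τ).card + 1 := by
    rw [Finset.card_insert_of_notMem (by simp [hi0']), Finset.card_sdiff_of_subset
      (Finset.subset_univ _), Finset.card_univ, Fintype.card_fin]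
  refine trdeg_contra (T := insert i0 (Finset.univ \ IT τ)) (fun m hm => ?_) hr (by
    have := Finset.card_le_univ (IT τ)
    rw [Fintype.card_fin] at this
    have hpos : 0 < (IT τ).card := Finset.card_pos.2 ⟨i0, hi0'⟩
    omega)
  rw [Finset.mem_insert] at hm
  rcases hm with rfl | hm
  · refine FF_le_GF (rel_mem (τ := τ) (U := Finset.univ) (Finset.mem_univ m) hi0 (yv_sum1 hx)
      fun m' _ hne => ?_)
    by_cases h : m' ∈ IT τ
    · exact mem_FF (by simp [hne, h])
    · exact coord_zero hx h _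
  · exact coord_zero hx (Finset.mem_sdiff.1 hm).2 _

/-- One infinite coordinate and three nonzero coefficients. -/
theorem rank_one_inf {e i j l : Fin n} (hb : ∀ i, b i ≠ 0) (he : IT τ = Finset.univ.erase e)
    (hij : i ≠ j) (hil : i ≠ l) (hjl : j ≠ l) (hi : coef τ i ≠ 0) (hj : coef τ j ≠ 0)
    (hl : coef τ l ≠ 0) : Module.rank ℚ (CHY b τ (n - 2)) = 0 := by
  classical
  refine rank_zero_of fun N _ _ x hx hr => ?_
  exfalso
  have hne : ∀ {m}, coef τ m ≠ 0 → m ≠ e := by
    intro m hm hme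
    have := mem_IT.2 (coef_ne hm)
    rw [he, hme] at this
    simp at this
  have heI : e ∉ IT τ := by
    rw [he]
    simp
  have hn : ∀ T : Finset (Fin n), T.card = 3 → n - T.card < n - 2 := by
    intro T hT
    have := Finset.card_le_univ T
    rw [hT, Fintype.card_fin] at this
    omega
  have h1 := yv_sum1 hx
  have h2 := yv_sum2 hx
  rw [sum_split hij] at h1 h2
  have hterm : ∀ m ∈ Finset.univ \ ({i, j} : Finset (Fin n)),
      (x m).getD 0 ∈ FF k x ({e, i, j} : Finset (Fin n)) := by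
    intro m hm
    rw [Finset.mem_sdiff, Finset.mem_insert, Finset.mem_singleton] at hm
    push Not at hm
    by_cases hme : m = e
    · rw [hme]
      exact coord_zero hx heI _
    · exact mem_FF (by simp [hme, hm.2.1, hm.2.2])
  rcases pair_alt (T := ({e, i, j} : Finset (Fin n))) hb hi hj (yv_ne hx (mem_IT.2 (coef_ne hi)))
    (yv_ne hx (mem_IT.2 (coef_ne hj)))
    (sum_mem fun m hm => ym_mem (τ := τ) (hterm m hm))
    (sum_mem fun m hm => dm_mem (b := b) (τ := τ) (hterm m hm))
    (by linear_combination h1) (by linear_combination h2) with ⟨h3, h4⟩ | ⟨h3, -, -⟩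
  · have hcard : ({e, i, j} : Finset (Fin n)).card = 3 :=
      Finset.card_eq_three.2 ⟨e, i, j, (hne hi).symm, (hne hj).symm, hij, rfl⟩
    refine trdeg_contra (T := ({e, i, j} : Finset (Fin n))) (fun m hm => ?_) hr (hn _ hcard)
    rw [Finset.mem_insert, Finset.mem_insert, Finset.mem_singleton] at hm
    rcases hm with rfl | rfl | rfl
    · exact coord_zero hx heI _
    · exact h3
    · exact h4
  · have hcard : ({e, l, j} : Finset (Fin n)).card = 3 :=
      Finset.card_eq_three.2 ⟨e, l, j, (hne hl).symm, (hne hj).symm, hjl.symm, rfl⟩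
    refine trdeg_contra (T := ({e, l, j} : Finset (Fin n))) (fun m hm => FF_le_GF ?_) hr
      (hn _ hcard)
    rw [Finset.mem_insert, Finset.mem_insert, Finset.mem_singleton] at hm
    rcases hm with rfl | rfl | rfl
    · exact coord_zero hx heI _
    · refine rel_mem (τ := τ) (U := Finset.univ \ ({i, j} : Finset (Fin n))) (o := m)
        (by simp [hil.symm, hjl.symm]) hl h3 fun m' hm' hne' => ?_
      rw [Finset.mem_sdiff, Finset.mem_insert, Finset.mem_singleton] at hm'
      push Not at hm'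
      by_cases hme : m' = e
      · rw [hme]
        exact coord_zero hx heI _
      · exact mem_FF (by simp [hme, hne', hm'.2.2])
    · refine rel_mem (τ := τ) (U := {i, m}) (by simp) hj (by
        rw [Finset.sum_pair hij]; linear_combination h1 - h3) fun m' hm' hne' => ?_
      rw [Finset.mem_insert, Finset.mem_singleton] at hm'
      rcases hm' with rfl | rfl
      · exact mem_FF (by simp [hne hi, hil, hij])
      · exact absurd rfl hne'

/-- Two nonzero coefficients: the condition. -/
theorem cond_S2 {i j : Fin n} (hij : i ≠ j) (hi : coef τ i ≠ 0) (hj : coef τ j ≠ 0)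
    (hS : ∀ m, m ≠ i → m ≠ j → coef τ m = 0) {N : Type} [Field N] [Algebra k N]
    {x : Fin n → Option N} (hx : YV b τ N x) :
    cf k τ i ^ 2 * b i = cf k τ j ^ 2 * b j := by
  have h1 := ym_pair hij hS hx
  have h2 := yv_sum2 hx
  rw [sum_split hij, Finset.sum_eq_zero, add_zero] at h2
  · apply (algebraMap k N).injective
    have hxi : (x i).getD 0 ≠ 0 := yv_ne hx (mem_IT.2 (coef_ne hi))
    have hxj : (x j).getD 0 ≠ 0 := yv_ne hx (mem_IT.2 (coef_ne hj))
    unfold dm at h2
    unfold ym at h1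
    rw [map_mul, map_mul] at h2 ⊢
    rw [map_pow, map_pow]
    have h6 := congrArg (fun t => t * ((x i).getD 0 * (x j).getD 0)) h2
    simp only [zero_mul] at h6
    have h7 : algebraMap k N (cf k τ i) * algebraMap k N (b i) * (x j).getD 0 +
        algebraMap k N (cf k τ j) * algebraMap k N (b j) * (x i).getD 0 = 0 := by
      refine Eq.trans ?_ h6
      field_simp
    have h8 : (x i).getD 0 * (algebraMap k N (cf k τ i) ^ 2 * algebraMap k N (b i) -
        algebraMap k N (cf k τ j) ^ 2 * algebraMap k N (b j)) = 0 := by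
      linear_combination (algebraMap k N (cf k τ i) * algebraMap k N (b i)) * h1 -
        algebraMap k N (cf k τ j) * h7
    exact sub_eq_zero.1 ((mul_eq_zero.1 h8).resolve_left hxi)
  · intro m hm
    rw [Finset.mem_sdiff, Finset.mem_insert, Finset.mem_singleton] at hm
    push Not at hm
    unfold dm cf
    rw [hS m hm.2.1 hm.2.2, Nat.cast_zero, zero_mul, map_zero, zero_mul]

open scoped Classical in
/-- One infinite coordinate and two nonzero coefficients. -/
theorem rank_two_inf {e i j : Fin n} (he : IT τ = Finset.univ.erase e)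
    (hij : i ≠ j) (hi : coef τ i ≠ 0) (hj : coef τ j ≠ 0)
    (hS : ∀ m, m ≠ i → m ≠ j → coef τ m = 0) : Module.rank ℚ (CHY b τ (n - 2)) ≤
      ((if cf k τ i ^ 2 * b i = cf k τ j ^ 2 * b j then 1 else 0 : ℕ) : Cardinal.{0}) := by
  have hne : ∀ {m}, coef τ m ≠ 0 → m ≠ e := by
    intro m hm hme
    have := mem_IT.2 (coef_ne hm)
    rw [he, hme] at this
    simp at this
  have heI : e ∉ IT τ := by
    rw [he]
    simp
  by_cases hex : ∃ (N : Type) (_ : Field N) (_ : Algebra k N) (x : Fin n → Option N),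
      YV b τ N x ∧ Algebra.trdeg k (fld k x) = (n - 2 : ℕ)
  · obtain ⟨N0, _, _, x0, hx0, hr0⟩ := hex
    rw [if_pos (cond_S2 hij hi hj hS hx0), Nat.cast_one]
    refine rank_le_one_of (key k x0) fun N _ _ x hx hr => ?_
    have hcard : ({e, j} : Finset (Fin n)).card = 2 := Finset.card_pair (hne hj).symm
    have hi' : i ∉ ({e, j} : Finset (Fin n)) := by simp [hne hi, hij]
    let s : Fin n → MvPolynomial {m : Fin n // m ∉ ({e, j} : Finset (Fin n))} k := fun m =>
      if h : m ∉ ({e, j} : Finset (Fin n)) then MvPolynomial.X ⟨m, h⟩ else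
        if m = e then 0 else MvPolynomial.C (-(cf k τ i) / cf k τ j) * MvPolynomial.X ⟨i, hi'⟩
    have hval : ∀ {M : Type} [Field M] [Algebra k M] {y : Fin n → Option M}, YV b τ M y →
        ∀ m ∈ ({e, j} : Finset (Fin n)), (y m).getD 0 = MvPolynomial.aeval
          (fun m : {m : Fin n // m ∉ ({e, j} : Finset (Fin n))} => (y m.1).getD 0) (s m) := by
      intro M _ _ y hy m hm
      have hcj : algebraMap k M (cf k τ j) ≠ 0 := by rw [Ne, map_eq_zero]; exact cf_ne hj
      simp only [s, dif_neg (not_not.2 hm)]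
      rw [Finset.mem_insert, Finset.mem_singleton] at hm
      have e1 := ym_pair hij hS hy
      unfold ym at e1
      rcases hm with rfl | rfl
      · rw [if_pos rfl, map_zero, yv_zero hy heI]
      · rw [if_neg (hne hj), map_mul, MvPolynomial.aeval_C, MvPolynomial.aeval_X, map_div₀,
          map_neg]
        field_simp
        linear_combination e1
    have hmem : ∀ {M : Type} [Field M] [Algebra k M] {y : Fin n → Option M}, YV b τ M y →
        ∀ m ∈ ({e, j} : Finset (Fin n)), (y m).getD 0 ∈ GF k y ({e, j} : Finset (Fin n)) := by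
      intro M _ _ y hy m hm
      rw [Finset.mem_insert, Finset.mem_singleton] at hm
      apply FF_le_GF
      rcases hm with rfl | rfl
      · exact coord_zero hy heI _
      · refine rel_mem (τ := τ) (U := {i, m}) (by simp) hj
          (by rw [Finset.sum_pair hij]; exact ym_pair hij hS hy) fun m' hm' hne' => ?_
        rw [Finset.mem_insert, Finset.mem_singleton] at hm'
        rcases hm' with rfl | rfl
        · exact mem_FF hi'
        · exact absurd rfl hne'
    have hkey : key k x = key k x0 := key_of_T s (fun m h => dif_pos h) (yv_none hx hx0)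
      (hval hx) (hval hx0) (hmem hx) (hmem hx0) (by rw [hcard, hr]) (by rw [hcard, hr0])
    rw [hkey]
    exact Submodule.mem_sup_right (Submodule.mem_span_singleton_self _)
  · rw [rank_zero_of fun N _ _ x hx hr => (hex ⟨N, inferInstance, inferInstance, x, hx, hr⟩).elim]
    exact bot_le

theorem rank_S2 {i j : Fin n} (hij : i ≠ j) (hI : IT τ = Finset.univ) (hi : coef τ i ≠ 0)
    (hj : coef τ j ≠ 0) (hS : ∀ m, m ≠ i → m ≠ j → coef τ m = 0) :
    Module.rank ℚ (CHY b τ (n - 2)) = 0 :=
  rank_zero_of fun _ _ _ _ hx hr => mem_S2 hij hI hi hj hS (cond_S2 hij hi hj hS hx) hx hr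

theorem rank_S1 {i : Fin n} (hi : coef τ i ≠ 0) (hS : ∀ m, m ≠ i → coef τ m = 0) (r : ℕ) :
    Module.rank ℚ (CHY b τ r) = 0 := by
  refine rank_zero_of fun N _ _ x hx _ => ?_
  exfalso
  have h1 := yv_sum1 hx
  rw [Finset.sum_eq_single i] at h1
  · exact ym_ne hx hi h1
  · intro m _ hm
    unfold ym cf
    rw [hS m hm, Nat.cast_zero, map_zero, zero_mul]
  · intro h
    exact absurd (Finset.mem_univ i) h

end Pool.Agent.Helper19.KL

set_option linter.unusedSectionVars false

/-!
Project KL (MP_0b9e0b_ag), cycles of codimension two: the bound for every index.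
-/

namespace Pool.Agent.Helper19.KL

open Pool.Agent.Helper16 Pool.Agent.Helper1.KL

section sw

variable {n : ℕ}

/-- The product of the transpositions of `i`, `o` and of `j`, `l`. -/
def sw (i o j l : Fin n) : Fin n → Fin n := fun m =>
  if m = i then o else if m = o then i else if m = j then l else if m = l then j else m

variable {i o j l : Fin n} (hio : i ≠ o) (hij : i ≠ j) (hil : i ≠ l) (hoj : o ≠ j) (hol : o ≠ l)
  (hjl : j ≠ l)

theorem sw_i : sw i o j l i = o := if_pos rfl

include hio in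
theorem sw_o : sw i o j l o = i := by
  unfold sw
  rw [if_neg hio.symm, if_pos rfl]

include hij hoj in
theorem sw_j : sw i o j l j = l := by
  unfold sw
  rw [if_neg hij.symm, if_neg hoj.symm, if_pos rfl]

include hil hol hjl in
theorem sw_l : sw i o j l l = j := by
  unfold sw
  rw [if_neg hil.symm, if_neg hol.symm, if_neg hjl.symm, if_pos rfl]

theorem sw_else {m : Fin n} (h1 : m ≠ i) (h2 : m ≠ o) (h3 : m ≠ j) (h4 : m ≠ l) :
    sw i o j l m = m := by
  unfold sw
  rw [if_neg h1, if_neg h2, if_neg h3, if_neg h4]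

include hio hij hil hoj hol hjl in
theorem sw_spec {k : Type} {p : ℕ} {β : Fin n → k} {ρ : Fin n → ZMod p} (hi : ρ i ≠ 0)
    (ho : ρ o ≠ 0) (hj : ρ j ≠ 0) (hl : ρ l ≠ 0)
    (hS : ∀ m, m ≠ i → m ≠ o → m ≠ j → m ≠ l → ρ m = 0) (h1 : β i = β o) (h2 : β j = β l) :
    (∀ m, sw i o j l (sw i o j l m) = m) ∧ (∀ m, sw i o j l m = m ↔ ρ m = 0) ∧
      ∀ m, β (sw i o j l m) = β m := by
  have e1 : sw i o j l i = o := sw_i
  have e2 : sw i o j l o = i := sw_o hio
  have e3 : sw i o j l j = l := sw_j hij hoj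
  have e4 : sw i o j l l = j := sw_l hil hol hjl
  refine ⟨fun m => ?_, fun m => ?_, fun m => ?_⟩
  · by_cases h1 : m = i
    · rw [h1, e1, e2]
    by_cases h2 : m = o
    · rw [h2, e2, e1]
    by_cases h3 : m = j
    · rw [h3, e3, e4]
    by_cases h4 : m = l
    · rw [h4, e4, e3]
    · rw [sw_else h1 h2 h3 h4, sw_else h1 h2 h3 h4]
  · by_cases h1 : m = i
    · rw [h1, e1]
      exact ⟨fun h => absurd h.symm hio, fun h => absurd h hi⟩
    by_cases h2 : m = o
    · rw [h2, e2]
      exact ⟨fun h => absurd h hio, fun h => absurd h ho⟩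
    by_cases h3 : m = j
    · rw [h3, e3]
      exact ⟨fun h => absurd h.symm hjl, fun h => absurd h hj⟩
    by_cases h4 : m = l
    · rw [h4, e4]
      exact ⟨fun h => absurd h hjl, fun h => absurd h hl⟩
    · rw [sw_else h1 h2 h3 h4]
      exact ⟨fun _ => hS m h1 h2 h3 h4, fun _ => rfl⟩
  · by_cases h3 : m = i
    · rw [h3, e1, h1]
    by_cases h4 : m = o
    · rw [h4, e2, h1]
    by_cases h5 : m = j
    · rw [h5, e3, h2]
    by_cases h6 : m = l
    · rw [h6, e4, h2]
    · rw [sw_else h3 h4 h5 h6]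

theorem exists_four {s : Finset (Fin n)} (hs : s.card = 4) :
    ∃ a b c d, a ≠ b ∧ a ≠ c ∧ a ≠ d ∧ b ≠ c ∧ b ≠ d ∧ c ≠ d ∧ s = {a, b, c, d} := by
  classical
  obtain ⟨a, t, hat, rfl, ht⟩ := Finset.card_eq_succ.1 hs
  obtain ⟨b, c, d, hbc, hbd, hcd, rfl⟩ := Finset.card_eq_three.1 ht
  simp only [Finset.mem_insert, Finset.mem_singleton, not_or] at hat
  exact ⟨a, b, c, d, hat.1, hat.2.1, hat.2.2, hbc, hbd, hcd, rfl⟩

theorem exists_five {s : Finset (Fin n)} (hs : 5 ≤ s.card) :
    ∃ a b c d e, a ∈ s ∧ b ∈ s ∧ c ∈ s ∧ d ∈ s ∧ e ∈ s ∧ a ≠ b ∧ a ≠ c ∧ a ≠ d ∧ a ≠ e ∧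
      b ≠ c ∧ b ≠ d ∧ b ≠ e ∧ c ≠ d ∧ c ≠ e ∧ d ≠ e := by
  classical
  obtain ⟨t, hts, ht⟩ := Finset.exists_subset_card_eq hs
  obtain ⟨a, t', hat, rfl, ht'⟩ := Finset.card_eq_succ.1 ht
  obtain ⟨b, c, d, e, hbc, hbd, hbe, hcd, hce, hde, rfl⟩ := exists_four ht'
  simp only [Finset.mem_insert, Finset.mem_singleton, not_or] at hat
  refine ⟨a, b, c, d, e, hts ?_, hts ?_, hts ?_, hts ?_, hts ?_, hat.1, hat.2.1, hat.2.2.1,
    hat.2.2.2, hbc, hbd, hbe, hcd, hce, hde⟩ <;> simp

end sw

variable {k : Type} [Field k] {p : ℕ} [Fact p.Prime] [CharP k p] {n : ℕ} {b : Fin n → k}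
  {τ : Fin n → Option (ZMod p)}

theorem coef_zero_iff {i : Fin n} : coef τ i = 0 ↔ (τ i).getD 0 = 0 := by
  unfold coef
  exact ZMod.val_eq_zero _

/-- The vector of the coefficients. -/
def rho (τ : Fin n → Option (ZMod p)) : Fin n → ZMod p := fun m => (τ m).getD 0

open scoped Classical in
/-- Four nonzero coefficients, the bound by the number of involutions. -/
theorem rank_quad' (hb : ∀ i, b i ≠ 0) (hI : IT τ = Finset.univ) (h4 : (ST τ).card = 4) :
    Module.rank ℚ (CHY b τ (n - 2)) ≤ ((min 2 (pairN b (rho τ)) : ℕ) : Cardinal.{0}) := by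
  obtain ⟨i, o, j, l, hio, hij, hil, hoj, hol, hjl, hs⟩ := exists_four h4
  have hmem : ∀ {m}, m ∈ ({i, o, j, l} : Finset (Fin n)) → coef τ m ≠ 0 := by
    intro m hm
    rw [← hs] at hm
    exact mem_ST.1 hm
  have hi : coef τ i ≠ 0 := hmem (by simp)
  have ho : coef τ o ≠ 0 := hmem (by simp)
  have hj : coef τ j ≠ 0 := hmem (by simp)
  have hl : coef τ l ≠ 0 := hmem (by simp)
  have hρ : ∀ {m}, coef τ m ≠ 0 → rho τ m ≠ 0 := fun h h0 => h (coef_zero_iff.2 h0)
  have hS0 : ∀ m, m ≠ i → m ≠ o → m ≠ j → m ≠ l → coef τ m = 0 := by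
    intro m h1 h2 h3 h4
    by_contra h5
    have := mem_ST.2 h5
    rw [hs] at this
    simp only [Finset.mem_insert, Finset.mem_singleton] at this
    tauto
  have hS1 : ∀ m, m ≠ i → m ≠ o → m = j ∨ m = l ∨ coef τ m = 0 := by
    intro m h1 h2
    by_cases h3 : m = j
    · exact Or.inl h3
    by_cases h4 : m = l
    · exact Or.inr (Or.inl h4)
    · exact Or.inr (Or.inr (hS0 m h1 h2 h3 h4))
  have hSρ : ∀ m, m ≠ i → m ≠ o → m ≠ j → m ≠ l → rho τ m = 0 := fun m h1 h2 h3 h4 =>
    coef_zero_iff.1 (hS0 m h1 h2 h3 h4)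
  refine (rank_quad hb hI hjl hij hil hoj hol hio hj hl hi ho hS1).trans ?_
  rw [Nat.cast_le]
  let β : Fin n → k := fun m => (((rho τ m).val : ℕ) : k) ^ 2 * b m
  have hβ : ∀ m, cf k τ m ^ 2 * b m = β m := fun m => rfl
  simp only [hβ]
  let X := {σ : Fin n → Fin n // (∀ i, σ (σ i) = i) ∧ (∀ i, σ i = i ↔ rho τ i = 0) ∧
    ∀ i, β (σ i) = β i}
  have hX : pairN b (rho τ) = Nat.card X := rfl
  rw [hX]
  have hfin : Finite X := inferInstance
  -- the three involutions
  have s1 : β i = β o → β j = β l → ∃ x : X, x.1 i = o := fun h1 h2 =>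
    ⟨⟨sw i o j l, sw_spec hio hij hil hoj hol hjl (hρ hi) (hρ ho) (hρ hj) (hρ hl) hSρ h1 h2⟩, sw_i⟩
  have s2 : β i = β j → β o = β l → ∃ x : X, x.1 i = j := fun h1 h2 =>
    ⟨⟨sw i j o l, sw_spec hij hio hil hoj.symm hjl hol (hρ hi) (hρ hj) (hρ ho) (hρ hl)
      (fun m a b c d => hSρ m a c b d) h1 h2⟩, sw_i⟩
  have s3 : β i = β l → β o = β j → ∃ x : X, x.1 i = l := fun h1 h2 =>
    ⟨⟨sw i l o j, sw_spec hil hio hij hol.symm hjl.symm hoj (hρ hi) (hρ hl) (hρ ho) (hρ hj)
      (fun m a b c d => hSρ m a c d b) h1 h2⟩, sw_i⟩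
  have hpos : ∀ x : X, 1 ≤ Nat.card X := fun x => by
    have : Nonempty X := ⟨x⟩
    exact Nat.card_pos
  have htwo : ∀ (x y : X), x.1 i ≠ y.1 i → 2 ≤ Nat.card X := fun x y hxy => by
    have : Nontrivial X := ⟨x, y, fun h => hxy (by rw [h])⟩
    exact Finite.one_lt_card_iff_nontrivial.2 this
  by_cases hc1 : (β i = β j ∧ β o = β l) ∨ (β i = β l ∧ β o = β j)
  · obtain ⟨x, hx⟩ : ∃ x : X, x.1 i ≠ o := by
      rcases hc1 with ⟨h1, h2⟩ | ⟨h1, h2⟩
      · obtain ⟨x, hx⟩ := s2 h1 h2
        exact ⟨x, by rw [hx]; exact hoj.symm⟩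
      · obtain ⟨x, hx⟩ := s3 h1 h2
        exact ⟨x, by rw [hx]; exact hol.symm⟩
    by_cases hc2 : β i = β o ∧ β j = β l
    · obtain ⟨y, hy⟩ := s1 hc2.1 hc2.2
      have := htwo x y (by rw [hy]; exact hx)
      rw [if_pos hc1, if_pos hc2]
      omega
    · have := hpos x
      rw [if_pos hc1, if_neg hc2]
      omega
  · rw [if_neg hc1]
    by_cases hc2 : β i = β o ∧ β j = β l
    · obtain ⟨y, hy⟩ := s1 hc2.1 hc2.2
      have := hpos y
      rw [if_pos hc2]
      omega
    · rw [if_neg hc2]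
      omega

/-- One infinite coordinate, two nonzero coefficients and `ρ_i ^ 2 b_i = ρ_j ^ 2 b_j`. -/
def C2 (b : Fin n → k) (τ : Fin n → Option (ZMod p)) : Prop :=
  ∃ e i j, i ≠ j ∧ coef τ i ≠ 0 ∧ coef τ j ≠ 0 ∧ IT τ = Finset.univ.erase e ∧
    (∀ m, m ≠ i → m ≠ j → coef τ m = 0) ∧ cf k τ i ^ 2 * b i = cf k τ j ^ 2 * b j

/-- The coordinates with the coefficient `0` are made infinite. -/
def gT (τ : Fin n → Option (ZMod p)) : Fin n → Option (ZMod p) := fun m =>
  if coef τ m = 0 then none else τ m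

theorem coef_gT : coef (gT τ) = coef τ := by
  funext m
  unfold gT
  unfold coef
  dsimp only
  split_ifs with h
  · rw [Option.getD_none, ZMod.val_zero]
    exact h.symm
  · rfl

theorem IT_gT : IT (gT τ) = ST τ := by
  ext m
  rw [mem_IT, mem_ST]
  unfold gT
  split_ifs with h
  · simp [h]
  · simp only [ne_eq, h, not_false_eq_true, iff_true]
    exact coef_ne h

theorem q3_gT {i j l : Fin n} {N : Type} [Field N] [Algebra k N] (u : N) :
    q3 b (gT τ) i j l u = q3 b τ i j l u := by
  unfold q3 cf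
  rw [coef_gT]

open scoped Classical in
/-- The bound for every index. -/
theorem rank_any (hb : ∀ i, b i ≠ 0) (hτ : τ ∈ Idx p n) (hn : 2 ≤ n) :
    Module.rank ℚ (CHY b τ (n - 2)) ≤ (((if C2 b τ then 1 else 0) +
      (if IT τ = Finset.univ ∧ P3 b (gT τ) then 1 else 0) +
      (if IT τ = Finset.univ ∧ (ST τ).card = 4 then min 2 (pairN b (rho τ)) else 0) : ℕ) :
        Cardinal.{0}) := by
  obtain ⟨i0, hi0⟩ := hτ
  have hpos : 0 < (ST τ).card := Finset.card_pos.2 ⟨i0, mem_ST.2 hi0⟩
  have hle : (IT τ).card ≤ n := by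
    have := Finset.card_le_univ (IT τ)
    rwa [Fintype.card_fin] at this
  have hmem : ∀ {s : Finset (Fin n)}, ST τ = s → ∀ m ∈ s, coef τ m ≠ 0 := by
    intro s hs m hm
    rw [← hs] at hm
    exact mem_ST.1 hm
  have hnot : ∀ {s : Finset (Fin n)}, ST τ = s → ∀ m, m ∉ s → coef τ m = 0 := by
    intro s hs m hm
    by_contra h
    exact hm (by rw [← hs]; exact mem_ST.2 h)
  have hzero : Module.rank ℚ (CHY b τ (n - 2)) = 0 → Module.rank ℚ (CHY b τ (n - 2)) ≤
      (((if C2 b τ then 1 else 0) +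
      (if IT τ = Finset.univ ∧ P3 b (gT τ) then 1 else 0) +
      (if IT τ = Finset.univ ∧ (ST τ).card = 4 then min 2 (pairN b (rho τ)) else 0) : ℕ) :
        Cardinal.{0}) := fun h => by
    rw [h]
    exact bot_le
  have hScases : (ST τ).card = 1 ∨ (ST τ).card = 2 ∨ 3 ≤ (ST τ).card := by omega
  rcases hScases with h1 | h2 | h3
  · obtain ⟨i, hs⟩ := Finset.card_eq_one.1 h1
    exact hzero (rank_S1 (hmem hs i (by simp)) (fun m hm => hnot hs m (by simp [hm])) _)
  · obtain ⟨i, j, hij, hs⟩ := Finset.card_eq_two.1 h2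
    have hi := hmem hs i (by simp)
    have hj := hmem hs j (by simp)
    have hS : ∀ m, m ≠ i → m ≠ j → coef τ m = 0 := fun m h h' => hnot hs m (by simp [h, h'])
    have hIcases : (IT τ).card ≤ n - 2 ∨ (IT τ).card = n - 1 ∨ (IT τ).card = n := by omega
    rcases hIcases with h | h | h
    · exact hzero (rank_small ⟨i0, hi0⟩ h)
    · obtain ⟨e, he⟩ : ∃ e, IT τ = Finset.univ.erase e := by
        have h5 : (Finset.univ \ IT τ).card = 1 := by
          rw [Finset.card_sdiff_of_subset (Finset.subset_univ _), Finset.card_univ,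
            Fintype.card_fin]
          omega
        obtain ⟨e, he⟩ := Finset.card_eq_one.1 h5
        refine ⟨e, ?_⟩
        rw [Finset.erase_eq, ← he, Finset.sdiff_sdiff_eq_self (Finset.subset_univ _)]
      refine (rank_two_inf he hij hi hj hS).trans ?_
      rw [Nat.cast_le]
      by_cases hc : cf k τ i ^ 2 * b i = cf k τ j ^ 2 * b j
      · rw [if_pos hc, if_pos (show C2 b τ from ⟨e, i, j, hij, hi, hj, he, hS, hc⟩)]
        omega
      · rw [if_neg hc]
        omega
    · have hI : IT τ = Finset.univ := by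
        rw [← Finset.card_eq_iff_eq_univ, Fintype.card_fin]
        exact h
      exact hzero (rank_S2 hij hI hi hj hS)
  · have hIcases : (IT τ).card ≤ n - 2 ∨ (IT τ).card = n - 1 ∨ (IT τ).card = n := by omega
    rcases hIcases with h | h | h
    · exact hzero (rank_small ⟨i0, hi0⟩ h)
    · obtain ⟨e, he⟩ : ∃ e, IT τ = Finset.univ.erase e := by
        have h5 : (Finset.univ \ IT τ).card = 1 := by
          rw [Finset.card_sdiff_of_subset (Finset.subset_univ _), Finset.card_univ,
            Fintype.card_fin]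
          omega
        obtain ⟨e, he⟩ := Finset.card_eq_one.1 h5
        refine ⟨e, ?_⟩
        rw [Finset.erase_eq, ← he, Finset.sdiff_sdiff_eq_self (Finset.subset_univ _)]
      obtain ⟨t, ht, htc⟩ := Finset.exists_subset_card_eq h3
      obtain ⟨i, j, l, hij, hil, hjl, rfl⟩ := Finset.card_eq_three.1 htc
      exact hzero (rank_one_inf hb he hij hil hjl (mem_ST.1 (ht (by simp)))
        (mem_ST.1 (ht (by simp))) (mem_ST.1 (ht (by simp))))
    · have hI : IT τ = Finset.univ := by
        rw [← Finset.card_eq_iff_eq_univ, Fintype.card_fin]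
        exact h
      have hS3 : (ST τ).card = 3 ∨ (ST τ).card = 4 ∨ 5 ≤ (ST τ).card := by omega
      rcases hS3 with h5 | h5 | h5
      · obtain ⟨i, j, l, hij, hil, hjl, hs⟩ := Finset.card_eq_three.1 h5
        have hi := hmem hs i (by simp)
        have hj := hmem hs j (by simp)
        have hl := hmem hs l (by simp)
        have hS : ∀ m, m ≠ i → m = j ∨ m = l ∨ coef τ m = 0 := by
          intro m hm
          by_cases h6 : m = j
          · exact Or.inl h6
          by_cases h7 : m = l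
          · exact Or.inr (Or.inl h7)
          · exact Or.inr (Or.inr (hnot hs m (by simp [hm, h6, h7])))
        refine (rank_tri hb hI hij hil hjl hi hj hl hS).trans ?_
        rw [Nat.cast_le]
        by_cases hc : Nat.card {u : k // q3 b τ i j l u = 0} = 2
        · have hP3 : P3 b (gT τ) := by
            refine ⟨i, j, l, hij, hil, hjl, ?_, ?_, ?_, by rw [IT_gT, hs], ?_⟩
            · rw [coef_gT]; exact hi
            · rw [coef_gT]; exact hj
            · rw [coef_gT]; exact hl
            · simp only [q3_gT]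
              exact hc
          rw [if_pos hc, if_pos (show IT τ = Finset.univ ∧ P3 b (gT τ) from ⟨hI, hP3⟩)]
          omega
        · rw [if_neg hc]
          omega
      · refine (rank_quad' hb hI h5).trans ?_
        rw [Nat.cast_le, if_pos (show IT τ = Finset.univ ∧ (ST τ).card = 4 from ⟨hI, h5⟩)]
        omega
      · obtain ⟨j, l, i, i', o, hj, hl, hi, hi', ho, hjl, hji, hji', hjo, hli, hli', hlo, hii,
          hio, hi'o⟩ := exists_five h5
        exact hzero (rank_five hb hI hjl hji.symm hli.symm hji'.symm hli'.symm hjo.symm hlo.symm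
          hii hio hi'o (mem_ST.1 hj) (mem_ST.1 hl) (mem_ST.1 hi) (mem_ST.1 hi') (mem_ST.1 ho))

end Pool.Agent.Helper19.KL

set_option linter.unusedSectionVars false

/-!
Project KL (MP_0b9e0b_ag), cycles of codimension two: the sum over all indices.
-/

namespace Pool.Agent.Helper19.KL

open Pool.Agent.Helper16 Pool.Agent.Helper1.KL

variable {k : Type} [Field k] {p : ℕ} [Fact p.Prime] [CharP k p] {n : ℕ} {b : Fin n → k}
  {τ : Fin n → Option (ZMod p)}

theorem card_E2 {j l : Fin n} (hjl : j ≠ l) : Fintype.card (E2 j l) = n - 2 := by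
  classical
  have h1 : Fintype.card (E2 j l) = Fintype.card {m : Fin n // m ∉ ({j, l} : Finset (Fin n))} :=
    Fintype.card_congr (Equiv.subtypeEquivRight fun m => by
      rw [Finset.mem_insert, Finset.mem_singleton, not_or])
  rw [h1, card_compl, Finset.card_pair hjl]

theorem C2.lt (h : C2 b τ) : ∃ e i j, i < j ∧ coef τ i ≠ 0 ∧ coef τ j ≠ 0 ∧
    IT τ = Finset.univ.erase e ∧ (∀ m, m ≠ i → m ≠ j → coef τ m = 0) ∧
      cf k τ i ^ 2 * b i = cf k τ j ^ 2 * b j := by
  obtain ⟨e, i, j, hij, hi, hj, hI, hS, hc⟩ := h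
  rcases lt_or_gt_of_ne hij with h | h
  · exact ⟨e, i, j, h, hi, hj, hI, hS, hc⟩
  · exact ⟨e, j, i, h, hj, hi, hI, fun m h1 h2 => hS m h2 h1, hc.symm⟩

open scoped Classical in
theorem card_C2 : (Finset.univ.filter fun τ : Fin n → Option (ZMod p) => C2 b τ).card ≤
    (n - 2) * ((p - 1) * isoN p b) := by
  set D := {x : Fin n × Fin n × (ZMod p)ˣ //
    x.1 < x.2.1 ∧ b x.2.1 = (((x.2.2 : ZMod p).val : ℕ) : k) ^ 2 * b x.1} with hD
  have hfin : Fintype D := Fintype.ofFinite D
  let Y := Σ y : D × (ZMod p)ˣ, E2 y.1.1.1 y.1.1.2.1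
  let f : Y → (Fin n → Option (ZMod p)) := fun y m =>
    if m = y.2.1 then none else
    if m = y.1.1.1.2.1 then some (y.1.2 : ZMod p) else
      if m = y.1.1.1.1 then some ((y.1.1.1.2.2 : ZMod p) * (y.1.2 : ZMod p)) else some 0
  have hcardY : Fintype.card Y = (n - 2) * ((p - 1) * isoN p b) := by
    have h1 : ∀ y : D × (ZMod p)ˣ, Fintype.card (E2 y.1.1.1 y.1.1.2.1) = n - 2 := fun y =>
      card_E2 y.1.2.1.ne
    rw [Fintype.card_sigma, Finset.sum_congr rfl fun y _ => h1 y, Finset.sum_const,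
      Finset.card_univ, Fintype.card_prod, ZMod.card_units, smul_eq_mul]
    have h2 : isoN p b = Fintype.card D := by
      unfold isoN
      rw [← hD, Nat.card_eq_fintype_card]
    rw [h2]
    ring
  have hsub : (Finset.univ.filter fun τ : Fin n → Option (ZMod p) => C2 b τ) ⊆
      Finset.univ.image f := by
    intro τ hτ
    rw [Finset.mem_filter] at hτ
    obtain ⟨e, i, j, hij, hi, hj, hI, hS, hc⟩ := hτ.2.lt
    have hne : ∀ {m : Fin n}, coef τ m ≠ 0 → (τ m).getD 0 ≠ 0 := fun h h0 =>
      h (coef_zero_iff.2 h0)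
    have hsome : ∀ {m : Fin n}, m ≠ e → τ m = some ((τ m).getD 0) := by
      intro m hm
      have h1 : τ m ≠ none := mem_IT.1 (by rw [hI]; simp [hm])
      cases h2 : τ m with
      | none => exact absurd h2 h1
      | some a => rfl
    have hnote : ∀ {m : Fin n}, coef τ m ≠ 0 → m ≠ e := by
      intro m hm hme
      have := mem_IT.2 (coef_ne hm)
      rw [hI, hme] at this
      simp at this
    have hι : ∀ ρ : ZMod p, ((ρ.val : ℕ) : k) = ZMod.castHom (dvd_refl p) k ρ := by
      intro ρ
      rw [ZMod.castHom_apply, ZMod.natCast_val]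
    have hcond : b j = (((((τ i).getD 0 * ((τ j).getD 0)⁻¹ : ZMod p)).val : ℕ) : k) ^ 2 * b i := by
      have h1 : cf k τ i = ZMod.castHom (dvd_refl p) k ((τ i).getD 0) := hι _
      have h2 : cf k τ j = ZMod.castHom (dvd_refl p) k ((τ j).getD 0) := hι _
      have h3 : ZMod.castHom (dvd_refl p) k ((τ j).getD 0) ≠ 0 := by
        rw [← h2]
        exact cf_ne hj
      rw [hι, map_mul, map_inv₀]
      rw [h1, h2] at hc
      field_simp
      linear_combination -hc
    rw [Finset.mem_image]
    refine ⟨⟨(⟨(i, j, Units.mk0 ((τ i).getD 0 * ((τ j).getD 0)⁻¹)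
      (mul_ne_zero (hne hi) (inv_ne_zero (hne hj)))), hij, hcond⟩,
      Units.mk0 ((τ j).getD 0) (hne hj)), ⟨e, (hnote hi).symm, (hnote hj).symm⟩⟩,
      Finset.mem_univ _, ?_⟩
    funext m
    simp only [f, Units.val_mk0]
    by_cases hme : m = e
    · rw [if_pos hme, hme]
      have h1 : e ∉ IT τ := by
        rw [hI]
        simp
      rw [mem_IT, not_not] at h1
      exact h1.symm
    rw [if_neg hme]
    by_cases hmj : m = j
    · rw [if_pos hmj, hmj]
      exact (hsome (hnote hj)).symm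
    · rw [if_neg hmj]
      by_cases hmi : m = i
      · rw [if_pos hmi, hmi, inv_mul_cancel_right₀ (hne hj)]
        exact (hsome (hnote hi)).symm
      · rw [if_neg hmi, hsome hme, coef_zero_iff.1 (hS m hmi hmj)]
  refine (Finset.card_le_card hsub).trans (Finset.card_image_le.trans (le_of_eq ?_))
  rw [Finset.card_univ, hcardY]

open scoped Classical in
theorem card_gT : (Finset.univ.filter fun τ : Fin n → Option (ZMod p) =>
    IT τ = Finset.univ ∧ P3 b (gT τ)).card ≤ R3 p b := by
  unfold R3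
  refine Finset.card_le_card_of_injOn gT (fun τ hτ => ?_) fun τ hτ τ' hτ' h => ?_
  · rw [Finset.mem_coe, Finset.mem_filter] at hτ ⊢
    exact ⟨Finset.mem_univ _, hτ.2.2⟩
  · rw [Finset.mem_coe, Finset.mem_filter] at hτ hτ'
    funext m
    have h1 : τ m ≠ none := mem_IT.1 (by rw [hτ.2.1]; exact Finset.mem_univ m)
    have h2 : τ' m ≠ none := mem_IT.1 (by rw [hτ'.2.1]; exact Finset.mem_univ m)
    have h3 := congrFun h m
    have h4 : coef τ m = coef τ' m := by
      have := congrFun (congrArg coef h) m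
      rwa [coef_gT, coef_gT] at this
    unfold gT at h3
    by_cases h5 : coef τ m = 0
    · have h6 := coef_zero_iff.1 h5
      rw [h4] at h5
      have h7 := coef_zero_iff.1 h5
      cases h8 : τ m with
      | none => exact absurd h8 h1
      | some a =>
        cases h9 : τ' m with
        | none => exact absurd h9 h2
        | some a' =>
          rw [h8] at h6
          rw [h9] at h7
          rw [Option.getD_some] at h6 h7
          rw [h6, h7]
    · rw [if_neg h5, if_neg (by rw [← h4]; exact h5)] at h3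
      exact h3

open scoped Classical in
theorem sum_quadN : ∑ τ : Fin n → Option (ZMod p),
    (if IT τ = Finset.univ ∧ (ST τ).card = 4 then min 2 (pairN b (rho τ)) else 0) ≤ quadN p b := by
  have hq : quadN p b = ∑ ρ ∈ Finset.univ.filter (fun ρ : Fin n → ZMod p =>
      Nat.card {i // ρ i ≠ 0} = 4), min 2 (pairN b ρ) := by
    have hset : {ρ : Fin n → ZMod p | Nat.card {i // ρ i ≠ 0} = 4} =
        (Finset.univ.filter (fun ρ : Fin n → ZMod p => Nat.card {i // ρ i ≠ 0} = 4) :
          Finset (Fin n → ZMod p)) := by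
      ext ρ
      simp
    unfold quadN
    rw [hset, finsum_mem_coe_finset]
  rw [hq, ← Finset.sum_filter]
  have hinj : Set.InjOn (rho (p := p) (n := n)) (Finset.univ.filter fun τ :
      Fin n → Option (ZMod p) => IT τ = Finset.univ ∧ (ST τ).card = 4 : Finset _) := by
    intro τ hτ τ' hτ' h
    rw [Finset.mem_coe, Finset.mem_filter] at hτ hτ'
    funext m
    have h1 : τ m ≠ none := mem_IT.1 (by rw [hτ.2.1]; exact Finset.mem_univ m)
    have h2 : τ' m ≠ none := mem_IT.1 (by rw [hτ'.2.1]; exact Finset.mem_univ m)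
    have h3 : (τ m).getD 0 = (τ' m).getD 0 := congrFun h m
    cases h8 : τ m with
    | none => exact absurd h8 h1
    | some a =>
      cases h9 : τ' m with
      | none => exact absurd h9 h2
      | some a' =>
        rw [h8, h9, Option.getD_some, Option.getD_some] at h3
        rw [h3]
  rw [← Finset.sum_image (f := fun ρ : Fin n → ZMod p => min 2 (pairN b ρ)) hinj]
  refine Finset.sum_le_sum_of_subset fun ρ hρ => ?_
  rw [Finset.mem_image] at hρ
  obtain ⟨τ, hτ, rfl⟩ := hρ
  rw [Finset.mem_filter] at hτ ⊢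
  refine ⟨Finset.mem_univ _, ?_⟩
  rw [← hτ.2.2, Nat.card_eq_fintype_card, Fintype.card_subtype]
  congr 1
  ext m
  rw [Finset.mem_filter, mem_ST, and_iff_right (Finset.mem_univ _), Ne, Ne, coef_zero_iff]
  rfl

/-- Cycles of codimension two on `X`, for every field `k`. -/
theorem rank_codim_two (hb : ∀ i, b i ≠ 0) (hn : 2 ≤ n) (hmain : Main k p n b (n - 2)) :
    Module.rank ℚ (CHX p b (n - 2)) ≤ ((n.choose 2 + (n - 2) * ((p - 1) * isoN p b) +
      quadN p b + R3 p b : ℕ) : Cardinal.{0}) := by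
  classical
  refine hmain.trans ?_
  have h1 : (∑ τ : Fin n → Option (ZMod p) with τ ∈ Idx p n, Module.rank ℚ (CHY b τ (n - 2))) ≤
      ∑ τ : Fin n → Option (ZMod p), (((if C2 b τ then 1 else 0) +
      (if IT τ = Finset.univ ∧ P3 b (gT τ) then 1 else 0) +
      (if IT τ = Finset.univ ∧ (ST τ).card = 4 then min 2 (pairN b (rho τ)) else 0) : ℕ) :
        Cardinal.{0}) := by
    rw [Finset.sum_filter]
    refine Finset.sum_le_sum fun τ _ => ?_
    by_cases hτ : τ ∈ Idx p n
    · rw [if_pos hτ]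
      exact rank_any hb hτ hn
    · rw [if_neg hτ]
      exact bot_le
  have h2 : ∑ τ : Fin n → Option (ZMod p), ((if C2 b τ then 1 else 0) +
      (if IT τ = Finset.univ ∧ P3 b (gT τ) then 1 else 0) +
      (if IT τ = Finset.univ ∧ (ST τ).card = 4 then min 2 (pairN b (rho τ)) else 0)) ≤
      (n - 2) * ((p - 1) * isoN p b) + quadN p b + R3 p b := by
    rw [Finset.sum_add_distrib, Finset.sum_add_distrib, ← Finset.card_filter,
      ← Finset.card_filter]
    have := card_C2 (p := p) (b := b)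
    have := card_gT (p := p) (b := b)
    have := sum_quadN (p := p) (b := b)
    omega
  refine (add_le_add le_rfl h1).trans ?_
  rw [← Nat.cast_sum, ← Nat.cast_add, Nat.cast_le, Nat.choose_symm hn]
  omega

end Pool.Agent.Helper19.KL

set_option linter.unusedSectionVars false

/-!
Project KL (MP_0b9e0b_ag): cycles of codimension one.
-/

namespace Pool.Agent.Helper19.KL

open Pool.Agent.Helper16 Pool.Agent.Helper1.KL

variable {k : Type} [Field k] {p : ℕ} [Fact p.Prime] [CharP k p] {n : ℕ} {b : Fin n → k}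
  {τ : Fin n → Option (ZMod p)}

/-- At most `n - 1` finite coordinates. -/
theorem rank1_small (hτ : τ ∈ Idx p n) (hI : (IT τ).card ≤ n - 1) :
    Module.rank ℚ (CHY b τ (n - 1)) = 0 := by
  classical
  obtain ⟨i0, hi0⟩ := hτ
  refine rank_zero_of fun N _ _ x hx hr => ?_
  exfalso
  have hi0' : i0 ∈ IT τ := mem_IT.2 (coef_ne hi0)
  have hcard : (insert i0 (Finset.univ \ IT τ)).card = n - (IT τ).card + 1 := by
    rw [Finset.card_insert_of_notMem (by simp [hi0']), Finset.card_sdiff_of_subset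
      (Finset.subset_univ _), Finset.card_univ, Fintype.card_fin]
  refine trdeg_contra (T := insert i0 (Finset.univ \ IT τ)) (fun m hm => ?_) hr (by
    have := Finset.card_le_univ (IT τ)
    rw [Fintype.card_fin] at this
    have hpos : 0 < (IT τ).card := Finset.card_pos.2 ⟨i0, hi0'⟩
    omega)
  rw [Finset.mem_insert] at hm
  rcases hm with rfl | hm
  · refine FF_le_GF (rel_mem (τ := τ) (U := Finset.univ) (Finset.mem_univ m) hi0 (yv_sum1 hx)
      fun m' _ hne => ?_)
    by_cases h : m' ∈ IT τ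
    · exact mem_FF (by simp [hne, h])
    · exact coord_zero hx h _
  · exact coord_zero hx (Finset.mem_sdiff.1 hm).2 _

/-- Three nonzero coefficients. -/
theorem rank1_three {i j l : Fin n} (hb : ∀ i, b i ≠ 0)
    (hij : i ≠ j) (hil : i ≠ l) (hjl : j ≠ l) (hi : coef τ i ≠ 0) (hj : coef τ j ≠ 0)
    (hl : coef τ l ≠ 0) : Module.rank ℚ (CHY b τ (n - 1)) = 0 := by
  classical
  refine rank_zero_of fun N _ _ x hx hr => ?_
  exfalso
  have hn : ∀ T : Finset (Fin n), T.card = 2 → n - T.card < n - 1 := by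
    intro T hT
    have := Finset.card_le_univ T
    rw [hT, Fintype.card_fin] at this
    omega
  have h1 := yv_sum1 hx
  have h2 := yv_sum2 hx
  rw [sum_split hij] at h1 h2
  obtain ⟨hA, hD⟩ := sum_compl_mem (b := b) (τ := τ) (x := x) ({i, j} : Finset (Fin n))
  rcases pair_alt (T := ({i, j} : Finset (Fin n))) hb hi hj (yv_ne hx (mem_IT.2 (coef_ne hi)))
    (yv_ne hx (mem_IT.2 (coef_ne hj))) hA hD
    (by linear_combination h1) (by linear_combination h2) with ⟨h3, h4⟩ | ⟨h3, -, -⟩
  · refine trdeg_contra (T := ({i, j} : Finset (Fin n))) (fun m hm => ?_) hr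
      (hn _ (Finset.card_pair hij))
    rw [Finset.mem_insert, Finset.mem_singleton] at hm
    rcases hm with rfl | rfl
    · exact h3
    · exact h4
  · refine trdeg_contra (T := ({l, j} : Finset (Fin n))) (fun m hm => FF_le_GF ?_) hr
      (hn _ (Finset.card_pair hjl.symm))
    rw [Finset.mem_insert, Finset.mem_singleton] at hm
    rcases hm with rfl | rfl
    · refine rel_mem (τ := τ) (U := Finset.univ \ ({i, j} : Finset (Fin n))) (o := m)
        (by simp [hil.symm, hjl.symm]) hl h3 fun m' hm' hne' => ?_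
      rw [Finset.mem_sdiff, Finset.mem_insert, Finset.mem_singleton] at hm'
      push Not at hm'
      exact mem_FF (by simp [hne', hm'.2.2])
    · refine rel_mem (τ := τ) (U := {i, m}) (by simp) hj (by
        rw [Finset.sum_pair hij]; linear_combination h1 - h3) fun m' hm' hne' => ?_
      rw [Finset.mem_insert, Finset.mem_singleton] at hm'
      rcases hm' with rfl | rfl
      · exact mem_FF (by simp [hil, hij])
      · exact absurd rfl hne'

open scoped Classical in
/-- Two nonzero coefficients. -/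
theorem rank1_two {i j : Fin n}
    (hij : i ≠ j) (hi : coef τ i ≠ 0) (hj : coef τ j ≠ 0)
    (hS : ∀ m, m ≠ i → m ≠ j → coef τ m = 0) : Module.rank ℚ (CHY b τ (n - 1)) ≤
      ((if cf k τ i ^ 2 * b i = cf k τ j ^ 2 * b j then 1 else 0 : ℕ) : Cardinal.{0}) := by
  by_cases hex : ∃ (N : Type) (_ : Field N) (_ : Algebra k N) (x : Fin n → Option N),
      YV b τ N x ∧ Algebra.trdeg k (fld k x) = (n - 1 : ℕ)
  · obtain ⟨N0, _, _, x0, hx0, hr0⟩ := hex
    rw [if_pos (cond_S2 hij hi hj hS hx0), Nat.cast_one]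
    refine rank_le_one_of (key k x0) fun N _ _ x hx hr => ?_
    have hcard : ({j} : Finset (Fin n)).card = 1 := Finset.card_singleton j
    have hi' : i ∉ ({j} : Finset (Fin n)) := by simp [hij]
    let s : Fin n → MvPolynomial {m : Fin n // m ∉ ({j} : Finset (Fin n))} k := fun m =>
      if h : m ∉ ({j} : Finset (Fin n)) then MvPolynomial.X ⟨m, h⟩ else
        MvPolynomial.C (-(cf k τ i) / cf k τ j) * MvPolynomial.X ⟨i, hi'⟩
    have hval : ∀ {M : Type} [Field M] [Algebra k M] {y : Fin n → Option M}, YV b τ M y →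
        ∀ m ∈ ({j} : Finset (Fin n)), (y m).getD 0 = MvPolynomial.aeval
          (fun m : {m : Fin n // m ∉ ({j} : Finset (Fin n))} => (y m.1).getD 0) (s m) := by
      intro M _ _ y hy m hm
      have hcj : algebraMap k M (cf k τ j) ≠ 0 := by rw [Ne, map_eq_zero]; exact cf_ne hj
      simp only [s, dif_neg (not_not.2 hm)]
      rw [Finset.mem_singleton] at hm
      have e1 := ym_pair hij hS hy
      unfold ym at e1
      rw [hm, map_mul, MvPolynomial.aeval_C, MvPolynomial.aeval_X, map_div₀, map_neg]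
      field_simp
      linear_combination e1
    have hmem : ∀ {M : Type} [Field M] [Algebra k M] {y : Fin n → Option M}, YV b τ M y →
        ∀ m ∈ ({j} : Finset (Fin n)), (y m).getD 0 ∈ GF k y ({j} : Finset (Fin n)) := by
      intro M _ _ y hy m hm
      rw [Finset.mem_singleton] at hm
      apply FF_le_GF
      rw [hm]
      refine rel_mem (τ := τ) (U := {i, j}) (by simp) hj
        (by rw [Finset.sum_pair hij]; exact ym_pair hij hS hy) fun m' hm' hne' => ?_
      rw [Finset.mem_insert, Finset.mem_singleton] at hm'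
      rcases hm' with rfl | rfl
      · exact mem_FF hi'
      · exact absurd rfl hne'
    have hkey : key k x = key k x0 := key_of_T s (fun m h => dif_pos h) (yv_none hx hx0)
      (hval hx) (hval hx0) (hmem hx) (hmem hx0) (by rw [hcard, hr]) (by rw [hcard, hr0])
    rw [hkey]
    exact Submodule.mem_sup_right (Submodule.mem_span_singleton_self _)
  · rw [rank_zero_of fun N _ _ x hx hr => (hex ⟨N, inferInstance, inferInstance, x, hx, hr⟩).elim]
    exact bot_le

/-- Two nonzero coefficients, all coordinates finite, and `ρ_i ^ 2 b_i = ρ_j ^ 2 b_j`. -/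
def C1 (b : Fin n → k) (τ : Fin n → Option (ZMod p)) : Prop :=
  ∃ i j, i ≠ j ∧ coef τ i ≠ 0 ∧ coef τ j ≠ 0 ∧ IT τ = Finset.univ ∧
    (∀ m, m ≠ i → m ≠ j → coef τ m = 0) ∧ cf k τ i ^ 2 * b i = cf k τ j ^ 2 * b j

theorem C1.lt (h : C1 b τ) : ∃ i j, i < j ∧ coef τ i ≠ 0 ∧ coef τ j ≠ 0 ∧
    IT τ = Finset.univ ∧ (∀ m, m ≠ i → m ≠ j → coef τ m = 0) ∧
      cf k τ i ^ 2 * b i = cf k τ j ^ 2 * b j := by
  obtain ⟨i, j, hij, hi, hj, hI, hS, hc⟩ := h
  rcases lt_or_gt_of_ne hij with h | h
  · exact ⟨i, j, h, hi, hj, hI, hS, hc⟩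
  · exact ⟨j, i, h, hj, hi, hI, fun m h1 h2 => hS m h2 h1, hc.symm⟩

open scoped Classical in
theorem rank1_any (hb : ∀ i, b i ≠ 0) (hτ : τ ∈ Idx p n) :
    Module.rank ℚ (CHY b τ (n - 1)) ≤ ((if C1 b τ then 1 else 0 : ℕ) : Cardinal.{0}) := by
  obtain ⟨i0, hi0⟩ := hτ
  have hpos : 0 < (ST τ).card := Finset.card_pos.2 ⟨i0, mem_ST.2 hi0⟩
  have hle : (IT τ).card ≤ n := by
    have := Finset.card_le_univ (IT τ)
    rwa [Fintype.card_fin] at this
  have hmem : ∀ {s : Finset (Fin n)}, ST τ = s → ∀ m ∈ s, coef τ m ≠ 0 := by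
    intro s hs m hm
    rw [← hs] at hm
    exact mem_ST.1 hm
  have hnot : ∀ {s : Finset (Fin n)}, ST τ = s → ∀ m, m ∉ s → coef τ m = 0 := by
    intro s hs m hm
    by_contra h
    exact hm (by rw [← hs]; exact mem_ST.2 h)
  have hzero : Module.rank ℚ (CHY b τ (n - 1)) = 0 → Module.rank ℚ (CHY b τ (n - 1)) ≤
      ((if C1 b τ then 1 else 0 : ℕ) : Cardinal.{0}) := fun h => by
    rw [h]
    exact bot_le
  have hIcases : (IT τ).card ≤ n - 1 ∨ (IT τ).card = n := by omega
  rcases hIcases with h | h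
  · exact hzero (rank1_small ⟨i0, hi0⟩ h)
  · have hI : IT τ = Finset.univ := by
      rw [← Finset.card_eq_iff_eq_univ, Fintype.card_fin]
      exact h
    have hScases : (ST τ).card = 1 ∨ (ST τ).card = 2 ∨ 3 ≤ (ST τ).card := by omega
    rcases hScases with h1 | h2 | h3
    · obtain ⟨i, hs⟩ := Finset.card_eq_one.1 h1
      exact hzero (rank_S1 (hmem hs i (by simp)) (fun m hm => hnot hs m (by simp [hm])) _)
    · obtain ⟨i, j, hij, hs⟩ := Finset.card_eq_two.1 h2
      have hi := hmem hs i (by simp)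
      have hj := hmem hs j (by simp)
      have hS : ∀ m, m ≠ i → m ≠ j → coef τ m = 0 := fun m h h' => hnot hs m (by simp [h, h'])
      refine (rank1_two hij hi hj hS).trans ?_
      rw [Nat.cast_le]
      by_cases hc : cf k τ i ^ 2 * b i = cf k τ j ^ 2 * b j
      · rw [if_pos hc, if_pos (show C1 b τ from ⟨i, j, hij, hi, hj, hI, hS, hc⟩)]
      · rw [if_neg hc]
        omega
    · obtain ⟨t, ht, htc⟩ := Finset.exists_subset_card_eq h3
      obtain ⟨i, j, l, hij, hil, hjl, rfl⟩ := Finset.card_eq_three.1 htc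
      exact hzero (rank1_three hb hij hil hjl (mem_ST.1 (ht (by simp)))
        (mem_ST.1 (ht (by simp))) (mem_ST.1 (ht (by simp))))

open scoped Classical in
theorem card_C1 : (Finset.univ.filter fun τ : Fin n → Option (ZMod p) => C1 b τ).card ≤
    (p - 1) * isoN p b := by
  set D := {x : Fin n × Fin n × (ZMod p)ˣ //
    x.1 < x.2.1 ∧ b x.2.1 = (((x.2.2 : ZMod p).val : ℕ) : k) ^ 2 * b x.1} with hD
  have hfin : Fintype D := Fintype.ofFinite D
  let f : D × (ZMod p)ˣ → (Fin n → Option (ZMod p)) := fun y m =>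
    if m = y.1.1.2.1 then some (y.2 : ZMod p) else
      if m = y.1.1.1 then some ((y.1.1.2.2 : ZMod p) * (y.2 : ZMod p)) else some 0
  have hsub : (Finset.univ.filter fun τ : Fin n → Option (ZMod p) => C1 b τ) ⊆
      Finset.univ.image f := by
    intro τ hτ
    rw [Finset.mem_filter] at hτ
    obtain ⟨i, j, hij, hi, hj, hI, hS, hc⟩ := hτ.2.lt
    have hne : ∀ {m : Fin n}, coef τ m ≠ 0 → (τ m).getD 0 ≠ 0 := fun h h0 =>
      h (coef_zero_iff.2 h0)
    have hsome : ∀ m : Fin n, τ m = some ((τ m).getD 0) := by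
      intro m
      have h1 : τ m ≠ none := mem_IT.1 (by rw [hI]; exact Finset.mem_univ m)
      cases h2 : τ m with
      | none => exact absurd h2 h1
      | some a => rfl
    have hι : ∀ ρ : ZMod p, ((ρ.val : ℕ) : k) = ZMod.castHom (dvd_refl p) k ρ := by
      intro ρ
      rw [ZMod.castHom_apply, ZMod.natCast_val]
    have hcond : b j = (((((τ i).getD 0 * ((τ j).getD 0)⁻¹ : ZMod p)).val : ℕ) : k) ^ 2 * b i := by
      have h1 : cf k τ i = ZMod.castHom (dvd_refl p) k ((τ i).getD 0) := hι _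
      have h2 : cf k τ j = ZMod.castHom (dvd_refl p) k ((τ j).getD 0) := hι _
      have h3 : ZMod.castHom (dvd_refl p) k ((τ j).getD 0) ≠ 0 := by
        rw [← h2]
        exact cf_ne hj
      rw [hι, map_mul, map_inv₀]
      rw [h1, h2] at hc
      field_simp
      linear_combination -hc
    rw [Finset.mem_image]
    refine ⟨(⟨(i, j, Units.mk0 ((τ i).getD 0 * ((τ j).getD 0)⁻¹)
      (mul_ne_zero (hne hi) (inv_ne_zero (hne hj)))), hij, hcond⟩,
      Units.mk0 ((τ j).getD 0) (hne hj)), Finset.mem_univ _, ?_⟩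
    funext m
    simp only [f, Units.val_mk0]
    by_cases hmj : m = j
    · rw [if_pos hmj, hmj]
      exact (hsome j).symm
    · rw [if_neg hmj]
      by_cases hmi : m = i
      · rw [if_pos hmi, hmi, inv_mul_cancel_right₀ (hne hj)]
        exact (hsome i).symm
      · rw [if_neg hmi, hsome m, coef_zero_iff.1 (hS m hmi hmj)]
  refine (Finset.card_le_card hsub).trans (Finset.card_image_le.trans (le_of_eq ?_))
  rw [Finset.card_univ, Fintype.card_prod, ZMod.card_units, mul_comm]
  congr 1
  unfold isoN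
  rw [← hD, Nat.card_eq_fintype_card]

/-- Cycles of codimension one on `X`, for every field `k`. -/
theorem rank_codim_one (hb : ∀ i, b i ≠ 0) (hn : 1 ≤ n) (hmain : Main k p n b (n - 1)) :
    Module.rank ℚ (CHX p b (n - 1)) ≤ ((n + (p - 1) * isoN p b : ℕ) : Cardinal.{0}) := by
  classical
  refine hmain.trans ?_
  have h1 : (∑ τ : Fin n → Option (ZMod p) with τ ∈ Idx p n, Module.rank ℚ (CHY b τ (n - 1))) ≤
      ∑ τ : Fin n → Option (ZMod p), ((if C1 b τ then 1 else 0 : ℕ) : Cardinal.{0}) := by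
    rw [Finset.sum_filter]
    refine Finset.sum_le_sum fun τ _ => ?_
    by_cases hτ : τ ∈ Idx p n
    · rw [if_pos hτ]
      exact rank1_any hb hτ
    · rw [if_neg hτ]
      exact bot_le
  refine (add_le_add le_rfl h1).trans ?_
  rw [← Nat.cast_sum, ← Nat.cast_add, Nat.cast_le, ← Finset.card_filter, Nat.choose_symm hn,
    Nat.choose_one_right]
  have := card_C1 (p := p) (b := b)
  omega

end Pool.Agent.Helper19.KL
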