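import Pool.Agent.Helper19.KL.C1

set_option autoImplicit false

/-!
Project KL (MP_0b9e0b_ag), cycles of codimension two: the quadratic equation over the field of
rational functions in the coordinates outside two indices.
-/

namespace Pool.Agent.Helper19.KL

open Pool.Agent.Helper16 Pool.Agent.Helper1.KL

section sums

variable {k : Type} [Field k] {p : ℕ} [Fact p.Prime] [CharP k p] {n : ℕ} (b : Fin n → k)
  (τ : Fin n → Option (ZMod p)) (j l : Fin n)

/-- `∑ ρ_m u_m` over `T`. -/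
noncomputable def A2 (T : Finset (Fin n)) : L2 k j l :=
  ∑ m ∈ T, algebraMap k _ (cf k τ m) * u2 k j l m

/-- `∑ ρ_m b_m / u_m` over `T`. -/
noncomputable def D2 (T : Finset (Fin n)) : L2 k j l :=
  ∑ m ∈ T, algebraMap k _ (cf k τ m * b m) * (u2 k j l m)⁻¹

variable {b τ j l}

theorem theta_spec {T : Finset (Fin n)} {o : Fin n} (ho : o ≠ j ∧ o ≠ l) (hoT : o ∈ T)
    (hc : coef τ o ≠ 0) :
    ∃ θ : L2 k j l →+* RatFunc (L2 k j l),
      (∀ a : k, θ (algebraMap k _ a) = RatFunc.C (algebraMap k _ a)) ∧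
      θ (A2 τ j l T) = RatFunc.X + RatFunc.C (A2 (k := k) τ j l (T.erase o)) ∧
      θ (D2 b τ j l T) = RatFunc.C (algebraMap k _ (cf k τ o ^ 2 * b o)) / RatFunc.X +
        RatFunc.C (D2 b τ j l (T.erase o)) := by
  obtain ⟨θ, h1, h2, h3⟩ := exists_theta k ho (cf_ne (k := k) hc)
  have hs : algebraMap k (L2 k j l) (cf k τ o) ≠ 0 := by rw [Ne, map_eq_zero]; exact cf_ne hc
  refine ⟨θ, h1, ?_, ?_⟩
  · unfold A2
    rw [map_sum, ← Finset.add_sum_erase T _ hoT, map_mul, h1, h2, ← mul_assoc, ← map_mul,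
      ← map_mul, mul_inv_cancel₀ (cf_ne hc), map_one, map_one, one_mul, map_sum]
    congr 1
    refine Finset.sum_congr rfl fun m hm => ?_
    rw [map_mul θ, map_mul RatFunc.C, h1, h3 m (Finset.ne_of_mem_erase hm)]
  · unfold D2
    rw [map_sum, ← Finset.add_sum_erase T _ hoT, map_mul, h1, map_inv₀, h2, map_sum]
    congr 1
    · rw [mul_inv, ← map_inv₀, ← map_inv₀, inv_inv, ← mul_assoc, ← map_mul, ← map_mul,
        ← div_eq_mul_inv]
      congr 3
      ring
    · refine Finset.sum_congr rfl fun m hm => ?_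
      rw [map_mul θ, map_mul RatFunc.C, h1, map_inv₀, map_inv₀, h3 m (Finset.ne_of_mem_erase hm)]

theorem lin_eq_zero {K : Type} [Field K] {a c : K}
    (h : RatFunc.C a + RatFunc.C c * RatFunc.X = 0) : a = 0 ∧ c = 0 := by
  have h1 : algebraMap (Polynomial K) (RatFunc K)
      (Polynomial.C 0 * Polynomial.X ^ 2 + Polynomial.C c * Polynomial.X + Polynomial.C a) = 0 := by
    simp only [map_add, map_mul, RatFunc.algebraMap_C, RatFunc.algebraMap_X, map_zero, zero_mul,
      zero_add]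
    rw [← h]
    ring
  rw [map_eq_zero_iff _ (RatFunc.algebraMap_injective K)] at h1
  obtain ⟨-, h2, h3⟩ := quad_coeffs h1
  exact ⟨h3, h2⟩

theorem A2_ne {T : Finset (Fin n)} {o : Fin n} (ho : o ≠ j ∧ o ≠ l) (hoT : o ∈ T)
    (hc : coef τ o ≠ 0) : A2 (k := k) τ j l T ≠ 0 := by
  intro h0
  obtain ⟨θ, -, h2, -⟩ := theta_spec (b := fun _ => (1 : k)) ho hoT hc
  rw [h0, map_zero] at h2
  have h3 : RatFunc.C (A2 (k := k) τ j l (T.erase o)) + RatFunc.C 1 * RatFunc.X = 0 := by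
    rw [map_one, h2]
    ring
  exact one_ne_zero (lin_eq_zero h3).2

theorem D2_ne {T : Finset (Fin n)} {o : Fin n} (ho : o ≠ j ∧ o ≠ l) (hoT : o ∈ T)
    (hc : coef τ o ≠ 0) (hb : ∀ i, b i ≠ 0) : D2 b τ j l T ≠ 0 := by
  intro h0
  obtain ⟨θ, -, -, h2⟩ := theta_spec (b := b) ho hoT hc
  rw [h0, map_zero] at h2
  have h3 : RatFunc.C (algebraMap k (L2 k j l) (cf k τ o ^ 2 * b o)) +
      RatFunc.C (D2 b τ j l (T.erase o)) * RatFunc.X = 0 := by
    have h4 := congrArg (fun t => t * RatFunc.X) h2.symm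
    simp only [zero_mul] at h4
    rw [← h4, add_mul, div_mul_cancel₀ _ RatFunc.X_ne_zero]
  have h4 := (lin_eq_zero h3).1
  rw [map_eq_zero] at h4
  exact mul_ne_zero (pow_ne_zero 2 (cf_ne hc)) (hb o) h4

theorem AD2_ne {T : Finset (Fin n)} {o o' : Fin n} (hoo : o' ≠ o) (ho : o ≠ j ∧ o ≠ l)
    (hoT : o ∈ T) (hc : coef τ o ≠ 0) (ho' : o' ≠ j ∧ o' ≠ l) (hoT' : o' ∈ T)
    (hc' : coef τ o' ≠ 0) (hb : ∀ i, b i ≠ 0) (c : k) :
    A2 τ j l T * D2 b τ j l T ≠ algebraMap k _ c := by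
  intro h0
  obtain ⟨θ, h1, h2, h3⟩ := theta_spec (b := b) ho hoT hc
  have h4 := congrArg θ h0
  rw [map_mul, h1, h2, h3] at h4
  set A := A2 (k := k) τ j l (T.erase o) with hA
  set D := D2 b τ j l (T.erase o) with hD
  set a : L2 k j l := algebraMap k (L2 k j l) (cf k τ o ^ 2 * b o) with ha
  have ha0 : a ≠ 0 := by
    rw [ha, Ne, map_eq_zero]
    exact mul_ne_zero (pow_ne_zero 2 (cf_ne hc)) (hb o)
  have hA0 : A ≠ 0 := A2_ne ho' (Finset.mem_erase.2 ⟨hoo, hoT'⟩) hc'
  have h5 : algebraMap (Polynomial (L2 k j l)) (RatFunc (L2 k j l))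
      (Polynomial.C D * Polynomial.X ^ 2 + Polynomial.C (a + A * D - algebraMap k _ c) *
        Polynomial.X + Polynomial.C (A * a)) = 0 := by
    have h6 : (RatFunc.X + RatFunc.C A) * (RatFunc.C a / RatFunc.X + RatFunc.C D) * RatFunc.X =
        RatFunc.C (algebraMap k (L2 k j l) c) * RatFunc.X := by rw [h4]
    have h7 : (RatFunc.X + RatFunc.C A) * (RatFunc.C a / RatFunc.X + RatFunc.C D) * RatFunc.X =
        (RatFunc.X + RatFunc.C A) * (RatFunc.C a + RatFunc.C D * RatFunc.X) := by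
      have hX : (RatFunc.X : RatFunc (L2 k j l)) ≠ 0 := RatFunc.X_ne_zero
      field_simp
    rw [h7] at h6
    simp only [map_add, map_sub, map_mul, map_pow, RatFunc.algebraMap_C, RatFunc.algebraMap_X]
    linear_combination h6
  rw [map_eq_zero_iff _ (RatFunc.algebraMap_injective _)] at h5
  exact mul_ne_zero hA0 ha0 (quad_coeffs h5).2.2

/-- The shape of the solutions in `L2`. -/
theorem sol_shape {β γ : k} (hβ : β ≠ 0) (hγ : γ ≠ 0) (hb : ∀ i, b i ≠ 0) {i o : Fin n}
    (hio : i ≠ o) (hi : i ≠ j ∧ i ≠ l) (ho : o ≠ j ∧ o ≠ l) (hci : coef τ i ≠ 0)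
    (hco : coef τ o ≠ 0) {r z : L2 k j l} (hr : r ≠ 0) (hz : z ≠ 0)
    (h1 : A2 τ j l Finset.univ + r + z = 0)
    (h2 : D2 b τ j l Finset.univ + algebraMap k _ β / r + algebraMap k _ γ / z = 0) :
    (A2 τ j l (Finset.univ.erase o) * D2 b τ j l (Finset.univ.erase o) = algebraMap k _ β ∧
      cf k τ o ^ 2 * b o = γ) ∨
    (A2 τ j l (Finset.univ.erase o) * D2 b τ j l (Finset.univ.erase o) = algebraMap k _ γ ∧
      cf k τ o ^ 2 * b o = β) := by
  obtain ⟨θ, h3, h4, h5⟩ := theta_spec (b := b) ho (Finset.mem_univ o) hco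
  have hA0 : A2 (k := k) τ j l (Finset.univ.erase o) ≠ 0 :=
    A2_ne hi (Finset.mem_erase.2 ⟨hio, Finset.mem_univ i⟩) hci
  have h6 := congrArg θ h1
  have h7 := congrArg θ h2
  rw [map_add, map_add, map_zero, h4] at h6
  rw [map_add, map_add, map_zero, h5, map_div₀, map_div₀, h3, h3] at h7
  have hinj : Function.Injective (algebraMap k (L2 k j l)) := (algebraMap k (L2 k j l)).injective
  have h8 := root_rat hA0 (a := algebraMap k (L2 k j l) (cf k τ o ^ 2 * b o))
    (by rw [Ne, map_eq_zero]; exact mul_ne_zero (pow_ne_zero 2 (cf_ne hco)) (hb o))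
    (by rw [Ne, map_eq_zero]; exact hβ) (by rw [Ne, map_eq_zero]; exact hγ)
    (by rw [Ne, map_eq_zero]; exact hr) (by rw [Ne, map_eq_zero]; exact hz) h6 h7
  rcases h8 with ⟨h9, h10⟩ | ⟨h9, h10⟩
  · exact Or.inl ⟨h9, hinj h10⟩
  · exact Or.inr ⟨h9, hinj h10⟩

/-- No solution if there are five nonzero coefficients. -/
theorem no_sol_five {β γ : k} (hβ : β ≠ 0) (hγ : γ ≠ 0) (hb : ∀ i, b i ≠ 0) {i i' o : Fin n}
    (hii : i' ≠ i) (hio : i ≠ o) (hio' : i' ≠ o) (hi : i ≠ j ∧ i ≠ l) (hi' : i' ≠ j ∧ i' ≠ l)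
    (ho : o ≠ j ∧ o ≠ l) (hci : coef τ i ≠ 0) (hci' : coef τ i' ≠ 0)
    (hco : coef τ o ≠ 0) {r z : L2 k j l} (hr : r ≠ 0) (hz : z ≠ 0)
    (h1 : A2 τ j l Finset.univ + r + z = 0)
    (h2 : D2 b τ j l Finset.univ + algebraMap k _ β / r + algebraMap k _ γ / z = 0) : False := by
  have h3 : ∀ c : k, A2 τ j l (Finset.univ.erase o) * D2 b τ j l (Finset.univ.erase o) ≠
      algebraMap k _ c := AD2_ne hii hi (Finset.mem_erase.2 ⟨hio, Finset.mem_univ i⟩) hci hi'
        (Finset.mem_erase.2 ⟨hio', Finset.mem_univ i'⟩) hci' hb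
  rcases sol_shape hβ hγ hb hio hi ho hci hco hr hz h1 h2 with ⟨h, -⟩ | ⟨h, -⟩
  · exact h3 _ h
  · exact h3 _ h

theorem sum_single {T : Finset (Fin n)} {i : Fin n} (hi : i ∈ T)
    (hT : ∀ m ∈ T, m ≠ i → m = j ∨ m = l ∨ coef τ m = 0) :
    A2 τ j l T = algebraMap k _ (cf k τ i) * u2 k j l i ∧
    D2 b τ j l T = algebraMap k _ (cf k τ i * b i) * (u2 k j l i)⁻¹ := by
  have h0 : ∀ m ∈ T, m ≠ i → u2 k j l m = 0 ∨ cf k τ m = 0 := by
    intro m hm hmi
    rcases hT m hm hmi with h | h | h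
    · exact Or.inl (by rw [h, u2_j])
    · exact Or.inl (by rw [h, u2_l])
    · right
      unfold cf
      rw [h, Nat.cast_zero]
  constructor
  · unfold A2
    refine Finset.sum_eq_single i (fun m hm hmi => ?_) fun h => absurd hi h
    rcases h0 m hm hmi with h | h
    · rw [h, mul_zero]
    · rw [h, map_zero, zero_mul]
  · unfold D2
    refine Finset.sum_eq_single i (fun m hm hmi => ?_) fun h => absurd hi h
    rcases h0 m hm hmi with h | h
    · rw [h, inv_zero, mul_zero]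
    · rw [h, zero_mul, map_zero, zero_mul]

/-- The solutions if there are four nonzero coefficients. -/
theorem sol_four {β γ : k} (hβ : β ≠ 0) (hγ : γ ≠ 0) (hb : ∀ i, b i ≠ 0) {i o : Fin n}
    (hio : i ≠ o) (hi : i ≠ j ∧ i ≠ l) (ho : o ≠ j ∧ o ≠ l) (hci : coef τ i ≠ 0)
    (hco : coef τ o ≠ 0) (hS : ∀ m, m ≠ i → m ≠ o → m = j ∨ m = l ∨ coef τ m = 0)
    {r z : L2 k j l} (hr : r ≠ 0) (hz : z ≠ 0)
    (h1 : A2 τ j l Finset.univ + r + z = 0)
    (h2 : D2 b τ j l Finset.univ + algebraMap k _ β / r + algebraMap k _ γ / z = 0) :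
    (cf k τ i ^ 2 * b i = β ∧ cf k τ o ^ 2 * b o = γ) ∨
    (cf k τ i ^ 2 * b i = γ ∧ cf k τ o ^ 2 * b o = β) := by
  have h3 := sum_single (b := b) (τ := τ) (j := j) (l := l) (T := Finset.univ.erase o) (i := i)
    (Finset.mem_erase.2 ⟨hio, Finset.mem_univ i⟩) fun m hm hmi =>
      hS m hmi (Finset.ne_of_mem_erase hm)
  have h4 : A2 τ j l (Finset.univ.erase o) * D2 b τ j l (Finset.univ.erase o) =
      algebraMap k _ (cf k τ i ^ 2 * b i) := by
    rw [h3.1, h3.2]
    have hu := u2_ne (k := k) hi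
    simp only [map_mul, map_pow]
    field_simp
  have hinj : Function.Injective (algebraMap k (L2 k j l)) := (algebraMap k (L2 k j l)).injective
  rcases sol_shape hβ hγ hb hio hi ho hci hco hr hz h1 h2 with ⟨h, h'⟩ | ⟨h, h'⟩
  · rw [h4] at h
    exact Or.inl ⟨hinj h, h'⟩
  · rw [h4] at h
    exact Or.inr ⟨hinj h, h'⟩

end sums

end Pool.Agent.Helper19.KL

set_option linter.unusedSectionVars false

/-!
Project KL (MP_0b9e0b_ag), cycles of codimension two: points with independent coordinates outside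
two indices.
-/

namespace Pool.Agent.Helper19.KL

open Pool.Agent.Helper16 Pool.Agent.Helper1.KL

section alg

variable {K : Type} [Field K]

theorem root_of_sol {A D β γ Y Z : K} (hY : Y ≠ 0) (hZ : Z ≠ 0) (h1 : A + Y + Z = 0)
    (h2 : D + β / Y + γ / Z = 0) : D * Y ^ 2 + (D * A + β - γ) * Y + β * A = 0 := by
  have hZe : Z = -(A + Y) := by linear_combination h1
  have h6 : (D + β / Y + γ / Z) * (Y * Z) = D * Y * Z + β * Z + γ * Y := by
    field_simp
  rw [h2, zero_mul, hZe] at h6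
  linear_combination h6

theorem sol_of_root {A D β γ r : K} (hA : A ≠ 0) (hβ : β ≠ 0) (hγ : γ ≠ 0)
    (h : D * r ^ 2 + (D * A + β - γ) * r + β * A = 0) :
    r ≠ 0 ∧ -(A + r) ≠ 0 ∧ A + r + -(A + r) = 0 ∧ D + β / r + γ / -(A + r) = 0 := by
  have hr : r ≠ 0 := by
    intro h0
    rw [h0] at h
    exact mul_ne_zero hβ hA (by linear_combination h)
  have hz : A + r ≠ 0 := by
    intro h0
    have h1 : r = -A := by linear_combination h0
    rw [h1] at h
    exact mul_ne_zero hγ hA (by linear_combination h)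
  refine ⟨hr, neg_ne_zero.2 hz, by ring, ?_⟩
  rw [div_neg]
  field_simp
  linear_combination h

end alg

section case1

variable {k : Type} [Field k] {p : ℕ} [Fact p.Prime] [CharP k p] {n : ℕ} {b : Fin n → k}
  {τ : Fin n → Option (ZMod p)} {j l : Fin n}

/-- The point over `K1` given by `r`. -/
noncomputable def zpt {K1 : Type} [Field K1] [Algebra k K1] (τ : Fin n → Option (ZMod p))
    (ι : L2 k j l →ₐ[k] K1) (r : K1) : Fin n → Option K1 :=
  fun m => some (if m = j then r * algebraMap k K1 (cf k τ j)⁻¹ else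
    if m = l then -(ι (A2 τ j l Finset.univ) + r) * algebraMap k K1 (cf k τ l)⁻¹ else
      ι (u2 k j l m))

variable {N : Type} [Field N] [Algebra k N] {x : Fin n → Option N}

theorem phi_spec (hjl : j ≠ l) (hj : coef τ j ≠ 0) (hl : coef τ l ≠ 0) (hI : IT τ = Finset.univ)
    (hx : YV b τ N x) {φ : L2 k j l →ₐ[k] N}
    (hφ : ∀ m : E2 j l, φ (u2 k j l m.1) = (x m.1).getD 0) :
    φ (A2 τ j l Finset.univ) + algebraMap k N (cf k τ j) * (x j).getD 0 +
      algebraMap k N (cf k τ l) * (x l).getD 0 = 0 ∧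
    φ (D2 b τ j l Finset.univ) +
      algebraMap k N (cf k τ j ^ 2 * b j) / (algebraMap k N (cf k τ j) * (x j).getD 0) +
      algebraMap k N (cf k τ l ^ 2 * b l) / (algebraMap k N (cf k τ l) * (x l).getD 0) = 0 := by
  classical
  obtain ⟨h1, h2⟩ := yv_sums hx
  rw [hI, sum_split hjl] at h1 h2
  have hm : ∀ m ∈ Finset.univ \ ({j, l} : Finset (Fin n)), φ (u2 k j l m) = (x m).getD 0 := by
    intro m hm
    rw [Finset.mem_sdiff, Finset.mem_insert, Finset.mem_singleton] at hm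
    push Not at hm
    exact hφ ⟨m, hm.2⟩
  have hxj : (x j).getD 0 ≠ 0 := yv_ne hx (by rw [hI]; simp)
  have hxl : (x l).getD 0 ≠ 0 := yv_ne hx (by rw [hI]; simp)
  have hcj : algebraMap k N (cf k τ j) ≠ 0 := by rw [Ne, map_eq_zero]; exact cf_ne hj
  have hcl : algebraMap k N (cf k τ l) ≠ 0 := by rw [Ne, map_eq_zero]; exact cf_ne hl
  constructor
  · have h3 : φ (A2 τ j l Finset.univ) = ∑ m ∈ Finset.univ \ ({j, l} : Finset (Fin n)),
        algebraMap k N (cf k τ m) * (x m).getD 0 := by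
      unfold A2
      rw [sum_split hjl, u2_j, u2_l, mul_zero, mul_zero, add_zero, zero_add, map_sum]
      refine Finset.sum_congr rfl fun m hm' => ?_
      rw [map_mul φ, AlgHom.commutes, hm m hm']
    rw [h3]
    linear_combination h1
  · have h3 : φ (D2 b τ j l Finset.univ) = ∑ m ∈ Finset.univ \ ({j, l} : Finset (Fin n)),
        algebraMap k N (cf k τ m * b m) * ((x m).getD 0)⁻¹ := by
      unfold D2
      rw [sum_split hjl, u2_j, u2_l, inv_zero, mul_zero, mul_zero, add_zero, zero_add, map_sum]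
      refine Finset.sum_congr rfl fun m hm' => ?_
      rw [map_mul φ, AlgHom.commutes, map_inv₀, hm m hm']
    have h4 : ∀ (m : Fin n), algebraMap k N (cf k τ m) ≠ 0 → (x m).getD 0 ≠ 0 →
        algebraMap k N (cf k τ m ^ 2 * b m) / (algebraMap k N (cf k τ m) * (x m).getD 0) =
        algebraMap k N (cf k τ m * b m) * ((x m).getD 0)⁻¹ := by
      intro m hc hxm
      simp only [map_mul, map_pow]
      field_simp
    rw [h3, h4 j hcj hxj, h4 l hcl hxl]
    linear_combination h2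

theorem key_zpt (hjl : j ≠ l) (hj : coef τ j ≠ 0) (hl : coef τ l ≠ 0) (hI : IT τ = Finset.univ)
    (hx : YV b τ N x) {φ : L2 k j l →ₐ[k] N}
    (hφ : ∀ m : E2 j l, φ (u2 k j l m.1) = (x m.1).getD 0)
    {K1 : Type} [Field K1] [Algebra k K1] (ι : L2 k j l →ₐ[k] K1) (r : K1) (ψ : K1 →ₐ[k] N)
    (hψ : ∀ a, ψ (ι a) = φ a) (hr : ψ r = algebraMap k N (cf k τ j) * (x j).getD 0) :
    key k x = key k (zpt τ ι r) := by
  have h0 : (fun m => (zpt τ ι r m).map ψ) = x := by
    funext m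
    obtain ⟨a, ha, hxm⟩ := yv_fin hx (mem_IT.1 (by rw [hI]; exact Finset.mem_univ m))
    have hcj : algebraMap k N (cf k τ j) ≠ 0 := by rw [Ne, map_eq_zero]; exact cf_ne hj
    have hcl : algebraMap k N (cf k τ l) ≠ 0 := by rw [Ne, map_eq_zero]; exact cf_ne hl
    unfold zpt
    rw [Option.map_some, hxm]
    congr 1
    by_cases h1 : m = j
    · subst h1
      rw [if_pos rfl, map_mul, hr, hxm, AlgHom.commutes, Option.getD_some, map_inv₀]
      field_simp
    by_cases h2 : m = l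
    · subst h2
      rw [if_neg h1, if_pos rfl, map_mul, map_neg, map_add, hψ, hr, AlgHom.commutes, map_inv₀]
      have h3 := (phi_spec hjl hj hl hI hx hφ).1
      rw [hxm, Option.getD_some] at h3
      have h4 : -(φ (A2 τ j m Finset.univ) + algebraMap k N (cf k τ j) * (x j).getD 0) =
          algebraMap k N (cf k τ m) * a := by linear_combination -h3
      rw [h4]
      field_simp
    · rw [if_neg h1, if_neg h2, hψ, hφ ⟨m, h1, h2⟩, hxm, Option.getD_some]
  conv_lhs => rw [← h0]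
  exact key_map' ψ _

/-- One point if the quadratic equation has no solution. -/
theorem case1_irr (hjl : j ≠ l) (hj : coef τ j ≠ 0) (hl : coef τ l ≠ 0) (hI : IT τ = Finset.univ)
    (hb : ∀ i, b i ≠ 0) (hA : A2 (k := k) τ j l Finset.univ ≠ 0)
    (hD : D2 b τ j l Finset.univ ≠ 0)
    (hno : ∀ r z : L2 k j l, r ≠ 0 → z ≠ 0 → A2 τ j l Finset.univ + r + z = 0 →
      D2 b τ j l Finset.univ + algebraMap k _ (cf k τ j ^ 2 * b j) / r +
        algebraMap k _ (cf k τ l ^ 2 * b l) / z = 0 → False) :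
    ∃ Q : Key k (Fin n), ∀ (N : Type) [Field N] [Algebra k N] (x : Fin n → Option N),
      YV b τ N x → AlgebraicIndependent k (fun m : E2 j l => (x m.1).getD 0) → key k x = Q := by
  set A := A2 (k := k) τ j l Finset.univ with hAd
  set D := D2 b τ j l Finset.univ with hDd
  set β : L2 k j l := algebraMap k _ (cf k τ j ^ 2 * b j) with hβd
  set γ : L2 k j l := algebraMap k _ (cf k τ l ^ 2 * b l) with hγd
  have hβ : β ≠ 0 := by
    rw [hβd, Ne, map_eq_zero]
    exact mul_ne_zero (pow_ne_zero 2 (cf_ne hj)) (hb j)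
  have hγ : γ ≠ 0 := by
    rw [hγd, Ne, map_eq_zero]
    exact mul_ne_zero (pow_ne_zero 2 (cf_ne hl)) (hb l)
  set q : Polynomial (L2 k j l) := Polynomial.C D * Polynomial.X ^ 2 +
    Polynomial.C (D * A + β - γ) * Polynomial.X + Polynomial.C (β * A) with hq
  have hdeg : q.natDegree = 2 := Polynomial.natDegree_quadratic hD
  have hirr : Irreducible q := by
    refine Polynomial.irreducible_of_degree_le_three_of_not_isRoot ?_ fun r hr => ?_
    · rw [hdeg]
      simp
    · unfold Polynomial.IsRoot at hr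
      rw [hq] at hr
      simp only [Polynomial.eval_add, Polynomial.eval_mul, Polynomial.eval_C, Polynomial.eval_X,
        Polynomial.eval_pow] at hr
      obtain ⟨h1, h2, h3, h4⟩ := sol_of_root hA hβ hγ hr
      exact hno _ _ h1 h2 h3 h4
  have hfact : Fact (Irreducible q) := ⟨hirr⟩
  refine ⟨key k (zpt τ (AdjoinRoot.ofAlgHom k q) (AdjoinRoot.root q)), fun N _ _ x hx hc => ?_⟩
  obtain ⟨φ, hφ⟩ := exists_phi hc
  obtain ⟨h1, h2⟩ := phi_spec hjl hj hl hI hx hφ
  have hxj : (x j).getD 0 ≠ 0 := yv_ne hx (by rw [hI]; simp)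
  have hxl : (x l).getD 0 ≠ 0 := yv_ne hx (by rw [hI]; simp)
  have hcj : algebraMap k N (cf k τ j) ≠ 0 := by rw [Ne, map_eq_zero]; exact cf_ne hj
  have hcl : algebraMap k N (cf k τ l) ≠ 0 := by rw [Ne, map_eq_zero]; exact cf_ne hl
  have h3 := root_of_sol (mul_ne_zero hcj hxj) (mul_ne_zero hcl hxl) h1 h2
  have h4 : q.eval₂ (φ : L2 k j l →+* N) (algebraMap k N (cf k τ j) * (x j).getD 0) = 0 := by
    rw [hq]
    simp only [Polynomial.eval₂_add, Polynomial.eval₂_mul, Polynomial.eval₂_C,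
      Polynomial.eval₂_X, Polynomial.eval₂_pow, RingHom.coe_coe]
    rw [map_sub φ, map_add φ, map_mul φ, map_mul φ, hβd, hγd, AlgHom.commutes, AlgHom.commutes]
    exact h3
  exact key_zpt hjl hj hl hI hx hφ (AdjoinRoot.ofAlgHom k q) (AdjoinRoot.root q)
    (AdjoinRoot.liftAlgHom q φ _ h4) (fun a => by simp) (by simp)

/-- Two points if the quadratic equation has a solution. -/
theorem case1_red (hjl : j ≠ l) (hj : coef τ j ≠ 0) (hl : coef τ l ≠ 0) (hI : IT τ = Finset.univ)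
    (hD : D2 b τ j l Finset.univ ≠ 0) {r1 : L2 k j l} (hr1 : r1 ≠ 0)
    (h1 : D2 b τ j l Finset.univ * r1 ^ 2 + (D2 b τ j l Finset.univ * A2 τ j l Finset.univ +
      algebraMap k _ (cf k τ j ^ 2 * b j) - algebraMap k _ (cf k τ l ^ 2 * b l)) * r1 +
        algebraMap k _ (cf k τ j ^ 2 * b j) * A2 τ j l Finset.univ = 0) :
    ∃ r2 : L2 k j l, D2 b τ j l Finset.univ * r2 ^ 2 + (D2 b τ j l Finset.univ *
      A2 τ j l Finset.univ + algebraMap k _ (cf k τ j ^ 2 * b j) -
        algebraMap k _ (cf k τ l ^ 2 * b l)) * r2 +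
        algebraMap k _ (cf k τ j ^ 2 * b j) * A2 τ j l Finset.univ = 0 ∧
      ∀ (N : Type) [Field N] [Algebra k N] (x : Fin n → Option N),
      YV b τ N x → AlgebraicIndependent k (fun m : E2 j l => (x m.1).getD 0) →
        key k x = key k (zpt τ (AlgHom.id k _) r1) ∨ key k x = key k (zpt τ (AlgHom.id k _) r2) := by
  set A := A2 (k := k) τ j l Finset.univ with hAd
  set D := D2 b τ j l Finset.univ with hDd
  set β : L2 k j l := algebraMap k _ (cf k τ j ^ 2 * b j) with hβd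
  set γ : L2 k j l := algebraMap k _ (cf k τ l ^ 2 * b l) with hγd
  set r2 := β * A / (D * r1) with hr2
  have h5 : D * r1 * r2 = β * A := by
    rw [hr2]
    field_simp
  have h6 : -(D * (r1 + r2)) = D * A + β - γ := by
    apply mul_left_cancel₀ hr1
    linear_combination -h1 - h5
  refine ⟨r2, by rw [← h6]; linear_combination -h5, fun N _ _ x hx hc => ?_⟩
  obtain ⟨φ, hφ⟩ := exists_phi hc
  obtain ⟨h7, h8⟩ := phi_spec hjl hj hl hI hx hφ
  have hxj : (x j).getD 0 ≠ 0 := yv_ne hx (by rw [hI]; simp)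
  have hxl : (x l).getD 0 ≠ 0 := yv_ne hx (by rw [hI]; simp)
  have hcj : algebraMap k N (cf k τ j) ≠ 0 := by rw [Ne, map_eq_zero]; exact cf_ne hj
  have hcl : algebraMap k N (cf k τ l) ≠ 0 := by rw [Ne, map_eq_zero]; exact cf_ne hl
  have h3 := root_of_sol (mul_ne_zero hcj hxj) (mul_ne_zero hcl hxl) h7 h8
  set Y := algebraMap k N (cf k τ j) * (x j).getD 0 with hY
  have h9 : φ D * (Y - φ r1) * (Y - φ r2) = 0 := by
    have h10 := congrArg φ h6
    have h11 := congrArg φ h5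
    simp only [map_add, map_sub, map_mul, map_neg] at h10 h11
    rw [hβd, hγd, AlgHom.commutes, AlgHom.commutes] at h10
    rw [hβd, AlgHom.commutes] at h11
    linear_combination h3 + Y * h10 + h11
  have hφD : φ D ≠ 0 := by
    rw [Ne, map_eq_zero]
    exact hD
  rcases mul_eq_zero.1 h9 with h10 | h10
  · left
    exact key_zpt hjl hj hl hI hx hφ (AlgHom.id k _) r1 φ (fun a => rfl)
      (sub_eq_zero.1 ((mul_eq_zero.1 h10).resolve_left hφD)).symm
  · right
    exact key_zpt hjl hj hl hI hx hφ (AlgHom.id k _) r2 φ (fun a => rfl)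
      (sub_eq_zero.1 h10).symm

end case1

end Pool.Agent.Helper19.KL
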