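import Pool.Agent.Helper19.KL.C1

set_option autoImplicit false
set_option linter.unusedSectionVars false

/-!
Project KL (MP_0b9e0b_ag), cycles of codimension two: dimensions of points.
-/

namespace Pool.Agent.Helper19.KL

open Pool.Agent.Helper16 Pool.Agent.Helper1.KL

section FF

variable (k : Type) {N : Type} [Field k] [Field N] [Algebra k N] {n : ℕ}

/-- The field generated by the coordinates outside `T`. -/
noncomputable def FF (x : Fin n → Option N) (T : Finset (Fin n)) : IntermediateField k N :=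
  IntermediateField.adjoin k (Set.range fun m : {m : Fin n // m ∉ T} => (x m.1).getD 0)

/-- Elements which are algebraic over it. -/
noncomputable def GF (x : Fin n → Option N) (T : Finset (Fin n)) : IntermediateField k N :=
  (algebraicClosure (FF k x T) N).restrictScalars k

variable {k} {x : Fin n → Option N} {T : Finset (Fin n)}

theorem mem_GF {a : N} : a ∈ GF k x T ↔ IsAlgebraic (FF k x T) a :=
  mem_algebraicClosure_iff

theorem mem_FF {m : Fin n} (hm : m ∉ T) : (x m).getD 0 ∈ FF k x T :=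
  IntermediateField.subset_adjoin k _ ⟨⟨m, hm⟩, rfl⟩

theorem FF_le_GF : FF k x T ≤ GF k x T := by
  intro a ha
  rw [mem_GF]
  exact isAlgebraic_algebraMap (⟨a, ha⟩ : FF k x T)

theorem FF_anti {T' : Finset (Fin n)} (h : T' ⊆ T) : FF k x T ≤ FF k x T' := by
  unfold FF
  rw [IntermediateField.adjoin_le_iff]
  rintro _ ⟨m, rfl⟩
  exact mem_FF fun hm => m.2 (h hm)

theorem alg_mono {F G : IntermediateField k N} (h : F ≤ G) {a : N} (ha : IsAlgebraic F a) :
    IsAlgebraic G a := by
  obtain ⟨P, hP, h0⟩ := ha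
  have hg : (algebraMap G N).comp (IntermediateField.inclusion h).toRingHom = algebraMap F N :=
    RingHom.ext fun _ => rfl
  refine ⟨P.map (IntermediateField.inclusion h).toRingHom, ?_, ?_⟩
  · rw [Ne, Polynomial.map_eq_zero]
    exact hP
  · rw [Polynomial.aeval_def, Polynomial.eval₂_map, hg]
    exact h0

theorem GF_anti {T' : Finset (Fin n)} (h : T' ⊆ T) : GF k x T ≤ GF k x T' := by
  intro a ha
  rw [mem_GF] at ha ⊢
  exact alg_mono (FF_anti h) ha

theorem card_compl (T : Finset (Fin n)) : Fintype.card {m : Fin n // m ∉ T} = n - T.card := by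
  rw [Fintype.card_subtype_compl, Fintype.card_fin, Fintype.card_coe]

theorem all_alg (h : ∀ m ∈ T, (x m).getD 0 ∈ GF k x T) (m : Fin n) :
    IsAlgebraic (IntermediateField.adjoin k (Set.range fun m : {m : Fin n // m ∉ T} =>
      (x m.1).getD 0)) ((x m).getD 0) := by
  by_cases hm : m ∈ T
  · exact mem_GF.1 (h m hm)
  · exact mem_GF.1 (FF_le_GF (mem_FF hm))

theorem trdeg_le_GF (h : ∀ m ∈ T, (x m).getD 0 ∈ GF k x T) :
    Algebra.trdeg k (fld k x) ≤ ((n - T.card : ℕ) : Cardinal.{0}) := by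
  rw [← card_compl]
  exact trdeg_le_of_alg _ (all_alg h)

theorem indep_GF (h : ∀ m ∈ T, (x m).getD 0 ∈ GF k x T)
    (hr : ((n - T.card : ℕ) : Cardinal.{0}) ≤ Algebra.trdeg k (fld k x)) :
    AlgebraicIndependent k fun m : {m : Fin n // m ∉ T} => (x m.1).getD 0 := by
  rw [← card_compl] at hr
  exact indep_of_alg _ (all_alg h) hr

theorem trdeg_contra {d : ℕ} (h : ∀ m ∈ T, (x m).getD 0 ∈ GF k x T)
    (hr : Algebra.trdeg k (fld k x) = d) (hd : n - T.card < d) : False := by
  have h1 := trdeg_le_GF h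
  rw [hr, Nat.cast_le] at h1
  omega

end FF

section rel

variable {k : Type} [Field k] {p : ℕ} [Fact p.Prime] [CharP k p] {n : ℕ} {b : Fin n → k}
  {τ : Fin n → Option (ZMod p)} {N : Type} [Field N] [Algebra k N] {x : Fin n → Option N}

/-- The term with index `m` of the linear equation. -/
noncomputable abbrev ym (k : Type) [Field k] {p n : ℕ} (τ : Fin n → Option (ZMod p)) {N : Type}
    [Field N] [Algebra k N] (x : Fin n → Option N) (m : Fin n) : N :=
  algebraMap k N (cf k τ m) * (x m).getD 0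

/-- The term with index `m` of the second equation. -/
noncomputable abbrev dm {k : Type} [Field k] {p n : ℕ} (b : Fin n → k)
    (τ : Fin n → Option (ZMod p)) {N : Type}
    [Field N] [Algebra k N] (x : Fin n → Option N) (m : Fin n) : N :=
  algebraMap k N (cf k τ m * b m) * ((x m).getD 0)⁻¹

theorem ym_mem {G : IntermediateField k N} {m : Fin n} (h : (x m).getD 0 ∈ G) :
    ym k τ x m ∈ G := mul_mem (G.algebraMap_mem _) h

theorem dm_mem {G : IntermediateField k N} {m : Fin n} (h : (x m).getD 0 ∈ G) :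
    dm b τ x m ∈ G := mul_mem (G.algebraMap_mem _) (inv_mem h)

theorem of_ym_mem {G : IntermediateField k N} {m : Fin n} (hc : coef τ m ≠ 0)
    (h : ym k τ x m ∈ G) : (x m).getD 0 ∈ G := by
  have hcm : algebraMap k N (cf k τ m) ≠ 0 := by rw [Ne, map_eq_zero]; exact cf_ne hc
  have h1 : (x m).getD 0 = algebraMap k N (cf k τ m)⁻¹ * ym k τ x m := by
    rw [map_inv₀, inv_mul_cancel_left₀ hcm]
  rw [h1]
  exact mul_mem (G.algebraMap_mem _) h

/-- A coordinate in a linear relation. -/
theorem rel_mem {G : IntermediateField k N} {U : Finset (Fin n)} {o : Fin n} (ho : o ∈ U)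
    (hc : coef τ o ≠ 0) (h : ∑ m ∈ U, ym k τ x m = 0)
    (hG : ∀ m ∈ U, m ≠ o → (x m).getD 0 ∈ G) : (x o).getD 0 ∈ G := by
  apply of_ym_mem hc
  rw [← Finset.add_sum_erase U _ ho] at h
  have h1 : ym k τ x o = -∑ m ∈ U.erase o, ym k τ x m := by linear_combination h
  rw [h1]
  exact neg_mem (sum_mem fun m hm => ym_mem (hG m (Finset.mem_of_mem_erase hm)
    (Finset.ne_of_mem_erase hm)))

/-- The alternative for two coordinates. -/
theorem pair_alt {T : Finset (Fin n)} {j l : Fin n} (hb : ∀ i, b i ≠ 0) (hj : coef τ j ≠ 0)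
    (hl : coef τ l ≠ 0) (hxj : (x j).getD 0 ≠ 0) (hxl : (x l).getD 0 ≠ 0) {A D : N}
    (hA : A ∈ FF k x T) (hD : D ∈ FF k x T)
    (h1 : A + ym k τ x j + ym k τ x l = 0) (h2 : D + dm b τ x j + dm b τ x l = 0) :
    ((x j).getD 0 ∈ GF k x T ∧ (x l).getD 0 ∈ GF k x T) ∨
      (A = 0 ∧ D = 0 ∧ cf k τ j ^ 2 * b j = cf k τ l ^ 2 * b l) := by
  have hcj : algebraMap k N (cf k τ j) ≠ 0 := by rw [Ne, map_eq_zero]; exact cf_ne hj
  have hcl : algebraMap k N (cf k τ l) ≠ 0 := by rw [Ne, map_eq_zero]; exact cf_ne hl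
  have h4 : ∀ (m : Fin n), algebraMap k N (cf k τ m) ≠ 0 → (x m).getD 0 ≠ 0 →
      dm b τ x m = algebraMap k N (cf k τ m ^ 2 * b m) / ym k τ x m := by
    intro m hc hxm
    unfold dm ym
    rw [map_mul, map_mul, map_pow]
    field_simp
  rw [h4 j hcj hxj, h4 l hcl hxl] at h2
  rcases quad_alt (FF k x T) hA hD ((FF k x T).algebraMap_mem _) ((FF k x T).algebraMap_mem _)
    (mul_ne_zero hcj hxj) (mul_ne_zero hcl hxl) h1 h2 with h | ⟨h3, h5, h6⟩
  · left
    have h7 : ym k τ x j ∈ GF k x T := mem_GF.2 h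
    have h8 : ym k τ x l ∈ GF k x T := by
      have : ym k τ x l = -(A + ym k τ x j) := by linear_combination h1
      rw [this]
      exact neg_mem (add_mem (FF_le_GF hA) h7)
    exact ⟨of_ym_mem hj h7, of_ym_mem hl h8⟩
  · right
    refine ⟨(mul_eq_zero.1 h3).resolve_left ?_, h5, (algebraMap k N).injective h6⟩
    rw [map_eq_zero]
    exact mul_ne_zero (pow_ne_zero 2 (cf_ne hj)) (hb j)

/-- The linear relation of a point. -/
theorem yv_sum1 (hx : YV b τ N x) : ∑ m, ym k τ x m = 0 := by
  rw [← (yv_sums hx).1]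
  refine (Finset.sum_subset (Finset.subset_univ _) fun m _ hm => ?_).symm
  unfold ym
  rw [yv_zero hx hm, mul_zero]

theorem yv_sum2 (hx : YV b τ N x) : ∑ m, dm b τ x m = 0 := by
  rw [← (yv_sums hx).2]
  refine (Finset.sum_subset (Finset.subset_univ _) fun m _ hm => ?_).symm
  unfold dm
  rw [yv_zero hx hm, inv_zero, mul_zero]

theorem sum_compl_mem (T : Finset (Fin n)) : ∑ m ∈ Finset.univ \ T, ym k τ x m ∈ FF k x T ∧
    ∑ m ∈ Finset.univ \ T, dm b τ x m ∈ FF k x T := by
  refine ⟨sum_mem fun m hm => ym_mem (mem_FF ?_), sum_mem fun m hm => dm_mem (mem_FF ?_)⟩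
  · exact (Finset.mem_sdiff.1 hm).2
  · exact (Finset.mem_sdiff.1 hm).2

/-- The first alternative for two indices. -/
theorem case_split (hb : ∀ i, b i ≠ 0) {j l : Fin n} (hjl : j ≠ l) (hj : coef τ j ≠ 0)
    (hl : coef τ l ≠ 0) (hx : YV b τ N x) (hr : Algebra.trdeg k (fld k x) = (n - 2 : ℕ)) :
    AlgebraicIndependent k (fun m : E2 j l => (x m.1).getD 0) ∨
      (∑ m ∈ Finset.univ \ ({j, l} : Finset (Fin n)), ym k τ x m = 0 ∧
       ∑ m ∈ Finset.univ \ ({j, l} : Finset (Fin n)), dm b τ x m = 0 ∧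
       cf k τ j ^ 2 * b j = cf k τ l ^ 2 * b l) := by
  classical
  have h1 := yv_sum1 hx
  have h2 := yv_sum2 hx
  rw [sum_split hjl] at h1 h2
  obtain ⟨hA, hD⟩ := sum_compl_mem (b := b) (τ := τ) (x := x) ({j, l} : Finset (Fin n))
  rcases pair_alt hb hj hl (yv_ne hx (mem_IT.2 (coef_ne hj))) (yv_ne hx (mem_IT.2 (coef_ne hl)))
    hA hD (by linear_combination h1) (by linear_combination h2) with ⟨h3, h4⟩ | h3
  · left
    have hcard : ({j, l} : Finset (Fin n)).card = 2 := Finset.card_pair hjl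
    have h5 := indep_GF (k := k) (x := x) (T := ({j, l} : Finset (Fin n))) (fun m hm => by
      rw [Finset.mem_insert, Finset.mem_singleton] at hm
      rcases hm with rfl | rfl
      · exact h3
      · exact h4) (by rw [hcard, hr])
    let e : E2 j l ≃ {m : Fin n // m ∉ ({j, l} : Finset (Fin n))} :=
      Equiv.subtypeEquivRight fun m => by
        rw [Finset.mem_insert, Finset.mem_singleton, not_or]
    exact (algebraicIndependent_equiv' e (g := fun m : E2 j l => (x m.1).getD 0)
      (f := fun m : {m : Fin n // m ∉ ({j, l} : Finset (Fin n))} => (x m.1).getD 0) rfl).2 h5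
  · exact Or.inr h3

/-- The second alternative is impossible if there are five nonzero coefficients. -/
theorem not_case2 (hb : ∀ i, b i ≠ 0) {j l i i' o : Fin n} (hjl : j ≠ l) (hij : i ≠ j)
    (hil : i ≠ l) (hi'j : i' ≠ j) (hi'l : i' ≠ l) (hoj : o ≠ j) (hol : o ≠ l) (hii : i ≠ i')
    (hio : i ≠ o) (hi'o : i' ≠ o)
    (hl : coef τ l ≠ 0) (hi : coef τ i ≠ 0) (hi' : coef τ i' ≠ 0)
    (ho : coef τ o ≠ 0) (hx : YV b τ N x) (hr : Algebra.trdeg k (fld k x) = (n - 2 : ℕ))
    (h1 : ∑ m ∈ Finset.univ \ ({j, l} : Finset (Fin n)), ym k τ x m = 0)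
    (h2 : ∑ m ∈ Finset.univ \ ({j, l} : Finset (Fin n)), dm b τ x m = 0) : False := by
  classical
  have h0 := yv_sum1 hx
  rw [sum_split hjl, h1, add_zero] at h0
  have hn : ∀ T : Finset (Fin n), T.card = 3 → n - T.card < n - 2 := by
    intro T hT
    have := Finset.card_le_univ T
    rw [hT, Fintype.card_fin] at this
    omega
  -- the sum over the indices different from `j`, `l`, `i`, `i'`
  have hsub : ({i, i'} : Finset (Fin n)) ⊆ Finset.univ \ ({j, l} : Finset (Fin n)) := by
    intro m hm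
    rw [Finset.mem_insert, Finset.mem_singleton] at hm
    rcases hm with rfl | rfl <;> simp [hij, hil, hi'j, hi'l]
  have hset : (Finset.univ \ ({j, l} : Finset (Fin n))) \ {i, i'} =
      Finset.univ \ ({j, l, i, i'} : Finset (Fin n)) := by
    ext m
    simp only [Finset.mem_sdiff, Finset.mem_univ, true_and, Finset.mem_insert,
      Finset.mem_singleton]
    tauto
  rw [← Finset.sum_sdiff hsub, hset, Finset.sum_pair hii] at h1 h2
  obtain ⟨hA, hD⟩ := sum_compl_mem (k := k) (b := b) (τ := τ) (x := x)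
    ({j, l, i, i'} : Finset (Fin n))
  have hxl : (x l).getD 0 ∈ IntermediateField.adjoin k {(x j).getD 0} := by
    refine rel_mem (τ := τ) (U := {j, l}) (o := l) (by simp) hl (by rw [Finset.sum_pair hjl]; exact h0)
      fun m hm hml => ?_
    rw [Finset.mem_insert, Finset.mem_singleton] at hm
    rcases hm with rfl | rfl
    · exact IntermediateField.mem_adjoin_simple_self k _
    · exact absurd rfl hml
  have hxl' : ∀ T : Finset (Fin n), j ∉ T → (x l).getD 0 ∈ GF k x T := by
    intro T hT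
    have : IntermediateField.adjoin k {(x j).getD 0} ≤ GF k x T := by
      rw [IntermediateField.adjoin_simple_le_iff]
      exact FF_le_GF (mem_FF hT)
    exact this hxl
  rcases pair_alt hb hi hi' (yv_ne hx (mem_IT.2 (coef_ne hi))) (yv_ne hx (mem_IT.2 (coef_ne hi')))
    hA hD (by linear_combination h1) (by linear_combination h2) with ⟨h3, h4⟩ | ⟨h3, -, -⟩
  · have hcard : ({l, i, i'} : Finset (Fin n)).card = 3 :=
      Finset.card_eq_three.2 ⟨l, i, i', hil.symm, hi'l.symm, hii, rfl⟩
    refine trdeg_contra (T := ({l, i, i'} : Finset (Fin n))) (fun m hm => ?_) hr (hn _ hcard)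
    have hle : GF k x ({j, l, i, i'} : Finset (Fin n)) ≤ GF k x ({l, i, i'} : Finset (Fin n)) :=
      GF_anti fun m hm => Finset.mem_insert_of_mem hm
    rw [Finset.mem_insert, Finset.mem_insert, Finset.mem_singleton] at hm
    rcases hm with rfl | rfl | rfl
    · exact hxl' _ (by simp [hjl, hij.symm, hi'j.symm])
    · exact hle h3
    · exact hle h4
  · have hcard : ({l, i', o} : Finset (Fin n)).card = 3 :=
      Finset.card_eq_three.2 ⟨l, i', o, hi'l.symm, hol.symm, hi'o, rfl⟩
    refine trdeg_contra (T := ({l, i', o} : Finset (Fin n))) (fun m hm => ?_) hr (hn _ hcard)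
    rw [Finset.mem_insert, Finset.mem_insert, Finset.mem_singleton] at hm
    rcases hm with rfl | rfl | rfl
    · exact hxl' _ (by simp [hjl, hi'j.symm, hoj.symm])
    · refine FF_le_GF (rel_mem (τ := τ) (U := {i, m}) (o := m) (by simp) hi' (by
        rw [Finset.sum_pair hii]; linear_combination h1 - h3) fun m' hm' hne => ?_)
      rw [Finset.mem_insert, Finset.mem_singleton] at hm'
      rcases hm' with rfl | rfl
      · exact mem_FF (by simp [hil, hii, hio])
      · exact absurd rfl hne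
    · refine FF_le_GF (rel_mem (τ := τ) (U := Finset.univ \ ({j, l, i, i'} : Finset (Fin n)))
        (o := m) (by simp [hoj, hol, hio.symm, hi'o.symm]) ho h3 fun m' hm' hne => ?_)
      refine mem_FF ?_
      simp only [Finset.mem_sdiff, Finset.mem_univ, true_and, Finset.mem_insert,
        Finset.mem_singleton, not_or] at hm' ⊢
      exact ⟨hm'.2.1, hm'.2.2.2, hne⟩

end rel

end Pool.Agent.Helper19.KL
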