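import Pool.Agent.Helper19.KL.C5
import Pool.Agent.Helper19.KL.C7

set_option autoImplicit false
set_option linter.unusedSectionVars false

/-!
Project KL (MP_0b9e0b_ag), cycles of codimension two: three or more nonzero coefficients.
-/

namespace Pool.Agent.Helper19.KL

open Pool.Agent.Helper16 Pool.Agent.Helper1.KL

variable {k : Type} [Field k] {p : ℕ} [Fact p.Prime] [CharP k p] {n : ℕ} {b : Fin n → k}
  {τ : Fin n → Option (ZMod p)}

theorem key_of_T {T : Finset (Fin n)} (s : Fin n → MvPolynomial {m : Fin n // m ∉ T} k)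
    (hs : ∀ m (h : m ∉ T), s m = MvPolynomial.X ⟨m, h⟩) {N N' : Type} [Field N] [Algebra k N]
    [Field N'] [Algebra k N'] {x : Fin n → Option N} {x' : Fin n → Option N'}
    (hn : ∀ m, x m = none ↔ x' m = none)
    (h1 : ∀ m ∈ T, (x m).getD 0 = MvPolynomial.aeval (fun m : {m : Fin n // m ∉ T} =>
      (x m.1).getD 0) (s m))
    (h1' : ∀ m ∈ T, (x' m).getD 0 = MvPolynomial.aeval (fun m : {m : Fin n // m ∉ T} =>
      (x' m.1).getD 0) (s m))
    (h2 : ∀ m ∈ T, (x m).getD 0 ∈ GF k x T) (h2' : ∀ m ∈ T, (x' m).getD 0 ∈ GF k x' T)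
    (hr : ((n - T.card : ℕ) : Cardinal.{0}) ≤ Algebra.trdeg k (fld k x))
    (hr' : ((n - T.card : ℕ) : Cardinal.{0}) ≤ Algebra.trdeg k (fld k x')) :
    key k x = key k x' := by
  refine key_of_sub s (indep_GF h2 hr) (indep_GF h2' hr') (fun m => ?_) (fun m => ?_) hn
  · by_cases hm : m ∈ T
    · exact h1 m hm
    · rw [hs m hm, MvPolynomial.aeval_X]
  · by_cases hm : m ∈ T
    · exact h1' m hm
    · rw [hs m hm, MvPolynomial.aeval_X]

variable {N : Type} [Field N] [Algebra k N] {x : Fin n → Option N}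

theorem ym_ne (hx : YV b τ N x) {i : Fin n} (hi : coef τ i ≠ 0) : ym k τ x i ≠ 0 := by
  refine mul_ne_zero ?_ (yv_ne hx (mem_IT.2 (coef_ne hi)))
  rw [Ne, map_eq_zero]
  exact cf_ne hi

theorem pair_case1 {j l i : Fin n} (hjl : j ≠ l) (hij : i ≠ j) (hil : i ≠ l)
    (hj : coef τ j ≠ 0) (hl : coef τ l ≠ 0) (hi : coef τ i ≠ 0) (hI : IT τ = Finset.univ)
    (hx : YV b τ N x) (hc : AlgebraicIndependent k (fun m : E2 j l => (x m.1).getD 0)) :
    ym k τ x j + ym k τ x l ≠ 0 := by
  obtain ⟨φ, hφ⟩ := exists_phi hc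
  have h1 := (phi_spec hjl hj hl hI hx hφ).1
  intro h0
  have h2 : φ (A2 τ j l Finset.univ) = 0 := by linear_combination h1 - h0
  rw [map_eq_zero] at h2
  exact A2_ne ⟨hij, hil⟩ (Finset.mem_univ i) hi h2

/-- Five nonzero coefficients. -/
theorem rank_five (hb : ∀ i, b i ≠ 0) (hI : IT τ = Finset.univ) {j l i i' o : Fin n}
    (hjl : j ≠ l) (hij : i ≠ j)
    (hil : i ≠ l) (hi'j : i' ≠ j) (hi'l : i' ≠ l) (hoj : o ≠ j) (hol : o ≠ l) (hii : i ≠ i')
    (hio : i ≠ o) (hi'o : i' ≠ o) (hj : coef τ j ≠ 0)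
    (hl : coef τ l ≠ 0) (hi : coef τ i ≠ 0) (hi' : coef τ i' ≠ 0)
    (ho : coef τ o ≠ 0) : Module.rank ℚ (CHY b τ (n - 2)) = 0 := by
  have hβ : ∀ m, coef τ m ≠ 0 → cf k τ m ^ 2 * b m ≠ 0 := fun m hm =>
    mul_ne_zero (pow_ne_zero 2 (cf_ne hm)) (hb m)
  have hcase : ∀ (N : Type) [Field N] [Algebra k N] (x : Fin n → Option N), YV b τ N x →
      Algebra.trdeg k (fld k x) = (n - 2 : ℕ) →
      AlgebraicIndependent k (fun m : E2 j l => (x m.1).getD 0) := by
    intro N _ _ x hx hr
    rcases case_split hb hjl hj hl hx hr with h | ⟨h1, h2, -⟩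
    · exact h
    · exact (not_case2 hb hjl hij hil hi'j hi'l hoj hol hii hio hi'o hl hi hi' ho hx hr h1 h2).elim
  obtain ⟨Q, hQ⟩ := case1_irr (b := b) (τ := τ) hjl hj hl hI hb
    (A2_ne ⟨hij, hil⟩ (Finset.mem_univ i) hi) (D2_ne ⟨hij, hil⟩ (Finset.mem_univ i) hi hb)
    fun r z hr hz h1 h2 => no_sol_five (hβ j hj) (hβ l hl) hb hii.symm hio hi'o ⟨hij, hil⟩
      ⟨hi'j, hi'l⟩ ⟨hoj, hol⟩ hi hi' ho hr hz h1 h2
  have h1 := rank_keys (V := YV b τ) (P := PY b τ) (r := n - 2) {Q} (fun N _ _ x hx hr => by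
    rw [Finset.mem_singleton]
    exact hQ N x hx (hcase N x hx hr)) fun N _ _ x hx hr W hW h =>
      mem_divB hb hjl hj hl hW hx hr
        (pair_case1 hjl hij hil hj hl hi hI hx (hcase N x hx hr)) h
  rw [Finset.card_singleton, Nat.sub_self, Nat.cast_zero] at h1
  exact nonpos_iff_eq_zero.1 h1

theorem sum_two {j l i o : Fin n} (hij : i ≠ j) (hil : i ≠ l) (hoj : o ≠ j) (hol : o ≠ l)
    (hio : i ≠ o) (hS : ∀ m, m ≠ i → m ≠ o → m = j ∨ m = l ∨ coef τ m = 0) :
    ∑ m ∈ Finset.univ \ ({j, l} : Finset (Fin n)), ym k τ x m = ym k τ x i + ym k τ x o ∧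
    ∑ m ∈ Finset.univ \ ({j, l} : Finset (Fin n)), dm b τ x m = dm b τ x i + dm b τ x o := by
  have hsub : ({i, o} : Finset (Fin n)) ⊆ Finset.univ \ ({j, l} : Finset (Fin n)) := by
    intro m hm
    rw [Finset.mem_insert, Finset.mem_singleton] at hm
    rcases hm with rfl | rfl <;> simp [hij, hil, hoj, hol]
  have h0 : ∀ m ∈ Finset.univ \ ({j, l} : Finset (Fin n)), m ∉ ({i, o} : Finset (Fin n)) →
      cf k τ m = 0 := by
    intro m hm hm'
    rw [Finset.mem_sdiff, Finset.mem_insert, Finset.mem_singleton] at hm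
    rw [Finset.mem_insert, Finset.mem_singleton, not_or] at hm'
    push Not at hm
    rcases hS m hm'.1 hm'.2 with h | h | h
    · exact absurd h hm.2.1
    · exact absurd h hm.2.2
    · unfold cf
      rw [h, Nat.cast_zero]
  rw [← Finset.sum_pair hio, ← Finset.sum_pair hio]
  constructor
  · refine (Finset.sum_subset hsub fun m hm hm' => ?_).symm
    unfold ym
    rw [h0 m hm hm', map_zero, zero_mul]
  · refine (Finset.sum_subset hsub fun m hm hm' => ?_).symm
    unfold dm
    rw [h0 m hm hm', zero_mul, map_zero, zero_mul]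

/-- Uniqueness in the second case. -/
theorem key_case2 {j l i o : Fin n} (hij : i ≠ j) (hil : i ≠ l) (hoj : o ≠ j)
    (hol : o ≠ l) (hio : i ≠ o) (hjl : j ≠ l)
    (hl : coef τ l ≠ 0) (ho : coef τ o ≠ 0) {N' : Type} [Field N'] [Algebra k N']
    {x' : Fin n → Option N'} (hx : YV b τ N x) (hx' : YV b τ N' x')
    (hr : Algebra.trdeg k (fld k x) = (n - 2 : ℕ)) (hr' : Algebra.trdeg k (fld k x') = (n - 2 : ℕ))
    (h1 : ym k τ x i + ym k τ x o = 0) (h2 : ym k τ x j + ym k τ x l = 0)
    (h1' : ym k τ x' i + ym k τ x' o = 0) (h2' : ym k τ x' j + ym k τ x' l = 0) :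
    key k x = key k x' := by
  classical
  have hcard : ({o, l} : Finset (Fin n)).card = 2 := Finset.card_pair hol
  have hi' : i ∉ ({o, l} : Finset (Fin n)) := by simp [hio, hil]
  have hj' : j ∉ ({o, l} : Finset (Fin n)) := by simp [hoj.symm, hjl]
  let s : Fin n → MvPolynomial {m : Fin n // m ∉ ({o, l} : Finset (Fin n))} k := fun m =>
    if h : m ∉ ({o, l} : Finset (Fin n)) then MvPolynomial.X ⟨m, h⟩ else
      if m = o then MvPolynomial.C (-(cf k τ i) / cf k τ o) * MvPolynomial.X ⟨i, hi'⟩ else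
        MvPolynomial.C (-(cf k τ j) / cf k τ l) * MvPolynomial.X ⟨j, hj'⟩
  have hval : ∀ {M : Type} [Field M] [Algebra k M] {y : Fin n → Option M},
      ym k τ y i + ym k τ y o = 0 → ym k τ y j + ym k τ y l = 0 →
      ∀ m ∈ ({o, l} : Finset (Fin n)), (y m).getD 0 = MvPolynomial.aeval
        (fun m : {m : Fin n // m ∉ ({o, l} : Finset (Fin n))} => (y m.1).getD 0) (s m) := by
    intro M _ _ y e1 e2 m hm
    have hcl : algebraMap k M (cf k τ l) ≠ 0 := by rw [Ne, map_eq_zero]; exact cf_ne hl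
    have hco : algebraMap k M (cf k τ o) ≠ 0 := by rw [Ne, map_eq_zero]; exact cf_ne ho
    simp only [s, dif_neg (not_not.2 hm)]
    rw [Finset.mem_insert, Finset.mem_singleton] at hm
    unfold ym at e1 e2
    rcases hm with rfl | rfl
    · rw [if_pos rfl, map_mul, MvPolynomial.aeval_C, MvPolynomial.aeval_X, map_div₀, map_neg]
      field_simp
      linear_combination e1
    · rw [if_neg hol.symm, map_mul, MvPolynomial.aeval_C, MvPolynomial.aeval_X, map_div₀, map_neg]
      field_simp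
      linear_combination e2
  have hmem : ∀ {M : Type} [Field M] [Algebra k M] {y : Fin n → Option M},
      ym k τ y i + ym k τ y o = 0 → ym k τ y j + ym k τ y l = 0 →
      ∀ m ∈ ({o, l} : Finset (Fin n)), (y m).getD 0 ∈ GF k y ({o, l} : Finset (Fin n)) := by
    intro M _ _ y e1 e2 m hm
    rw [Finset.mem_insert, Finset.mem_singleton] at hm
    apply FF_le_GF
    rcases hm with rfl | rfl
    · refine rel_mem (τ := τ) (U := {i, m}) (by simp) ho (by rw [Finset.sum_pair hio]; exact e1)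
        fun m' hm' hne => ?_
      rw [Finset.mem_insert, Finset.mem_singleton] at hm'
      rcases hm' with rfl | rfl
      · exact mem_FF hi'
      · exact absurd rfl hne
    · refine rel_mem (τ := τ) (U := {j, m}) (by simp) hl (by rw [Finset.sum_pair hjl]; exact e2)
        fun m' hm' hne => ?_
      rw [Finset.mem_insert, Finset.mem_singleton] at hm'
      rcases hm' with rfl | rfl
      · exact mem_FF hj'
      · exact absurd rfl hne
  exact key_of_T s (fun m h => dif_pos h) (yv_none hx hx') (hval h1 h2) (hval h1' h2')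
    (hmem h1 h2) (hmem h1' h2') (by rw [hcard, hr]) (by rw [hcard, hr'])

open scoped Classical in
/-- Four nonzero coefficients. -/
theorem rank_quad (hb : ∀ i, b i ≠ 0) (hI : IT τ = Finset.univ) {j l i o : Fin n}
    (hjl : j ≠ l) (hij : i ≠ j) (hil : i ≠ l) (hoj : o ≠ j) (hol : o ≠ l) (hio : i ≠ o)
    (hj : coef τ j ≠ 0) (hl : coef τ l ≠ 0) (hi : coef τ i ≠ 0) (ho : coef τ o ≠ 0)
    (hS : ∀ m, m ≠ i → m ≠ o → m = j ∨ m = l ∨ coef τ m = 0) :
    Module.rank ℚ (CHY b τ (n - 2)) ≤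
      (((if (cf k τ i ^ 2 * b i = cf k τ j ^ 2 * b j ∧ cf k τ o ^ 2 * b o = cf k τ l ^ 2 * b l) ∨
        (cf k τ i ^ 2 * b i = cf k τ l ^ 2 * b l ∧ cf k τ o ^ 2 * b o = cf k τ j ^ 2 * b j)
        then 1 else 0) +
      (if cf k τ i ^ 2 * b i = cf k τ o ^ 2 * b o ∧ cf k τ j ^ 2 * b j = cf k τ l ^ 2 * b l
        then 1 else 0) : ℕ) : Cardinal.{0}) := by
  have hβ : ∀ m, coef τ m ≠ 0 → cf k τ m ^ 2 * b m ≠ 0 := fun m hm =>
    mul_ne_zero (pow_ne_zero 2 (cf_ne hm)) (hb m)
  -- the second case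
  have hcase : ∀ (N : Type) [Field N] [Algebra k N] (x : Fin n → Option N), YV b τ N x →
      Algebra.trdeg k (fld k x) = (n - 2 : ℕ) →
      AlgebraicIndependent k (fun m : E2 j l => (x m.1).getD 0) ∨
      (ym k τ x i + ym k τ x o = 0 ∧ ym k τ x j + ym k τ x l = 0 ∧
        cf k τ i ^ 2 * b i = cf k τ o ^ 2 * b o ∧ cf k τ j ^ 2 * b j = cf k τ l ^ 2 * b l) := by
    intro N _ _ x hx hr
    rcases case_split hb hjl hj hl hx hr with h | ⟨h1, h2, h3⟩
    · exact Or.inl h
    · right
      have h4 := sum_two (k := k) (b := b) (x := x) hij hil hoj hol hio hS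
      have h5 := yv_sum1 hx
      rw [sum_split hjl, h1, add_zero] at h5
      rw [h4.1] at h1
      rw [h4.2] at h2
      refine ⟨h1, h5, ?_, h3⟩
      apply (algebraMap k N).injective
      have hyi := ym_ne hx hi
      have hxi : (x i).getD 0 ≠ 0 := yv_ne hx (mem_IT.2 (coef_ne hi))
      have hxo : (x o).getD 0 ≠ 0 := yv_ne hx (mem_IT.2 (coef_ne ho))
      unfold dm at h2
      unfold ym at h1 hyi
      rw [map_mul, map_mul] at h2 ⊢
      rw [map_pow, map_pow]
      have h6 := congrArg (fun t => t * ((x i).getD 0 * (x o).getD 0)) h2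
      simp only [zero_mul] at h6
      have h7 : algebraMap k N (cf k τ i) * algebraMap k N (b i) * (x o).getD 0 +
          algebraMap k N (cf k τ o) * algebraMap k N (b o) * (x i).getD 0 = 0 := by
        refine Eq.trans ?_ h6
        field_simp
      have h8 : (x i).getD 0 * (algebraMap k N (cf k τ i) ^ 2 * algebraMap k N (b i) -
          algebraMap k N (cf k τ o) ^ 2 * algebraMap k N (b o)) = 0 := by
        linear_combination (algebraMap k N (cf k τ i) * algebraMap k N (b i)) * h1 -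
          algebraMap k N (cf k τ o) * h7
      exact sub_eq_zero.1 ((mul_eq_zero.1 h8).resolve_left hxi)
  set c1 := (cf k τ i ^ 2 * b i = cf k τ j ^ 2 * b j ∧ cf k τ o ^ 2 * b o = cf k τ l ^ 2 * b l) ∨
        (cf k τ i ^ 2 * b i = cf k τ l ^ 2 * b l ∧ cf k τ o ^ 2 * b o = cf k τ j ^ 2 * b j) with hc1
  set c2 := cf k τ i ^ 2 * b i = cf k τ o ^ 2 * b o ∧ cf k τ j ^ 2 * b j = cf k τ l ^ 2 * b l
    with hc2
  have hA : A2 (k := k) τ j l Finset.univ ≠ 0 := A2_ne ⟨hij, hil⟩ (Finset.mem_univ i) hi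
  have hD : D2 b τ j l Finset.univ ≠ 0 := D2_ne ⟨hij, hil⟩ (Finset.mem_univ i) hi hb
  -- the keys of the first case
  obtain ⟨K1, hK1c, hK1⟩ : ∃ K1 : Finset (Key k (Fin n)), K1.card ≤ 1 + (if c1 then 1 else 0) ∧
      ∀ (N : Type) [Field N] [Algebra k N] (x : Fin n → Option N), YV b τ N x →
        AlgebraicIndependent k (fun m : E2 j l => (x m.1).getD 0) → key k x ∈ K1 := by
    by_cases hroot : ∃ r z : L2 k j l, r ≠ 0 ∧ z ≠ 0 ∧ A2 τ j l Finset.univ + r + z = 0 ∧
        D2 b τ j l Finset.univ + algebraMap k _ (cf k τ j ^ 2 * b j) / r +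
          algebraMap k _ (cf k τ l ^ 2 * b l) / z = 0
    · obtain ⟨r, z, hr, hz, h1, h2⟩ := hroot
      have h3 : c1 := sol_four (hβ j hj) (hβ l hl) hb hio ⟨hij, hil⟩ ⟨hoj, hol⟩ hi ho hS hr hz h1 h2
      obtain ⟨r2, -, h4⟩ := case1_red hjl hj hl hI hD hr (root_of_sol hr hz h1 h2)
      refine ⟨{key k (zpt τ (AlgHom.id k _) r), key k (zpt τ (AlgHom.id k _) r2)}, ?_,
        fun N _ _ x hx hc => ?_⟩
      · rw [if_pos h3]
        exact Finset.card_le_two
      · rw [Finset.mem_insert, Finset.mem_singleton]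
        exact h4 N x hx hc
    · obtain ⟨Q, hQ⟩ := case1_irr (b := b) (τ := τ) hjl hj hl hI hb hA hD
        fun r z hr hz h1 h2 => hroot ⟨r, z, hr, hz, h1, h2⟩
      refine ⟨{Q}, ?_, fun N _ _ x hx hc => ?_⟩
      · rw [Finset.card_singleton]
        omega
      · rw [Finset.mem_singleton]
        exact hQ N x hx hc
  -- the key of the second case
  obtain ⟨K2, hK2c, hK2⟩ : ∃ K2 : Finset (Key k (Fin n)), K2.card ≤ (if c2 then 1 else 0) ∧
      ∀ (N : Type) [Field N] [Algebra k N] (x : Fin n → Option N), YV b τ N x →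
        Algebra.trdeg k (fld k x) = (n - 2 : ℕ) →
        (ym k τ x i + ym k τ x o = 0 ∧ ym k τ x j + ym k τ x l = 0 ∧
          cf k τ i ^ 2 * b i = cf k τ o ^ 2 * b o ∧ cf k τ j ^ 2 * b j = cf k τ l ^ 2 * b l) →
        key k x ∈ K2 := by
    by_cases hex : ∃ (N : Type) (_ : Field N) (_ : Algebra k N) (x : Fin n → Option N),
        YV b τ N x ∧ Algebra.trdeg k (fld k x) = (n - 2 : ℕ) ∧
        (ym k τ x i + ym k τ x o = 0 ∧ ym k τ x j + ym k τ x l = 0 ∧
          cf k τ i ^ 2 * b i = cf k τ o ^ 2 * b o ∧ cf k τ j ^ 2 * b j = cf k τ l ^ 2 * b l)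
    · obtain ⟨N0, _, _, x0, hx0, hr0, h1, h2, h3⟩ := hex
      refine ⟨{key k x0}, ?_, fun N _ _ x hx hr h => ?_⟩
      · rw [if_pos h3, Finset.card_singleton]
      · rw [Finset.mem_singleton]
        exact key_case2 hij hil hoj hol hio hjl hl ho hx hx0 hr hr0 h.1 h.2.1 h1 h2
    · refine ⟨∅, by rw [Finset.card_empty]; omega, fun N _ _ x hx hr h => ?_⟩
      exact (hex ⟨N, inferInstance, inferInstance, x, hx, hr, h⟩).elim
  refine (rank_keys (V := YV b τ) (P := PY b τ) (r := n - 2) (K1 ∪ K2) (fun N _ _ x hx hr => ?_)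
    fun N _ _ x hx hr W hW h => ?_).trans ?_
  · rw [Finset.mem_union]
    rcases hcase N x hx hr with h | h
    · exact Or.inl (hK1 N x hx h)
    · exact Or.inr (hK2 N x hx hr h)
  · rcases hcase N x hx hr with h1 | ⟨h1, h2, -⟩
    · exact mem_divB hb hjl hj hl hW hx hr (pair_case1 hjl hij hil hj hl hi hI hx h1) h
    · refine mem_divB hb hij hi hj hW hx hr (fun h0 => ?_) h
      have hcard : ({i, o, l} : Finset (Fin n)).card = 3 :=
        Finset.card_eq_three.2 ⟨i, o, l, hio, hil, hol, rfl⟩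
      have hn : n - ({i, o, l} : Finset (Fin n)).card < n - 2 := by
        have := Finset.card_le_univ ({i, o, l} : Finset (Fin n))
        rw [hcard, Fintype.card_fin] at this
        omega
      have hj' : (x j).getD 0 ∈ FF k x ({i, o, l} : Finset (Fin n)) :=
        mem_FF (by simp [hij.symm, hoj.symm, hjl])
      have hi' : (x i).getD 0 ∈ FF k x ({i, o, l} : Finset (Fin n)) := by
        refine rel_mem (τ := τ) (U := {i, j}) (by simp) hi
          (by rw [Finset.sum_pair hij]; exact h0) fun m' hm' hne => ?_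
        rw [Finset.mem_insert, Finset.mem_singleton] at hm'
        rcases hm' with rfl | rfl
        · exact absurd rfl hne
        · exact hj'
      refine trdeg_contra (T := ({i, o, l} : Finset (Fin n))) (fun m hm => FF_le_GF ?_) hr hn
      rw [Finset.mem_insert, Finset.mem_insert, Finset.mem_singleton] at hm
      rcases hm with rfl | rfl | rfl
      · exact hi'
      · refine rel_mem (τ := τ) (U := {i, m}) (by simp) ho
          (by rw [Finset.sum_pair hio]; exact h1) fun m' hm' hne => ?_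
        rw [Finset.mem_insert, Finset.mem_singleton] at hm'
        rcases hm' with rfl | rfl
        · exact hi'
        · exact absurd rfl hne
      · refine rel_mem (τ := τ) (U := {j, m}) (by simp) hl
          (by rw [Finset.sum_pair hjl]; exact h2) fun m' hm' hne => ?_
        rw [Finset.mem_insert, Finset.mem_singleton] at hm'
        rcases hm' with rfl | rfl
        · exact hj'
        · exact absurd rfl hne
  · rw [Nat.cast_le]
    have := Finset.card_union_le K1 K2
    change (K1 ∪ K2).card - 1 ≤ (if c1 then 1 else 0) + (if c2 then 1 else 0)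
    omega

end Pool.Agent.Helper19.KL

set_option linter.unusedSectionVars false

/-!
Project KL (MP_0b9e0b_ag), cycles of codimension two: three nonzero coefficients.
-/

namespace Pool.Agent.Helper19.KL

open Pool.Agent.Helper16 Pool.Agent.Helper1.KL

variable {k : Type} [Field k] {p : ℕ} [Fact p.Prime] [CharP k p] {n : ℕ} {b : Fin n → k}
  {τ : Fin n → Option (ZMod p)}

/-- A root in the field of rational functions of a polynomial over `k` gives a root in `k`. -/
theorem root_of_L2 {j l : Fin n} {P : Polynomial k} (hP : P ≠ 0) {w : L2 k j l}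
    (hw : Polynomial.aeval w P = 0) : ∃ u : k, Polynomial.aeval u P = 0 := by
  have h1 : IsAlgebraic k w := ⟨P, hP, hw⟩
  have h2 : IsIntegral (MvPolynomial (E2 j l) k) w := h1.isIntegral.tower_top
  obtain ⟨Q, hQ⟩ := IsIntegrallyClosed.isIntegral_iff.1 h2
  have h3 : Polynomial.aeval Q P = 0 := by
    apply IsFractionRing.injective (MvPolynomial (E2 j l) k) (L2 k j l)
    rw [map_zero, ← hw, ← hQ]
    exact (Polynomial.aeval_algebraMap_apply (L2 k j l) Q P).symm
  refine ⟨MvPolynomial.aeval (fun _ => (0 : k)) Q, ?_⟩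
  rw [Polynomial.aeval_algHom_apply, h3, map_zero]

theorem Q3_ne {i j l : Fin n} (hi : coef τ i ≠ 0) (hj : coef τ j ≠ 0) (hb : ∀ i, b i ≠ 0) :
    Q3 b τ i j l ≠ 0 := by
  intro h0
  have h1 : (Q3 b τ i j l).natDegree = 2 :=
    Polynomial.natDegree_quadratic (mul_ne_zero (mul_ne_zero (cf_ne hi) (cf_ne hj)) (hb i))
  rw [h0, Polynomial.natDegree_zero] at h1
  omega

/-- The two forms of the quadratic equation. -/
theorem q3_of_root {i j l : Fin n} (hij : i ≠ j) (hil : i ≠ l) (hj : coef τ j ≠ 0)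
    (hS : ∀ m, m ≠ i → m = j ∨ m = l ∨ coef τ m = 0) {r : L2 k j l}
    (h : D2 b τ j l Finset.univ * r ^ 2 + (D2 b τ j l Finset.univ * A2 τ j l Finset.univ +
      algebraMap k _ (cf k τ j ^ 2 * b j) - algebraMap k _ (cf k τ l ^ 2 * b l)) * r +
        algebraMap k _ (cf k τ j ^ 2 * b j) * A2 τ j l Finset.univ = 0) :
    q3 b τ i j l (r / (algebraMap k _ (cf k τ j) * u2 k j l i)) = 0 := by
  obtain ⟨hA, hD⟩ := sum_single (b := b) (τ := τ) (j := j) (l := l) (T := Finset.univ) (i := i)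
    (Finset.mem_univ i) fun m _ hm => hS m hm
  rw [hA, hD] at h
  have hu := u2_ne (k := k) (j := j) (l := l) ⟨hij, hil⟩
  have hcj : algebraMap k (L2 k j l) (cf k τ j) ≠ 0 := by rw [Ne, map_eq_zero]; exact cf_ne hj
  unfold q3
  simp only [map_mul, map_add, map_sub, map_pow] at h ⊢
  generalize algebraMap k (L2 k j l) (cf k τ j) = s at h hcj ⊢
  generalize algebraMap k (L2 k j l) (cf k τ i) = t at h ⊢
  generalize algebraMap k (L2 k j l) (cf k τ l) = t' at h ⊢
  generalize u2 k j l i = u at h hu ⊢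
  have h1 : (t * s * algebraMap k (L2 k j l) (b i) * (r / (s * u)) ^ 2 +
      (t ^ 2 * algebraMap k (L2 k j l) (b i) + s ^ 2 * algebraMap k (L2 k j l) (b j) -
        t' ^ 2 * algebraMap k (L2 k j l) (b l)) * (r / (s * u)) +
      t * s * algebraMap k (L2 k j l) (b j)) * (s * u) = 0 := by
    rw [← h]
    field_simp
  exact (mul_eq_zero.1 h1).resolve_right (mul_ne_zero hcj hu)

open scoped Classical in
/-- Three nonzero coefficients. -/
theorem rank_tri (hb : ∀ i, b i ≠ 0) (hI : IT τ = Finset.univ) {i j l : Fin n}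
    (hij : i ≠ j) (hil : i ≠ l) (hjl : j ≠ l) (hi : coef τ i ≠ 0) (hj : coef τ j ≠ 0)
    (hl : coef τ l ≠ 0) (hS : ∀ m, m ≠ i → m = j ∨ m = l ∨ coef τ m = 0) :
    Module.rank ℚ (CHY b τ (n - 2)) ≤
      (if Nat.card {u : k // q3 b τ i j l u = 0} = 2 then 1 else 0 : ℕ) := by
  have hβ : ∀ m, coef τ m ≠ 0 → cf k τ m ^ 2 * b m ≠ 0 := fun m hm =>
    mul_ne_zero (pow_ne_zero 2 (cf_ne hm)) (hb m)
  have hA : A2 (k := k) τ j l Finset.univ ≠ 0 := A2_ne ⟨hij, hil⟩ (Finset.mem_univ i) hi
  have hD : D2 b τ j l Finset.univ ≠ 0 := D2_ne ⟨hij, hil⟩ (Finset.mem_univ i) hi hb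
  have hcase : ∀ (N : Type) [Field N] [Algebra k N] (x : Fin n → Option N), YV b τ N x →
      Algebra.trdeg k (fld k x) = (n - 2 : ℕ) →
      AlgebraicIndependent k (fun m : E2 j l => (x m.1).getD 0) := by
    intro N _ _ x hx hr
    rcases case_split hb hjl hj hl hx hr with h | ⟨h1, -, -⟩
    · exact h
    · exfalso
      rw [Finset.sum_eq_single i] at h1
      · exact ym_ne hx hi h1
      · intro m hm hmi
        rw [Finset.mem_sdiff, Finset.mem_insert, Finset.mem_singleton] at hm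
        push Not at hm
        rcases hS m hmi with h | h | h
        · exact absurd h hm.2.1
        · exact absurd h hm.2.2
        · unfold ym cf
          rw [h, Nat.cast_zero, map_zero, zero_mul]
      · intro hm
        exfalso
        apply hm
        simp [hij, hil]
  have hkeys : ∀ K : Finset (Key k (Fin n)),
      (∀ (N : Type) [Field N] [Algebra k N] (x : Fin n → Option N), YV b τ N x →
        AlgebraicIndependent k (fun m : E2 j l => (x m.1).getD 0) → key k x ∈ K) →
      Module.rank ℚ (CHY b τ (n - 2)) ≤ ((K.card - 1 : ℕ) : Cardinal.{0}) := fun K hK =>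
    rank_keys (V := YV b τ) (P := PY b τ) (r := n - 2) K
      (fun N _ _ x hx hr => hK N x hx (hcase N x hx hr)) fun N _ _ x hx hr W hW h =>
      mem_divB hb hjl hj hl hW hx hr
        (pair_case1 hjl hij hil hj hl hi hI hx (hcase N x hx hr)) h
  by_cases hroot : ∃ r z : L2 k j l, r ≠ 0 ∧ z ≠ 0 ∧ A2 τ j l Finset.univ + r + z = 0 ∧
      D2 b τ j l Finset.univ + algebraMap k _ (cf k τ j ^ 2 * b j) / r +
        algebraMap k _ (cf k τ l ^ 2 * b l) / z = 0
  · obtain ⟨r, z, hr, hz, h1, h2⟩ := hroot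
    have h3 := root_of_sol hr hz h1 h2
    obtain ⟨r2, h4, h5⟩ := case1_red hjl hj hl hI hD hr h3
    have h6 := q3_of_root hij hil hj hS h3
    have h7 := q3_of_root hij hil hj hS h4
    obtain ⟨u0, hu0⟩ := root_of_L2 (Q3_ne hi hj hb) (by rw [aeval_Q3]; exact h6)
    rw [aeval_Q3] at hu0
    obtain ⟨-, u1, hu⟩ := q3_factor hi hj hb hu0
    by_cases h01 : u0 = u1
    · have h8 : r = r2 := by
        have hs : algebraMap k (L2 k j l) (cf k τ j) * u2 k j l i ≠ 0 := by
          refine mul_ne_zero ?_ (u2_ne ⟨hij, hil⟩)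
          rw [Ne, map_eq_zero]
          exact cf_ne hj
        have h9 := (hu _).1 h6
        have h10 := (hu _).1 h7
        rw [← h01, or_self] at h9 h10
        have h11 := h9.trans h10.symm
        exact (div_left_inj' hs).1 h11
      have h9 := hkeys {key k (zpt τ (AlgHom.id k _) r)} fun N _ _ x hx hc => by
        rw [Finset.mem_singleton]
        rcases h5 N x hx hc with h | h
        · exact h
        · rw [h, h8]
      rw [Finset.card_singleton, Nat.sub_self] at h9
      exact h9.trans (by rw [Nat.cast_le]; omega)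
    · have hcard : Nat.card {u : k // q3 b τ i j l u = 0} = 2 := by
        have h8 : ∀ u : k, q3 b τ i j l u = 0 ↔ u ∈ ({u0, u1} : Finset k) := by
          intro u
          rw [hu u, Finset.mem_insert, Finset.mem_singleton]
          rfl
        rw [Nat.card_congr (Equiv.subtypeEquivRight h8), Nat.card_eq_fintype_card,
          Fintype.card_coe, Finset.card_pair h01]
      rw [if_pos hcard]
      refine (hkeys {key k (zpt τ (AlgHom.id k _) r), key k (zpt τ (AlgHom.id k _) r2)}
        fun N _ _ x hx hc => ?_).trans ?_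
      · rw [Finset.mem_insert, Finset.mem_singleton]
        exact h5 N x hx hc
      · rw [Nat.cast_le]
        have := Finset.card_le_two (a := key k (zpt τ (AlgHom.id k _) r))
          (b := key k (zpt τ (AlgHom.id k _) r2))
        omega
  · obtain ⟨Q, hQ⟩ := case1_irr (b := b) (τ := τ) hjl hj hl hI hb hA hD
      fun r z hr hz h1 h2 => hroot ⟨r, z, hr, hz, h1, h2⟩
    have h9 := hkeys {Q} fun N _ _ x hx hc => by
      rw [Finset.mem_singleton]
      exact hQ N x hx hc
    rw [Finset.card_singleton, Nat.sub_self] at h9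
    exact h9.trans (by rw [Nat.cast_le]; omega)

end Pool.Agent.Helper19.KL
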