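import Pool.Agent.Helper1.KL.Stmts
import Pool.Agent.HC.Abh

set_option autoImplicit false

/-!
Project KL (MP_0b9e0b_ag): general lemmas used in the module KL-10.
-/

namespace Pool.Agent.Helper19.KL

open Pool.Agent.Helper16 Pool.Agent.Helper1.KL

section General

variable {F σ : Type} [Field F] {N N' : Type} [Field N] [Algebra F N] [Field N'] [Algebra F N']

theorem getD_map (φ : N →ₐ[F] N') (o : Option N) : (o.map φ).getD 0 = φ (o.getD 0) := by
  cases o <;> simp

theorem key_map' (φ : N →ₐ[F] N') (z : σ → Option N) :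
    key F (fun j => (z j).map φ) = key F z := by
  have h1 : (fun j => ((z j).map φ).getD 0) = fun j => φ ((z j).getD 0) := by
    funext j; exact getD_map φ _
  unfold key
  refine Prod.ext ?_ ?_
  · ext j
    simp
  · simp only
    rw [h1]
    ext P
    rw [RingHom.mem_ker, RingHom.mem_ker]
    have h2 : MvPolynomial.aeval (fun j => φ ((z j).getD 0)) P =
        φ (MvPolynomial.aeval (fun j => (z j).getD 0) P) := by
      exact (MvPolynomial.comp_aeval_apply (fun j => (z j).getD 0) φ P).symm
    rw [h2, map_eq_zero_iff φ φ.injective]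

theorem fld_map' (φ : N →ₐ[F] N') (z : σ → Option N) :
    fld F (fun j => (z j).map φ) = (fld F z).map φ := by
  unfold fld
  rw [IntermediateField.adjoin_map]
  congr 1
  ext a
  constructor
  · rintro ⟨j, hj⟩
    rw [Option.map_eq_some_iff] at hj
    obtain ⟨c, hc, rfl⟩ := hj
    exact ⟨c, ⟨j, hc⟩, rfl⟩
  · rintro ⟨c, ⟨j, hj⟩, rfl⟩
    exact ⟨j, by simp only [hj]; rfl⟩

theorem trdeg_fld_map' (φ : N →ₐ[F] N') (z : σ → Option N) :
    Algebra.trdeg F (fld F (fun j => (z j).map φ)) = Algebra.trdeg F (fld F z) := by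
  rw [fld_map']
  exact (IntermediateField.equivMap (fld F z) φ).symm.trdeg_eq

/-- The point over its own field. -/
theorem exists_own (z : σ → Option N) :
    ∃ w : σ → Option (fld F z), (fun j => (w j).map (fld F z).val) = z := by
  have h : ∀ j, ∃ o : Option (fld F z), o.map (fld F z).val = z j := by
    intro j
    cases hj : z j with
    | none => exact ⟨none, rfl⟩
    | some a => exact ⟨some ⟨a, IntermediateField.subset_adjoin F _ ⟨j, hj⟩⟩, rfl⟩
  choose w hw using h
  exact ⟨w, funext hw⟩

theorem essFinite_fld [Finite σ] (z : σ → Option N) : Algebra.EssFiniteType F (fld F z) := by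
  rw [IntermediateField.essFiniteType_iff]
  have hfin : {a | ∃ j, z j = some a}.Finite := by
    refine (Set.finite_range fun j => (z j).getD 0).subset ?_
    rintro a ⟨j, hj⟩
    exact ⟨j, by simp [hj]⟩
  refine ⟨hfin.toFinset, ?_⟩
  rw [Set.Finite.coe_toFinset]
  rfl

end General

end Pool.Agent.Helper19.KL
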