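import Pool.Agent.Helper1.KL.Defs

set_option autoImplicit false

/-!
Project KL (MP_0b9e0b_ag): the L-function, and the explicit bounds over finite fields. Definitions.
-/

namespace Pool.Agent.Helper19.KL

open Pool.Agent.Helper1.KL

/-- `#κ + 1` minus the number of the points over the finite field `κ` of the curve `Curve p t b`,
the closure in `P^1 × P^1` of the curve `y ^ p - y = t x + b / x`. -/
noncomputable def trC (κ : Type) [Field κ] (p : ℕ) (t b : κ) : ℤ :=
  (Nat.card κ : ℤ) + 1 - Nat.card {z : Option κ × Option κ // Curve p t b z.1 z.2}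

/-- With `a i = trC κ p t (b i)`: the sum over the sets `s` of three indices of the products of
the `a i`, `i` in `s`, plus `n - 1` times `#κ` times the sum of the `a i`. -/
noncomputable def trX (κ : Type) [Field κ] (p : ℕ) {n : ℕ} (b : Fin n → κ) (t : κ) : ℤ :=
  ∑ s ∈ Finset.powersetCard 3 (Finset.univ : Finset (Fin n)), ∏ i ∈ s, trC κ p t (b i) +
    ((n : ℤ) - 1) * Nat.card κ * ∑ i, trC κ p t (b i)

/-- `L` is the power series with constant coefficient `1` and `T L' / L = ∑ c_N T^N`, where `c_N`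
is the sum over the nonzero elements `t` of the extension `κ` of degree `N` of `k` of the numbers
`trX κ p b t`. -/
def IsLX {k : Type} [Field k] (p : ℕ) {n : ℕ} (b : Fin n → k) (L : PowerSeries ℚ) : Prop :=
  PowerSeries.constantCoeff L = 1 ∧ ∃ c : ℕ → ℚ, c 0 = 0 ∧
    (∀ (κ : Type) [Field κ] [Algebra k κ], Module.finrank k κ ≠ 0 →
      c (Module.finrank k κ) =
        ((∑ᶠ t : κˣ, trX κ p (fun i => algebraMap k κ (b i)) t : ℤ) : ℚ)) ∧
    PowerSeries.X * PowerSeries.derivative ℚ L = L * PowerSeries.mk c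

/-- The number of the triples `(i, j, c)` with `i < j`, `c` in `F_p^*` and `b j = c ^ 2 b i`. -/
noncomputable def isoN {k : Type} [Field k] (p : ℕ) {n : ℕ} (b : Fin n → k) : ℕ :=
  Nat.card {x : Fin n × Fin n × (ZMod p)ˣ //
    x.1 < x.2.1 ∧ b x.2.1 = (((x.2.2 : ZMod p).val : ℕ) : k) ^ 2 * b x.1}

/-- The bounds for cycles of dimension zero and one on `X`, over a finite field `k`. -/
def Explicit {k : Type} [Field k] (p : ℕ) {n : ℕ} (b : Fin n → k) : Prop :=
  Module.rank ℚ (CHX p b 0) ≤ 1 ∧ ∃ L : Polynomial ℚ, IsLX p b (L : PowerSeries ℚ) ∧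
    Module.rank ℚ (CHX p b 1) ≤ ((n + (p - 1) * isoN p b +
      L.rootMultiplicity (((Nat.card k : ℚ) ^ 2)⁻¹) : ℕ) : Cardinal.{0})

end Pool.Agent.Helper19.KL
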