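import Mathlib

set_option autoImplicit false

/-!
Project KL (MP_0b9e0b_ag), the L-function: additive characters and Artin-Schreier equations over
finite fields.
-/

namespace Pool.Agent.Helper19.KL

section char

variable {κ : Type} [Field κ] [Fintype κ] {p : ℕ} [Fact p.Prime] [CharP κ p]

/-- A nontrivial additive character with values in the complex numbers, invariant under
Frobenius. -/
theorem exists_char (κ : Type) [Field κ] [Fintype κ] (p : ℕ) [Fact p.Prime] [CharP κ p] :
    ∃ ψ : AddChar κ ℂ, ψ.IsPrimitive ∧ ∀ z : κ, ψ (z ^ p) = ψ z := by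
  classical
  let _ : Algebra (ZMod p) κ := ZMod.algebra κ p
  let ψ : AddChar κ ℂ := (ZMod.stdAddChar (N := p)).compAddMonoidHom
    (Algebra.trace (ZMod p) κ).toAddMonoidHom
  refine ⟨ψ, AddChar.IsPrimitive.of_ne_one (AddChar.ne_one_iff.2 ?_), fun z => ?_⟩
  · obtain ⟨b, hb⟩ := Algebra.trace_surjective (ZMod p) κ 1
    refine ⟨b, fun h1 => ?_⟩
    have h2 := ((ZMod.isPrimitive_stdAddChar p).zmod_char_eq_one_iff _
      (Algebra.trace (ZMod p) κ b)).1 h1
    rw [hb] at h2
    exact one_ne_zero h2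
  · have h1 := Algebra.trace_eq_of_algEquiv
      (FiniteField.frobeniusAlgEquivOfAlgebraic (ZMod p) κ) z
    rw [FiniteField.coe_frobeniusAlgEquivOfAlgebraic, ZMod.card] at h1
    change ZMod.stdAddChar (Algebra.trace (ZMod p) κ (z ^ p)) =
      ZMod.stdAddChar (Algebra.trace (ZMod p) κ z)
    rw [← h1]

omit [Fintype κ] in
theorem natCast_val_neg (ρ : ZMod p) : (((-ρ).val : ℕ) : κ) = -((ρ.val : ℕ) : κ) := by
  have h1 : ∀ ρ : ZMod p, ((ρ.val : ℕ) : κ) = ZMod.castHom (dvd_refl p) κ ρ := by
    intro ρ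
    rw [ZMod.castHom_apply, ZMod.natCast_val]
  rw [h1, h1, map_neg]

/-- The elements of the prime field. -/
theorem sum_prime_field [DecidableEq κ] (f : κ → ℂ) :
    ∑ a : κ with a ^ p = a, f a = ∑ ρ : ZMod p, f ((ρ.val : ℕ) : κ) := by
  have hp : p.Prime := Fact.out
  let ι : ZMod p →+* κ := ZMod.castHom (dvd_refl p) κ
  have h1 : ∀ ρ : ZMod p, ((ρ.val : ℕ) : κ) = ι ρ := by
    intro ρ
    change _ = ZMod.castHom (dvd_refl p) κ ρ
    rw [ZMod.castHom_apply, ZMod.natCast_val]
  have h2 : (Finset.univ.filter fun a : κ => a ^ p = a) = Finset.univ.image ι := by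
    symm
    apply Finset.eq_of_subset_of_card_le
    · intro a ha
      obtain ⟨ρ, -, rfl⟩ := Finset.mem_image.1 ha
      rw [Finset.mem_filter, ← map_pow, ZMod.pow_card]
      exact ⟨Finset.mem_univ _, rfl⟩
    · rw [Finset.card_image_of_injective _ ι.injective, Finset.card_univ, ZMod.card]
      have h3 : (Finset.univ.filter fun a : κ => a ^ p = a) ⊆
          (Polynomial.X ^ p - Polynomial.X : Polynomial κ).roots.toFinset := by
        intro a ha
        rw [Finset.mem_filter] at ha
        rw [Multiset.mem_toFinset, Polynomial.mem_roots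
          (FiniteField.X_pow_card_sub_X_ne_zero κ hp.one_lt)]
        simp [Polynomial.IsRoot, ha.2]
      refine (Finset.card_le_card h3).trans ((Multiset.toFinset_card_le _).trans
        ((Polynomial.card_roots' _).trans ?_))
      rw [FiniteField.X_pow_card_sub_X_natDegree_eq κ hp.one_lt]
  rw [h2, Finset.sum_image fun a _ b _ h => ι.injective h]
  exact Finset.sum_congr rfl fun ρ _ => by rw [h1]

/-- The number of solutions of an Artin-Schreier equation. -/
theorem as_count {ψ : AddChar κ ℂ} (hψ : ψ.IsPrimitive) (hF : ∀ z : κ, ψ (z ^ p) = ψ z)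
    (c : κ) : (Nat.card {y : κ // y ^ p - y = c} : ℂ) =
      ∑ ρ : ZMod p, ψ ((ρ.val : ℕ) * c) := by
  classical
  have hp : p.Prime := Fact.out
  have hQ : (Fintype.card κ : ℂ) ≠ 0 := by
    exact_mod_cast Fintype.card_ne_zero
  have hfrob : Function.Bijective fun a : κ => a ^ p := by
    have h1 : Function.Injective fun a : κ => a ^ p := frobenius_inj κ p
    exact ⟨h1, Finite.surjective_of_injective h1⟩
  have hin : ∀ a : κ, ∑ y : κ, ψ (a * (y ^ p - y)) = if a ^ p = a then (Fintype.card κ : ℂ)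
      else 0 := by
    intro a
    obtain ⟨a', ha'⟩ := hfrob.2 a
    simp only at ha'
    have h1 : ∀ y : κ, ψ (a * (y ^ p - y)) = ψ (y * (a' - a)) := by
      intro y
      have h2 : a * (y ^ p - y) = (a' * y) ^ p - a * y := by
        rw [mul_pow, ha']
        ring
      have h3 : y * (a' - a) = a' * y - a * y := by ring
      rw [h2, h3, AddChar.map_sub_eq_div, AddChar.map_sub_eq_div, hF]
    rw [Finset.sum_congr rfl fun y _ => h1 y, AddChar.sum_mulShift _ hψ]
    have h4 : a' - a = 0 ↔ a ^ p = a := by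
      constructor
      · intro h
        rw [sub_eq_zero] at h
        rw [← h]
        rw [h] at ha' ⊢
        exact ha'
      · intro h
        rw [sub_eq_zero]
        exact hfrob.1 (ha'.trans h.symm)
    by_cases h5 : a ^ p = a
    · rw [if_pos h5, if_pos (h4.2 h5)]
    · rw [if_neg h5, if_neg fun h => h5 (h4.1 h)]
      exact Nat.cast_zero
  have h1 : (Fintype.card κ : ℂ) * (Nat.card {y : κ // y ^ p - y = c} : ℂ) =
      ∑ y : κ, ∑ a : κ, ψ (a * (y ^ p - y - c)) := by
    have h2 : ∀ y : κ, ∑ a : κ, ψ (a * (y ^ p - y - c)) =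
        if y ^ p - y = c then (Fintype.card κ : ℂ) else 0 := by
      intro y
      rw [AddChar.sum_mulShift _ hψ]
      by_cases h : y ^ p - y = c
      · rw [if_pos h, if_pos (sub_eq_zero.2 h)]
      · rw [if_neg h, if_neg (fun h3 => h (sub_eq_zero.1 h3))]
        exact Nat.cast_zero
    rw [Finset.sum_congr rfl fun y _ => h2 y, ← Finset.sum_filter, Finset.sum_const,
      Nat.card_eq_fintype_card, Fintype.card_subtype, nsmul_eq_mul, mul_comm]
  have h2 : ∑ y : κ, ∑ a : κ, ψ (a * (y ^ p - y - c)) =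
      ∑ a : κ, ψ (a * (-c)) * ∑ y : κ, ψ (a * (y ^ p - y)) := by
    rw [Finset.sum_comm]
    refine Finset.sum_congr rfl fun a _ => ?_
    rw [Finset.mul_sum]
    refine Finset.sum_congr rfl fun y _ => ?_
    rw [← AddChar.map_add_eq_mul]
    congr 1
    ring
  have h3 : (Fintype.card κ : ℂ) * (Nat.card {y : κ // y ^ p - y = c} : ℂ) =
      (Fintype.card κ : ℂ) * ∑ ρ : ZMod p, ψ ((ρ.val : ℕ) * c) := by
    rw [h1, h2]
    simp only [hin]
    have h4 : ∀ a : κ, ψ (a * (-c)) * (if a ^ p = a then (Fintype.card κ : ℂ) else 0) =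
        if a ^ p = a then (Fintype.card κ : ℂ) * ψ (a * (-c)) else 0 := by
      intro a
      split_ifs
      · ring
      · ring
    rw [Finset.sum_congr rfl fun a _ => h4 a, ← Finset.sum_filter,
      sum_prime_field (p := p) fun a => (Fintype.card κ : ℂ) * ψ (a * (-c)), ← Finset.mul_sum]
    congr 1
    refine Fintype.sum_equiv (Equiv.neg (ZMod p)) _ _ fun ρ => ?_
    rw [Equiv.neg_apply, natCast_val_neg]
    congr 1
    ring
  exact mul_left_cancel₀ hQ h3

end char

end Pool.Agent.Helper19.KL
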