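import Pool.Agent.Helper19.KL.M1

set_option autoImplicit false

/-!
Project KL (MP_0b9e0b_ag), the L-function: sums of products of Kloosterman sums.
-/

namespace Pool.Agent.Helper19.KL

section sums

variable {κ : Type} [Field κ] [Fintype κ] [DecidableEq κ]

theorem sum_units (f : κ → ℂ) : ∑ x : κˣ, f x = ∑ x : κ, f x - f 0 := by
  have h1 : ∑ x : κˣ, f x = ∑ x : {x : κ // x ≠ 0}, f x :=
    Fintype.sum_equiv unitsEquivNeZero _ _ fun x => rfl
  have h2 : ∑ x : {x : κ // x ≠ 0}, f x = ∑ x ∈ Finset.univ.erase (0 : κ), f x := by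
    rw [← Finset.sum_subtype (Finset.univ.erase (0 : κ)) (fun x => by simp) f]
  rw [h1, h2, ← Finset.sum_erase_add Finset.univ f (Finset.mem_univ (0 : κ)), add_sub_cancel_right]

variable {ψ : AddChar κ ℂ} (hψ : ψ.IsPrimitive)

include hψ in
theorem sum_char (c : κ) : ∑ t : κˣ, ψ (t * c) = (if c = 0 then (Fintype.card κ : ℂ) else 0) - 1 := by
  rw [sum_units fun t => ψ (t * c), AddChar.sum_mulShift _ hψ, zero_mul, AddChar.map_zero_eq_one]
  congr 1
  split_ifs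
  · rfl
  · exact Nat.cast_zero

include hψ in
theorem sum_char_inv (c : κ) : ∑ x : κˣ, ψ (c * (x : κ)⁻¹) =
    (if c = 0 then (Fintype.card κ : ℂ) else 0) - 1 := by
  rw [← sum_char hψ c]
  refine Fintype.sum_equiv (Equiv.inv κˣ) _ _ fun x => ?_
  rw [Equiv.inv_apply, Units.val_inv_eq_inv_val, mul_comm]

/-- The Kloosterman sum. -/
noncomputable def kl (ψ : AddChar κ ℂ) (r t b : κ) : ℂ :=
  ∑ x : κˣ, ψ (r * (t * x + b * (x : κ)⁻¹))

include hψ in
theorem sum_kl_one {r b : κ} (hr : r ≠ 0) (hb : b ≠ 0) : ∑ t : κˣ, kl ψ r t b = 1 := by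
  unfold kl
  rw [Finset.sum_comm]
  have h1 : ∀ x : κˣ, ∑ t : κˣ, ψ (r * (t * x + b * (x : κ)⁻¹)) = -ψ (r * b * (x : κ)⁻¹) := by
    intro x
    have h2 : ∀ t : κˣ, ψ (r * (t * x + b * (x : κ)⁻¹)) =
        ψ (t * (r * x)) * ψ (r * b * (x : κ)⁻¹) := by
      intro t
      rw [← AddChar.map_add_eq_mul]
      congr 1
      ring
    rw [Finset.sum_congr rfl fun t _ => h2 t, ← Finset.sum_mul, sum_char hψ,
      if_neg (mul_ne_zero hr x.ne_zero)]
    ring
  rw [Finset.sum_congr rfl fun x _ => h1 x, Finset.sum_neg_distrib, sum_char_inv hψ,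
    if_neg (mul_ne_zero hr hb)]
  ring

/-- The quadratic polynomial. -/
def qd (r1 r2 r3 b1 b2 b3 u : κ) : κ :=
  r1 * r2 * b1 * u ^ 2 + (r1 ^ 2 * b1 + r2 ^ 2 * b2 - r3 ^ 2 * b3) * u + r1 * r2 * b2

include hψ in
theorem sum_kl_three {r1 r2 r3 b1 b2 b3 : κ} (hr1 : r1 ≠ 0) (hr2 : r2 ≠ 0) (hr3 : r3 ≠ 0)
    (hb1 : b1 ≠ 0) (hb2 : b2 ≠ 0) (hb3 : b3 ≠ 0) :
    ∑ t : κˣ, kl ψ r1 t b1 * kl ψ r2 t b2 * kl ψ r3 t b3 =
      (Fintype.card κ : ℂ) ^ 2 * ((Nat.card {u : κ // qd r1 r2 r3 b1 b2 b3 u = 0} : ℂ) - 1) +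
        2 * Fintype.card κ + 1 := by
  set Q : ℂ := (Fintype.card κ : ℂ) with hQ
  -- the sum over `t`
  have h1 : ∀ t : κˣ, kl ψ r1 t b1 * kl ψ r2 t b2 * kl ψ r3 t b3 =
      ∑ x : κˣ, ∑ y : κˣ, ∑ z : κˣ, ψ (t * (r1 * x + r2 * y + r3 * z)) *
        ψ (r1 * b1 * (x : κ)⁻¹ + r2 * b2 * (y : κ)⁻¹ + r3 * b3 * (z : κ)⁻¹) := by
    intro t
    unfold kl
    rw [Finset.sum_mul_sum, Finset.sum_mul]
    refine Finset.sum_congr rfl fun x _ => ?_
    rw [Finset.sum_mul]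
    refine Finset.sum_congr rfl fun y _ => ?_
    rw [Finset.mul_sum]
    refine Finset.sum_congr rfl fun z _ => ?_
    rw [← AddChar.map_add_eq_mul, ← AddChar.map_add_eq_mul, ← AddChar.map_add_eq_mul]
    congr 1
    ring
  have h2 : ∑ t : κˣ, kl ψ r1 t b1 * kl ψ r2 t b2 * kl ψ r3 t b3 =
      Q * (∑ x : κˣ, ∑ y : κˣ, ∑ z : κˣ, if r1 * (x : κ) + r2 * y + r3 * z = 0 then
        ψ (r1 * b1 * (x : κ)⁻¹ + r2 * b2 * (y : κ)⁻¹ + r3 * b3 * (z : κ)⁻¹) else 0) -
      ∑ x : κˣ, ∑ y : κˣ, ∑ z : κˣ,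
        ψ (r1 * b1 * (x : κ)⁻¹ + r2 * b2 * (y : κ)⁻¹ + r3 * b3 * (z : κ)⁻¹) := by
    rw [Finset.sum_congr rfl fun t _ => h1 t, Finset.sum_comm, Finset.mul_sum,
      ← Finset.sum_sub_distrib]
    refine Finset.sum_congr rfl fun x _ => ?_
    rw [Finset.sum_comm, Finset.mul_sum, ← Finset.sum_sub_distrib]
    refine Finset.sum_congr rfl fun y _ => ?_
    rw [Finset.sum_comm, Finset.mul_sum, ← Finset.sum_sub_distrib]
    refine Finset.sum_congr rfl fun z _ => ?_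
    rw [← Finset.sum_mul, sum_char hψ]
    split_ifs
    · ring
    · ring
  -- the sum without condition
  have h3 : ∑ x : κˣ, ∑ y : κˣ, ∑ z : κˣ,
      ψ (r1 * b1 * (x : κ)⁻¹ + r2 * b2 * (y : κ)⁻¹ + r3 * b3 * (z : κ)⁻¹) = -1 := by
    have h4 : ∑ x : κˣ, ∑ y : κˣ, ∑ z : κˣ,
        ψ (r1 * b1 * (x : κ)⁻¹ + r2 * b2 * (y : κ)⁻¹ + r3 * b3 * (z : κ)⁻¹) =
        (∑ x : κˣ, ψ (r1 * b1 * (x : κ)⁻¹)) * (∑ y : κˣ, ψ (r2 * b2 * (y : κ)⁻¹)) *
          ∑ z : κˣ, ψ (r3 * b3 * (z : κ)⁻¹) := by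
      rw [Finset.sum_mul_sum, Finset.sum_mul]
      refine Finset.sum_congr rfl fun x _ => ?_
      rw [Finset.sum_mul]
      refine Finset.sum_congr rfl fun y _ => ?_
      rw [Finset.mul_sum]
      refine Finset.sum_congr rfl fun z _ => ?_
      rw [← AddChar.map_add_eq_mul, ← AddChar.map_add_eq_mul]
    rw [h4, sum_char_inv hψ, sum_char_inv hψ, sum_char_inv hψ, if_neg (mul_ne_zero hr1 hb1),
      if_neg (mul_ne_zero hr2 hb2), if_neg (mul_ne_zero hr3 hb3)]
    ring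
  -- the sum with condition
  have h5 : (∑ x : κˣ, ∑ y : κˣ, ∑ z : κˣ, if r1 * (x : κ) + r2 * y + r3 * z = 0 then
        ψ (r1 * b1 * (x : κ)⁻¹ + r2 * b2 * (y : κ)⁻¹ + r3 * b3 * (z : κ)⁻¹) else 0) =
      ∑ u : κˣ, if r1 + r2 * (u : κ) = 0 then 0 else
        ((if qd r1 r2 r3 b1 b2 b3 u = 0 then Q else 0) - 1) := by
    have h6 : ∀ x : κˣ, (∑ y : κˣ, ∑ z : κˣ, if r1 * (x : κ) + r2 * y + r3 * z = 0 then
        ψ (r1 * b1 * (x : κ)⁻¹ + r2 * b2 * (y : κ)⁻¹ + r3 * b3 * (z : κ)⁻¹) else 0) =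
        ∑ u : κˣ, if r1 + r2 * (u : κ) = 0 then 0 else
          ψ ((r1 * b1 + r2 * b2 * (u : κ)⁻¹ - r3 ^ 2 * b3 * (r1 + r2 * u)⁻¹) * (x : κ)⁻¹) := by
      intro x
      symm
      refine Fintype.sum_equiv (Equiv.mulRight x) _ _ fun u => ?_
      rw [Equiv.coe_mulRight, Units.val_mul]
      by_cases h7 : r1 + r2 * (u : κ) = 0
      · rw [if_pos h7]
        symm
        refine Finset.sum_eq_zero fun z _ => if_neg ?_
        have h8 : r1 * (x : κ) + r2 * ((u : κ) * x) + r3 * z = (r1 + r2 * u) * x + r3 * z := by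
          ring
        rw [h8, h7, zero_mul, zero_add]
        exact mul_ne_zero hr3 z.ne_zero
      · rw [if_neg h7]
        set z0 : κˣ := Units.mk0 (-(r1 + r2 * (u : κ)) * x * r3⁻¹)
          (mul_ne_zero (mul_ne_zero (neg_ne_zero.2 h7) x.ne_zero) (inv_ne_zero hr3)) with hz0
        have hz : ∀ z : κˣ, r1 * (x : κ) + r2 * ((u : κ) * x) + r3 * z = 0 ↔ z = z0 := by
          intro z
          rw [hz0, Units.ext_iff, Units.val_mk0]
          constructor
          · intro h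
            field_simp
            linear_combination h
          · intro h
            rw [h]
            field_simp
            ring
        simp only [hz]
        rw [Finset.sum_ite_eq' Finset.univ z0, if_pos (Finset.mem_univ _)]
        congr 1
        rw [hz0, Units.val_mk0]
        have hx := x.ne_zero
        have hu := u.ne_zero
        field_simp
        ring
    rw [Finset.sum_congr rfl fun x _ => h6 x, Finset.sum_comm]
    refine Finset.sum_congr rfl fun u _ => ?_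
    by_cases h7 : r1 + r2 * (u : κ) = 0
    · simp only [if_pos h7]
      exact Finset.sum_const_zero
    · simp only [if_neg h7]
      rw [sum_char_inv hψ]
      congr 1
      have hu := u.ne_zero
      have h8 : r1 * b1 + r2 * b2 * (u : κ)⁻¹ - r3 ^ 2 * b3 * (r1 + r2 * u)⁻¹ = 0 ↔
          qd r1 r2 r3 b1 b2 b3 u = 0 := by
        have h9 : r1 * b1 + r2 * b2 * (u : κ)⁻¹ - r3 ^ 2 * b3 * (r1 + r2 * u)⁻¹ =
            qd r1 r2 r3 b1 b2 b3 u * ((u : κ)⁻¹ * (r1 + r2 * u)⁻¹) := by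
          unfold qd
          field_simp
          ring
        rw [h9, mul_eq_zero, or_iff_left (mul_ne_zero (inv_ne_zero hu) (inv_ne_zero h7))]
      simp only [h8]
      rw [hQ]
  have h6 : (∑ u : κˣ, if r1 + r2 * (u : κ) = 0 then 0 else
        ((if qd r1 r2 r3 b1 b2 b3 u = 0 then Q else 0) - 1)) =
      Q * (Nat.card {u : κ // qd r1 r2 r3 b1 b2 b3 u = 0} : ℂ) - (Q - 2) := by
    have h7 : ∀ u : κˣ, (if r1 + r2 * (u : κ) = 0 then 0 else
        ((if qd r1 r2 r3 b1 b2 b3 u = 0 then Q else 0) - 1)) =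
        ((if qd r1 r2 r3 b1 b2 b3 u = 0 then Q else 0) +
          (if r1 + r2 * (u : κ) = 0 then (1 : ℂ) else 0)) - 1 := by
      intro u
      by_cases h8 : r1 + r2 * (u : κ) = 0
      · have h9 : qd r1 r2 r3 b1 b2 b3 u ≠ 0 := by
          intro h10
          have h11 : (u : κ) * (r3 ^ 2 * b3) = 0 := by
            unfold qd at h10
            linear_combination -h10 + (r1 * b1 * (u : κ) + r2 * b2) * h8
          exact mul_ne_zero u.ne_zero (mul_ne_zero (pow_ne_zero 2 hr3) hb3) h11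
        rw [if_pos h8, if_pos h8, if_neg h9]
        ring
      · rw [if_neg h8, if_neg h8]
        ring
    rw [Finset.sum_congr rfl fun u _ => h7 u, Finset.sum_sub_distrib, Finset.sum_add_distrib,
      sum_units fun u => if qd r1 r2 r3 b1 b2 b3 u = 0 then Q else 0,
      sum_units fun u => if r1 + r2 * u = 0 then (1 : ℂ) else 0, sum_units fun _ => (1 : ℂ)]
    have h8 : qd r1 r2 r3 b1 b2 b3 0 ≠ 0 := by
      unfold qd
      rw [zero_pow two_ne_zero, mul_zero, mul_zero, zero_add, zero_add]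
      exact mul_ne_zero (mul_ne_zero hr1 hr2) hb2
    have h9 : ∀ u : κ, r1 + r2 * u = 0 ↔ u = -r1 / r2 := by
      intro u
      rw [eq_div_iff hr2]
      constructor
      · intro h
        linear_combination h
      · intro h
        linear_combination h
    rw [if_neg h8, if_neg (by rw [mul_zero, add_zero]; exact hr1), ← Finset.sum_filter,
      Finset.sum_const, nsmul_eq_mul]
    simp only [h9]
    rw [Finset.sum_ite_eq' Finset.univ (-r1 / r2), if_pos (Finset.mem_univ _), Finset.sum_const,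
      nsmul_eq_mul, Finset.card_univ, ← hQ, Nat.card_eq_fintype_card, Fintype.card_subtype]
    ring
  rw [h2, h3, h5, h6]
  ring

end sums

end Pool.Agent.Helper19.KL
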