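import Pool.Agent.Helper19.KL.M2
import Pool.Agent.Helper19.KL.LDefs

set_option autoImplicit false

/-!
Project KL (MP_0b9e0b_ag), the L-function: the points of the curves.
-/

namespace Pool.Agent.Helper19.KL

open Pool.Agent.Helper1.KL

section curve

variable {κ : Type} [Field κ] [Fintype κ] [DecidableEq κ] {p : ℕ} [Fact p.Prime] [CharP κ p]

omit [Fintype κ] [DecidableEq κ] [Fact p.Prime] [CharP κ p] in
theorem curve_affine {t b : κ} (hb : b ≠ 0) (x y : κ) :
    Curve p t b (some x) (some y) ↔ x ≠ 0 ∧ y ^ p - y = t * x + b * x⁻¹ := by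
  unfold Curve
  constructor
  · rintro (⟨h, -⟩ | ⟨a, c, ha, hc, h⟩)
    · exact absurd h (Option.some_ne_none _)
    · rw [Option.some_inj] at ha hc
      subst ha
      subst hc
      have hx : x ≠ 0 := by
        rintro rfl
        rw [zero_mul] at h
        apply hb
        rw [zero_pow two_ne_zero, mul_zero, zero_add] at h
        exact h.symm
      refine ⟨hx, ?_⟩
      field_simp
      linear_combination h
  · rintro ⟨hx, h⟩
    refine Or.inr ⟨x, y, rfl, rfl, ?_⟩
    rw [h]
    field_simp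

omit [Fact p.Prime] [CharP κ p] in
theorem card_curve {t b : κ} (hb : b ≠ 0) :
    Nat.card {z : Option κ × Option κ // Curve p t b z.1 z.2} =
      2 + ∑ x : κˣ, Nat.card {y : κ // y ^ p - y = t * x + b * (x : κ)⁻¹} := by
  classical
  let f : Bool ⊕ (Σ x : κˣ, {y : κ // y ^ p - y = t * x + b * (x : κ)⁻¹}) →
      {z : Option κ × Option κ // Curve p t b z.1 z.2} := fun w => match w with
    | Sum.inl false => ⟨(none, none), Or.inl ⟨rfl, Or.inl rfl⟩⟩
    | Sum.inl true => ⟨(some 0, none), Or.inl ⟨rfl, Or.inr rfl⟩⟩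
    | Sum.inr ⟨x, y⟩ => ⟨(some x, some y), (curve_affine hb _ _).2 ⟨x.ne_zero, y.2⟩⟩
  have hf : Function.Bijective f := by
    constructor
    · rintro ((_ | _) | ⟨x, y⟩) ((_ | _) | ⟨x', y'⟩) h
      all_goals simp [f, Prod.ext_iff, Subtype.ext_iff] at h
      all_goals first | rfl | skip
      obtain ⟨h1, h2⟩ := h
      have h3 : x = x' := Units.ext h1
      subst h3
      have h4 : y = y' := Subtype.ext h2
      rw [h4]
    · rintro ⟨⟨x, y⟩, h⟩
      cases y with
      | none =>
        cases x with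
        | none => exact ⟨Sum.inl false, rfl⟩
        | some x =>
          have hx : x = 0 := by
            rcases h with ⟨-, h | h⟩ | ⟨a, c, -, h, -⟩
            · exact absurd h (Option.some_ne_none _)
            · exact Option.some.inj h
            · exact absurd h.symm (Option.some_ne_none _)
          subst hx
          exact ⟨Sum.inl true, rfl⟩
      | some y =>
        cases x with
        | none =>
          rcases h with ⟨h, -⟩ | ⟨a, c, h, -, -⟩
          · exact absurd h (Option.some_ne_none _)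
          · exact absurd h.symm (Option.some_ne_none _)
        | some x =>
          have h1 := (curve_affine hb x y).1 h
          exact ⟨Sum.inr ⟨Units.mk0 x h1.1, ⟨y, h1.2⟩⟩, rfl⟩
  rw [← Nat.card_congr (Equiv.ofBijective f hf), Nat.card_sum, Nat.card_sigma]
  simp

theorem trC_eq {ψ : AddChar κ ℂ} (hψ : ψ.IsPrimitive) (hF : ∀ z : κ, ψ (z ^ p) = ψ z)
    {t b : κ} (hb : b ≠ 0) :
    (trC κ p t b : ℂ) = -∑ ρ : ZMod p with ρ ≠ 0, kl ψ ((ρ.val : ℕ) : κ) t b := by
  have h1 : (Nat.card {z : Option κ × Option κ // Curve p t b z.1 z.2} : ℂ) =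
      (Fintype.card κ : ℂ) + 1 + ∑ ρ : ZMod p with ρ ≠ 0, kl ψ ((ρ.val : ℕ) : κ) t b := by
    rw [card_curve hb]
    push_cast
    have h2 : ∀ x : κˣ, (Nat.card {y : κ // y ^ p - y = t * x + b * (x : κ)⁻¹} : ℂ) =
        ∑ ρ : ZMod p, ψ ((ρ.val : ℕ) * (t * x + b * (x : κ)⁻¹)) := fun x => as_count hψ hF _
    rw [Finset.sum_congr rfl fun x _ => h2 x, Finset.sum_comm,
      ← Finset.sum_filter_add_sum_filter_not Finset.univ (fun ρ : ZMod p => ρ ≠ 0)]
    have h3 : (Finset.univ.filter fun ρ : ZMod p => ¬ρ ≠ 0) = {0} := by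
      ext ρ
      simp
    rw [h3, Finset.sum_singleton]
    have h4 : ∑ x : κˣ, ψ (((0 : ZMod p).val : ℕ) * (t * x + b * (x : κ)⁻¹)) =
        (Fintype.card κ : ℂ) - 1 := by
      rw [ZMod.val_zero, Nat.cast_zero]
      simp only [zero_mul, AddChar.map_zero_eq_one]
      rw [sum_units fun _ => (1 : ℂ), Finset.sum_const, nsmul_eq_mul, Finset.card_univ, mul_one]
    rw [h4]
    unfold kl
    ring
  unfold trC
  push_cast
  rw [h1, Nat.card_eq_fintype_card]
  ring

end curve

end Pool.Agent.Helper19.KL
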