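import Pool.Agent.Helper19.KL.M3
import Pool.Agent.Helper19.KL.N14

set_option autoImplicit false

/-!
Project KL (MP_0b9e0b_ag), the L-function: the contribution of three indices.
-/

namespace Pool.Agent.Helper19.KL

open Pool.Agent.Helper16 Pool.Agent.Helper1.KL

/-- The number of roots of an irreducible quadratic polynomial in an extension. -/
theorem card_roots_irred {k κ : Type} [Field k] [Finite k] [Field κ] [Finite κ] [Algebra k κ]
    {P : Polynomial k} (hP : Irreducible P) (h2 : P.natDegree = 2) :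
    (Nat.card {u : κ // Polynomial.aeval u P = 0} : ℤ) - 1 = (-1) ^ Module.finrank k κ := by
  classical
  have hfact : Fact (Irreducible P) := ⟨hP⟩
  have hrank : Module.finrank k (AdjoinRoot P) = 2 := by
    rw [(AdjoinRoot.powerBasis hP.ne_zero).finrank, AdjoinRoot.powerBasis_dim, h2]
  have hiff : (∃ u : κ, Polynomial.aeval u P = 0) ↔ 2 ∣ Module.finrank k κ := by
    rw [← hrank, ← FiniteField.nonempty_algHom_iff_finrank_dvd]
    constructor
    · rintro ⟨u, hu⟩
      exact ⟨AdjoinRoot.liftAlgHom P (Algebra.ofId k κ) u hu⟩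
    · rintro ⟨φ⟩
      refine ⟨φ (AdjoinRoot.root P), ?_⟩
      rw [Polynomial.aeval_algHom_apply, AdjoinRoot.aeval_eq, AdjoinRoot.mk_self, map_zero]
  by_cases hroot : ∃ u : κ, Polynomial.aeval u P = 0
  · have heven : Even (Module.finrank k κ) := even_iff_two_dvd.2 (hiff.1 hroot)
    obtain ⟨u, hu⟩ := hroot
    have hsplit : (P.map (algebraMap k κ)).Splits := by
      refine Polynomial.Splits.of_natDegree_eq_two (x := u) ?_ ?_
      · rw [Polynomial.natDegree_map, h2]
      · rw [Polynomial.eval_map_algebraMap, hu]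
    have h3 := Polynomial.card_rootSet_eq_natDegree (K := κ)
      (PerfectField.separable_of_irreducible hP) hsplit
    have h4 : Nat.card {u : κ // Polynomial.aeval u P = 0} = 2 := by
      rw [← h2, ← h3, ← Nat.card_eq_fintype_card]
      refine Nat.card_congr (Equiv.subtypeEquivRight fun u => ?_)
      rw [Polynomial.mem_rootSet, and_iff_right hP.ne_zero]
    rw [h4, heven.neg_one_pow]
    norm_num
  · have hodd : Odd (Module.finrank k κ) := by
      rw [← Nat.not_even_iff_odd, even_iff_two_dvd, ← hiff]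
      exact hroot
    have h4 : Nat.card {u : κ // Polynomial.aeval u P = 0} = 0 := by
      rw [Nat.card_eq_zero]
      left
      exact ⟨fun u => hroot ⟨u.1, u.2⟩⟩
    rw [h4, hodd.neg_one_pow]
    norm_num

section three

variable {k : Type} [Field k] {p : ℕ} [Fact p.Prime] [CharP k p] {n : ℕ} {b : Fin n → k}
  {τ : Fin n → Option (ZMod p)}

/-- The contribution of an index with three nonzero coefficients. -/
theorem exists_eps [Finite k] (hb : ∀ i, b i ≠ 0) (h3 : (IT τ).card = 3)
    (hall : ∀ i ∈ IT τ, coef τ i ≠ 0) :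
    ∃ ε : ℤ, (ε = 1 ∨ ε = 0 ∨ ε = -1) ∧
      Module.rank ℚ (CHY b τ 1) ≤ ((if ε = 1 then 1 else 0 : ℕ) : Cardinal.{0}) ∧
      ∀ (κ : Type) [Field κ] [Fintype κ] [DecidableEq κ] [Algebra k κ] (ψ : AddChar κ ℂ),
        ψ.IsPrimitive → ∑ t : κˣ, ∏ i ∈ IT τ, kl ψ (coef τ i : κ) t (algebraMap k κ (b i)) =
          (Fintype.card κ : ℂ) ^ 2 * (ε : ℂ) ^ Module.finrank k κ + 2 * Fintype.card κ + 1 := by
  classical
  obtain ⟨i, j, l, hij, hil, hjl, hI⟩ := Finset.card_eq_three.1 h3
  have hi : coef τ i ≠ 0 := hall i (by rw [hI]; simp)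
  have hj : coef τ j ≠ 0 := hall j (by rw [hI]; simp)
  have hl : coef τ l ≠ 0 := hall l (by rw [hI]; simp)
  have hrank := rank_three (b := b) hij hil hjl hi hj hl hI hb
  have hsum : ∀ (κ : Type) [Field κ] [Fintype κ] [DecidableEq κ] [Algebra k κ] (ψ : AddChar κ ℂ),
      ψ.IsPrimitive → ∑ t : κˣ, ∏ i ∈ IT τ, kl ψ (coef τ i : κ) t (algebraMap k κ (b i)) =
        (Fintype.card κ : ℂ) ^ 2 * ((Nat.card {u : κ // q3 b τ i j l u = 0} : ℂ) - 1) +
          2 * Fintype.card κ + 1 := by
    intro κ _ _ _ _ ψ hψ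
    have hne : ∀ {m : Fin n}, coef τ m ≠ 0 → (coef τ m : κ) ≠ 0 := by
      intro m hm
      have h1 := cf_ne (k := k) hm
      have h2 : algebraMap k κ (cf k τ m) ≠ 0 := by rwa [Ne, map_eq_zero]
      rwa [map_natCast] at h2
    have hbκ : ∀ m, algebraMap k κ (b m) ≠ 0 := fun m => by
      rw [Ne, map_eq_zero]
      exact hb m
    have h1 := sum_kl_three hψ (hne hi) (hne hj) (hne hl) (hbκ i) (hbκ j) (hbκ l)
    have h2 : ∀ u : κ, qd (coef τ i : κ) (coef τ j : κ) (coef τ l : κ) (algebraMap k κ (b i))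
        (algebraMap k κ (b j)) (algebraMap k κ (b l)) u = q3 b τ i j l u := by
      intro u
      unfold qd q3 cf
      simp only [map_mul, map_add, map_sub, map_pow, map_natCast]
    simp only [h2] at h1
    rw [← h1]
    refine Finset.sum_congr rfl fun t _ => ?_
    rw [hI, Finset.prod_insert (by simp [hij, hil]), Finset.prod_pair hjl, mul_assoc]
  by_cases hroot : ∃ u0 : k, q3 b τ i j l u0 = 0
  · obtain ⟨u0, h0⟩ := hroot
    obtain ⟨hu0, u1, hu⟩ := q3_factor hi hj hb h0
    by_cases hu1 : u1 = u0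
    · refine ⟨0, Or.inr (Or.inl rfl), ?_, fun κ _ _ _ _ ψ hψ => ?_⟩
      · refine hrank.trans ?_
        have h1 : Nat.card {u : k // q3 b τ i j l u = 0} = 1 := by
          rw [Nat.card_eq_one_iff_unique]
          refine ⟨⟨fun a c => Subtype.ext ?_⟩, ⟨⟨u0, h0⟩⟩⟩
          have h2 := (hu a.1).1 a.2
          have h3 := (hu c.1).1 c.2
          rw [hu1, or_self] at h2 h3
          rw [h2, h3]
        rw [h1, if_neg (by norm_num), if_neg (by norm_num)]
      · rw [hsum κ ψ hψ]
        have h1 : Nat.card {u : κ // q3 b τ i j l u = 0} = 1 := by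
          rw [Nat.card_eq_one_iff_unique]
          refine ⟨⟨fun a c => Subtype.ext ?_⟩, ⟨⟨algebraMap k κ u0, (hu _).2 (Or.inl rfl)⟩⟩⟩
          have h2 := (hu a.1).1 a.2
          have h3 := (hu c.1).1 c.2
          rw [hu1, or_self] at h2 h3
          rw [h2, h3]
        have h2 : Module.finrank k κ ≠ 0 := by
          have : Module.Finite k κ := Module.Finite.of_finite
          exact Module.finrank_pos.ne'
        rw [h1, Nat.cast_one, sub_self, Int.cast_zero, zero_pow h2]
    · refine ⟨1, Or.inl rfl, ?_, fun κ _ _ _ _ ψ hψ => ?_⟩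
      · refine hrank.trans ?_
        rw [if_pos rfl, Nat.cast_le]
        split_ifs
        · exact le_rfl
        · exact Nat.zero_le 1
      · rw [hsum κ ψ hψ]
        have h1 : Nat.card {u : κ // q3 b τ i j l u = 0} = 2 := by
          have h2 : {u : κ | q3 b τ i j l u = 0} = {algebraMap k κ u0, algebraMap k κ u1} := by
            ext u
            exact hu u
          have h3 : Nat.card {u : κ // q3 b τ i j l u = 0} =
              Set.ncard {u : κ | q3 b τ i j l u = 0} := rfl
          rw [h3, h2, Set.ncard_pair]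
          intro h4
          exact hu1 ((algebraMap k κ).injective h4).symm
        rw [h1, Int.cast_one, one_pow]
        norm_num
  · have hroot' : ∀ u : k, q3 b τ i j l u ≠ 0 := fun u hu => hroot ⟨u, hu⟩
    refine ⟨-1, Or.inr (Or.inr rfl), ?_, fun κ _ _ _ _ ψ hψ => ?_⟩
    · refine hrank.trans ?_
      have h1 : Nat.card {u : k // q3 b τ i j l u = 0} = 0 := by
        rw [Nat.card_eq_zero]
        left
        exact ⟨fun u => hroot ⟨u.1, u.2⟩⟩
      rw [h1, if_neg (by norm_num), if_neg (by norm_num)]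
    · rw [hsum κ ψ hψ]
      have hdeg : (Q3 b τ i j l).natDegree = 2 :=
        Polynomial.natDegree_quadratic (mul_ne_zero (mul_ne_zero (cf_ne hi) (cf_ne hj)) (hb i))
      have h1 := card_roots_irred (κ := κ) (Q3_irreducible hi hj hb hroot') hdeg
      simp only [aeval_Q3] at h1
      have h2 := congrArg (fun m : ℤ => (m : ℂ)) h1
      push_cast at h2
      rw [h2]
      push_cast
      ring

end three

end Pool.Agent.Helper19.KL
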