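import Pool.Agent.Helper19.KL.M4

set_option autoImplicit false

/-!
Project KL (MP_0b9e0b_ag), the L-function: the traces of Frobenius.
-/

namespace Pool.Agent.Helper19.KL

open Pool.Agent.Helper16 Pool.Agent.Helper1.KL

section expand

variable {p : ℕ} [Fact p.Prime] {n : ℕ}

open scoped Classical in
/-- The indices with three finite coordinates and nonzero coefficients. -/
noncomputable def T3 (p : ℕ) [NeZero p] (n : ℕ) : Finset (Fin n → Option (ZMod p)) :=
  Finset.univ.filter fun τ => (IT τ).card = 3 ∧ ∀ i ∈ IT τ, coef τ i ≠ 0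

theorem mem_T3 {τ : Fin n → Option (ZMod p)} :
    τ ∈ T3 p n ↔ (IT τ).card = 3 ∧ ∀ i ∈ IT τ, coef τ i ≠ 0 := by
  unfold T3
  rw [Finset.mem_filter, and_iff_right (Finset.mem_univ _)]

theorem coef_eq_zero {τ : Fin n → Option (ZMod p)} {i : Fin n} :
    coef τ i = 0 ↔ (τ i).getD 0 = 0 := by
  unfold coef
  exact ZMod.val_eq_zero _

open scoped Classical in
theorem expand_set (g : Fin n → ZMod p → ℂ) (s : Finset (Fin n)) :
    ∏ i ∈ s, ∑ ρ : ZMod p with ρ ≠ 0, g i ρ =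
      ∑ τ : Fin n → Option (ZMod p) with IT τ = s ∧ ∀ i ∈ IT τ, coef τ i ≠ 0,
        ∏ i ∈ s, g i ((τ i).getD 0) := by
  set F : Fin n → Option (ZMod p) → ℂ := fun i o =>
    if i ∈ s then (if o ≠ none ∧ o.getD 0 ≠ 0 then g i (o.getD 0) else 0) else
      (if o = none then 1 else 0) with hF
  have h1 : ∀ i, ∑ o, F i o = if i ∈ s then ∑ ρ : ZMod p with ρ ≠ 0, g i ρ else 1 := by
    intro i
    rw [Fintype.sum_option]
    by_cases hi : i ∈ s
    · simp only [hF, if_pos hi]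
      rw [if_neg (by simp), zero_add, Finset.sum_filter]
      refine Finset.sum_congr rfl fun ρ _ => ?_
      simp
    · simp only [hF, if_neg hi]
      simp
  have h2 : ∏ i, ∑ o, F i o = ∏ i ∈ s, ∑ ρ : ZMod p with ρ ≠ 0, g i ρ := by
    rw [Finset.prod_congr rfl fun i _ => h1 i, Finset.prod_ite_mem, Finset.univ_inter]
  rw [← h2, Finset.prod_univ_sum, Fintype.piFinset_univ, Finset.sum_filter]
  refine Finset.sum_congr rfl fun τ _ => ?_
  by_cases h3 : IT τ = s ∧ ∀ i ∈ IT τ, coef τ i ≠ 0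
  · rw [if_pos h3]
    have h4 : ∀ i, F i (τ i) = if i ∈ s then g i ((τ i).getD 0) else 1 := by
      intro i
      by_cases hi : i ∈ s
      · simp only [hF, if_pos hi]
        rw [if_pos]
        rw [← h3.1] at hi
        exact ⟨mem_IT.1 hi, fun h => h3.2 i hi (coef_eq_zero.2 h)⟩
      · simp only [hF, if_neg hi]
        rw [if_pos]
        rw [← h3.1, mem_IT, not_not] at hi
        exact hi
    rw [Finset.prod_congr rfl fun i _ => h4 i, Finset.prod_ite_mem, Finset.univ_inter]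
  · rw [if_neg h3]
    by_cases h4 : IT τ = s
    · have h5 : ∃ i ∈ IT τ, coef τ i = 0 := by
        by_contra h6
        push Not at h6
        exact h3 ⟨h4, h6⟩
      obtain ⟨i, hi, hi0⟩ := h5
      refine Finset.prod_eq_zero (Finset.mem_univ i) ?_
      rw [h4] at hi
      simp only [hF, if_pos hi]
      rw [if_neg fun h => h.2 (coef_eq_zero.1 hi0)]
    · have h5 : ∃ i, ¬ (i ∈ IT τ ↔ i ∈ s) := by
        by_contra h6
        push Not at h6
        exact h4 (Finset.ext h6)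
      obtain ⟨i, hi⟩ := h5
      refine Finset.prod_eq_zero (Finset.mem_univ i) ?_
      rw [mem_IT] at hi
      by_cases his : i ∈ s
      · simp only [hF, if_pos his]
        rw [if_neg]
        rintro ⟨h6, -⟩
        exact hi ⟨fun _ => his, fun _ => h6⟩
      · simp only [hF, if_neg his]
        rw [if_neg]
        intro h6
        exact hi ⟨fun h7 => absurd h6 h7, fun h7 => absurd h7 his⟩

theorem expand (g : Fin n → ZMod p → ℂ) :
    ∑ s ∈ Finset.powersetCard 3 (Finset.univ : Finset (Fin n)),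
      ∏ i ∈ s, ∑ ρ : ZMod p with ρ ≠ 0, g i ρ =
      ∑ τ ∈ T3 p n, ∏ i ∈ IT τ, g i ((τ i).getD 0) := by
  classical
  have h1 : ∀ τ ∈ T3 p n, IT τ ∈ Finset.powersetCard 3 (Finset.univ : Finset (Fin n)) := by
    intro τ hτ
    rw [Finset.mem_powersetCard]
    exact ⟨Finset.subset_univ _, (mem_T3.1 hτ).1⟩
  rw [← Finset.sum_fiberwise_of_maps_to h1]
  refine Finset.sum_congr rfl fun s hs => ?_
  rw [expand_set]
  rw [Finset.mem_powersetCard] at hs
  have h2 : (T3 p n).filter (fun τ => IT τ = s) =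
      Finset.univ.filter fun τ : Fin n → Option (ZMod p) =>
        IT τ = s ∧ ∀ i ∈ IT τ, coef τ i ≠ 0 := by
    ext τ
    rw [Finset.mem_filter, mem_T3, Finset.mem_filter]
    constructor
    · rintro ⟨⟨-, h3⟩, h4⟩
      exact ⟨Finset.mem_univ _, h4, h3⟩
    · rintro ⟨-, h3, h4⟩
      exact ⟨⟨by rw [h3, hs.2], h4⟩, h3⟩
  rw [h2]
  refine Finset.sum_congr rfl fun τ hτ => ?_
  rw [Finset.mem_filter] at hτ
  rw [hτ.2.1]

end expand

section trace

variable {k : Type} [Field k] {p : ℕ} [Fact p.Prime] [CharP k p] {n : ℕ} {b : Fin n → k}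

theorem sum_trX [Finite k] (hb : ∀ i, b i ≠ 0) {ε : (Fin n → Option (ZMod p)) → ℤ}
    (hε : ∀ τ ∈ T3 p n, ∀ (κ : Type) [Field κ] [Fintype κ] [DecidableEq κ] [Algebra k κ]
      (ψ : AddChar κ ℂ), ψ.IsPrimitive →
        ∑ t : κˣ, ∏ i ∈ IT τ, kl ψ (coef τ i : κ) t (algebraMap k κ (b i)) =
          (Fintype.card κ : ℂ) ^ 2 * (ε τ : ℂ) ^ Module.finrank k κ + 2 * Fintype.card κ + 1)
    (κ : Type) [Field κ] [Finite κ] [Algebra k κ] :
    ∑ᶠ t : κˣ, trX κ p (fun i => algebraMap k κ (b i)) t =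
      -∑ τ ∈ T3 p n, ((Nat.card κ : ℤ) ^ 2 * ε τ ^ Module.finrank k κ + 2 * Nat.card κ + 1) -
        (n : ℤ) * ((n : ℤ) - 1) * ((p : ℤ) - 1) * Nat.card κ := by
  classical
  have : Fintype κ := Fintype.ofFinite κ
  have : CharP κ p := charP_of_injective_algebraMap (algebraMap k κ).injective p
  obtain ⟨ψ, hψ, hF⟩ := exists_char κ p
  have hbκ : ∀ m, algebraMap k κ (b m) ≠ 0 := fun m => by
    rw [Ne, map_eq_zero]
    exact hb m
  rw [finsum_eq_sum_of_fintype]
  have h1 : ∀ t : κˣ, (trX κ p (fun i => algebraMap k κ (b i)) t : ℂ) =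
      (-∑ τ ∈ T3 p n, ∏ i ∈ IT τ, kl ψ (coef τ i : κ) t (algebraMap k κ (b i))) -
        ((n : ℂ) - 1) * Fintype.card κ *
          ∑ i, ∑ ρ : ZMod p with ρ ≠ 0, kl ψ ((ρ.val : ℕ) : κ) t (algebraMap k κ (b i)) := by
    intro t
    unfold trX
    push_cast
    simp only [trC_eq hψ hF (hbκ _)]
    rw [Nat.card_eq_fintype_card]
    have h2 : ∀ s ∈ Finset.powersetCard 3 (Finset.univ : Finset (Fin n)),
        ∏ i ∈ s, -∑ ρ : ZMod p with ρ ≠ 0, kl ψ ((ρ.val : ℕ) : κ) t (algebraMap k κ (b i)) =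
        -∏ i ∈ s, ∑ ρ : ZMod p with ρ ≠ 0, kl ψ ((ρ.val : ℕ) : κ) t (algebraMap k κ (b i)) := by
      intro s hs
      rw [Finset.mem_powersetCard] at hs
      rw [Finset.prod_neg, hs.2]
      ring
    rw [Finset.sum_congr rfl h2, Finset.sum_neg_distrib,
      expand fun i ρ => kl ψ ((ρ.val : ℕ) : κ) t (algebraMap k κ (b i)), Finset.sum_neg_distrib]
    unfold coef
    ring
  have h2 : ((∑ t : κˣ, trX κ p (fun i => algebraMap k κ (b i)) t : ℤ) : ℂ) =
      ((-∑ τ ∈ T3 p n, ((Nat.card κ : ℤ) ^ 2 * ε τ ^ Module.finrank k κ + 2 * Nat.card κ + 1) -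
        (n : ℤ) * ((n : ℤ) - 1) * ((p : ℤ) - 1) * Nat.card κ : ℤ) : ℂ) := by
    push_cast
    rw [Finset.sum_congr rfl fun t _ => h1 t, Finset.sum_sub_distrib, Finset.sum_neg_distrib,
      Finset.sum_comm, ← Finset.mul_sum, Finset.sum_comm (s := (Finset.univ : Finset κˣ)),
      Finset.sum_congr rfl fun τ hτ => hε τ hτ κ ψ hψ, Nat.card_eq_fintype_card]
    have h3 : ∀ i, ∑ t : κˣ, ∑ ρ : ZMod p with ρ ≠ 0,
        kl ψ ((ρ.val : ℕ) : κ) t (algebraMap k κ (b i)) = (p : ℂ) - 1 := by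
      intro i
      rw [Finset.sum_comm]
      have h4 : ∀ ρ ∈ Finset.univ.filter (fun ρ : ZMod p => ρ ≠ 0),
          ∑ t : κˣ, kl ψ ((ρ.val : ℕ) : κ) t (algebraMap k κ (b i)) = 1 := by
        intro ρ hρ
        rw [Finset.mem_filter] at hρ
        refine sum_kl_one hψ ?_ (hbκ i)
        rw [Ne, CharP.cast_eq_zero_iff κ p]
        intro h5
        exact hρ.2 ((ZMod.val_eq_zero ρ).1 (Nat.eq_zero_of_dvd_of_lt h5 (ZMod.val_lt ρ)))
      rw [Finset.sum_congr rfl h4, Finset.sum_const, nsmul_eq_mul, mul_one, Finset.filter_ne',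
        Finset.card_erase_of_mem (Finset.mem_univ _), Finset.card_univ, ZMod.card,
        Nat.cast_sub (Fact.out : p.Prime).one_le, Nat.cast_one]
    rw [Finset.sum_congr rfl fun i _ => h3 i, Finset.sum_const, Finset.card_univ, Fintype.card_fin,
      nsmul_eq_mul]
    ring
  exact_mod_cast h2

end trace

end Pool.Agent.Helper19.KL
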