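import Pool.Agent.Helper19.KL.M5
import Pool.Agent.HC.LDW

set_option autoImplicit false

/-!
Project KL (MP_0b9e0b_ag): the L-function and the number of the indices with three nonzero
coefficients whose quadratic equation has two roots.
-/

namespace Pool.Agent.Helper19.KL

open Pool.Agent.Helper16 Pool.Agent.Helper1.KL

section lin

open Polynomial

theorem lin_ne_L (α : ℚ) : (1 - C α * X : ℚ[X]) ≠ 0 := by
  intro h
  have h1 := congrArg (Polynomial.eval 0) h
  simp at h1

theorem rm_lin_zero_L {α x : ℚ} (h : α * x ≠ 1) : (1 - C α * X : ℚ[X]).rootMultiplicity x = 0 := by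
  apply Polynomial.rootMultiplicity_eq_zero
  intro h1
  unfold Polynomial.IsRoot at h1
  rw [Polynomial.eval_sub, Polynomial.eval_one, Polynomial.eval_mul, Polynomial.eval_C,
    Polynomial.eval_X, sub_eq_zero] at h1
  exact h h1.symm

theorem rm_lin_one_L {α : ℚ} (h : α ≠ 0) : (1 - C α * X : ℚ[X]).rootMultiplicity α⁻¹ = 1 := by
  have h1 : (1 - C α * X : ℚ[X]) = C (-α) * (X - C α⁻¹) := by
    rw [mul_sub, ← C_mul, neg_mul, mul_inv_cancel₀ h, C_neg, C_neg, C_1]
    ring
  rw [h1, Polynomial.rootMultiplicity_mul, Polynomial.rootMultiplicity_C, zero_add,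
    Polynomial.rootMultiplicity_X_sub_C_self]
  refine mul_ne_zero ?_ (Polynomial.X_sub_C_ne_zero _)
  rw [Ne, Polynomial.C_eq_zero]
  exact neg_ne_zero.2 h

theorem rm_prod_L {ι : Type} (s : Finset ι) (f : ι → ℚ[X]) (hf : ∀ i, f i ≠ 0) (x : ℚ) :
    (∏ i ∈ s, f i).rootMultiplicity x = ∑ i ∈ s, (f i).rootMultiplicity x := by
  classical
  induction s using Finset.induction_on with
  | empty =>
    rw [Finset.prod_empty, Finset.sum_empty]
    exact Polynomial.rootMultiplicity_eq_zero (by simp)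
  | insert i s hi ih =>
    rw [Finset.prod_insert hi, Finset.sum_insert hi, Polynomial.rootMultiplicity_mul, ih]
    exact mul_ne_zero (hf i) (Finset.prod_ne_zero_iff.2 fun j _ => hf j)

theorem rm_pow_L {f : ℚ[X]} (hf : f ≠ 0) (m : ℕ) (x : ℚ) :
    (f ^ m).rootMultiplicity x = m * f.rootMultiplicity x := by
  have h1 := rm_prod_L (Finset.range m) (fun _ => f) (fun _ => hf) x
  rwa [Finset.prod_const, Finset.sum_const, Finset.card_range, smul_eq_mul] at h1

end lin

section final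

variable {k : Type} [Field k] {p : ℕ} [Fact p.Prime] [CharP k p] {n : ℕ} {b : Fin n → k}
  {τ : Fin n → Option (ZMod p)}

/-- The sum of the products of three Kloosterman sums. -/
theorem sum_three (hb : ∀ i, b i ≠ 0) {i j l : Fin n} (hij : i ≠ j) (hil : i ≠ l) (hjl : j ≠ l)
    (hi : coef τ i ≠ 0) (hj : coef τ j ≠ 0) (hl : coef τ l ≠ 0) (hI : IT τ = {i, j, l})
    (κ : Type) [Field κ] [Fintype κ] [DecidableEq κ] [Algebra k κ] (ψ : AddChar κ ℂ)
    (hψ : ψ.IsPrimitive) :
    ∑ t : κˣ, ∏ i ∈ IT τ, kl ψ (coef τ i : κ) t (algebraMap k κ (b i)) =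
      (Fintype.card κ : ℂ) ^ 2 * ((Nat.card {u : κ // q3 b τ i j l u = 0} : ℂ) - 1) +
        2 * Fintype.card κ + 1 := by
  have hne : ∀ {m : Fin n}, coef τ m ≠ 0 → (coef τ m : κ) ≠ 0 := by
    intro m hm
    have h1 := cf_ne (k := k) hm
    have h2 : algebraMap k κ (cf k τ m) ≠ 0 := by rwa [Ne, map_eq_zero]
    rwa [map_natCast] at h2
  have hbκ : ∀ m, algebraMap k κ (b m) ≠ 0 := fun m => by
    rw [Ne, map_eq_zero]
    exact hb m
  have h1 := sum_kl_three hψ (hne hi) (hne hj) (hne hl) (hbκ i) (hbκ j) (hbκ l)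
  have h2 : ∀ u : κ, qd (coef τ i : κ) (coef τ j : κ) (coef τ l : κ) (algebraMap k κ (b i))
      (algebraMap k κ (b j)) (algebraMap k κ (b l)) u = q3 b τ i j l u := by
    intro u
    unfold qd q3 cf
    simp only [map_mul, map_add, map_sub, map_pow, map_natCast]
  simp only [h2] at h1
  rw [← h1]
  refine Finset.sum_congr rfl fun t _ => ?_
  rw [hI, Finset.prod_insert (by simp [hij, hil]), Finset.prod_pair hjl, mul_assoc]

theorem eps_one [Finite k] (hb : ∀ i, b i ≠ 0) {ε : ℤ}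
    (h : ∀ (κ : Type) [Field κ] [Fintype κ] [DecidableEq κ] [Algebra k κ] (ψ : AddChar κ ℂ),
        ψ.IsPrimitive → ∑ t : κˣ, ∏ i ∈ IT τ, kl ψ (coef τ i : κ) t (algebraMap k κ (b i)) =
          (Fintype.card κ : ℂ) ^ 2 * (ε : ℂ) ^ Module.finrank k κ + 2 * Fintype.card κ + 1)
    (hP : P3 b τ) : ε = 1 := by
  classical
  obtain ⟨i, j, l, hij, hil, hjl, hi, hj, hl, hI, hc⟩ := hP
  have : Fintype k := Fintype.ofFinite k
  obtain ⟨ψ, hψ, -⟩ := exists_char k p
  have h1 := h k ψ hψ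
  rw [sum_three hb hij hil hjl hi hj hl hI k ψ hψ, hc, Module.finrank_self, pow_one] at h1
  have hq : (Fintype.card k : ℂ) ^ 2 ≠ 0 := by
    refine pow_ne_zero 2 ?_
    rw [Nat.cast_ne_zero]
    exact Fintype.card_ne_zero
  have h2 : (Fintype.card k : ℂ) ^ 2 * ((ε : ℂ) - 1) = 0 := by
    push_cast at h1
    linear_combination -h1
  have h3 := (mul_eq_zero.1 h2).resolve_left hq
  have h4 : (ε : ℂ) = ((1 : ℤ) : ℂ) := by
    rw [Int.cast_one]
    linear_combination h3
  exact_mod_cast h4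

open Polynomial in
/-- The L-function. -/
theorem exists_L [Finite k] (hb : ∀ i, b i ≠ 0) :
    ∃ L : ℚ[X], IsLX p b (L : PowerSeries ℚ) ∧
      R3 p b ≤ L.rootMultiplicity (((Nat.card k : ℚ) ^ 2)⁻¹) := by
  classical
  have hex : ∀ τ : Fin n → Option (ZMod p), ∃ ε : ℤ, τ ∈ T3 p n →
      (ε = 1 ∨ ε = 0 ∨ ε = -1) ∧
      ∀ (κ : Type) [Field κ] [Fintype κ] [DecidableEq κ] [Algebra k κ] (ψ : AddChar κ ℂ),
        ψ.IsPrimitive → ∑ t : κˣ, ∏ i ∈ IT τ, kl ψ (coef τ i : κ) t (algebraMap k κ (b i)) =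
          (Fintype.card κ : ℂ) ^ 2 * (ε : ℂ) ^ Module.finrank k κ + 2 * Fintype.card κ + 1 := by
    intro τ
    by_cases hτ : τ ∈ T3 p n
    · obtain ⟨ε, h, -, h'⟩ := exists_eps hb (mem_T3.1 hτ).1 (mem_T3.1 hτ).2
      exact ⟨ε, fun _ => ⟨h, h'⟩⟩
    · exact ⟨0, fun h => absurd h hτ⟩
  choose ε hε using hex
  set q : ℚ := (Nat.card k : ℚ) with hq
  have hq1 : 1 < q := by
    rw [hq]
    exact_mod_cast Finite.one_lt_card
  have hq0 : q ≠ 0 := by linarith
  have hsum := sum_trX hb (ε := ε) fun τ hτ => (hε τ hτ).2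
  set M : ℕ := 2 * (T3 p n).card + n * (n - 1) * (p - 1) with hM
  set L : ℚ[X] := (∏ τ ∈ T3 p n, (1 - C ((ε τ : ℚ) * q ^ 2) * X)) * (1 - C q * X) ^ M *
    (1 - C 1 * X) ^ (T3 p n).card with hL
  have hMq : (M : ℚ) = 2 * (T3 p n).card + n * ((n : ℚ) - 1) * ((p : ℚ) - 1) := by
    rw [hM]
    have h1 : ((n * (n - 1) : ℕ) : ℚ) = n * ((n : ℚ) - 1) := by
      rcases Nat.eq_zero_or_pos n with h0 | h0
      · simp [h0]
      · rw [Nat.cast_mul, Nat.cast_sub h0, Nat.cast_one]
    push_cast [Nat.cast_sub (Fact.out : p.Prime).one_le]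
    have h2 : ((n : ℚ) * ((n - 1 : ℕ) : ℚ)) = n * ((n : ℚ) - 1) := by exact_mod_cast h1
    rw [h2]
  refine ⟨L, ⟨?_, ?_⟩, ?_⟩
  · rw [Polynomial.constantCoeff_coe, Polynomial.coeff_zero_eq_eval_zero, hL]
    rw [Polynomial.eval_mul, Polynomial.eval_mul, Polynomial.eval_prod, Polynomial.eval_pow,
      Polynomial.eval_pow, Finset.prod_eq_one]
    · simp
    · intro τ _
      simp
  · refine ⟨fun N => if N = 0 then 0 else
      -∑ τ ∈ T3 p n, (q ^ (2 * N) * (ε τ : ℚ) ^ N + 2 * q ^ N + 1) -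
        (n : ℚ) * ((n : ℚ) - 1) * ((p : ℚ) - 1) * q ^ N, if_pos rfl, fun κ _ _ hκ => ?_, ?_⟩
    · have hfin : Module.Finite k κ := Module.finite_of_finrank_pos (Nat.pos_of_ne_zero hκ)
      have hfinκ : Finite κ := Module.finite_of_finite k
      simp only [if_neg hκ]
      rw [hsum κ]
      push_cast
      have h1 : (Nat.card κ : ℚ) = q ^ Module.finrank k κ := by
        rw [hq, Module.natCard_eq_pow_finrank (K := k) (V := κ)]
        push_cast
        rfl
      rw [h1]
      congr 2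
      refine Finset.sum_congr rfl fun τ _ => ?_
      rw [pow_mul]
      ring
    · have h1 : ((L : ℚ[X]) : PowerSeries ℚ) =
          (∏ τ ∈ T3 p n, ((1 - C ((ε τ : ℚ) * q ^ 2) * X : ℚ[X]) : PowerSeries ℚ)) *
            ((1 - C q * X : ℚ[X]) : PowerSeries ℚ) ^ M *
            ((1 - C 1 * X : ℚ[X]) : PowerSeries ℚ) ^ (T3 p n).card := by
        rw [hL]
        simp only [← Polynomial.coeToPowerSeries.ringHom_apply]
        rw [map_mul, map_mul, map_prod, map_pow, map_pow]
      have h2 := ((HC.LDW.isLog_prod (T3 p n) _ _ fun τ _ =>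
        HC.LDW.isLog_lin ((ε τ : ℚ) * q ^ 2)).mul ((HC.LDW.isLog_lin q).pow M)).mul
          ((HC.LDW.isLog_lin 1).pow (T3 p n).card)
      rw [← h1] at h2
      unfold HC.LDW.IsLog at h2
      rw [h2]
      congr 1
      ext N
      rw [map_add, map_add, map_sum, map_nsmul, map_nsmul, PowerSeries.coeff_mk]
      unfold HC.LDW.geo
      simp only [PowerSeries.coeff_mk]
      by_cases hN : N = 0
      · simp [hN]
      · simp only [if_neg hN]
        rw [Finset.sum_neg_distrib, nsmul_eq_mul, nsmul_eq_mul, hMq, Finset.sum_add_distrib,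
          Finset.sum_add_distrib, Finset.sum_const, Finset.sum_const, nsmul_eq_mul, nsmul_eq_mul]
        have h3 : ∑ τ ∈ T3 p n, ((ε τ : ℚ) * q ^ 2) ^ N =
            ∑ τ ∈ T3 p n, q ^ (2 * N) * (ε τ : ℚ) ^ N := by
          refine Finset.sum_congr rfl fun τ _ => ?_
          rw [mul_pow, pow_mul]
          ring
        rw [h3, one_pow]
        ring
  · -- the order of `L`
    have hroot : L.rootMultiplicity ((q ^ 2)⁻¹) =
        ((T3 p n).filter fun τ => ε τ = 1).card := by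
      have hprod : (∏ τ ∈ T3 p n, (1 - C ((ε τ : ℚ) * q ^ 2) * X : ℚ[X])) ≠ 0 :=
        Finset.prod_ne_zero_iff.2 fun τ _ => lin_ne_L _
      rw [hL, Polynomial.rootMultiplicity_mul (mul_ne_zero (mul_ne_zero hprod
        (pow_ne_zero _ (lin_ne_L _))) (pow_ne_zero _ (lin_ne_L _))),
        Polynomial.rootMultiplicity_mul (mul_ne_zero hprod (pow_ne_zero _ (lin_ne_L _))),
        rm_prod_L _ _ fun τ => lin_ne_L _]
      have h1 : (1 - C q * X : ℚ[X]).rootMultiplicity ((q ^ 2)⁻¹) = 0 := by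
        refine rm_lin_zero_L fun h => ?_
        field_simp at h
        linarith
      have h2 : (1 - C 1 * X : ℚ[X]).rootMultiplicity ((q ^ 2)⁻¹) = 0 := by
        refine rm_lin_zero_L fun h => ?_
        rw [one_mul, inv_eq_one] at h
        nlinarith
      rw [rm_pow_L (lin_ne_L _), rm_pow_L (lin_ne_L _), h1, h2, mul_zero, mul_zero, add_zero, add_zero,
        Finset.card_filter]
      refine Finset.sum_congr rfl fun τ hτ => ?_
      have hq2 : q ^ 2 ≠ 0 := pow_ne_zero 2 hq0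
      rcases (hε τ hτ).1 with h | h | h
      · rw [h, if_pos rfl, Int.cast_one, one_mul]
        exact rm_lin_one_L hq2
      · rw [h, if_neg (by norm_num)]
        refine rm_lin_zero_L ?_
        simp
      · rw [h, if_neg (by norm_num)]
        refine rm_lin_zero_L ?_
        rw [mul_assoc, mul_inv_cancel₀ hq2]
        norm_num
    rw [hroot]
    unfold R3
    refine Finset.card_le_card fun τ hτ => ?_
    rw [Finset.mem_filter] at hτ ⊢
    have hT : τ ∈ T3 p n := by
      obtain ⟨i, j, l, hij, hil, hjl, hi, hj, hl, hI, -⟩ := hτ.2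
      rw [mem_T3, hI, Finset.card_eq_three]
      refine ⟨⟨i, j, l, hij, hil, hjl, rfl⟩, fun m hm => ?_⟩
      rw [Finset.mem_insert, Finset.mem_insert, Finset.mem_singleton] at hm
      rcases hm with rfl | rfl | rfl
      · exact hi
      · exact hj
      · exact hl
    exact ⟨hT, eps_one hb (hε τ hT).2 hτ.2⟩

end final

end Pool.Agent.Helper19.KL
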