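import Pool.Agent.Helper19.KL.Pts
import Pool.Agent.Helper16.FF8

set_option autoImplicit false

/-!
Project KL (MP_0b9e0b_ag): homomorphisms and residues of points; lemmas for KL-10.
-/

namespace Pool.Agent.Helper19.KL

open Pool.Agent.Helper16 Pool.Agent.Helper1.KL

theorem map_zcast {p : ℕ} [NeZero p] {N N' : Type} [Field N] [Field N'] (φ : N →+* N')
    (c : ZMod p) : φ (c.cast : N) = (c.cast : N') := by
  rw [ZMod.cast_eq_val, ZMod.cast_eq_val, map_natCast]

section Maps

variable {k : Type} [Field k] {p : ℕ} {n : ℕ} {b : Fin n → k} {N N' : Type} [Field N] [Field N']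
  [Algebra (RatFunc k) N] [Algebra (RatFunc k) N']

theorem xc_map (φ : N →ₐ[RatFunc k] N') (z : Fin n ⊕ Fin n → Option N) (i : Fin n) :
    xc (fun j => (z j).map φ) i = φ (xc z i) := getD_map φ _

theorem yc_map (φ : N →ₐ[RatFunc k] N') (z : Fin n ⊕ Fin n → Option N) (i : Fin n) :
    yc (fun j => (z j).map φ) i = φ (yc z i) := getD_map φ _

theorem ec_map [NeZero p] (φ : N →ₐ[RatFunc k] N') (z : Fin n ⊕ Fin n → Option N)
    (ρ : Fin n → ZMod p) : ec ρ (fun j => (z j).map φ) = φ (ec ρ z) := by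
  unfold ec
  rw [map_sum]
  refine Finset.sum_congr rfl fun i _ => ?_
  rw [yc_map, map_mul]
  congr 1
  exact (map_zcast (φ : N →+* N') _).symm

theorem Xc_map [NeZero p] (φ : N →ₐ[RatFunc k] N') (z : Fin n ⊕ Fin n → Option N)
    (ρ : Fin n → ZMod p) : Xc ρ (fun j => (z j).map φ) = φ (Xc ρ z) := by
  unfold Xc
  rw [map_sum]
  refine Finset.sum_congr rfl fun i _ => ?_
  rw [xc_map, map_mul]
  congr 1
  exact (map_zcast (φ : N →+* N') _).symm

theorem Bc_map [NeZero p] (φ : N →ₐ[RatFunc k] N') (z : Fin n ⊕ Fin n → Option N)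
    (ρ : Fin n → ZMod p) : Bc b ρ (fun j => (z j).map φ) = φ (Bc b ρ z) := by
  unfold Bc
  rw [map_sum]
  refine Finset.sum_congr rfl fun i _ => ?_
  rw [xc_map, map_mul, map_mul, map_inv₀, φ.commutes]
  congr 2
  exact (map_zcast (φ : N →+* N') _).symm

theorem tr_map [NeZero p] (φ : N →ₐ[RatFunc k] N') (h : Fin n → ZMod p)
    (z : Fin n ⊕ Fin n → Option N) :
    tr h (fun j => (z j).map φ) = fun j => (tr h z j).map φ := by
  funext j
  cases j with
  | inl i => rfl
  | inr i =>
    change ((z (Sum.inr i)).map _).map _ = ((z (Sum.inr i)).map _).map _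
    rw [Option.map_map, Option.map_map]
    congr 1
    funext c
    simp only [Function.comp_apply, map_add]
    congr 1
    exact (map_zcast (φ : N →+* N') _).symm

theorem SH_map [NeZero p] {r : ℕ} (H : Finset (Fin n → ZMod p)) (φ : N →ₐ[RatFunc k] N')
    (z : Fin n ⊕ Fin n → Option N) :
    SH p b r H (fun j => (z j).map φ) = SH p b r H z := by
  unfold SH
  refine Finset.sum_congr rfl fun h _ => ?_
  rw [tr_map]
  unfold cl cls
  rw [key_map']

theorem good_of_map {r : ℕ} {I : Finset (Fin n)} (φ : N →ₐ[RatFunc k] N')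
    {z : Fin n ⊕ Fin n → Option N} (h : Good p b r I (fun j => (z j).map φ)) :
    Good p b r I z := by
  refine ⟨(xv_map φ z).1 h.mem, fun i hi h1 => h.aff i hi (by simp only [h1]; rfl), fun i hi => ?_,
    ?_⟩
  · have := h.inf i hi
    simpa only [Option.map_eq_none_iff] using this
  · rw [← h.dim, trdeg_fld_map']

end Maps

section Res

variable {K M : Type} [Field K] [Field M] [Algebra K M] (v : Place K M)

theorem res_natCast (m : ℕ) : v.res (m : M) = (m : v.resField) := by
  have h1 : ((m : ℕ) : M) ∈ v.ring := natCast_mem _ _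
  rw [v.res_of_mem h1]
  exact map_natCast (IsLocalRing.residue v.ring) m

theorem res_zcast {p : ℕ} [NeZero p] (c : ZMod p) : (c.cast : M) ∈ v.ring ∧
    v.res (c.cast : M) = (c.cast : v.resField) := by
  rw [ZMod.cast_eq_val, ZMod.cast_eq_val]
  exact ⟨natCast_mem _ _, res_natCast v _⟩

theorem res_sum {ι : Type} (s : Finset ι) (a : ι → M) (h : ∀ i ∈ s, a i ∈ v.ring) :
    (∑ i ∈ s, a i) ∈ v.ring ∧ v.res (∑ i ∈ s, a i) = ∑ i ∈ s, v.res (a i) := by
  classical
  induction s using Finset.induction_on with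
  | empty =>
    simp only [Finset.sum_empty]
    exact ⟨zero_mem _, v.res_zero⟩
  | insert i s hi ih =>
    have h1 := ih fun j hj => h j (Finset.mem_insert_of_mem hj)
    have h2 := h i (Finset.mem_insert_self i s)
    rw [Finset.sum_insert hi, Finset.sum_insert hi]
    exact ⟨add_mem h2 h1.1, by rw [v.res_add h2 h1.1, h1.2]⟩

theorem res_inv {a : M} (h : v.val a = 1) : a⁻¹ ∈ v.ring ∧ v.res a⁻¹ = (v.res a)⁻¹ := by
  have h0 : a ≠ 0 := by
    rintro rfl
    rw [map_zero] at h
    exact zero_ne_one h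
  have h1 : a ∈ v.ring := h.le
  have h2 : a⁻¹ ∈ v.ring := by
    change v.val a⁻¹ ≤ 1
    rw [map_inv₀, h, inv_one]
  refine ⟨h2, ?_⟩
  have h3 : v.res a * v.res a⁻¹ = 1 := by
    rw [← v.res_mul h1 h2, mul_inv_cancel₀ h0, v.res_one]
  exact (inv_eq_of_mul_eq_one_right h3).symm

theorem val_eq_one {a : M} (h : a ∈ v.ring) (h0 : v.res a ≠ 0) : v.val a = 1 := by
  refine le_antisymm h ?_
  by_contra h1
  exact h0 ((v.res_eq_zero_iff h).2 (not_le.1 h1))

theorem spec_some {σ : Type} {z : σ → Option M} {j : σ} {a : M} (h : z j = some a)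
    (h1 : spec v z j ≠ none) : a ∈ v.ring ∧ spec v z j = some (v.res a) := by
  classical
  unfold spec at h1 ⊢
  rw [h] at h1 ⊢
  simp only [Option.bind_some] at h1 ⊢
  by_cases h2 : a ∈ v.ring
  · rw [if_pos h2]
    exact ⟨h2, rfl⟩
  · rw [if_neg h2] at h1
    exact absurd rfl h1

theorem spec_none {σ : Type} {z : σ → Option M} {j : σ} (h : z j = none) :
    spec v z j = none := by
  unfold spec
  rw [h]
  rfl

/-- If `a ^ p - a` is regular, so is `a`. -/
theorem mem_ring_of_pow {p : ℕ} (hp : 1 < p) {a : M} (h : a ^ p - a ∈ v.ring) : a ∈ v.ring := by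
  by_contra h1
  have h2 : 1 < v.val a := not_le.1 h1
  have h3 : v.val (a ^ p) ≤ v.val a := by
    have h4 : a ^ p = (a ^ p - a) + a := by ring
    rw [h4]
    refine (v.val.map_add _ _).trans ?_
    rw [max_le_iff]
    exact ⟨(show v.val (a ^ p - a) ≤ 1 from h).trans h2.le, le_refl _⟩
  rw [map_pow] at h3
  have h5 : v.val a < v.val a ^ p := lt_self_pow₀ h2 hp
  exact absurd h3 (not_le.2 h5)

end Res

end Pool.Agent.Helper19.KL
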