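import Pool.Agent.Helper26.KL.Pos
import Pool.Agent.Helper1.KL.General
import Pool.Agent.Helper7.KL.Hom
import Pool.Agent.HC.PN1

set_option autoImplicit false

/-!
Project KL (MP_0b9e0b_ag), explicit bounds: how relations are used over the base field `k`.
-/

namespace Pool.Agent.Helper19.KL

open Pool.Agent.Helper16 Pool.Agent.Helper1.KL

section solve

variable {F σ : Type} [Field F]

theorem single_smul_mem {W : Submodule ℚ (Key F σ →₀ ℚ)} {Q : Key F σ} {a : ℚ} (ha : a ≠ 0)
    (h : Finsupp.single Q a ∈ W) : Finsupp.single Q 1 ∈ W := by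
  have := W.smul_mem a⁻¹ h
  rwa [Finsupp.smul_single, smul_eq_mul, inv_mul_cancel₀ ha] at this

theorem single_mem_of_one {W : Submodule ℚ (Key F σ →₀ ℚ)} {Q : Key F σ} (a : ℚ)
    (h : Finsupp.single Q 1 ∈ W) : Finsupp.single Q a ∈ W := by
  have := W.smul_mem a h
  rwa [Finsupp.smul_single, smul_eq_mul, mul_one] at this

/-- If the divisor of `f` on the point `z` consists of `Q`, with positive multiplicities and at
least once, and of elements of `W`, then `Q` is in `W`. -/
theorem solve [Finite σ] {V : Var F σ} {P : VarF F σ} {r : ℕ} {N : Type} [Field N] [Algebra F N]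
    (hN : Algebra.EssFiniteType F N) (htr : Algebra.trdeg F N = r + 1) {z : σ → Option N} {f : N}
    (hP : P N z f) (hf : f ≠ 0) {W : Submodule ℚ (Key F σ →₀ ℚ)} (hW : rat V P r ≤ W)
    {Q : Key F σ}
    (h1 : ∀ v : Place F N, v.ord f ≠ 0 → V v.resField (spec v z) →
      Algebra.trdeg F (fld F (spec v z)) = r →
      (key F (spec v z) = Q ∧ 0 < v.ord f) ∨ Finsupp.single (key F (spec v z)) 1 ∈ W)
    (h2 : ∃ v : Place F N, V v.resField (spec v z) ∧ Algebra.trdeg F (fld F (spec v z)) = r ∧
      0 < v.ord f ∧ key F (spec v z) = Q) :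
    Finsupp.single Q 1 ∈ W := by
  classical
  by_contra hcon
  have hfin := Helper26.KL.finite_places_spec hN htr z f
  set S := hfin.toFinset.filter fun v => V v.resField (spec v z) with hS
  have hmem : ∀ v, v ∈ S ↔ v.ord f ≠ 0 ∧ V v.resField (spec v z) ∧
      Algebra.trdeg F (fld F (spec v z)) = r := by
    intro v
    rw [hS, Finset.mem_filter, Set.Finite.mem_toFinset, Set.mem_ofPred_eq]
    tauto
  have hz : (∑ v ∈ S, Finsupp.single (key F (spec v z))
      ((v.ord f * Module.finrank (fld F (spec v z)) v.resField : ℤ) : ℚ)) ∈ W :=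
    hW (Submodule.subset_span ⟨N, inferInstance, inferInstance, z, f, S, hN, htr, hP, hf, hmem,
      rfl⟩)
  rw [← Finset.sum_filter_add_sum_filter_not S (fun v => key F (spec v z) = Q)] at hz
  have h3 : (∑ v ∈ S with ¬ key F (spec v z) = Q, Finsupp.single (key F (spec v z))
      ((v.ord f * Module.finrank (fld F (spec v z)) v.resField : ℤ) : ℚ)) ∈ W := by
    refine sum_mem fun v hv => single_mem_of_one _ ?_
    rw [Finset.mem_filter, hmem] at hv
    rcases h1 v hv.1.1 hv.1.2.1 hv.1.2.2 with h | h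
    · exact absurd h.1 hv.2
    · exact h
  have h4 := (Submodule.add_mem_iff_left W h3).1 hz
  have h5 : (∑ v ∈ S with key F (spec v z) = Q, Finsupp.single (key F (spec v z))
      ((v.ord f * Module.finrank (fld F (spec v z)) v.resField : ℤ) : ℚ)) =
      Finsupp.single Q (∑ v ∈ S with key F (spec v z) = Q,
        ((v.ord f * Module.finrank (fld F (spec v z)) v.resField : ℤ) : ℚ)) := by
    rw [Finsupp.single_finsetSum]
    refine Finset.sum_congr rfl fun v hv => ?_
    rw [(Finset.mem_filter.1 hv).2]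
  rw [h5] at h4
  refine hcon (single_smul_mem (ne_of_gt ?_) h4)
  refine Finset.sum_pos (fun v hv => ?_) ?_
  · rw [Finset.mem_filter, hmem] at hv
    rcases h1 v hv.1.1 hv.1.2.1 hv.1.2.2 with h | h
    · have h6 := Helper26.KL.finrank_pos_spec hN htr (v := v) (z := z) hv.1.2.2
      exact_mod_cast mul_pos h.2 (by exact_mod_cast h6)
    · rw [hv.2] at h
      exact absurd h hcon
  · obtain ⟨v, h6, h7, h8, h9⟩ := h2
    refine ⟨v, ?_⟩
    rw [Finset.mem_filter, hmem]
    exact ⟨⟨h8.ne', h6, h7⟩, h9⟩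

/-- The value at `0` of a regular rational function, at a place over `0`. -/
theorem at0_res {N : Type} [Field N] [Algebra F N] (v : Place F (RatFunc N))
    (hv : ∀ a : N, a ≠ 0 → v.val (algebraMap N (RatFunc N) a) = 1)
    (hX : v.val (RatFunc.X : RatFunc N) < 1) (φ : N →ₐ[F] v.resField)
    (hφ : ∀ a, algebraMap N (RatFunc N) a ∈ v.ring ∧ φ a = v.res (algebraMap N (RatFunc N) a))
    {g : RatFunc N} {a : N} (h : At0 g a) : g ∈ v.ring ∧ v.res g = φ a := by
  have hsr : (RatFunc.X : RatFunc N) ∈ v.ring := hX.le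
  have hs0 : v.res (RatFunc.X : RatFunc N) = 0 := (v.res_eq_zero_iff hsr).2 hX
  have key : ∀ R : Polynomial N, algebraMap (Polynomial N) (RatFunc N) R ∈ v.ring ∧
      v.res (algebraMap (Polynomial N) (RatFunc N) R) = φ (R.eval 0) := by
    intro R
    induction R using Polynomial.induction_on' with
    | add p q hp hq =>
      rw [map_add, Polynomial.eval_add, map_add]
      exact ⟨add_mem hp.1 hq.1, by rw [v.res_add hp.1 hq.1, hp.2, hq.2]⟩
    | monomial n a =>
      have h1 : algebraMap (Polynomial N) (RatFunc N) (Polynomial.monomial n a) =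
          algebraMap N (RatFunc N) a * RatFunc.X ^ n := by
        rw [← Polynomial.C_mul_X_pow_eq_monomial, map_mul, map_pow, RatFunc.algebraMap_X]
        rfl
      rw [h1]
      refine ⟨mul_mem (hφ a).1 (pow_mem hsr n), ?_⟩
      rw [v.res_mul (hφ a).1 (pow_mem hsr n), ← (hφ a).2, v.res_pow hsr, hs0,
        Polynomial.eval_monomial, map_mul, map_pow, map_zero]
  obtain ⟨P, Q, hQ, hP, rfl⟩ := h
  obtain ⟨p1, p2⟩ := key P
  obtain ⟨q1, q2⟩ := key Q
  rw [hQ, map_one] at q2
  rw [hP] at p2
  have hQv : v.val (algebraMap (Polynomial N) (RatFunc N) Q) = 1 := by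
    refine le_antisymm q1 ?_
    by_contra hlt
    rw [not_le] at hlt
    have := (v.res_eq_zero_iff q1).2 hlt
    rw [q2] at this
    exact one_ne_zero this
  have hQi : (algebraMap (Polynomial N) (RatFunc N) Q)⁻¹ ∈ v.ring := by
    rw [v.mem_ring, map_inv₀, hQv, inv_one]
  have hQ0 : algebraMap (Polynomial N) (RatFunc N) Q ≠ 0 := by
    intro h0
    rw [h0, map_zero] at hQv
    exact zero_ne_one hQv
  have hQr : v.res (algebraMap (Polynomial N) (RatFunc N) Q)⁻¹ = 1 := by
    have h3 : v.res (algebraMap (Polynomial N) (RatFunc N) Q) *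
        v.res (algebraMap (Polynomial N) (RatFunc N) Q)⁻¹ = 1 := by
      rw [← v.res_mul q1 hQi, mul_inv_cancel₀ hQ0, v.res_one]
    rwa [q2, one_mul] at h3
  rw [div_eq_mul_inv]
  exact ⟨mul_mem p1 hQi, by rw [v.res_mul p1 hQi, p2, hQr, mul_one]⟩

/-- A family of points over `N(s)` which specialises to the point `z` at `s = 0`. -/
theorem homK [Finite σ] {V : Var F σ} {P : VarF F σ} {r : ℕ} {N : Type} [Field N] [Algebra F N]
    (hN : Algebra.EssFiniteType F N) (htr : Algebra.trdeg F N = r) {z : σ → Option N}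
    (hzr : Algebra.trdeg F (fld F z) = r)
    (hVz : ∀ (N' : Type) [Field N'] [Algebra F N'] (φ : N →ₐ[F] N'), V N' fun j => (z j).map φ)
    {z' : σ → Option (RatFunc N)} {f : RatFunc N} (hP : P (RatFunc N) z' f) (hf : f ≠ 0)
    (hz1 : ∀ j, z j = none → z' j = none)
    (hz2 : ∀ j a, z j = some a → ∃ g, z' j = some g ∧ At0 g a) (hf0 : At0 f 0)
    {W : Submodule ℚ (Key F σ →₀ ℚ)} (hW : rat V P r ≤ W)
    (h : ∀ v : Place F (RatFunc N), v.ord f ≠ 0 → V v.resField (spec v z') →
      Algebra.trdeg F (fld F (spec v z')) = r →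
      (key F (spec v z') = key F z ∧ 0 < v.ord f) ∨ Finsupp.single (key F (spec v z')) 1 ∈ W) :
    Finsupp.single (key F z) 1 ∈ W := by
  classical
  refine solve (HC.essFiniteType_ratFuncL hN) (HC.trdeg_ratFuncL htr) hP hf hW h ?_
  obtain ⟨w, hw⟩ := (isFunctionField_ratFunc N).exists_zero RatFunc.X
    (RatFunc.transcendental_X)
  set v : Place F (RatFunc N) := HC.under F w with hv
  obtain ⟨φ, hφ⟩ := HC.exists_resHomL (K := F) v (L := N) (N := RatFunc N) fun a ha => w.triv a ha
  have hat : ∀ {g : RatFunc N} {a : N}, At0 g a → g ∈ v.ring ∧ v.res g = φ a :=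
    fun hg => at0_res v (fun a ha => w.triv a ha) hw φ hφ hg
  have hspec : spec v z' = fun j => (z j).map φ := by
    funext j
    cases hj : z j with
    | none =>
      unfold spec
      rw [hz1 j hj]
      rfl
    | some a =>
      obtain ⟨g, hg1, hg2⟩ := hz2 j a hj
      obtain ⟨h1, h2⟩ := hat hg2
      unfold spec
      rw [hg1]
      simp only [Option.bind_some, Option.map_some]
      rw [if_pos h1, h2]
  refine ⟨v, ?_, ?_, ?_, ?_⟩
  · rw [hspec]
    exact hVz _ φ
  · rw [hspec, trdeg_fld_map, hzr]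
  · obtain ⟨h1, h2⟩ := hat hf0
    rw [map_zero] at h2
    exact (v.ord_pos_iff hf).2 ((v.res_eq_zero_iff h1).1 h2)
  · rw [hspec, key_map]

end solve

end Pool.Agent.Helper19.KL
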