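import Pool.Agent.Helper19.KL.N9

set_option autoImplicit false

/-!
Project KL (MP_0b9e0b_ag), explicit bounds: four or more indices, the degenerate case.
-/

namespace Pool.Agent.Helper19.KL

open Pool.Agent.Helper16 Pool.Agent.Helper1.KL

section maps

variable {k : Type} [Field k] {p : ℕ} {n : ℕ} {b : Fin n → k}
  {τ : Fin n → Option (ZMod p)} {N N' : Type} [Field N] [Algebra k N] [Field N'] [Algebra k N']

theorem yv_of_map {x : Fin n → Option N} (φ : N →ₐ[k] N')
    (h : YV b τ N' fun i => (x i).map φ) : YV b τ N x := by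
  have hgd : ∀ i, ((x i).map φ).getD 0 = φ ((x i).getD 0) := fun i => Helper1.KL.getD_map φ _
  refine ⟨⟨fun i hi => ?_, fun i hi => ?_, ?_⟩, ?_⟩
  · have := yv_inf h hi
    simpa only [Option.map_eq_none_iff] using this
  · obtain ⟨a, ha, hx⟩ := yv_fin h hi
    rw [Option.map_eq_some_iff] at hx
    obtain ⟨c, hc, rfl⟩ := hx
    exact ⟨c, fun h0 => ha (by rw [h0, map_zero]), hc⟩
  · have h2 := h.1.2.2
    simp only [hgd] at h2
    have h3 : φ (∑ i, (coef τ i : N) * (x i).getD 0) = φ 0 := by
      rw [map_zero, ← h2, map_sum]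
      refine Finset.sum_congr rfl fun i _ => ?_
      rw [map_mul, map_natCast]
    exact φ.injective h3
  · have h2 := h.2
    unfold Bfun at h2
    simp only [hgd] at h2
    have h3 : φ (Bfun b τ x) = φ 0 := by
      unfold Bfun
      rw [map_zero, ← h2, map_sum]
      refine Finset.sum_congr rfl fun i _ => ?_
      rw [map_mul, map_mul, map_natCast, AlgHom.commutes, map_inv₀]
    exact φ.injective h3

/-- Scaling a pair of coordinates which cancel each other. -/
theorem yv_pair {x : Fin n → Option N} (h : YV b τ N x) {j l : Fin n} (hjl : j ≠ l)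
    (h1 : (coef τ j : N) * (x j).getD 0 + (coef τ l : N) * (x l).getD 0 = 0)
    (h2 : (coef τ j : N) * algebraMap k N (b j) * ((x j).getD 0)⁻¹ +
      (coef τ l : N) * algebraMap k N (b l) * ((x l).getD 0)⁻¹ = 0) :
    YV b τ (RatFunc N) (mv {j, l} x) := by
  classical
  have hg : ∀ i, (mv {j, l} x i).getD 0 = algebraMap N (RatFunc N) ((x i).getD 0) *
      (if i ∈ ({j, l} : Finset (Fin n)) then 1 + RatFunc.X else 1) := by
    intro i
    cases hi : x i with
    | none =>
      rw [mv_none hi]
      simp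
    | some a =>
      rw [mv_some hi]
      rfl
  have hm : ∀ m : ℕ, ((m : ℕ) : RatFunc N) = algebraMap N (RatFunc N) (m : N) :=
    fun m => (map_natCast _ _).symm
  have hbm : ∀ i, algebraMap k (RatFunc N) (b i) = algebraMap N (RatFunc N) (algebraMap k N (b i)) :=
    fun i => IsScalarTower.algebraMap_apply k N (RatFunc N) (b i)
  have hsplit : ∀ f : Fin n → RatFunc N, ∑ i, f i =
      (f j + f l) + ∑ i ∈ Finset.univ \ ({j, l} : Finset (Fin n)), f i := by
    intro f
    rw [← Finset.sum_pair hjl, add_comm, Finset.sum_sdiff (Finset.subset_univ _)]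
  have hsplitN : ∀ f : Fin n → N, ∑ i, f i =
      (f j + f l) + ∑ i ∈ Finset.univ \ ({j, l} : Finset (Fin n)), f i := by
    intro f
    rw [← Finset.sum_pair hjl, add_comm, Finset.sum_sdiff (Finset.subset_univ _)]
  refine ⟨⟨fun i hi => mv_none (yv_inf h hi), fun i hi => ?_, ?_⟩, ?_⟩
  · obtain ⟨a, ha, hx⟩ := yv_fin h hi
    refine ⟨_, ?_, mv_some hx⟩
    refine mul_ne_zero (by rw [Ne, map_eq_zero]; exact ha) ?_
    split_ifs
    · exact one_add_X_ne
    · exact one_ne_zero
  · have h3 := h.1.2.2
    rw [hsplitN, h1, zero_add] at h3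
    rw [hsplit]
    have h4 : ((coef τ j : ℕ) : RatFunc N) * (mv {j, l} x j).getD 0 +
        ((coef τ l : ℕ) : RatFunc N) * (mv {j, l} x l).getD 0 = 0 := by
      rw [hg, hg, if_pos (by simp), if_pos (by simp), hm, hm]
      have := congrArg (algebraMap N (RatFunc N)) h1
      simp only [map_add, map_mul, map_zero] at this
      linear_combination (1 + RatFunc.X) * this
    rw [h4, zero_add]
    have h5 := congrArg (algebraMap N (RatFunc N)) h3
    rw [map_zero, map_sum] at h5
    refine Eq.trans (Finset.sum_congr rfl fun i hi => ?_) h5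
    rw [hg, if_neg (Finset.mem_sdiff.1 hi).2, mul_one, hm, map_mul]
  · have h3 := h.2
    unfold Bfun at h3 ⊢
    rw [hsplitN, h2, zero_add] at h3
    rw [hsplit]
    have h4 : ((coef τ j : ℕ) : RatFunc N) * algebraMap k (RatFunc N) (b j) *
          ((mv {j, l} x j).getD 0)⁻¹ +
        ((coef τ l : ℕ) : RatFunc N) * algebraMap k (RatFunc N) (b l) *
          ((mv {j, l} x l).getD 0)⁻¹ = 0 := by
      rw [hg, hg, if_pos (by simp), if_pos (by simp), hm, hm, hbm, hbm]
      have := congrArg (algebraMap N (RatFunc N)) h2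
      simp only [map_add, map_mul, map_inv₀, map_zero] at this
      rw [mul_inv, mul_inv]
      linear_combination (1 + RatFunc.X)⁻¹ * this
    rw [h4, zero_add]
    have h5 := congrArg (algebraMap N (RatFunc N)) h3
    rw [map_zero, map_sum] at h5
    refine Eq.trans (Finset.sum_congr rfl fun i hi => ?_) h5
    rw [hg, if_neg (Finset.mem_sdiff.1 hi).2, mul_one, hm, hbm]
    simp only [map_mul, map_inv₀]

/-- The degenerate case: two coordinates cancel each other. -/
theorem mem_pair {x : Fin n → Option N} (hx : YV b τ N x)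
    (hr : Algebra.trdeg k (fld k x) = (1 : ℕ)) (hcone : IsCone k x) {j l m : Fin n} (hjl : j ≠ l)
    (hmj : m ≠ j) (hml : m ≠ l) (hj : τ j ≠ none) (hm : τ m ≠ none)
    (h1 : (coef τ j : N) * (x j).getD 0 + (coef τ l : N) * (x l).getD 0 = 0)
    (h2 : (coef τ j : N) * algebraMap k N (b j) * ((x j).getD 0)⁻¹ +
      (coef τ l : N) * algebraMap k N (b l) * ((x l).getD 0)⁻¹ = 0) :
    Finsupp.single (key k x) 1 ∈ rat (YV b τ) (PY b τ) 1 := by
  classical
  rw [← key_restr]
  have hx' := yv_restr hx
  have hr' := hr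
  rw [← trdeg_fld_restr] at hr'
  have hgd : ∀ i, (((restr k x) i).getD 0 : N) = (x i).getD 0 := by
    intro i
    have h3 := congrFun (restr_map (F := k) x) i
    conv_rhs => rw [← h3]
    cases (restr k x) i with
    | none => simp
    | some a => simp
  set y := restr k x with hy
  have hcone' : IsCone k y := by
    intro i i'
    refine (isAlgebraic_algebraMap_iff (A := N) (S := fld k x) (Subtype.val_injective)).1 ?_
    have h3 : algebraMap (fld k x) N ((y i).getD 0 / (y i').getD 0) =
        (x i).getD 0 / (x i').getD 0 := by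
      rw [map_div₀]
      change ((y i).getD 0 : N) / ((y i').getD 0 : N) = _
      rw [hgd, hgd]
    rw [h3]
    exact hcone i i'
  have h1' : (coef τ j : fld k x) * (y j).getD 0 + (coef τ l : fld k x) * (y l).getD 0 = 0 := by
    apply Subtype.ext
    push_cast
    rw [hgd, hgd]
    exact h1
  have h2' : (coef τ j : fld k x) * algebraMap k (fld k x) (b j) * ((y j).getD 0)⁻¹ +
      (coef τ l : fld k x) * algebraMap k (fld k x) (b l) * ((y l).getD 0)⁻¹ = 0 := by
    apply Subtype.ext
    push_cast
    rw [hgd, hgd]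
    exact h2
  refine homK (V := YV b τ) (P := PY b τ) (essFiniteType_fld x) hr hr'
    (fun N' _ _ φ => yv_map hx' φ) (z' := mv {j, l} y) (f := RatFunc.X)
    (Or.inl (yv_pair hx' hjl h1' h2')) RatFunc.X_ne_zero
    (fun i hi => mv_none hi) (fun i a hi => ⟨_, mv_some hi, at0_mv a _⟩) at0_X le_rfl
    fun v hv hw hwr => Or.inl ?_
  -- the coordinate `m`
  obtain ⟨am, ham, hym⟩ := yv_fin hx' hm
  obtain ⟨cm, hcm, hwm⟩ := yv_fin hw hm
  have hmv := mv_some (S := {j, l}) hym
  rw [if_neg (by simp [hmj, hml]), mul_one] at hmv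
  obtain ⟨h3, h4⟩ := spec_some v hmv (by rw [hwm]; exact Option.some_ne_none _)
  have hvm : v.val (algebraMap (fld k x) (RatFunc (fld k x)) am) = 1 := by
    refine val_eq_one v h3 ?_
    rw [h4] at hwm
    rw [Option.some.inj hwm]
    exact hcm
  have hval : ∀ i a, y i = some a → v.val (algebraMap (fld k x) (RatFunc (fld k x)) a) = 1 := by
    intro i a ha
    have hτ : τ i ≠ none := by
      intro h0
      rw [yv_inf hx' h0] at ha
      exact absurd ha.symm (Option.some_ne_none _)
    obtain ⟨a', ha', hya⟩ := yv_fin hx' hτ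
    have haa : a = a' := Option.some.inj (ha.symm.trans hya)
    have h5 : a = a / am * am := by field_simp
    have h6 : IsAlgebraic k (a / am) := by
      have := hcone' i m
      rwa [ha, hym] at this
    have h7 : v.val (algebraMap (fld k x) (RatFunc (fld k x)) (a / am)) = 1 := by
      refine Place.val_eq_one_of_algebraic v h6.algebraMap ?_
      rw [Ne, map_eq_zero]
      exact div_ne_zero (by rw [haa]; exact ha') ham
    rw [h5, map_mul, map_mul, h7, hvm, one_mul]
  have hpos := pole_absurd v hw hx' (i := j) (by simp) hj (fun a ha => hval j a ha) hv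
  refine ⟨?_, hpos⟩
  have hX1 := (v.ord_pos_iff RatFunc.X_ne_zero).1 hpos
  have hX0 : v.res (RatFunc.X : RatFunc (fld k x)) = 0 := (v.res_eq_zero_iff hX1.le).2 hX1
  have hXr : (RatFunc.X : RatFunc (fld k x)) ∈ v.ring := hX1.le
  refine key_of_res (IsScalarTower.toAlgHom k (fld k x) (RatFunc (fld k x))) v ?_ ?_
    (by rw [hwr, hr'])
  · intro i
    by_cases hi : τ i = none
    · rw [yv_inf hx' hi, yv_inf hw hi]
      simp only [Option.getD_none, map_zero, v.res_zero, and_true]
      exact zero_mem _
    · obtain ⟨a, ha, hyi⟩ := yv_fin hx' hi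
      obtain ⟨c, hc, hwi⟩ := yv_fin hw hi
      have h5 := mv_some (S := {j, l}) hyi
      obtain ⟨h6, h7⟩ := spec_some v h5 (by rw [hwi]; exact Option.some_ne_none _)
      rw [hyi, h7]
      simp only [Option.getD_some]
      change algebraMap _ _ a ∈ v.ring ∧ _ = v.res (algebraMap _ _ a)
      have h8 : algebraMap (fld k x) (RatFunc (fld k x)) a ∈ v.ring := (hval i a hyi).le
      refine ⟨h8, ?_⟩
      by_cases hiS : i ∈ ({j, l} : Finset (Fin n))
      · rw [if_pos hiS, v.res_mul h8 (add_mem (one_mem _) hXr), v.res_add (one_mem _) hXr,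
          v.res_one, hX0, add_zero, mul_one]
      · rw [if_neg hiS, mul_one]
  · exact fun i => yv_none hw hx' i

end maps

end Pool.Agent.Helper19.KL
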