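import Pool.Agent.Helper19.KL.N10
import Pool.Agent.Helper7.KL.Hom

set_option autoImplicit false

/-!
Project KL (MP_0b9e0b_ag), explicit bounds: a quadratic equation with a root which specialises to a
given one.
-/

namespace Pool.Agent.Helper19.KL

open Pool.Agent.Helper16 Pool.Agent.Helper1.KL

section at0

variable {N : Type} [Field N]

theorem at0_neg {f : RatFunc N} {a : N} (hf : At0 f a) : At0 (-f) (-a) := by
  have h := at0_mul (at0_const (-1 : N)) hf
  rwa [map_neg, map_one, neg_one_mul, neg_one_mul] at h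

theorem at0_sub {f g : RatFunc N} {a c : N} (hf : At0 f a) (hg : At0 g c) :
    At0 (f - g) (a - c) := by
  rw [sub_eq_add_neg, sub_eq_add_neg]
  exact at0_add hf (at0_neg hg)

theorem at0_ne {f : RatFunc N} {a : N} (ha : a ≠ 0) (hf : At0 f a) : f ≠ 0 := by
  obtain ⟨P, Q, hQ, hP, rfl⟩ := hf
  refine div_ne_zero ?_ ?_
  · rw [Ne, map_eq_zero_iff _ (RatFunc.algebraMap_injective N)]
    rintro rfl
    rw [Polynomial.eval_zero] at hP
    exact ha hP.symm
  · rw [Ne, map_eq_zero_iff _ (RatFunc.algebraMap_injective N)]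
    rintro rfl
    rw [Polynomial.eval_zero] at hQ
    exact zero_ne_one hQ

end at0

section ql

variable {κ : Type} [Field κ]

/-- A root of a quadratic equation, at a place at which the equation has a root in the constants. -/
theorem exists_root_near {M : Type} [Field M] [Algebra κ M] (w : Place κ M) {a a' e f : M}
    (h1 : a + a' = -e) (h2 : a * a' = f) {e0 f0 y0 : κ}
    (he : w.val (e - algebraMap κ M e0) < 1) (hf : w.val (f - algebraMap κ M f0) < 1)
    (h0 : y0 ^ 2 + e0 * y0 + f0 = 0) :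
    w.val (a - algebraMap κ M y0) < 1 ∨ w.val (a' - algebraMap κ M y0) < 1 := by
  have h3 : (a - algebraMap κ M y0) * (a' - algebraMap κ M y0) =
      (f - algebraMap κ M f0) + algebraMap κ M y0 * (e - algebraMap κ M e0) := by
    have h4 := congrArg (algebraMap κ M) h0
    simp only [map_add, map_mul, map_pow, map_zero] at h4
    linear_combination h2 - algebraMap κ M y0 * h1 + h4
  have h5 : w.val ((a - algebraMap κ M y0) * (a' - algebraMap κ M y0)) < 1 := by
    rw [h3]
    refine w.val.map_add_lt hf ?_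
    rw [map_mul, mul_comm]
    exact mul_lt_one_of_lt_of_le he (w.val_algebraMap_le _)
  by_contra hcon
  push Not at hcon
  rw [map_mul] at h5
  exact absurd h5 (not_lt.2 (one_le_mul hcon.1 hcon.2))

theorem ql {A D : RatFunc κ} {y0 z0 β γ : κ} (hy0 : y0 ≠ 0) (hz0 : z0 ≠ 0)
    (hA : At0 A (y0 + z0)) (hD : At0 D (β / y0 + γ / z0)) (hne : β / y0 + γ / z0 ≠ 0) :
    ∃ (M : Type) (_ : Field M) (_ : Algebra κ M) (_ : Algebra (RatFunc κ) M)
      (_ : IsScalarTower κ (RatFunc κ) M) (w : Place κ M) (y z : M),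
      FiniteDimensional (RatFunc κ) M ∧ w.val (algebraMap (RatFunc κ) M RatFunc.X) < 1 ∧
      y ≠ 0 ∧ z ≠ 0 ∧ y + z = algebraMap (RatFunc κ) M A ∧
      algebraMap κ M β / y + algebraMap κ M γ / z = algebraMap (RatFunc κ) M D ∧
      w.val (y - algebraMap κ M y0) < 1 ∧ w.val (z - algebraMap κ M z0) < 1 := by
  classical
  obtain ⟨D0, hD0⟩ : ∃ D0, D0 = β / y0 + γ / z0 := ⟨_, rfl⟩
  obtain ⟨A0, hA0⟩ : ∃ A0, A0 = y0 + z0 := ⟨_, rfl⟩
  rw [← hD0] at hD hne
  rw [← hA0] at hA
  have hDne : D ≠ 0 := at0_ne hne hD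
  obtain ⟨e, he⟩ : ∃ e : RatFunc κ,
      e = (algebraMap κ (RatFunc κ) (γ - β) - D * A) * D⁻¹ := ⟨_, rfl⟩
  obtain ⟨f, hf⟩ : ∃ f : RatFunc κ, f = algebraMap κ (RatFunc κ) β * A * D⁻¹ := ⟨_, rfl⟩
  have he0 : At0 e ((γ - β - D0 * A0) * D0⁻¹) := by
    rw [he]
    exact at0_mul (at0_sub (at0_const _) (at0_mul hD hA)) (at0_inv hne hD)
  have hf0 : At0 f (β * A0 * D0⁻¹) := by
    rw [hf]
    exact at0_mul (at0_mul (at0_const _) hA) (at0_inv hne hD)
  have h0 : y0 ^ 2 + (γ - β - D0 * A0) * D0⁻¹ * y0 + β * A0 * D0⁻¹ = 0 := by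
    have h1 : D0 * y0 ^ 2 + (γ - β - D0 * A0) * y0 + β * A0 = 0 := by
      have h2 : D0 * (y0 * z0) = β * z0 + γ * y0 := by
        rw [hD0]
        field_simp
      rw [hA0]
      linear_combination -h2
    have h3 : D0 * (y0 ^ 2 + (γ - β - D0 * A0) * D0⁻¹ * y0 + β * A0 * D0⁻¹) = 0 := by
      rw [← h1]
      field_simp
    exact (mul_eq_zero.1 h3).resolve_left hne
  -- a root of the quadratic equation
  obtain ⟨α, hα⟩ : ∃ α : AlgebraicClosure (RatFunc κ), α ^ 2 + algebraMap (RatFunc κ) _ e * α +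
      algebraMap (RatFunc κ) _ f = 0 := by
    set P : Polynomial (AlgebraicClosure (RatFunc κ)) :=
      Polynomial.X ^ 2 + Polynomial.C (algebraMap (RatFunc κ) _ e) * Polynomial.X +
        Polynomial.C (algebraMap (RatFunc κ) _ f) with hP
    have hdeg : P.degree = 2 := by
      rw [hP]
      compute_degree!
    obtain ⟨α, hα⟩ := IsAlgClosed.exists_root P (by rw [hdeg]; exact two_ne_zero)
    refine ⟨α, ?_⟩
    have h1 : Polynomial.eval α P = 0 := hα
    rw [hP] at h1
    simpa using h1
  let M : IntermediateField (RatFunc κ) (AlgebraicClosure (RatFunc κ)) :=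
    IntermediateField.adjoin (RatFunc κ) {α}
  have hfin : FiniteDimensional (RatFunc κ) M :=
    IntermediateField.adjoin.finiteDimensional (Algebra.IsIntegral.isIntegral α)
  let a : M := ⟨α, IntermediateField.mem_adjoin_simple_self _ _⟩
  have ha : a ^ 2 + algebraMap (RatFunc κ) M e * a + algebraMap (RatFunc κ) M f = 0 :=
    Subtype.ext hα
  have hff : IsFunctionField κ M := (isFunctionField_ratFunc κ).of_finite
  obtain ⟨w, hw⟩ := hff.exists_zero (algebraMap (RatFunc κ) M RatFunc.X) (by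
    have h1 := (RatFunc.transcendental_X (K := κ))
    rw [Transcendental, isAlgebraic_algebraMap_iff (algebraMap (RatFunc κ) M).injective]
    exact h1)
  have hat : ∀ {g : RatFunc κ} {c : κ}, At0 g c →
      w.val (algebraMap (RatFunc κ) M g - algebraMap κ M c) < 1 :=
    fun h => Helper7.KL.at0_val w hw h
  have h12 : a + (-algebraMap (RatFunc κ) M e - a) = -algebraMap (RatFunc κ) M e := by ring
  have h34 : a * (-algebraMap (RatFunc κ) M e - a) = algebraMap (RatFunc κ) M f := by
    linear_combination -ha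
  obtain ⟨y, hy, hyw⟩ : ∃ y : M, y ^ 2 + algebraMap (RatFunc κ) M e * y +
      algebraMap (RatFunc κ) M f = 0 ∧ w.val (y - algebraMap κ M y0) < 1 := by
    rcases exists_root_near w h12 h34 (hat he0) (hat hf0) h0 with h | h
    · exact ⟨a, ha, h⟩
    · refine ⟨_, ?_, h⟩
      linear_combination ha
  have hDM : algebraMap (RatFunc κ) M D ≠ 0 := by
    rw [Ne, map_eq_zero]
    exact hDne
  have hκ : ∀ c : κ, algebraMap (RatFunc κ) M (algebraMap κ (RatFunc κ) c) = algebraMap κ M c :=
    fun c => (IsScalarTower.algebraMap_apply κ (RatFunc κ) M c).symm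
  have hne0 : ∀ {x : M} {x0 : κ}, x0 ≠ 0 → w.val (x - algebraMap κ M x0) < 1 → x ≠ 0 := by
    rintro x x0 hx0 hx rfl
    rw [zero_sub, Valuation.map_neg, w.triv _ hx0] at hx
    exact lt_irrefl _ hx
  have hzw : w.val ((algebraMap (RatFunc κ) M A - y) - algebraMap κ M z0) < 1 := by
    have h1 : (algebraMap (RatFunc κ) M A - y) - algebraMap κ M z0 =
        (algebraMap (RatFunc κ) M A - algebraMap κ M A0) - (y - algebraMap κ M y0) := by
      rw [hA0, map_add]
      ring
    rw [h1]
    exact (w.val.map_sub_lt (hat hA) hyw)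
  have hyne : y ≠ 0 := hne0 hy0 hyw
  have hzne : algebraMap (RatFunc κ) M A - y ≠ 0 := hne0 hz0 hzw
  refine ⟨M, inferInstance, inferInstance, inferInstance, inferInstance, w, y,
    algebraMap (RatFunc κ) M A - y, hfin, hw, hyne, hzne, by ring, ?_, hyw, hzw⟩
  have h5 : algebraMap (RatFunc κ) M D * y ^ 2 +
      (algebraMap κ M γ - algebraMap κ M β - algebraMap (RatFunc κ) M D *
        algebraMap (RatFunc κ) M A) * y + algebraMap κ M β * algebraMap (RatFunc κ) M A = 0 := by
    have h6 : algebraMap (RatFunc κ) M D * algebraMap (RatFunc κ) M e =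
        algebraMap κ M γ - algebraMap κ M β - algebraMap (RatFunc κ) M D *
          algebraMap (RatFunc κ) M A := by
      rw [he, map_mul, map_inv₀, map_sub, hκ, map_sub, map_mul]
      field_simp
    have h7 : algebraMap (RatFunc κ) M D * algebraMap (RatFunc κ) M f =
        algebraMap κ M β * algebraMap (RatFunc κ) M A := by
      rw [hf, map_mul, map_inv₀, map_mul, hκ]
      field_simp
    rw [← h6, ← h7]
    linear_combination (algebraMap (RatFunc κ) M D) * hy
  rw [div_add_div _ _ hyne hzne, div_eq_iff (mul_ne_zero hyne hzne)]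
  linear_combination h5

end ql

end Pool.Agent.Helper19.KL
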