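import Pool.Agent.Helper19.KL.Maps

set_option autoImplicit false

/-!
Project KL (MP_0b9e0b_ag), module KL-10: the scaling homotopy.
-/

namespace Pool.Agent.Helper19.KL

open Pool.Agent.Helper16 Pool.Agent.Helper1.KL

section At

variable {N : Type} [Field N]

/-- The scaling factor. -/
noncomputable def muP (p : ℕ) (B : N) : Polynomial N :=
  1 + (Polynomial.X ^ p - Polynomial.X) * Polynomial.C B⁻¹

/-- The scaling factor. -/
noncomputable def mu (p : ℕ) (B : N) : RatFunc N :=
  1 + (RatFunc.X ^ p - RatFunc.X) * RatFunc.C B⁻¹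

theorem mu_eq (p : ℕ) (B : N) : mu p B = algebraMap (Polynomial N) (RatFunc N) (muP p B) := by
  unfold mu muP
  simp only [map_add, map_one, map_mul, map_sub, map_pow, RatFunc.algebraMap_X,
    RatFunc.algebraMap_C]

theorem muP_eval {p : ℕ} (hp : p ≠ 0) (B : N) : (muP p B).eval 0 = 1 := by
  unfold muP
  simp [hp]

theorem mu_ne {p : ℕ} (hp : p ≠ 0) (B : N) : mu p B ≠ 0 := by
  rw [mu_eq]
  intro h
  rw [map_eq_zero_iff _ (RatFunc.algebraMap_injective N)] at h
  have := muP_eval hp B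
  rw [h, Polynomial.eval_zero] at this
  exact zero_ne_one this

theorem at0_C (a : N) : At0 (RatFunc.C a) a :=
  ⟨Polynomial.C a, 1, by simp, by simp, by rw [RatFunc.algebraMap_C, map_one, div_one]⟩

theorem at0_CX (a : N) : At0 (RatFunc.C a + RatFunc.X) a :=
  ⟨Polynomial.C a + Polynomial.X, 1, by simp, by simp, by
    rw [map_add, RatFunc.algebraMap_C, RatFunc.algebraMap_X, map_one, div_one]⟩

theorem at0_mu {p : ℕ} (hp : p ≠ 0) (B a : N) : At0 (RatFunc.C a * (mu p B)⁻¹) a :=
  ⟨Polynomial.C a, muP p B, muP_eval hp B, by simp, by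
    rw [mu_eq, RatFunc.algebraMap_C, div_eq_mul_inv]⟩

end At

section Sc

variable {k : Type} [Field k] {p : ℕ} [Fact p.Prime] [CharP k p] {n : ℕ} {b : Fin n → k} {r : ℕ}

omit [CharP k p] in
theorem sum_over {N : Type} [Field N] {I : Finset (Fin n)} {ρ : Fin n → ZMod p}
    (hI : ∀ i ∉ I, ρ i = 0) (a : Fin n → N) :
    ∑ i ∈ I, (ρ i).cast * a i = ∑ i, (ρ i).cast * a i := by
  refine Finset.sum_subset (Finset.subset_univ I) fun i _ hi => ?_
  rw [hI i hi]
  simp

omit [CharP k p] in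
/-- The properties of a limit point all whose coordinates in `I` are affine. -/
theorem limit {M : Type} [Field M] [Algebra (RatFunc k) M] (hb : ∀ i, b i ≠ 0)
    {I : Finset (Fin n)} {z' : Fin n ⊕ Fin n → Option M} (hz' : XV p b M z')
    {a : Fin n → M} (h1 : ∀ i ∈ I, z' (Sum.inl i) = some (a i) ∧ z' (Sum.inr i) ≠ none)
    (h2 : ∀ i ∉ I, z' (Sum.inl i) = none) (v : Place (RatFunc k) M)
    (hw : XV p b v.resField (spec v z')) (haff : ∀ i ∈ I, spec v z' (Sum.inr i) ≠ none) :
    (∀ i ∈ I, v.val (a i) = 1 ∧ spec v z' (Sum.inl i) = some (v.res (a i)) ∧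
      xc (spec v z') i = v.res (a i)) ∧
    (∀ i ∉ I, xc (spec v z') i = 0) ∧
    (∀ ρ : Fin n → ZMod p, ec ρ z' ∈ v.ring ∧ ec ρ (spec v z') = v.res (ec ρ z')) := by
  have h3 : ∀ i ∈ I, v.val (a i) = 1 ∧ spec v z' (Sum.inl i) = some (v.res (a i)) ∧
      xc (spec v z') i = v.res (a i) := by
    intro i hi
    rcases xv_cases hw hb i with ⟨h4, _⟩ | ⟨_, h5, h6, _⟩
    · exact absurd h4 (haff i hi)
    · have h7 : spec v z' (Sum.inl i) ≠ none := by rw [h5]; exact Option.some_ne_none _
      obtain ⟨h8, h9⟩ := spec_some v (h1 i hi).1 h7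
      have h10 : xc (spec v z') i = v.res (a i) := by
        rw [h5] at h9
        exact Option.some.inj h9
      exact ⟨val_eq_one v h8 (by rwa [← h10]), h9, h10⟩
  refine ⟨h3, fun i hi => ?_, fun ρ => ?_⟩
  · unfold xc
    rw [spec_none v (h2 i hi)]
    rfl
  · have h4 : ∀ i, yc z' i ∈ v.ring ∧ yc (spec v z') i = v.res (yc z' i) := by
      intro i
      by_cases hi : i ∈ I
      · rcases xv_cases hz' hb i with ⟨h5, _⟩ | ⟨h5, _⟩
        · exact absurd h5 (h1 i hi).2
        · obtain ⟨h6, h7⟩ := spec_some v h5 (haff i hi)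
          refine ⟨h6, ?_⟩
          unfold yc at h7 ⊢
          rw [h7]
          rfl
      · have h5 : z' (Sum.inr i) = none := by
          rcases xv_cases hz' hb i with ⟨h5, _⟩ | ⟨_, h5, _⟩
          · exact h5
          · rw [h2 i hi] at h5
            exact absurd h5.symm (Option.some_ne_none _)
        have h6 : yc z' i = 0 := by unfold yc; rw [h5]; rfl
        have h7 : yc (spec v z') i = 0 := by unfold yc; rw [spec_none v h5]; rfl
        rw [h6, h7]
        exact ⟨zero_mem _, v.res_zero.symm⟩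
    have h5 := res_sum v Finset.univ (fun i => (ρ i).cast * yc z' i)
      fun i _ => mul_mem (res_zcast v (ρ i)).1 (h4 i).1
    refine ⟨h5.1, ?_⟩
    unfold ec
    rw [h5.2]
    refine Finset.sum_congr rfl fun i _ => ?_
    rw [v.res_mul (res_zcast v (ρ i)).1 (h4 i).1, (res_zcast v (ρ i)).2, (h4 i).2]

end Sc

end Pool.Agent.Helper19.KL
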