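import Pool.Agent.Helper19.KL.N1
import Pool.Agent.Helper19.KL.Sc
import Pool.Agent.HC.Same
import Pool.Agent.HC.Abh

set_option autoImplicit false

/-!
Project KL (MP_0b9e0b_ag), explicit bounds: points of `YV`, scaling.
-/

namespace Pool.Agent.Helper19.KL

open Pool.Agent.Helper16 Pool.Agent.Helper1.KL

section basic

variable {k : Type} [Field k] {p : ℕ} {n : ℕ} {b : Fin n → k}
  {τ : Fin n → Option (ZMod p)} {N N' : Type} [Field N] [Algebra k N] [Field N'] [Algebra k N']

/-- The condition on pairs in the definition of the group `CHY`. -/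
abbrev PY (b : Fin n → k) (τ : Fin n → Option (ZMod p)) : VarF k (Fin n) :=
  fun N _ _ x f => YV b τ N x ∨ (AV (k := k) τ N x ∧ f = Bfun b τ x)

theorem coef_ne {i : Fin n} (h : coef τ i ≠ 0) : τ i ≠ none := by
  intro h0
  apply h
  unfold coef
  rw [h0]
  simp

theorem yv_fin {x : Fin n → Option N} (h : YV b τ N x) {i : Fin n} (hi : τ i ≠ none) :
    ∃ a, a ≠ 0 ∧ x i = some a := h.1.2.1 i hi

theorem yv_inf {x : Fin n → Option N} (h : YV b τ N x) {i : Fin n} (hi : τ i = none) :
    x i = none := h.1.1 i hi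

/-- Points with proportional coordinates at the indices with a nonzero coefficient. -/
theorem yv_scale {x : Fin n → Option N} (h : YV b τ N x) (φ : N →ₐ[k] N')
    {x' : Fin n → Option N'} {g : N'}
    (h0 : ∀ i, x i = none → x' i = none)
    (h1 : ∀ i a, x i = some a → ∃ u, u ≠ 0 ∧ x' i = some (φ a * u) ∧ (coef τ i ≠ 0 → u = g)) :
    YV b τ N' x' := by
  have hterm : ∀ i, (coef τ i : N') * (x' i).getD 0 = φ ((coef τ i : N) * (x i).getD 0) * g := by
    intro i
    by_cases hc : coef τ i = 0
    · rw [hc]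
      simp
    · obtain ⟨a, ha, hx⟩ := yv_fin h (coef_ne hc)
      obtain ⟨u, hu, hx', hug⟩ := h1 i a hx
      rw [hx, hx', hug hc]
      simp only [Option.getD_some, map_mul, map_natCast]
      ring
  have hterm2 : ∀ i, (coef τ i : N') * algebraMap k N' (b i) * ((x' i).getD 0)⁻¹ =
      φ ((coef τ i : N) * algebraMap k N (b i) * ((x i).getD 0)⁻¹) * g⁻¹ := by
    intro i
    by_cases hc : coef τ i = 0
    · rw [hc]
      simp
    · obtain ⟨a, ha, hx⟩ := yv_fin h (coef_ne hc)
      obtain ⟨u, hu, hx', hug⟩ := h1 i a hx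
      rw [hx, hx', hug hc]
      simp only [Option.getD_some, map_mul, map_natCast, map_inv₀, AlgHom.commutes, mul_inv]
      ring
  refine ⟨⟨fun i hi => h0 i (yv_inf h hi), fun i hi => ?_, ?_⟩, ?_⟩
  · obtain ⟨a, ha, hx⟩ := yv_fin h hi
    obtain ⟨u, hu, hx', -⟩ := h1 i a hx
    refine ⟨φ a * u, mul_ne_zero ?_ hu, hx'⟩
    rw [Ne, map_eq_zero]
    exact ha
  · rw [Finset.sum_congr rfl fun i _ => hterm i, ← Finset.sum_mul, ← map_sum, h.1.2.2, map_zero,
      zero_mul]
  · unfold Bfun
    rw [Finset.sum_congr rfl fun i _ => hterm2 i, ← Finset.sum_mul, ← map_sum]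
    have := h.2
    unfold Bfun at this
    rw [this, map_zero, zero_mul]

theorem yv_map {x : Fin n → Option N} (h : YV b τ N x) (φ : N →ₐ[k] N') :
    YV b τ N' fun i => (x i).map φ := by
  refine yv_scale h φ (g := 1) (fun i hi => by simp only [hi]; rfl) fun i a hi =>
    ⟨1, one_ne_zero, ?_, fun _ => rfl⟩
  simp only [hi]
  rw [mul_one]
  rfl

theorem yv_restr {x : Fin n → Option N} (h : YV b τ N x) : YV b τ (fld k x) (restr k x) := by
  have h1 := restr_map (F := k) x
  have hnone : ∀ i, (restr k x) i = none ↔ x i = none := by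
    intro i
    conv_rhs => rw [← h1]
    simp
  have hgd : ∀ i, (((restr k x) i).getD 0 : fld k x) = (x i).getD 0 := by
    intro i
    have := congrFun h1 i
    conv_rhs => rw [← this]
    cases (restr k x) i with
    | none => simp
    | some a => simp
  refine ⟨⟨fun i hi => (hnone i).2 (yv_inf h hi), fun i hi => ?_, ?_⟩, ?_⟩
  · obtain ⟨a, ha, hx⟩ := yv_fin h hi
    cases hc : (restr k x) i with
    | none =>
      rw [hnone, hx] at hc
      exact absurd hc (Option.some_ne_none _)
    | some c =>
      refine ⟨c, ?_, rfl⟩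
      intro hc0
      have := hgd i
      rw [hc, hx] at this
      simp only [Option.getD_some] at this
      rw [hc0] at this
      exact ha this.symm
  · apply Subtype.ext
    have h2 := h.1.2.2
    rw [ZeroMemClass.coe_zero, ← h2, AddSubmonoidClass.coe_finsetSum]
    refine Finset.sum_congr rfl fun i _ => ?_
    push_cast
    rw [hgd]
  · apply Subtype.ext
    have h2 := h.2
    unfold Bfun at h2 ⊢
    rw [ZeroMemClass.coe_zero, ← h2, AddSubmonoidClass.coe_finsetSum]
    refine Finset.sum_congr rfl fun i _ => ?_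
    push_cast
    rw [hgd]

end basic

end Pool.Agent.Helper19.KL
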