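import Pool.Agent.Helper19.KL.N2

set_option autoImplicit false

/-!
Project KL (MP_0b9e0b_ag), explicit bounds: moving points of `YV` by scaling.
-/

namespace Pool.Agent.Helper19.KL

open Pool.Agent.Helper16 Pool.Agent.Helper1.KL

section key

variable {F σ : Type} [Field F] {N M : Type} [Field N] [Algebra F N] [Field M] [Algebra F M]

/-- If all coordinates have the obvious residues and the dimension is preserved, then the point is
the same. -/
theorem key_of_res [Finite σ] {x : σ → Option N} (φ : N →ₐ[F] M) (v : Place F M)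
    {y : σ → Option v.resField}
    (h1 : ∀ j, φ ((x j).getD 0) ∈ v.ring ∧ (y j).getD 0 = v.res (φ ((x j).getD 0)))
    (h2 : ∀ j, y j = none ↔ x j = none)
    (h3 : Algebra.trdeg F (fld F y) = Algebra.trdeg F (fld F x)) : key F y = key F x := by
  have h4 : ∀ P : MvPolynomial σ F, MvPolynomial.aeval (fun j => (x j).getD 0) P = 0 →
      MvPolynomial.aeval (fun j => (y j).getD 0) P = 0 := by
    intro P hP
    have h5 := HC.aeval_res v (fun j => (h1 j).1) P
    have h6 : MvPolynomial.aeval (fun j => φ ((x j).getD 0)) P =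
        φ (MvPolynomial.aeval (fun j => (x j).getD 0) P) :=
      (MvPolynomial.comp_aeval_apply (fun j => (x j).getD 0) φ P).symm
    rw [h6, hP, map_zero, v.res_zero] at h5
    have h7 : (fun j => (y j).getD 0) = fun j => v.res (φ ((x j).getD 0)) := funext fun j => (h1 j).2
    rw [h7]
    exact h5.2.symm
  rw [key_eq_iff]
  refine ⟨h2, fun P => ?_⟩
  refine (HC.ker_le_of_tdeg (fun j => (x j).getD 0) (fun j => (y j).getD 0) h4 ?_ P).symm
  rw [fld_eq_range, fld_eq_range, HC.tdeg_spec (Set.finite_range _),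
    HC.tdeg_spec (Set.finite_range _), Nat.cast_inj] at h3
  exact h3.ge

end key

section move

variable {k : Type} [Field k] {p : ℕ} {n : ℕ} {b : Fin n → k}
  {τ : Fin n → Option (ZMod p)} {N : Type} [Field N] [Algebra k N]

open scoped Classical in
/-- The point with the coordinates in `S` multiplied by `1 + s`. -/
noncomputable def mv (S : Finset (Fin n)) (x : Fin n → Option N) : Fin n → Option (RatFunc N) :=
  fun i => (x i).map fun a => algebraMap N (RatFunc N) a * (if i ∈ S then 1 + RatFunc.X else 1)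

theorem one_add_X_ne : (1 + RatFunc.X : RatFunc N) ≠ 0 := by
  have h : (1 + RatFunc.X : RatFunc N) =
      algebraMap (Polynomial N) (RatFunc N) (1 + Polynomial.X) := by
    rw [map_add, map_one, RatFunc.algebraMap_X]
  rw [h, Ne, map_eq_zero_iff _ (RatFunc.algebraMap_injective N)]
  intro h0
  have := congrArg (Polynomial.eval 0) h0
  simp at this

theorem at0_mv (a : N) (c : Prop) [Decidable c] :
    At0 (algebraMap N (RatFunc N) a * (if c then 1 + RatFunc.X else 1)) a := by
  split_ifs
  · refine ⟨Polynomial.C a * (1 + Polynomial.X), 1, by simp, by simp, ?_⟩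
    rw [map_mul, map_add, map_one, RatFunc.algebraMap_X, RatFunc.algebraMap_C, div_one]
    rfl
  · refine ⟨Polynomial.C a, 1, by simp, by simp, ?_⟩
    rw [RatFunc.algebraMap_C, map_one, div_one, mul_one]
    rfl

theorem mv_none {S : Finset (Fin n)} {x : Fin n → Option N} {i : Fin n} (h : x i = none) :
    mv S x i = none := by
  unfold mv
  rw [h]
  rfl

open scoped Classical in
theorem mv_some {S : Finset (Fin n)} {x : Fin n → Option N} {i : Fin n} {a : N}
    (h : x i = some a) :
    mv S x i = some (algebraMap N (RatFunc N) a * (if i ∈ S then 1 + RatFunc.X else 1)) := by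
  unfold mv
  rw [h]
  rfl

theorem yv_mv {x : Fin n → Option N} (h : YV b τ N x) {S : Finset (Fin n)}
    (hS : (∀ i, coef τ i ≠ 0 → i ∈ S) ∨ ∀ i ∈ S, coef τ i = 0) :
    YV b τ (RatFunc N) (mv S x) := by
  classical
  have h2 : ∀ i, (if i ∈ S then 1 + RatFunc.X else 1 : RatFunc N) ≠ 0 := by
    intro i
    split_ifs
    · exact one_add_X_ne
    · exact one_ne_zero
  rcases hS with hS | hS
  · refine yv_scale h (IsScalarTower.toAlgHom k N (RatFunc N)) (g := 1 + RatFunc.X)
      (fun i hi => mv_none hi) fun i a hi => ⟨_, h2 i, mv_some hi, fun hc => if_pos (hS i hc)⟩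
  · refine yv_scale h (IsScalarTower.toAlgHom k N (RatFunc N)) (g := 1)
      (fun i hi => mv_none hi) fun i a hi => ⟨_, h2 i, mv_some hi, fun hc => if_neg fun hi' =>
        hc (hS i hi')⟩

/-- Moving a point by scaling. -/
theorem move {r : ℕ} {x : Fin n → Option N} (hx : YV b τ N x)
    (hN : Algebra.EssFiniteType k N) (htr : Algebra.trdeg k N = r)
    (hxr : Algebra.trdeg k (fld k x) = r) {S : Finset (Fin n)}
    (hS : (∀ i, coef τ i ≠ 0 → i ∈ S) ∨ ∀ i ∈ S, coef τ i = 0)
    {W : Submodule ℚ (Key k (Fin n) →₀ ℚ)} (hW : rat (YV b τ) (PY b τ) r ≤ W)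
    (h : ∀ v : Place k (RatFunc N), v.ord RatFunc.X ≠ 0 → YV b τ v.resField (spec v (mv S x)) →
      Algebra.trdeg k (fld k (spec v (mv S x))) = r →
      (key k (spec v (mv S x)) = key k x ∧ 0 < v.ord (RatFunc.X : RatFunc N)) ∨
        Finsupp.single (key k (spec v (mv S x))) 1 ∈ W) :
    Finsupp.single (key k x) 1 ∈ W := by
  classical
  refine homK (V := YV b τ) (P := PY b τ) hN htr hxr (fun N' _ _ φ => yv_map hx φ)
    (z' := mv S x) (f := RatFunc.X) (Or.inl (yv_mv hx hS)) RatFunc.X_ne_zero
    (fun i hi => mv_none hi) (fun i a hi => ⟨_, mv_some hi, at0_mv a _⟩) ?_ hW h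
  exact ⟨Polynomial.X, 1, by simp, by simp, by rw [RatFunc.algebraMap_X, map_one, div_one]⟩

/-- Not both `x i` and `x i (1 + s)` are units at a pole of `s`. -/
theorem pole_absurd {x : Fin n → Option N} {S : Finset (Fin n)} (v : Place k (RatFunc N))
    (hw : YV b τ v.resField (spec v (mv S x))) (hx : YV b τ N x) {i : Fin n} (hi : i ∈ S)
    (hτ : τ i ≠ none) (hv : ∀ a, x i = some a → v.val (algebraMap N (RatFunc N) a) = 1)
    (hX : v.ord (RatFunc.X : RatFunc N) ≠ 0) : 0 < v.ord (RatFunc.X : RatFunc N) := by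
  classical
  rcases lt_or_gt_of_ne hX with hneg | hpos
  · exfalso
    have h1 := (v.ord_neg_iff RatFunc.X_ne_zero).1 hneg
    obtain ⟨a, ha, hxi⟩ := yv_fin hx hτ
    have h2 := mv_some (S := S) hxi
    rw [if_pos hi] at h2
    obtain ⟨c, hc, hwi⟩ := yv_fin hw hτ
    obtain ⟨h3, -⟩ := spec_some v h2 (by rw [hwi]; exact Option.some_ne_none _)
    have h4 : v.val (algebraMap N (RatFunc N) a * (1 + RatFunc.X)) ≤ 1 := h3
    rw [map_mul, hv a hxi, one_mul, Valuation.map_add_eq_of_lt_right _ (by rwa [map_one])] at h4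
    exact absurd h4 (not_le.2 h1)
  · exact hpos

/-- If the place is trivial on `N`, the limit point is the same. -/
theorem same_of_triv {x : Fin n → Option N} {S : Finset (Fin n)}
    (v : Place k (RatFunc N)) (hw : YV b τ v.resField (spec v (mv S x))) (hx : YV b τ N x)
    {i : Fin n} (hi : i ∈ S) (hτ : τ i ≠ none)
    (hv : ∀ a : N, a ≠ 0 → v.val (algebraMap N (RatFunc N) a) = 1)
    (hX : v.ord (RatFunc.X : RatFunc N) ≠ 0) :
    key k (spec v (mv S x)) = key k x ∧ 0 < v.ord (RatFunc.X : RatFunc N) := by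
  classical
  have hpos := pole_absurd v hw hx hi hτ (fun a ha => by
    obtain ⟨c, hc, hxi⟩ := yv_fin hx hτ
    rw [ha] at hxi
    exact hv a (by rwa [Option.some.inj hxi])) hX
  refine ⟨?_, hpos⟩
  have hX1 := (v.ord_pos_iff RatFunc.X_ne_zero).1 hpos
  obtain ⟨φ, hφ⟩ := HC.exists_resHomL (K := k) v (L := N) (N := RatFunc N) hv
  have hspec : spec v (mv S x) = fun j => (x j).map φ := by
    funext j
    cases hj : x j with
    | none =>
      unfold spec
      rw [mv_none hj]
      rfl
    | some a =>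
      obtain ⟨h1, h2⟩ := at0_res v hv hX1 φ hφ (at0_mv a (j ∈ S))
      unfold spec
      rw [mv_some hj]
      simp only [Option.bind_some, Option.map_some]
      rw [if_pos h1, h2]
  rw [hspec, key_map]

end move

end Pool.Agent.Helper19.KL
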