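import Pool.Agent.Helper19.KL.N3

set_option autoImplicit false

/-!
Project KL (MP_0b9e0b_ag), explicit bounds: cycles of dimension `0` and `1` on `YV`.
-/

namespace Pool.Agent.Helper19.KL

open Pool.Agent.Helper16 Pool.Agent.Helper1.KL

section alg

variable {k N L : Type} [Field k] [Field N] [Algebra k N] [Field L] [Algebra k L] [Algebra N L]
  [IsScalarTower k N L]

/-- A place which is trivial on a subfield is trivial on algebraic elements. -/
theorem val_one_of_alg (v : Place k L) (M : IntermediateField k N)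
    (hM : ∀ a ∈ M, a ≠ 0 → v.val (algebraMap N L a) = 1) {a : N} (ha : IsAlgebraic M a)
    (ha0 : a ≠ 0) : v.val (algebraMap N L a) = 1 := by
  let w : Place M L :=
    { val := v.val
      surj := v.surj
      triv := fun c hc => hM c c.2 fun h => hc (Subtype.ext h) }
  have h1 : IsAlgebraic M (algebraMap N L a) := ha.algebraMap
  have h2 := w.val_eq_one_of_algebraic h1 (by
    rw [Ne, map_eq_zero]
    exact ha0)
  exact h2

/-- In a field of transcendence degree `1`, everything is algebraic over a subfield which is not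
algebraic. -/
theorem alg_of_one (htr : Algebra.trdeg k N = 1) (M : IntermediateField k N)
    (hM : Algebra.trdeg k M ≠ 0) (a : N) : IsAlgebraic M a := by
  have h1 := trdeg_add_eq k M (A := N)
  rw [htr] at h1
  have h2 : Algebra.trdeg M N = 0 := by
    have h3 : (1 : Cardinal) ≤ Algebra.trdeg k M := Cardinal.one_le_iff_ne_zero.2 hM
    by_contra h4
    have h5 : (1 : Cardinal) ≤ Algebra.trdeg M N := Cardinal.one_le_iff_ne_zero.2 h4
    have h6 : (2 : Cardinal) ≤ 1 := by
      rw [← h1]
      calc (2 : Cardinal) = 1 + 1 := by norm_num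
        _ ≤ _ := add_le_add h3 h5
    exact absurd h6 (by norm_num)
  rw [trdeg_eq_zero_iff] at h2
  exact h2.isAlgebraic a

theorem alg_of_adjoin {S : Set N} (h : Algebra.trdeg k (IntermediateField.adjoin k S) = 0)
    {a : N} (ha : a ∈ S) : IsAlgebraic k a := by
  rw [trdeg_eq_zero_iff] at h
  have h1 := h.isAlgebraic ⟨a, IntermediateField.subset_adjoin k S ha⟩
  exact (isAlgebraic_algebraMap_iff (A := N) (S := IntermediateField.adjoin k S)
    (Subtype.val_injective)).2 h1

theorem trdeg_adjoin_of_alg {S : Set N} (h : ∀ a ∈ S, IsAlgebraic k a) :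
    Algebra.trdeg k (IntermediateField.adjoin k S) = 0 := by
  rw [trdeg_eq_zero_iff]
  exact IntermediateField.isAlgebraic_adjoin fun a ha => (h a ha).isIntegral

end alg

section low

variable {k : Type} [Field k] {p : ℕ} {n : ℕ} {b : Fin n → k}
  {τ : Fin n → Option (ZMod p)}

/-- Cycles of dimension `0`. -/
theorem mem_zero (hτ : τ ∈ Idx p n) {N : Type} [Field N] [Algebra k N] {x : Fin n → Option N}
    (hx : YV b τ N x) (hr : Algebra.trdeg k (fld k x) = (0 : ℕ)) :
    Finsupp.single (key k x) 1 ∈ rat (YV b τ) (PY b τ) 0 := by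
  classical
  obtain ⟨i, hi⟩ := hτ
  rw [← key_restr]
  have hx' := yv_restr hx
  have hr' := hr
  rw [← trdeg_fld_restr] at hr'
  refine move hx' (essFiniteType_fld x) hr hr' (S := Finset.univ)
    (Or.inl fun i _ => Finset.mem_univ i) le_rfl fun v hv hw hwr => Or.inl ?_
  refine same_of_triv v hw hx' (Finset.mem_univ i) (coef_ne hi) (fun a ha => ?_) hv
  refine Place.val_eq_one_of_algebraic v ?_ ?_
  · rw [Nat.cast_zero, trdeg_eq_zero_iff] at hr
    exact (hr.isAlgebraic a).algebraMap
  · rw [Ne, map_eq_zero]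
    exact ha

/-- Points with only one transcendental coordinate, whose coefficient is zero. -/
theorem mem_alpha1 (hτ : τ ∈ Idx p n) {l : Fin n} (hl : τ l ≠ none) (hl0 : coef τ l = 0)
    {N : Type} [Field N] [Algebra k N] {x : Fin n → Option N}
    (hx : YV b τ N x) (hr : Algebra.trdeg k (fld k x) = (1 : ℕ))
    (halg : ∀ i, i ≠ l → ∀ a, x i = some a → IsAlgebraic k a) :
    Finsupp.single (key k x) 1 ∈ rat (YV b τ) (PY b τ) 1 := by
  classical
  obtain ⟨i0, hi0⟩ := hτ
  rw [← key_restr]
  have hx' := yv_restr hx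
  have hr' := hr
  rw [← trdeg_fld_restr] at hr'
  have halg' : ∀ i, i ≠ l → ∀ a, restr k x i = some a → IsAlgebraic k a := by
    intro i hi a ha
    have h1 : x i = some (a : N) := by
      rw [← congrFun (restr_map (F := k) x) i, ha]
      rfl
    exact (isAlgebraic_algebraMap_iff (A := N) (S := fld k x) (Subtype.val_injective)).1
      (halg i hi a h1)
  set y := restr k x with hy
  have hval : ∀ (v : Place k (RatFunc (fld k x))) i, i ≠ l → ∀ a, y i = some a → a ≠ 0 →
      v.val (algebraMap (fld k x) (RatFunc (fld k x)) a) = 1 := by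
    intro v i hi a ha ha0
    refine Place.val_eq_one_of_algebraic v (halg' i hi a ha).algebraMap ?_
    rw [Ne, map_eq_zero]
    exact ha0
  set S : Finset (Fin n) := Finset.univ.filter fun i => coef τ i ≠ 0 with hS
  have hmS : ∀ i, i ∈ S ↔ coef τ i ≠ 0 := by
    intro i
    rw [hS]
    simp
  refine move hx' (essFiniteType_fld x) hr hr' (S := S)
    (Or.inl fun i hi => (hmS i).2 hi) le_rfl fun v hv hw hwr => Or.inl ?_
  have hi0l : i0 ≠ l := by
    rintro rfl
    exact hi0 hl0
  have hpos := pole_absurd v hw hx' ((hmS i0).2 hi0) (coef_ne hi0) (fun a ha => by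
    obtain ⟨c, hc, hyi⟩ := yv_fin hx' (coef_ne hi0)
    have hac : a = c := Option.some.inj (ha.symm.trans hyi)
    exact hval v i0 hi0l a ha (by rwa [hac])) hv
  refine ⟨?_, hpos⟩
  have hX1 := (v.ord_pos_iff RatFunc.X_ne_zero).1 hpos
  have hX0 : v.res (RatFunc.X : RatFunc (fld k x)) = 0 := (v.res_eq_zero_iff hX1.le).2 hX1
  have hXr : (RatFunc.X : RatFunc (fld k x)) ∈ v.ring := hX1.le
  refine key_of_res (IsScalarTower.toAlgHom k (fld k x) (RatFunc (fld k x))) v ?_ ?_
    (by rw [hwr, hr'])
  · intro j
    by_cases hj : τ j = none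
    · rw [yv_inf hx' hj, yv_inf hw hj]
      simp only [Option.getD_none, map_zero, v.res_zero, and_true]
      exact zero_mem _
    · obtain ⟨a, ha, hyj⟩ := yv_fin hx' hj
      obtain ⟨c, hc, hwj⟩ := yv_fin hw hj
      have h1 := mv_some (S := S) hyj
      obtain ⟨h2, h3⟩ := spec_some v h1 (by rw [hwj]; exact Option.some_ne_none _)
      rw [hyj, h3]
      simp only [Option.getD_some]
      change algebraMap _ _ a ∈ v.ring ∧ _ = v.res (algebraMap _ _ a)
      by_cases hjS : j ∈ S
      · have hjl : j ≠ l := by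
          rintro rfl
          exact (hmS _).1 hjS hl0
        have h4 : algebraMap (fld k x) (RatFunc (fld k x)) a ∈ v.ring := (hval v j hjl a hyj ha).le
        refine ⟨h4, ?_⟩
        rw [if_pos hjS, v.res_mul h4 (add_mem (one_mem _) hXr), v.res_add (one_mem _) hXr,
          v.res_one, hX0, add_zero, mul_one]
      · rw [if_neg hjS, mul_one] at h2 ⊢
        exact ⟨h2, rfl⟩
  · intro j
    by_cases hj : τ j = none
    · rw [yv_inf hx' hj, yv_inf hw hj]
      simp
    · obtain ⟨a, ha, hyj⟩ := yv_fin hx' hj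
      obtain ⟨c, hc, hwj⟩ := yv_fin hw hj
      rw [hyj, hwj]
      simp

/-- Cycles of dimension `1`, if a coefficient is zero. -/
theorem mem_alpha (hτ : τ ∈ Idx p n) {l : Fin n} (hl : τ l ≠ none) (hl0 : coef τ l = 0)
    {N : Type} [Field N] [Algebra k N] {x : Fin n → Option N}
    (hx : YV b τ N x) (hr : Algebra.trdeg k (fld k x) = (1 : ℕ)) :
    Finsupp.single (key k x) 1 ∈ rat (YV b τ) (PY b τ) 1 := by
  classical
  by_cases halg : ∀ i, i ≠ l → ∀ a, x i = some a → IsAlgebraic k a
  · exact mem_alpha1 hτ hl hl0 hx hr halg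
  rw [← key_restr]
  have hx' := yv_restr hx
  have hr' := hr
  rw [← trdeg_fld_restr] at hr'
  set y := restr k x with hy
  -- the field of the other coordinates
  set c : {i : Fin n // i ≠ l} → fld k x := fun i => (y i).getD 0 with hc
  set M := IntermediateField.adjoin k (Set.range c) with hM
  have hMtr : Algebra.trdeg k M ≠ 0 := by
    intro h0
    apply halg
    intro i hi a ha
    have h1 : x i = (y i).map (fld k x).val := (congrFun (restr_map (F := k) x) i).symm
    rw [ha] at h1
    obtain ⟨a', ha', ha''⟩ := Option.map_eq_some_iff.1 h1.symm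
    have h2 : IsAlgebraic k a' := alg_of_adjoin (S := Set.range c) h0
      ⟨⟨i, hi⟩, by rw [hc]; simp only [ha']; rfl⟩
    rw [← ha'']
    exact (isAlgebraic_algebraMap_iff (A := N) (S := fld k x) (Subtype.val_injective)).2 h2
  have halgM : ∀ a : fld k x, IsAlgebraic M a := alg_of_one (by exact_mod_cast hr) M hMtr
  refine move hx' (essFiniteType_fld x) hr hr' (S := {l})
    (Or.inr fun i hi => by rw [Finset.mem_singleton.1 hi]; exact hl0) le_rfl
    fun v hv hw hwr => ?_
  by_cases hvM : ∀ a ∈ M, a ≠ 0 → v.val (algebraMap (fld k x) (RatFunc (fld k x)) a) = 1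
  · left
    exact same_of_triv v hw hx' (Finset.mem_singleton_self l) hl
      (fun a ha => val_one_of_alg v M hvM (halgM a) ha) hv
  · right
    push Not at hvM
    obtain ⟨m, hm, hm0, hm1⟩ := hvM
    -- the residues of the other coordinates
    have hwi : ∀ i : {i : Fin n // i ≠ l},
        v.val (algebraMap (fld k x) (RatFunc (fld k x)) (c i)) ≤ 1 ∧
        (spec v (mv {l} y) i).getD 0 = v.res (algebraMap (fld k x) (RatFunc (fld k x)) (c i)) := by
      rintro ⟨i, hi⟩
      by_cases hti : τ i = none
      · have h1 : y i = none := yv_inf hx' hti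
        have h2 : spec v (mv {l} y) i = none := yv_inf hw hti
        rw [hc]
        simp only [h1, h2, Option.getD_none, map_zero, v.res_zero, and_true]
        exact zero_le_one
      · obtain ⟨a, ha, hyi⟩ := yv_fin hx' hti
        obtain ⟨d, hd, hwi⟩ := yv_fin hw hti
        have h1 := mv_some (S := {l}) hyi
        rw [if_neg (by rw [Finset.mem_singleton]; exact hi), mul_one] at h1
        obtain ⟨h2, h3⟩ := spec_some v h1 (by rw [hwi]; exact Option.some_ne_none _)
        rw [hc]
        simp only
        rw [hyi, h3]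
        exact ⟨h2, rfl⟩
    have h1 := HC.abh_adjoin (k₀ := k) v (M := M) (s := 0) (by
        have h2 : Algebra.trdeg k M ≤ Algebra.trdeg k (fld k x) :=
          HC.trdeg_le_of_inj M.val Subtype.val_injective
        rw [hr] at h2
        simpa using h2) ⟨⟨m, hm⟩, fun h => hm0 (congrArg Subtype.val h), hm1⟩
      (fun i : {i : Fin n // i ≠ l} =>
        (⟨c i, IntermediateField.subset_adjoin k _ ⟨i, rfl⟩⟩ : M)) (fun i => (hwi i).1)
    refine mem_alpha1 hτ hl hl0 hw hwr fun i hi a ha => ?_
    have h2 : Algebra.trdeg k (IntermediateField.adjoin k (Set.range fun i : {i : Fin n // i ≠ l} =>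
        v.res (algebraMap (fld k x) (RatFunc (fld k x)) (c i)))) = 0 := by
      rw [← nonpos_iff_eq_zero]
      exact_mod_cast h1
    refine alg_of_adjoin h2 ⟨⟨i, hi⟩, ?_⟩
    change v.res (algebraMap (fld k x) (RatFunc (fld k x)) (c ⟨i, hi⟩)) = a
    rw [← (hwi ⟨i, hi⟩).2]
    simp only [ha]
    rfl

end low

end Pool.Agent.Helper19.KL
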