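import Pool.Agent.Helper19.KL.N5

set_option autoImplicit false

/-!
Project KL (MP_0b9e0b_ag), explicit bounds: one or two indices.
-/

namespace Pool.Agent.Helper19.KL

open Pool.Agent.Helper16 Pool.Agent.Helper1.KL

section small

variable {k : Type} [Field k] {p : ℕ} [Fact p.Prime] [CharP k p] {n : ℕ} {b : Fin n → k}
  {τ : Fin n → Option (ZMod p)} {N : Type} [Field N] [Algebra k N]

/-- The coefficient `ρ_i`, in `k`. -/
abbrev cf (k : Type) [Field k] {p n : ℕ} (τ : Fin n → Option (ZMod p)) (i : Fin n) : k :=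
  (coef τ i : k)

theorem cf_ne {i : Fin n} (h : coef τ i ≠ 0) : cf k τ i ≠ 0 := by
  unfold cf
  rw [Ne, CharP.cast_eq_zero_iff k p]
  intro h1
  have h2 : coef τ i < p := by
    unfold coef
    exact ZMod.val_lt _
  exact h (Nat.eq_zero_of_dvd_of_lt h1 h2)

omit [Fact p.Prime] [CharP k p] in
theorem mem_IT {i : Fin n} : i ∈ IT τ ↔ τ i ≠ none := by
  unfold IT
  simp

omit [Fact p.Prime] [CharP k p] in
/-- The two equations, as sums over `IT τ`. -/
theorem yv_sums {x : Fin n → Option N} (hx : YV b τ N x) :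
    ∑ i ∈ IT τ, algebraMap k N (cf k τ i) * (x i).getD 0 = 0 ∧
    ∑ i ∈ IT τ, algebraMap k N (cf k τ i * b i) * ((x i).getD 0)⁻¹ = 0 := by
  have h1 := hx.1.2.2
  have h2 := hx.2
  unfold Bfun at h2
  have hz : ∀ i, i ∉ IT τ → (x i).getD 0 = 0 := by
    intro i hi
    rw [mem_IT, not_not] at hi
    rw [yv_inf hx hi]
    rfl
  constructor
  · refine Eq.trans ?_ h1
    rw [← Finset.sum_subset (Finset.subset_univ (IT τ))]
    · refine Finset.sum_congr rfl fun i _ => ?_
      rw [map_natCast]
    · intro i _ hi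
      rw [hz i hi, mul_zero]
  · refine Eq.trans ?_ h2
    rw [← Finset.sum_subset (Finset.subset_univ (IT τ))]
    · refine Finset.sum_congr rfl fun i _ => ?_
      rw [map_mul, map_natCast]
    · intro i _ hi
      rw [hz i hi, inv_zero, mul_zero]

omit [Fact p.Prime] [CharP k p] in
theorem yv_ne {x : Fin n → Option N} (hx : YV b τ N x) {i : Fin n} (hi : i ∈ IT τ) :
    (x i).getD 0 ≠ 0 := by
  obtain ⟨a, ha, hxi⟩ := yv_fin hx (mem_IT.1 hi)
  rw [hxi]
  exact ha

omit [Fact p.Prime] [CharP k p] in
theorem yv_zero {x : Fin n → Option N} (hx : YV b τ N x) {i : Fin n} (hi : i ∉ IT τ) :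
    (x i).getD 0 = 0 := by
  rw [mem_IT, not_not] at hi
  rw [yv_inf hx hi]
  rfl

omit [Fact p.Prime] [CharP k p] in
theorem yv_none {N' : Type} [Field N'] [Algebra k N'] {x : Fin n → Option N}
    {x' : Fin n → Option N'} (hx : YV b τ N x)
    (hx' : YV b τ N' x') (i : Fin n) : x i = none ↔ x' i = none := by
  by_cases hi : τ i = none
  · rw [yv_inf hx hi, yv_inf hx' hi]
    simp
  · obtain ⟨a, ha, hxi⟩ := yv_fin hx hi
    obtain ⟨a', ha', hxi'⟩ := yv_fin hx' hi
    rw [hxi, hxi']
    simp

/-- There is no point with one affine coordinate. -/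
theorem not_yv_one {i : Fin n} (hi : coef τ i ≠ 0) (hI : IT τ = {i}) {x : Fin n → Option N}
    (hx : YV b τ N x) : False := by
  have h1 := (yv_sums hx).1
  rw [hI, Finset.sum_singleton] at h1
  have h2 : algebraMap k N (cf k τ i) ≠ 0 := by
    rw [Ne, map_eq_zero]
    exact cf_ne hi
  exact yv_ne hx (by rw [hI]; exact Finset.mem_singleton_self i)
    ((mul_eq_zero.1 h1).resolve_left h2)

/-- A point with two affine coordinates. -/
theorem yv_two {i j : Fin n} (hij : i ≠ j) (hi : coef τ i ≠ 0)
    (hj : coef τ j ≠ 0) (hI : IT τ = {i, j}) {x : Fin n → Option N} (hx : YV b τ N x) :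
    (x j).getD 0 = algebraMap k N (-(cf k τ i) / cf k τ j) * (x i).getD 0 ∧
      cf k τ i ^ 2 * b i = cf k τ j ^ 2 * b j := by
  obtain ⟨h1, h2⟩ := yv_sums hx
  rw [hI, Finset.sum_pair hij] at h1 h2
  have hxi : (x i).getD 0 ≠ 0 := yv_ne hx (by rw [hI]; exact Finset.mem_insert_self i _)
  have hxj : (x j).getD 0 ≠ 0 := yv_ne hx (by
    rw [hI]; exact Finset.mem_insert_of_mem (Finset.mem_singleton_self j))
  set A := (x i).getD 0
  set B := (x j).getD 0
  have ha : algebraMap k N (cf k τ i) ≠ 0 := by rw [Ne, map_eq_zero]; exact cf_ne hi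
  have hc : algebraMap k N (cf k τ j) ≠ 0 := by rw [Ne, map_eq_zero]; exact cf_ne hj
  have h3 : B = algebraMap k N (-(cf k τ i) / cf k τ j) * A := by
    rw [map_div₀, map_neg]
    field_simp
    linear_combination h1
  refine ⟨h3, (algebraMap k N).injective ?_⟩
  rw [map_mul] at h2
  rw [map_mul (algebraMap k N) (cf k τ j) (b j)] at h2
  have h4 : algebraMap k N (cf k τ i) * algebraMap k N (b i) * B +
      algebraMap k N (cf k τ j) * algebraMap k N (b j) * A = 0 := by
    have := congrArg (fun t => t * A * B) h2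
    simp only [zero_mul] at this
    rw [← this]
    field_simp
  have h5 : B = -(algebraMap k N (cf k τ i) * A) / algebraMap k N (cf k τ j) := by
    field_simp
    linear_combination h1
  rw [h5] at h4
  simp only [map_mul, map_pow]
  have h6 : (algebraMap k N (cf k τ i) ^ 2 * algebraMap k N (b i) -
      algebraMap k N (cf k τ j) ^ 2 * algebraMap k N (b j)) * A = 0 := by
    field_simp at h4
    linear_combination -h4
  exact sub_eq_zero.1 ((mul_eq_zero.1 h6).resolve_right hxi)

omit [Fact p.Prime] [CharP k p] in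
/-- The common factor of a cone is transcendental. -/
theorem transc_of {σ : Type} {x : σ → Option N} {c : σ → N} {a : N}
    (hc : ∀ m, IsAlgebraic k (c m)) (hx : ∀ m, (x m).getD 0 = c m * a)
    (hr : Algebra.trdeg k (fld k x) = (1 : ℕ)) : Transcendental k a := by
  intro ha
  rw [fld_eq_range, trdeg_adjoin_of_alg] at hr
  · exact absurd hr (by simp)
  · rintro _ ⟨m, rfl⟩
    simp only [hx]
    exact (hc m).mul ha

open scoped Classical in
/-- Cycles of dimension `1`, two indices. -/
theorem rank_two {i j : Fin n} (hij : i ≠ j) (hi : coef τ i ≠ 0)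
    (hj : coef τ j ≠ 0) (hI : IT τ = {i, j}) : Module.rank ℚ (CHY b τ 1) ≤
      (if cf k τ i ^ 2 * b i = cf k τ j ^ 2 * b j then 1 else 0 : ℕ) := by
  classical
  by_cases hex : ∃ (N : Type) (_ : Field N) (_ : Algebra k N) (x : Fin n → Option N),
      YV b τ N x ∧ Algebra.trdeg k (fld k x) = (1 : ℕ)
  · obtain ⟨N0, _, _, x0, hx0, hr0⟩ := hex
    rw [if_pos (yv_two hij hi hj hI hx0).2, Nat.cast_one]
    refine rank_le_one_of (key k x0) fun N _ _ x hx hr => ?_
    -- the coefficients
    let c : Fin n → k := fun m => if m = i then 1 else if m = j then -(cf k τ i) / cf k τ j else 0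
    have hc : ∀ {E : Type} [Field E] [Algebra k E] {y : Fin n → Option E}, YV b τ E y →
        ∀ m, (y m).getD 0 = algebraMap k E (c m) * (y i).getD 0 := by
      intro E _ _ y hy m
      by_cases h1 : m = i
      · subst h1
        simp [c]
      by_cases h2 : m = j
      · subst h2
        rw [(yv_two hij hi hj hI hy).1]
        simp [c, hij.symm]
      · have h3 : (y m).getD 0 = 0 := yv_zero hy (by
          rw [hI, Finset.mem_insert, Finset.mem_singleton]
          tauto)
        rw [h3]
        simp [c, h1, h2]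
    have h1 : key k x = key k x0 := by
      refine key_cone (κ := k) (Algebra.ofId k N) (Algebra.ofId k N0) c (a := (x i).getD 0)
        (a' := (x0 i).getD 0) ?_ ?_ (hc hx) (hc hx0) (yv_none hx hx0)
      · exact transc_of (c := fun m => algebraMap k N (c m)) (fun m => isAlgebraic_algebraMap _)
          (hc hx) hr
      · exact transc_of (c := fun m => algebraMap k N0 (c m)) (fun m => isAlgebraic_algebraMap _)
          (hc hx0) hr0
    rw [h1]
    exact Submodule.mem_sup_right (Submodule.mem_span_singleton_self _)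
  · have h1 : Module.rank ℚ (CHY b τ 1) = 0 := rank_zero_of fun N _ _ x hx hr =>
      absurd ⟨N, inferInstance, inferInstance, x, hx, hr⟩ hex
    rw [h1]
    exact bot_le

end small

end Pool.Agent.Helper19.KL
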