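import Pool.Agent.Helper19.KL.N7

set_option autoImplicit false

/-!
Project KL (MP_0b9e0b_ag), explicit bounds: cycles of dimension `1`, three indices.
-/

namespace Pool.Agent.Helper19.KL

open Pool.Agent.Helper16 Pool.Agent.Helper1.KL

variable {k : Type} [Field k] {p : ℕ} [Fact p.Prime] [CharP k p] {n : ℕ} {b : Fin n → k}
  {τ : Fin n → Option (ZMod p)}

/-- The quadratic polynomial of three indices, as a function. -/
noncomputable def q3 (b : Fin n → k) (τ : Fin n → Option (ZMod p)) (i j l : Fin n) {N : Type}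
    [Field N] [Algebra k N] (u : N) : N :=
  algebraMap k N (cf k τ i * cf k τ j * b i) * u ^ 2 +
    algebraMap k N (cf k τ i ^ 2 * b i + cf k τ j ^ 2 * b j - cf k τ l ^ 2 * b l) * u +
    algebraMap k N (cf k τ i * cf k τ j * b j)

/-- The quadratic polynomial of three indices. -/
noncomputable def Q3 (b : Fin n → k) (τ : Fin n → Option (ZMod p)) (i j l : Fin n) :
    Polynomial k :=
  Polynomial.C (cf k τ i * cf k τ j * b i) * Polynomial.X ^ 2 +
    Polynomial.C (cf k τ i ^ 2 * b i + cf k τ j ^ 2 * b j - cf k τ l ^ 2 * b l) * Polynomial.X +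
    Polynomial.C (cf k τ i * cf k τ j * b j)

omit [Fact p.Prime] [CharP k p] in
theorem aeval_Q3 (i j l : Fin n) {N : Type} [Field N] [Algebra k N] (u : N) :
    Polynomial.aeval u (Q3 b τ i j l) = q3 b τ i j l u := by
  unfold Q3 q3
  simp only [map_add, map_mul, map_pow, Polynomial.aeval_C, Polynomial.aeval_X]

/-- A point with three affine coordinates. -/
theorem yv_three {i j l : Fin n} (hij : i ≠ j) (hil : i ≠ l) (hjl : j ≠ l)
    (hl : coef τ l ≠ 0) (hI : IT τ = {i, j, l})
    {N : Type} [Field N] [Algebra k N] {x : Fin n → Option N} (hx : YV b τ N x) :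
    (x l).getD 0 = algebraMap k N (-1 / cf k τ l) *
      (algebraMap k N (cf k τ i) + algebraMap k N (cf k τ j) * ((x j).getD 0 / (x i).getD 0)) *
        (x i).getD 0 ∧
      q3 b τ i j l ((x j).getD 0 / (x i).getD 0) = 0 := by
  obtain ⟨h1, h2⟩ := yv_sums hx
  rw [hI, Finset.sum_insert (by simp [hij, hil]), Finset.sum_pair hjl] at h1 h2
  have hxi : (x i).getD 0 ≠ 0 := yv_ne hx (by rw [hI]; simp)
  have hxj : (x j).getD 0 ≠ 0 := yv_ne hx (by rw [hI]; simp)
  have hxl : (x l).getD 0 ≠ 0 := yv_ne hx (by rw [hI]; simp)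
  set A := (x i).getD 0
  set B := (x j).getD 0
  set C := (x l).getD 0
  have hc : algebraMap k N (cf k τ l) ≠ 0 := by rw [Ne, map_eq_zero]; exact cf_ne hl
  have h3 : C = algebraMap k N (-1 / cf k τ l) *
      (algebraMap k N (cf k τ i) + algebraMap k N (cf k τ j) * (B / A)) * A := by
    rw [map_div₀, map_neg, map_one]
    field_simp
    linear_combination h1
  refine ⟨h3, ?_⟩
  have h4 : algebraMap k N (cf k τ i * b i) * B * C + algebraMap k N (cf k τ j * b j) * A * C +
      algebraMap k N (cf k τ l * b l) * A * B = 0 := by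
    have := congrArg (fun t => t * A * B * C) h2
    simp only [zero_mul] at this
    rw [← this]
    field_simp
    ring
  have h5 : algebraMap k N (cf k τ l) * C =
      -(algebraMap k N (cf k τ i) * A + algebraMap k N (cf k τ j) * B) := by
    linear_combination h1
  unfold q3
  have h6 : (algebraMap k N (cf k τ i * cf k τ j * b i) * (B / A) ^ 2 +
      algebraMap k N (cf k τ i ^ 2 * b i + cf k τ j ^ 2 * b j - cf k τ l ^ 2 * b l) * (B / A) +
      algebraMap k N (cf k τ i * cf k τ j * b j)) * A ^ 2 = 0 := by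
    simp only [map_add, map_sub, map_mul, map_pow] at h4 ⊢
    field_simp
    linear_combination (-algebraMap k N (cf k τ l)) * h4 +
      (algebraMap k N (cf k τ i) * algebraMap k N (b i) * B +
        algebraMap k N (cf k τ j) * algebraMap k N (b j) * A) * h5
  exact (mul_eq_zero.1 h6).resolve_right (pow_ne_zero 2 hxi)

/-- The quotient `x_j / x_i`. -/
noncomputable abbrev uq {N : Type} [Field N] (x : Fin n → Option N) (i j : Fin n) : N :=
  (x j).getD 0 / (x i).getD 0

theorem q3_alg {i j l : Fin n} (hi : coef τ i ≠ 0) (hj : coef τ j ≠ 0) (hb : ∀ i, b i ≠ 0)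
    {N : Type} [Field N] [Algebra k N] {u : N} (h : q3 b τ i j l u = 0) : IsAlgebraic k u := by
  refine ⟨Q3 b τ i j l, ?_, by rw [aeval_Q3, h]⟩
  intro h0
  have h1 : (Q3 b τ i j l).natDegree = 2 :=
    Polynomial.natDegree_quadratic (mul_ne_zero (mul_ne_zero (cf_ne hi) (cf_ne hj)) (hb i))
  rw [h0, Polynomial.natDegree_zero] at h1
  omega

/-- Uniqueness of the point with given quotient. -/
theorem key_three {i j l : Fin n} (hij : i ≠ j) (hil : i ≠ l) (hjl : j ≠ l)
    (hl : coef τ l ≠ 0) (hI : IT τ = {i, j, l})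
    {κ N N' : Type} [Field κ] [Algebra k κ] [Algebra.IsAlgebraic k κ] [Field N] [Algebra k N]
    [Field N'] [Algebra k N'] (φ : κ →ₐ[k] N) (φ' : κ →ₐ[k] N') {u : κ}
    {x : Fin n → Option N} {x' : Fin n → Option N'} (hx : YV b τ N x) (hx' : YV b τ N' x')
    (hr : Algebra.trdeg k (fld k x) = (1 : ℕ)) (hr' : Algebra.trdeg k (fld k x') = (1 : ℕ))
    (hu : φ u = uq x i j) (hu' : φ' u = uq x' i j) : key k x = key k x' := by
  classical
  let c : Fin n → κ := fun m => if m = i then 1 else if m = j then u else if m = l then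
    algebraMap k κ (-1 / cf k τ l) * (algebraMap k κ (cf k τ i) + algebraMap k κ (cf k τ j) * u)
    else 0
  have hc : ∀ {E : Type} [Field E] [Algebra k E] (ψ : κ →ₐ[k] E) {y : Fin n → Option E},
      YV b τ E y → ψ u = uq y i j → ∀ m, (y m).getD 0 = ψ (c m) * (y i).getD 0 := by
    intro E _ _ ψ y hy hψ m
    have hyi : (y i).getD 0 ≠ 0 := yv_ne hy (by rw [hI]; simp)
    by_cases h1 : m = i
    · subst h1
      simp [c]
    by_cases h2 : m = j
    · subst h2
      simp only [c, if_neg h1, if_pos]
      rw [hψ, uq, div_mul_cancel₀ _ hyi]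
    by_cases h3 : m = l
    · subst h3
      rw [(yv_three hij hil hjl hl hI hy).1]
      simp only [c, if_neg h1, if_neg h2, if_pos, map_mul, map_add, AlgHom.commutes]
      rw [hψ, uq]
    · have h4 : (y m).getD 0 = 0 := yv_zero hy (by
        rw [hI, Finset.mem_insert, Finset.mem_insert, Finset.mem_singleton]
        tauto)
      rw [h4]
      simp [c, h1, h2, h3]
  have halg : ∀ {E : Type} [Field E] [Algebra k E] (ψ : κ →ₐ[k] E) (m : Fin n),
      IsAlgebraic k (ψ (c m)) := by
    intro E _ _ ψ m
    exact (Algebra.IsAlgebraic.isAlgebraic (R := k) (c m)).algHom ψ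
  exact key_cone φ φ' c (a := (x i).getD 0) (a' := (x' i).getD 0)
    (transc_of (c := fun m => φ (c m)) (fun m => halg φ m) (hc φ hx hu) hr)
    (transc_of (c := fun m => φ' (c m)) (fun m => halg φ' m) (hc φ' hx' hu') hr')
    (hc φ hx hu) (hc φ' hx' hu') (yv_none hx hx')

/-- The relation given by the divisor of `∑ ρ_i b_i / x_i`. -/
theorem mem_three {i j l : Fin n} (hij : i ≠ j) (hil : i ≠ l) (hjl : j ≠ l)
    (hi : coef τ i ≠ 0) (hj : coef τ j ≠ 0) (hl : coef τ l ≠ 0) (hI : IT τ = {i, j, l})
    (hb : ∀ i, b i ≠ 0)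
    {W : Submodule ℚ (Key k (Fin n) →₀ ℚ)} (hW : rat (YV b τ) (PY b τ) 1 ≤ W)
    {N : Type} [Field N] [Algebra k N] {x : Fin n → Option N} (hx : YV b τ N x)
    (hr : Algebra.trdeg k (fld k x) = (1 : ℕ))
    (h : ∀ (M : Type) [Field M] [Algebra k M] (y : Fin n → Option M), YV b τ M y →
      Algebra.trdeg k (fld k y) = (1 : ℕ) → key k y = key k x ∨
        Finsupp.single (key k y) 1 ∈ W) :
    Finsupp.single (key k x) 1 ∈ W := by
  classical
  rw [← key_restr] at h ⊢
  have hx' := yv_restr hx
  have hr' := hr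
  rw [← trdeg_fld_restr] at hr'
  set y := restr k x with hy
  set E := fld k x with hE
  obtain ⟨A, hA, hyA⟩ := yv_fin hx' (coef_ne hi)
  obtain ⟨B, hB, hyB⟩ := yv_fin hx' (coef_ne hj)
  obtain ⟨C, hC, hyC⟩ := yv_fin hx' (coef_ne hl)
  have hγ : algebraMap k E (cf k τ l) ≠ 0 := by rw [Ne, map_eq_zero]; exact cf_ne hl
  have hβ : algebraMap k E (cf k τ j) ≠ 0 := by rw [Ne, map_eq_zero]; exact cf_ne hj
  have hα : algebraMap k E (cf k τ i) ≠ 0 := by rw [Ne, map_eq_zero]; exact cf_ne hi
  have hbb : ∀ m, algebraMap k E (b m) ≠ 0 := fun m => by rw [Ne, map_eq_zero]; exact hb m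
  have hsum : algebraMap k E (cf k τ i) * A + algebraMap k E (cf k τ j) * B +
      algebraMap k E (cf k τ l) * C = 0 := by
    have h1 := (yv_sums hx').1
    rw [hI, Finset.sum_insert (by simp [hij, hil]), Finset.sum_pair hjl, hyA, hyB, hyC] at h1
    simp only [Option.getD_some] at h1
    linear_combination h1
  -- the moving point
  set δ : E := algebraMap k E (cf k τ j) / algebraMap k E (cf k τ l) with hδ
  have hδ0 : δ ≠ 0 := div_ne_zero hβ hγ
  let P : Fin n → Polynomial E := fun m => if m = i then Polynomial.C A else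
    if m = j then Polynomial.C B + Polynomial.X else
    if m = l then Polynomial.C C - Polynomial.C δ * Polynomial.X else 0
  let z' : Fin n → Option (RatFunc E) := fun m =>
    if m ∈ IT τ then some (algebraMap (Polynomial E) (RatFunc E) (P m)) else none
  have hPi : P i = Polynomial.C A := if_pos rfl
  have hPj : P j = Polynomial.C B + Polynomial.X := by
    simp only [P, if_neg hij.symm, if_pos]
  have hPl : P l = Polynomial.C C - Polynomial.C δ * Polynomial.X := by
    simp only [P, if_neg hil.symm, if_neg hjl.symm, if_pos]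
  have hPne : ∀ m ∈ IT τ, P m ≠ 0 := by
    intro m hm h0
    have he := congrArg (Polynomial.eval 0) h0
    rw [hI, Finset.mem_insert, Finset.mem_insert, Finset.mem_singleton] at hm
    rcases hm with rfl | rfl | rfl
    · rw [hPi] at he
      simp at he
      exact hA he
    · rw [hPj] at he
      simp at he
      exact hB he
    · rw [hPl] at he
      simp at he
      exact hC he
  have hz'I : ∀ m, m ∈ IT τ → z' m = some (algebraMap (Polynomial E) (RatFunc E) (P m)) :=
    fun m hm => if_pos hm
  have hz'n : ∀ m, m ∉ IT τ → z' m = none := fun m hm => if_neg hm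
  have hiI : i ∈ IT τ := by rw [hI]; simp
  have hjI : j ∈ IT τ := by rw [hI]; simp
  have hlI : l ∈ IT τ := by rw [hI]; simp
  have hsumI : ∀ f : Fin n → RatFunc E, (∀ m, m ∉ IT τ → f m = 0) →
      ∑ m, f m = f i + f j + f l := by
    intro f hf
    rw [← Finset.sum_subset (Finset.subset_univ (IT τ)) fun m _ hm => hf m hm, hI,
      Finset.sum_insert (by simp [hij, hil]), Finset.sum_pair hjl]
    ring
  have hcoefC : ∀ m : Fin n, ((coef τ m : ℕ) : RatFunc E) =
      algebraMap (Polynomial E) (RatFunc E) (Polynomial.C (algebraMap k E (cf k τ m))) := by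
    intro m
    rw [map_natCast, map_natCast, map_natCast]
  have hbC : ∀ m : Fin n, algebraMap k (RatFunc E) (b m) =
      algebraMap (Polynomial E) (RatFunc E) (Polynomial.C (algebraMap k E (b m))) := by
    intro m
    rw [RatFunc.algebraMap_C]
    exact IsScalarTower.algebraMap_apply k E (RatFunc E) (b m)
  have hAV : AV (k := k) τ (RatFunc E) z' := by
    refine ⟨fun m hm => hz'n m (by rw [mem_IT, not_not]; exact hm), fun m hm => ?_, ?_⟩
    · refine ⟨_, ?_, hz'I m (mem_IT.2 hm)⟩
      rw [Ne, map_eq_zero_iff _ (RatFunc.algebraMap_injective E)]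
      exact hPne m (mem_IT.2 hm)
    · rw [hsumI _ fun m hm => by rw [hz'n m hm]; simp]
      rw [hz'I i hiI, hz'I j hjI, hz'I l hlI]
      simp only [Option.getD_some]
      rw [hcoefC, hcoefC, hcoefC, ← map_mul, ← map_mul, ← map_mul, ← map_add, ← map_add, hPi, hPj,
        hPl]
      rw [map_eq_zero_iff _ (RatFunc.algebraMap_injective E)]
      have h1 : algebraMap k E (cf k τ l) * δ = algebraMap k E (cf k τ j) := by
        rw [hδ]
        field_simp
      have h2 : Polynomial.C (algebraMap k E (cf k τ i)) * Polynomial.C A +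
          Polynomial.C (algebraMap k E (cf k τ j)) * (Polynomial.C B + Polynomial.X) +
          Polynomial.C (algebraMap k E (cf k τ l)) *
            (Polynomial.C C - Polynomial.C δ * Polynomial.X) =
          Polynomial.C (algebraMap k E (cf k τ i) * A + algebraMap k E (cf k τ j) * B +
            algebraMap k E (cf k τ l) * C) +
          Polynomial.C (algebraMap k E (cf k τ j) - algebraMap k E (cf k τ l) * δ) *
            Polynomial.X := by
        simp only [map_add, map_sub, map_mul]
        ring
      rw [h2, hsum, h1, sub_self]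
      simp
  have hBf : Bfun b τ z' ≠ 0 := by
    intro h0
    unfold Bfun at h0
    rw [hsumI _ fun m hm => by rw [hz'n m hm]; simp] at h0
    rw [hz'I i hiI, hz'I j hjI, hz'I l hlI] at h0
    simp only [Option.getD_some] at h0
    rw [hcoefC, hcoefC, hcoefC, hbC, hbC, hbC] at h0
    have hne : ∀ m ∈ IT τ, algebraMap (Polynomial E) (RatFunc E) (P m) ≠ 0 := fun m hm => by
      rw [Ne, map_eq_zero_iff _ (RatFunc.algebraMap_injective E)]
      exact hPne m hm
    have h1 := hne i hiI
    have h2 := hne j hjI
    have h3 := hne l hlI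
    have h4 : algebraMap (Polynomial E) (RatFunc E)
        (Polynomial.C (algebraMap k E (cf k τ i)) * Polynomial.C (algebraMap k E (b i)) * P j * P l +
        Polynomial.C (algebraMap k E (cf k τ j)) * Polynomial.C (algebraMap k E (b j)) * P i * P l +
        Polynomial.C (algebraMap k E (cf k τ l)) * Polynomial.C (algebraMap k E (b l)) * P i * P j) =
        0 := by
      have h5 := congrArg (fun t => t * algebraMap (Polynomial E) (RatFunc E) (P i) *
        algebraMap (Polynomial E) (RatFunc E) (P j) *
        algebraMap (Polynomial E) (RatFunc E) (P l)) h0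
      simp only [zero_mul] at h5
      rw [← h5]
      simp only [map_add, map_mul]
      field_simp
    rw [map_eq_zero_iff _ (RatFunc.algebraMap_injective E)] at h4
    have h5 := congrArg (Polynomial.eval (-B)) h4
    rw [hPi, hPj, hPl] at h5
    simp only [Polynomial.eval_add, Polynomial.eval_mul, Polynomial.eval_C, Polynomial.eval_X,
      Polynomial.eval_sub, add_neg_cancel, mul_zero, zero_mul, zero_add, add_zero,
      Polynomial.eval_zero] at h5
    have h6 : C - δ * -B = -(algebraMap k E (cf k τ i) * A) / algebraMap k E (cf k τ l) := by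
      rw [hδ]
      field_simp
      linear_combination hsum
    rw [h6] at h5
    have h7 : algebraMap k E (cf k τ j) * algebraMap k E (b j) * A ≠ 0 :=
      mul_ne_zero (mul_ne_zero hβ (hbb j)) hA
    have h8 : -(algebraMap k E (cf k τ i) * A) / algebraMap k E (cf k τ l) ≠ 0 :=
      div_ne_zero (neg_ne_zero.2 (mul_ne_zero hα hA)) hγ
    exact mul_ne_zero h7 h8 h5
  refine use_divB hx' (essFiniteType_fld x) hr hr' hW hAV hBf ?_ ?_ h
  · intro m hm
    refine hz'n m ?_
    intro h1
    obtain ⟨a, ha, hya⟩ := yv_fin hx' (mem_IT.1 h1)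
    exact absurd (hm.symm.trans hya).symm (Option.some_ne_none _)
  · intro m a hm
    have hmI : m ∈ IT τ := by
      by_contra h1
      rw [mem_IT, not_not] at h1
      rw [yv_inf hx' h1] at hm
      exact absurd hm.symm (Option.some_ne_none _)
    refine ⟨_, hz'I m hmI, P m, 1, by simp, ?_, by rw [map_one, div_one]⟩
    have hm' := hmI
    rw [hI, Finset.mem_insert, Finset.mem_insert, Finset.mem_singleton] at hm'
    rcases hm' with rfl | rfl | rfl
    · rw [hPi]
      have : a = A := Option.some.inj (hm.symm.trans hyA)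
      simp [this]
    · rw [hPj]
      have : a = B := Option.some.inj (hm.symm.trans hyB)
      simp [this]
    · rw [hPl]
      have : a = C := Option.some.inj (hm.symm.trans hyC)
      simp [this]

end Pool.Agent.Helper19.KL
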