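import Pool.Agent.Helper19.KL.N8

set_option autoImplicit false

/-!
Project KL (MP_0b9e0b_ag), explicit bounds: rank of cycles of dimension `1`, three indices.
-/

namespace Pool.Agent.Helper19.KL

open Pool.Agent.Helper16 Pool.Agent.Helper1.KL

variable {k : Type} [Field k] {p : ℕ} [Fact p.Prime] [CharP k p] {n : ℕ} {b : Fin n → k}
  {τ : Fin n → Option (ZMod p)}

omit [Fact p.Prime] [CharP k p] in
theorem quad_factor {a c e u0 : k} (ha : a ≠ 0) (hu0 : u0 ≠ 0) (h : a * u0 ^ 2 + e * u0 + c = 0)
    {N : Type} [Field N] [Algebra k N] (t : N) :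
    algebraMap k N a * t ^ 2 + algebraMap k N e * t + algebraMap k N c =
      algebraMap k N a * (t - algebraMap k N u0) * (t - algebraMap k N (c / (a * u0))) := by
  have ha' : algebraMap k N a ≠ 0 := by rw [Ne, map_eq_zero]; exact ha
  have hu0' : algebraMap k N u0 ≠ 0 := by rw [Ne, map_eq_zero]; exact hu0
  have h2 : algebraMap k N e * algebraMap k N u0 =
      -(algebraMap k N a * algebraMap k N u0 ^ 2 + algebraMap k N c) := by
    have h3 : e * u0 = -(a * u0 ^ 2 + c) := by linear_combination h
    rw [← map_mul, h3]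
    simp only [map_neg, map_add, map_mul, map_pow]
  rw [map_div₀, map_mul]
  have h5 : algebraMap k N e = -(algebraMap k N a * algebraMap k N u0 ^ 2 + algebraMap k N c) /
      algebraMap k N u0 := by
    rw [eq_div_iff hu0', h2]
  rw [h5]
  field_simp
  ring

/-- The factorisation of the quadratic polynomial which has a root. -/
theorem q3_factor {i j l : Fin n} (hi : coef τ i ≠ 0) (hj : coef τ j ≠ 0) (hb : ∀ i, b i ≠ 0)
    {u0 : k} (h0 : q3 b τ i j l u0 = 0) : u0 ≠ 0 ∧ ∃ u1 : k,
      ∀ {N : Type} [Field N] [Algebra k N] (t : N),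
        q3 b τ i j l t = 0 ↔ t = algebraMap k N u0 ∨ t = algebraMap k N u1 := by
  have ha : cf k τ i * cf k τ j * b i ≠ 0 := mul_ne_zero (mul_ne_zero (cf_ne hi) (cf_ne hj)) (hb i)
  have hc : cf k τ i * cf k τ j * b j ≠ 0 := mul_ne_zero (mul_ne_zero (cf_ne hi) (cf_ne hj)) (hb j)
  have h1 : cf k τ i * cf k τ j * b i * u0 ^ 2 +
      (cf k τ i ^ 2 * b i + cf k τ j ^ 2 * b j - cf k τ l ^ 2 * b l) * u0 +
      cf k τ i * cf k τ j * b j = 0 := h0
  have hu0 : u0 ≠ 0 := by
    rintro rfl
    apply hc
    have h2 : cf k τ i * cf k τ j * b i * (0 : k) ^ 2 +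
      (cf k τ i ^ 2 * b i + cf k τ j ^ 2 * b j - cf k τ l ^ 2 * b l) * 0 = 0 := by ring
    rw [h2, zero_add] at h1
    exact h1
  refine ⟨hu0, (cf k τ i * cf k τ j * b j) / (cf k τ i * cf k τ j * b i * u0), ?_⟩
  intro N _ _ t
  unfold q3
  have ha' : algebraMap k N (cf k τ i * cf k τ j * b i) ≠ 0 := by rw [Ne, map_eq_zero]; exact ha
  rw [quad_factor ha hu0 h1 t, mul_eq_zero, mul_eq_zero, sub_eq_zero, sub_eq_zero]
  constructor
  · rintro ((h | h) | h)
    · exact absurd h ha'
    · exact Or.inl h
    · exact Or.inr h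
  · rintro (h | h)
    · exact Or.inl (Or.inr h)
    · exact Or.inr h

/-- The quadratic polynomial is irreducible if it has no root. -/
theorem Q3_irreducible {i j l : Fin n} (hi : coef τ i ≠ 0) (hj : coef τ j ≠ 0)
    (hb : ∀ i, b i ≠ 0) (h : ∀ u : k, q3 b τ i j l u ≠ 0) : Irreducible (Q3 b τ i j l) := by
  have ha : cf k τ i * cf k τ j * b i ≠ 0 := mul_ne_zero (mul_ne_zero (cf_ne hi) (cf_ne hj)) (hb i)
  have h1 : (Q3 b τ i j l).natDegree = 2 := Polynomial.natDegree_quadratic ha
  refine Polynomial.irreducible_of_degree_le_three_of_not_isRoot ?_ fun u hu => h u ?_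
  · rw [h1]
    simp
  · rw [← aeval_Q3, Polynomial.coe_aeval_eq_eval]
    exact hu

open scoped Classical in
/-- Cycles of dimension `1`, three indices. -/
theorem rank_three {i j l : Fin n} (hij : i ≠ j) (hil : i ≠ l) (hjl : j ≠ l)
    (hi : coef τ i ≠ 0) (hj : coef τ j ≠ 0) (hl : coef τ l ≠ 0) (hI : IT τ = {i, j, l})
    (hb : ∀ i, b i ≠ 0) : Module.rank ℚ (CHY b τ 1) ≤
      (if Nat.card {u : k // q3 b τ i j l u = 0} = 2 then 1 else 0 : ℕ) := by
  classical
  have huq : ∀ {N : Type} [Field N] [Algebra k N] {x : Fin n → Option N}, YV b τ N x →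
      q3 b τ i j l (uq x i j) = 0 := fun hx => (yv_three hij hil hjl hl hI hx).2
  by_cases hroot : ∃ u0 : k, q3 b τ i j l u0 = 0
  · obtain ⟨u0, h0⟩ := hroot
    obtain ⟨hu0, u1, hu⟩ := q3_factor hi hj hb h0
    -- points with a rational quotient
    have huniq : ∀ (u : k) {N N' : Type} [Field N] [Algebra k N] [Field N'] [Algebra k N']
        {x : Fin n → Option N} {x' : Fin n → Option N'}, YV b τ N x → YV b τ N' x' →
        Algebra.trdeg k (fld k x) = (1 : ℕ) → Algebra.trdeg k (fld k x') = (1 : ℕ) →
        uq x i j = algebraMap k N u → uq x' i j = algebraMap k N' u → key k x = key k x' := by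
      intro u N N' _ _ _ _ x x' hx hx' hr hr' h1 h2
      exact key_three hij hil hjl hl hI (Algebra.ofId k N) (Algebra.ofId k N') (u := u) hx hx' hr
        hr' h1.symm h2.symm
    by_cases h01 : u0 = u1
    · -- a double root
      have hz : Module.rank ℚ (CHY b τ 1) = 0 := by
        refine rank_zero_of fun N _ _ x hx hr => ?_
        refine mem_three hij hil hjl hi hj hl hI hb le_rfl hx hr fun M _ _ y hy hyr => Or.inl ?_
        have h1 : uq y i j = algebraMap k M u0 := by
          rcases (hu _).1 (huq hy) with h | h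
          · exact h
          · rw [h, h01]
        have h2 : uq x i j = algebraMap k N u0 := by
          rcases (hu _).1 (huq hx) with h | h
          · exact h
          · rw [h, h01]
        exact huniq u0 hy hx hyr hr h1 h2
      rw [hz]
      exact bot_le
    · -- two different roots
      have hcard : Nat.card {u : k // q3 b τ i j l u = 0} = 2 := by
        have h1 : ∀ u : k, q3 b τ i j l u = 0 ↔ u ∈ ({u0, u1} : Finset k) := by
          intro u
          rw [hu u, Finset.mem_insert, Finset.mem_singleton]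
          rfl
        rw [Nat.card_congr (Equiv.subtypeEquivRight h1), Nat.card_eq_fintype_card,
          Fintype.card_coe, Finset.card_pair h01]
      rw [if_pos hcard, Nat.cast_one]
      by_cases hex : ∃ (N : Type) (_ : Field N) (_ : Algebra k N) (x : Fin n → Option N),
          YV b τ N x ∧ Algebra.trdeg k (fld k x) = (1 : ℕ) ∧ uq x i j = algebraMap k N u1
      · obtain ⟨N1, _, _, x1, hx1, hr1, hq1⟩ := hex
        refine rank_le_one_of (key k x1) fun N _ _ x hx hr => ?_
        rcases (hu _).1 (huq hx) with h | h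
        · refine mem_three hij hil hjl hi hj hl hI hb le_sup_left hx hr fun M _ _ y hy hyr => ?_
          rcases (hu _).1 (huq hy) with h' | h'
          · exact Or.inl (huniq u0 hy hx hyr hr h' h)
          · right
            rw [huniq u1 hy hx1 hyr hr1 h' hq1]
            exact Submodule.mem_sup_right (Submodule.mem_span_singleton_self _)
        · rw [huniq u1 hx hx1 hr hr1 h hq1]
          exact Submodule.mem_sup_right (Submodule.mem_span_singleton_self _)
      · have hz : Module.rank ℚ (CHY b τ 1) = 0 := by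
          refine rank_zero_of fun N _ _ x hx hr => ?_
          have hq : ∀ {M : Type} [Field M] [Algebra k M] {y : Fin n → Option M}, YV b τ M y →
              Algebra.trdeg k (fld k y) = (1 : ℕ) → uq y i j = algebraMap k M u0 := by
            intro M _ _ y hy hyr
            rcases (hu _).1 (huq hy) with h | h
            · exact h
            · exact absurd ⟨M, inferInstance, inferInstance, y, hy, hyr, h⟩ hex
          exact mem_three hij hil hjl hi hj hl hI hb le_rfl hx hr fun M _ _ y hy hyr =>
            Or.inl (huniq u0 hy hx hyr hr (hq hy hyr) (hq hx hr))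
        rw [hz]
        exact bot_le
  · push Not at hroot
    have hirr := Q3_irreducible hi hj hb hroot
    have : Fact (Irreducible (Q3 b τ i j l)) := ⟨hirr⟩
    have hfin : Module.Finite k (AdjoinRoot (Q3 b τ i j l)) :=
      (AdjoinRoot.powerBasis hirr.ne_zero).finite
    have hz : Module.rank ℚ (CHY b τ 1) = 0 := by
      refine rank_zero_of fun N _ _ x hx hr => ?_
      refine mem_three hij hil hjl hi hj hl hI hb le_rfl hx hr fun M _ _ y hy hyr => Or.inl ?_
      have h1 : ∀ {E : Type} [Field E] [Algebra k E] {w : Fin n → Option E}, YV b τ E w →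
          ∃ φ : AdjoinRoot (Q3 b τ i j l) →ₐ[k] E, φ (AdjoinRoot.root _) = uq w i j := by
        intro E _ _ w hw
        refine ⟨AdjoinRoot.liftAlgHom _ (Algebra.ofId k E) (uq w i j) ?_, ?_⟩
        · have := huq hw
          rw [← aeval_Q3] at this
          exact this
        · simp
      obtain ⟨φ, hφ⟩ := h1 hy
      obtain ⟨φ', hφ'⟩ := h1 hx
      exact key_three hij hil hjl hl hI φ φ' hy hx hyr hr hφ hφ'
    rw [hz]
    exact bot_le

end Pool.Agent.Helper19.KL
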