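import Pool.Agent.Helper19.KL.Gen

set_option autoImplicit false

/-!
Project KL (MP_0b9e0b_ag): points of products of Kloosterman curves; lemmas for KL-10.
-/

namespace Pool.Agent.Helper19.KL

open Pool.Agent.Helper16 Pool.Agent.Helper1.KL

section Curve

variable {p : ℕ} {N N' : Type} [Field N] [Field N']

theorem curve_map (φ : N →+* N') {t b : N} {x y : Option N} :
    Curve p (φ t) (φ b) (x.map φ) (y.map φ) ↔ Curve p t b x y := by
  unfold Curve
  have h0 : x.map φ = some 0 ↔ x = some 0 := by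
    rw [Option.map_eq_some_iff]
    constructor
    · rintro ⟨a, rfl, ha⟩
      rw [map_eq_zero_iff φ φ.injective] at ha
      rw [ha]
    · rintro rfl
      exact ⟨0, rfl, map_zero φ⟩
  refine or_congr ?_ ?_
  · rw [h0, Option.map_eq_none_iff, Option.map_eq_none_iff]
  · constructor
    · rintro ⟨a', c', ha, hc, h⟩
      rw [Option.map_eq_some_iff] at ha hc
      obtain ⟨a, rfl, rfl⟩ := ha
      obtain ⟨c, rfl, rfl⟩ := hc
      refine ⟨a, c, rfl, rfl, φ.injective ?_⟩
      simpa only [map_mul, map_sub, map_pow, map_add] using h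
    · rintro ⟨a, c, rfl, rfl, h⟩
      refine ⟨φ a, φ c, rfl, rfl, ?_⟩
      rw [← map_pow, ← map_sub, ← map_mul, h]
      simp only [map_mul, map_pow, map_add]

/-- The two kinds of points. -/
theorem curve_cases {t b : N} {x y : Option N} (h : Curve p t b x y) (hb : b ≠ 0) :
    (y = none ∧ (x = none ∨ x = some 0)) ∨
      ∃ a c : N, a ≠ 0 ∧ x = some a ∧ y = some c ∧ c ^ p - c = t * a + b * a⁻¹ := by
  rcases h with h | ⟨a, c, hx, hy, h⟩
  · exact Or.inl h
  · have ha : a ≠ 0 := by
      rintro rfl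
      apply hb
      have h1 : (0 : N) * (c ^ p - c) = 0 := zero_mul _
      rw [h1] at h
      have h2 : t * (0 : N) ^ 2 + b = b := by ring
      rw [h2] at h
      exact h.symm
    refine Or.inr ⟨a, c, ha, hx, hy, ?_⟩
    have h1 : a * (c ^ p - c) = a * (t * a + b * a⁻¹) := by
      rw [h]
      field_simp
    exact mul_left_cancel₀ ha h1

end Curve

section X

variable {k : Type} [Field k] {p : ℕ} {n : ℕ} {b : Fin n → k} {N N' : Type} [Field N] [Field N']
  [Algebra (RatFunc k) N] [Algebra (RatFunc k) N']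

theorem xv_map (φ : N →ₐ[RatFunc k] N') (z : Fin n ⊕ Fin n → Option N) :
    XV p b N' (fun j => (z j).map φ) ↔ XV p b N z := by
  unfold XV
  refine forall_congr' fun i => ?_
  rw [← φ.commutes, ← φ.commutes]
  exact curve_map (φ : N →+* N')

theorem C_ne_zero {b : k} (hb : b ≠ 0) : algebraMap (RatFunc k) N (RatFunc.C b) ≠ 0 := by
  rw [Ne, map_eq_zero_iff _ (algebraMap (RatFunc k) N).injective]
  exact (map_ne_zero_iff _ RatFunc.C_injective).2 hb

/-- The description of the coordinates with number `i`. -/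
theorem xv_cases {z : Fin n ⊕ Fin n → Option N} (h : XV p b N z) (hb : ∀ i, b i ≠ 0)
    (i : Fin n) :
    (z (Sum.inr i) = none ∧ (z (Sum.inl i) = none ∨ z (Sum.inl i) = some 0) ∧ xc z i = 0 ∧
      yc z i = 0) ∨
    (z (Sum.inr i) = some (yc z i) ∧ z (Sum.inl i) = some (xc z i) ∧ xc z i ≠ 0 ∧
      yc z i ^ p - yc z i = algebraMap (RatFunc k) N RatFunc.X * xc z i +
        algebraMap (RatFunc k) N (RatFunc.C (b i)) * (xc z i)⁻¹) := by
  rcases curve_cases (h i) (C_ne_zero (hb i)) with ⟨h1, h2⟩ | ⟨a, c, ha, h1, h2, h3⟩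
  · refine Or.inl ⟨h1, h2, ?_, ?_⟩
    · unfold xc
      rcases h2 with h2 | h2 <;> rw [h2] <;> rfl
    · unfold yc
      rw [h1]
      rfl
  · refine Or.inr ?_
    have h4 : xc z i = a := by unfold xc; rw [h1]; rfl
    have h5 : yc z i = c := by unfold yc; rw [h2]; rfl
    rw [h4, h5]
    exact ⟨h2, h1, ha, h3⟩

omit [Field N] in
theorem mem_aff {z : Fin n ⊕ Fin n → Option N} {i : Fin n} :
    i ∈ aff z ↔ z (Sum.inr i) ≠ none := by
  unfold aff
  simp

theorem charP_of [CharP k p] : CharP N p := by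
  have h1 : CharP (RatFunc k) p :=
    charP_of_injective_algebraMap (algebraMap k (RatFunc k)).injective p
  exact charP_of_injective_algebraMap (algebraMap (RatFunc k) N).injective p

theorem cast_pow_p [Fact p.Prime] [CharP N p] (c : ZMod p) :
    ((c.cast : N)) ^ p = (c.cast : N) := by
  have h := congrArg (ZMod.castHom (dvd_refl p) N) (ZMod.pow_card c)
  rw [map_pow] at h
  exact h

/-- The equation of Artin and Schreier for `e`. -/
theorem ec_eq [Fact p.Prime] [CharP k p] {z : Fin n ⊕ Fin n → Option N} (h : XV p b N z)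
    (hb : ∀ i, b i ≠ 0) (ρ : Fin n → ZMod p) :
    ec ρ z ^ p - ec ρ z = algebraMap (RatFunc k) N RatFunc.X * Xc ρ z + Bc b ρ z := by
  have : CharP N p := charP_of (k := k)
  unfold ec Xc Bc
  rw [sum_pow_char, Finset.mul_sum, ← Finset.sum_sub_distrib, ← Finset.sum_add_distrib]
  refine Finset.sum_congr rfl fun i _ => ?_
  rw [mul_pow, cast_pow_p]
  rcases xv_cases h hb i with ⟨_, _, h1, h2⟩ | ⟨_, _, h1, h2⟩
  · rw [h1, h2, zero_pow (Fact.out : p.Prime).ne_zero]
    simp
  · have h3 : ((ρ i).cast : N) * yc z i ^ p - (ρ i).cast * yc z i =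
        (ρ i).cast * (yc z i ^ p - yc z i) := by ring
    rw [h3, h2]
    ring

/-! ### Translations -/

variable {h : Fin n → ZMod p}

theorem cast_eq_zero [Fact p.Prime] [CharP N p] {c : ZMod p} : (c.cast : N) = 0 ↔ c = 0 := by
  have h1 := map_eq_zero_iff (ZMod.castHom (dvd_refl p) N) (RingHom.injective _) (x := c)
  exact h1

theorem xc_tr (z : Fin n ⊕ Fin n → Option N) (i : Fin n) : xc (tr h z) i = xc z i := rfl

theorem aff_tr (z : Fin n ⊕ Fin n → Option N) : aff (tr h z) = aff z := by
  ext i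
  rw [mem_aff, mem_aff]
  change (z (Sum.inr i)).map _ ≠ none ↔ _
  rw [Ne, Option.map_eq_none_iff]

theorem xv_tr [Fact p.Prime] [CharP k p] {z : Fin n ⊕ Fin n → Option N} (hz : XV p b N z) :
    XV p b N (tr h z) := by
  have : CharP N p := charP_of (k := k)
  intro i
  rcases hz i with ⟨h1, h2⟩ | ⟨a, c, h1, h2, h3⟩
  · refine Or.inl ⟨?_, h2⟩
    change (z (Sum.inr i)).map _ = none
    rw [h1]
    rfl
  · refine Or.inr ⟨a, c + (h i).cast, h1, ?_, ?_⟩
    · change (z (Sum.inr i)).map _ = _
      rw [h2]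
      rfl
    · rw [← h3, add_pow_char, cast_pow_p]
      ring

theorem fld_tr_le [Fact p.Prime] [CharP k p] (z : Fin n ⊕ Fin n → Option N) :
    fld (RatFunc k) (tr h z) ≤ fld (RatFunc k) z := by
  unfold fld
  rw [IntermediateField.adjoin_le_iff]
  rintro a ⟨j, hj⟩
  cases j with
  | inl i => exact IntermediateField.subset_adjoin _ _ ⟨Sum.inl i, hj⟩
  | inr i =>
    change (z (Sum.inr i)).map _ = some a at hj
    rw [Option.map_eq_some_iff] at hj
    obtain ⟨c, hc, rfl⟩ := hj
    refine add_mem (IntermediateField.subset_adjoin _ _ ⟨Sum.inr i, hc⟩) ?_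
    rw [ZMod.cast_eq_val]
    exact natCast_mem _ _

theorem tr_tr (h' : Fin n → ZMod p) [Fact p.Prime] [CharP N p]
    (z : Fin n ⊕ Fin n → Option N) : tr h (tr h' z) = tr (h' + h) z := by
  funext j
  cases j with
  | inl i => rfl
  | inr i =>
    change ((z (Sum.inr i)).map _).map _ = (z (Sum.inr i)).map _
    rw [Option.map_map]
    congr 1
    funext c
    simp only [Function.comp_apply, Pi.add_apply]
    have h1 : ((h' i + h i : ZMod p).cast : N) = (h' i).cast + (h i).cast :=
      map_add (ZMod.castHom (dvd_refl p) N) _ _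
    rw [h1]
    ring

theorem tr_zero (z : Fin n ⊕ Fin n → Option N) : tr (0 : Fin n → ZMod p) z = z := by
  funext j
  cases j with
  | inl i => rfl
  | inr i =>
    change (z (Sum.inr i)).map _ = z (Sum.inr i)
    have : (fun c : N => c + ((0 : Fin n → ZMod p) i).cast) = id := by
      funext c
      simp
    rw [this, Option.map_id]
    rfl

theorem fld_tr [Fact p.Prime] [CharP k p] (z : Fin n ⊕ Fin n → Option N) :
    fld (RatFunc k) (tr h z) = fld (RatFunc k) z := by
  have : CharP N p := charP_of (k := k)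
  refine le_antisymm (fld_tr_le z) ?_
  conv_lhs => rw [← tr_zero (p := p) z]
  have h1 : (0 : Fin n → ZMod p) = h + -h := by simp
  rw [h1, ← tr_tr]
  exact fld_tr_le _

/-- The sum over the translates of a point with less affine coordinates. -/
theorem SH_mem_GG [Fact p.Prime] [CharP k p] {r m : ℕ} (H : Finset (Fin n → ZMod p))
    {z : Fin n ⊕ Fin n → Option N} (hz : XV p b N z)
    (hd : Algebra.trdeg (RatFunc k) (fld (RatFunc k) z) = r) (hm : (aff z).card < m) :
    SH p b r H z ∈ GG p b r m := by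
  unfold SH
  refine sum_mem fun h _ => Submodule.subset_span ⟨N, inferInstance, inferInstance, tr h z,
    xv_tr hz, ?_, ?_, rfl⟩
  · rw [fld_tr, hd]
  · rwa [aff_tr]

end X

end Pool.Agent.Helper19.KL
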